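import Pool.Agent.UniM.Final

/-!
# UniM / Mode: explicit bound for the window, `w P ≤ 13/80 √(log₂ P) + 3/10`
-/

set_option autoImplicit false

namespace Pool.Agent.UniM

/-- explicit window -/
noncomputable def wB (P : ℕ) : ℝ := 13 / 80 * √(Real.logb 2 P) + 3 / 10

theorem wB_nonneg (P : ℕ) : 0 ≤ wB P := by
  unfold wB
  positivity

/-- the check `c.w / 1000 ≤ 13/80 √(log₂ c.P1) + 3/10`, with integers -/
def ckW (c : Iv) : Bool := Nat.ble (2 ^ (64 * (c.w - 300) ^ 2 / 105625 + 1)) (c.P1 ^ 16)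

theorem tab_ckW : tab.all ckW = true := by decide +kernel

theorem w_le_of_ckW {c : Iv} (h : ckW c = true) {P : ℕ} (h3 : 3 ≤ c.P1) (hP : c.P1 ≤ P) :
    (c.w : ℝ) / 1000 ≤ wB P := by
  have h1 : 2 ^ (64 * (c.w - 300) ^ 2 / 105625 + 1) ≤ c.P1 ^ 16 := Nat.le_of_ble_eq_true h
  obtain ⟨e, he⟩ : ∃ e : ℕ, e = 64 * (c.w - 300) ^ 2 / 105625 + 1 := ⟨_, rfl⟩
  rw [← he] at h1
  have h2 : 64 * (c.w - 300) ^ 2 < 105625 * e := by
    rw [he]
    exact Nat.lt_mul_div_succ _ (by norm_num)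
  have hP0 : (0 : ℝ) < P := by
    have : 0 < P := by omega
    exact_mod_cast this
  have h4 : (2 : ℝ) ^ e ≤ (P : ℝ) ^ 16 := by
    have := h1.trans (Nat.pow_le_pow_left hP 16)
    exact_mod_cast this
  have h5 := Real.log_le_log (pow_pos (by norm_num) e) h4
  rw [Real.log_pow, Real.log_pow] at h5
  have hl : 0 < Real.log 2 := Real.log_pos (by norm_num)
  have h6 : (e : ℝ) ≤ 16 * Real.logb 2 P := by
    rw [Real.logb, mul_div_assoc', le_div_iff₀ hl]
    push_cast at h5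
    linarith
  have h7 : (64 : ℝ) * ((c.w - 300 : ℕ) : ℝ) ^ 2 < 105625 * e := by
    have h7' : ((64 * (c.w - 300) ^ 2 : ℕ) : ℝ) < ((105625 * e : ℕ) : ℝ) := Nat.cast_lt.mpr h2
    rw [Nat.cast_mul, Nat.cast_mul, Nat.cast_pow] at h7'
    exact h7'
  have aux : ∀ x L E : ℝ, 64 * x ^ 2 < 105625 * E → E ≤ 16 * L → (x * (2 / 325)) ^ 2 ≤ L := by
    intro x L E g1 g2
    have g3 : (x * (2 / 325)) ^ 2 = 64 * x ^ 2 / 105625 / 16 := by ring
    rw [g3]
    linarith
  have h8 : (((c.w - 300 : ℕ) : ℝ) * (2 / 325)) ^ 2 ≤ Real.logb 2 P := aux _ _ _ h7 h6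
  have h9 : ((c.w - 300 : ℕ) : ℝ) * (2 / 325) ≤ √(Real.logb 2 P) := Real.le_sqrt_of_sq_le h8
  have h10 : (c.w : ℝ) - 300 ≤ ((c.w - 300 : ℕ) : ℝ) := by
    have : c.w ≤ (c.w - 300) + 300 := by omega
    have : (c.w : ℝ) ≤ ((c.w - 300 : ℕ) : ℝ) + 300 := by exact_mod_cast this
    linarith
  unfold wB
  linarith

theorem tab_P1 : tab.all (fun c => Nat.ble 3 c.P1) = true := by decide +kernel

theorem wP3_le {P : ℕ} (h3 : 3 ≤ P) : wP3 P ≤ wB P := by
  unfold wP3
  split_ifs with h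
  · obtain ⟨c, hc, hc1, -, hc3⟩ := wOf_spec tab 2 0 tab_chain P h (by omega)
    rw [hc3]
    exact w_le_of_ckW (List.all_eq_true.1 tab_ckW c hc)
      (Nat.le_of_ble_eq_true (List.all_eq_true.1 tab_P1 c hc)) hc1
  · unfold wL wB
    linarith

theorem p3_wP3 : P3Holds wP3 := by
  refine ⟨wP3_mono, wP3_nonneg, ?_, ?_⟩
  · intro P n p f j hP L hV hm
    by_cases h : P ≤ Pmax
    · rw [wP3, if_pos h] at hm
      exact fin_a hP h L j _ hV hm
    · rw [wP3, if_neg h] at hm
      refine large_a betaB P n p f j (big_of (not_le.1 h)) (fun i => L.nn i (Finset.mem_univ i))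
        L.sum (fun i => L.le i (Finset.mem_univ i)) ?_ hV hm
      have := L.tail (4 / 5) (by norm_num) (by norm_num)
      have e : ((1 + 2 * (4 / 5 : ℝ)) / 3) = 13 / 15 := by norm_num
      rw [e] at this
      exact this
  · intro P n p f j hP L hV hm1 hm2
    by_cases h : P ≤ Pmax
    · rw [wP3, if_pos h] at hm1 hm2
      exact fin_b hP h L j _ rfl hV hm1 hm2
    · rw [wP3, if_neg h] at hm1 hm2
      refine large_b betaB P n p f j (big_of (not_le.1 h)) (fun i => L.nn i (Finset.mem_univ i))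
        L.sum (fun i => L.le i (Finset.mem_univ i)) ?_ hV hm1 hm2
      have := L.tail (4 / 5) (by norm_num) (by norm_num)
      have e : ((1 + 2 * (4 / 5 : ℝ)) / 3) = 13 / 15 := by norm_num
      rw [e] at this
      exact this

variable {V : Type*} [DecidableEq V] {G : SimpleGraph V}

/-- the signs of the differences outside the explicit window -/
theorem good_wB (hG : G.IsAcyclic) (U : Finset V) : Good G wB U := by
  by_cases he : ∃ a ∈ U, ∃ b ∈ U, G.Adj a b
  · obtain ⟨a, ha, b, hb, hab⟩ := he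
    have h3 : 3 ≤ PP G U := three_le_PP ha hb hab.ne
    have h := good_all hG p3_wP3 U.card U rfl
    have hw := wP3_le h3
    exact ⟨fun k hk => h.up k (by linarith), fun k hk => h.dn k (by linarith)⟩
  · push Not at he
    exact good_edgeless wB_nonneg he

end Pool.Agent.UniM
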