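import Mathlib

/-!
# UniM / Const: the constants `k1`, `k2` (MP_346bfe_co, unimodality for forests)

All other modules use `k1`, `k2` only through the lemmas of this file.
-/

namespace Pool.Agent.UniM

/-- constant in the variance inequality -/
noncomputable def k1 : ℝ := 1 / 10

/-- constant in the variance inequality -/
noncomputable def k2 : ℝ := 1 / 40

theorem k1_nonneg : 0 ≤ k1 := by norm_num [k1]

theorem k2_nonneg : 0 ≤ k2 := by norm_num [k2]

theorem k1_le : k1 ≤ 1 / 4 + k2 := by norm_num [k1, k2]

end Pool.Agent.UniM
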