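import Pool.Agent.UniM.Defs
import Pool.Agent.UniM.Const

/-!
# UniM / TStmt: the variance inequality (T), statement of part P2
-/

namespace Pool.Agent.UniM

/-- the variance inequality (T) for `G[U]` -/
def TIneq {V : Type*} (G : SimpleGraph V) (U : Finset V) : Prop :=
  ∃ x : V → ℝ, Frac G U x ∧
    va G U ≤ k1 * Real.logb 2 (PP G U) + (1 / 4 + k2 - k1) * (2 * (bs G U x / PP G U))

end Pool.Agent.UniM
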