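import Pool.Agent.UniM.Struct
import Pool.Agent.UniM.TStmt

/-!
# UniM / Delta: distance of the means at a leaf (part P5)

`cond_var`: `a = PP (U.erase u)`, `b = PP (del G U u)`, `m0 = mu (U.erase u)`, `m1 = mu (del G U u) + 1`,
`v0`, `v1 ≥ 0` the two variances: `P mu = a m0 + b m1`, `P (va + mu^2) = a (v0 + m0^2) + b (v1 + m1^2)`,
`P = a + b` (`mu_rec`, `va_rec`, `PP_rec`). So `P va = a v0 + b v1 + a b (m1 - m0)^2 / P` and
`mu - m0 = b (m1 - m0) / P`; hence `(mu - m0)^2 a ≤ b va`.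

`delta_le`: `v` a leaf with neighbour `u` in `U`, `G' = U.erase v`, `del G U v = G'.erase u` (`del_leaf`),
`P = P1 + P2`, `P1 = PP G'`, `P2 = PP (G'.erase u)`, `P1 = P2 + P3`, `P3 = PP (del G G' u) ≤ P2` (`PP_mono`).
So `P1 / P ≤ 2/3`. With `z = mu G' - mu (G'.erase u)`, `D = 1 - z`: `z^2 P2 ≤ P3 va G' ≤ P2 va G'`, so
`|z| ≤ √(va G') ≤ √(11/40 logb 2 P1) ≤ √(11/40 logb 2 (2P/3))` (`1/4 + k2 = 11/40`), `|D| ≤ 1 + |z|`.
-/

namespace Pool.Agent.UniM

variable {V : Type*} [DecidableEq V] {G : SimpleGraph V}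

theorem cond_var {U : Finset V} {u : V} (hu : u ∈ U) :
    (mu G U - mu G (U.erase u)) ^ 2 * PP G (U.erase u) ≤ PP G (del G U u) * va G U := by
  have hP := PP_rec (G := G) hu
  have hP' : (PP G U : ℝ) = PP G (U.erase u) + PP G (del G U u) := by exact_mod_cast hP
  have hpos : (0 : ℝ) < PP G U := by exact_mod_cast PP_pos U
  have hb : (0 : ℝ) ≤ PP G (del G U u) := Nat.cast_nonneg _
  have ha : (0 : ℝ) ≤ PP G (U.erase u) := Nat.cast_nonneg _
  have h1 := mu_rec (G := G) hu
  have h2 := va_rec (G := G) hu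
  have hv0 := va_nonneg (G := G) (U.erase u)
  have hv1 := va_nonneg (G := G) (del G U u)
  set P : ℝ := (PP G U : ℝ)
  set a : ℝ := (PP G (U.erase u) : ℝ)
  set b : ℝ := (PP G (del G U u) : ℝ)
  set m : ℝ := mu G U
  set m0 : ℝ := mu G (U.erase u)
  set m1 : ℝ := mu G (del G U u)
  set v : ℝ := va G U
  set v0 : ℝ := va G (U.erase u)
  set v1 : ℝ := va G (del G U u)
  have h3 : P * (m - m0) = b * (m1 + 1 - m0) := by
    rw [mul_sub, h1, hP']
    ring
  have h4 : P * (P * v) = P * (a * v0 + b * v1) + a * b * (m1 + 1 - m0) ^ 2 := by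
    have h5 : P * v = a * (v0 + m0 ^ 2) + b * (v1 + (m1 + 1) ^ 2) - P * m ^ 2 := by
      linarith [h2]
    have h6 : P * (P * m ^ 2) = (a * m0 + b * (m1 + 1)) ^ 2 := by
      rw [← h1]
      ring
    rw [h5, mul_sub, h6, hP']
    ring
  have h7 : P ^ 2 * ((m - m0) ^ 2 * a) ≤ P ^ 2 * (b * v) := by
    have h8 : P ^ 2 * ((m - m0) ^ 2 * a) = (b * (m1 + 1 - m0)) ^ 2 * a := by
      rw [← h3]
      ring
    have h9 : P ^ 2 * (b * v) = b * (P * (P * v)) := by ring
    rw [h8, h9, h4]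
    have h10 : 0 ≤ b * (P * (a * v0 + b * v1)) := by positivity
    nlinarith [h10]
  exact le_of_mul_le_mul_left h7 (by positivity)

theorem del_subset_erase {U : Finset V} {u : V} : del G U u ⊆ U.erase u := by
  intro x hx
  rw [mem_del] at hx
  exact Finset.mem_erase.2 ⟨hx.2.1, hx.1⟩

theorem delta_le {U : Finset V} {v u : V} (hv : v ∈ U) (hu : u ∈ U) (hvu : G.Adj v u)
    (h : ∀ x ∈ U, G.Adj v x → x = u)
    (hva : va G (U.erase v) ≤ (1 / 4 + k2) * Real.logb 2 (PP G (U.erase v))) :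
    (PP G (U.erase v) : ℝ) / PP G U * |mu G (del G U v) + 1 - mu G (U.erase v)| ≤
      dmax (PP G U) := by
  have huv : u ≠ v := hvu.ne'
  have hu' : u ∈ U.erase v := Finset.mem_erase.2 ⟨huv, hu⟩
  have hd := del_leaf hvu h
  have hP := PP_rec (G := G) hv
  have hP1 := PP_rec (G := G) hu'
  rw [hd] at hP ⊢
  have hP3 : PP G (del G (U.erase v) u) ≤ PP G ((U.erase v).erase u) := PP_mono del_subset_erase
  have hc := cond_var (G := G) hu'
  have hpos : (0 : ℝ) < PP G U := by exact_mod_cast PP_pos U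
  have hpos1 : (0 : ℝ) < PP G (U.erase v) := by exact_mod_cast PP_pos (U.erase v)
  have hpos2 : (0 : ℝ) < PP G ((U.erase v).erase u) := by exact_mod_cast PP_pos _
  have hPr : (PP G U : ℝ) = PP G (U.erase v) + PP G ((U.erase v).erase u) := by exact_mod_cast hP
  have hP1r : (PP G (U.erase v) : ℝ) = PP G ((U.erase v).erase u) + PP G (del G (U.erase v) u) := by
    exact_mod_cast hP1
  have hP3r : (PP G (del G (U.erase v) u) : ℝ) ≤ PP G ((U.erase v).erase u) := by
    exact_mod_cast hP3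
  have hv0 := va_nonneg (G := G) (U.erase v)
  unfold dmax
  have e1 : (PP G (U.erase v) : ℝ) ≤ 2 * PP G U / 3 := by linarith
  have e2 : (PP G (U.erase v) : ℝ) / PP G U ≤ 2 / 3 := by
    rw [div_le_iff₀ hpos]
    linarith
  have e3 : (mu G (U.erase v) - mu G ((U.erase v).erase u)) ^ 2 ≤ va G (U.erase v) := by
    have e4 : (mu G (U.erase v) - mu G ((U.erase v).erase u)) ^ 2 * PP G ((U.erase v).erase u) ≤
        va G (U.erase v) * PP G ((U.erase v).erase u) := by
      refine hc.trans ?_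
      rw [mul_comm]
      exact mul_le_mul_of_nonneg_left hP3r hv0
    exact le_of_mul_le_mul_right e4 hpos2
  have e5 : va G (U.erase v) ≤ 11 / 40 * Real.logb 2 (2 * PP G U / 3) := by
    refine hva.trans ?_
    have e6 : (1 / 4 + k2 : ℝ) = 11 / 40 := by norm_num [k2]
    rw [e6]
    refine mul_le_mul_of_nonneg_left ?_ (by norm_num)
    exact Real.logb_le_logb_of_le (by norm_num) hpos1 e1
  have e7 : |mu G (U.erase v) - mu G ((U.erase v).erase u)| ≤
      √(11 / 40 * Real.logb 2 (2 * PP G U / 3)) := Real.abs_le_sqrt (e3.trans e5)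
  have e8 : |mu G ((U.erase v).erase u) + 1 - mu G (U.erase v)| ≤
      1 + √(11 / 40 * Real.logb 2 (2 * PP G U / 3)) := by
    have e9 : mu G ((U.erase v).erase u) + 1 - mu G (U.erase v) =
        1 + -(mu G (U.erase v) - mu G ((U.erase v).erase u)) := by ring
    rw [e9]
    refine (abs_add_le _ _).trans ?_
    rw [abs_neg, abs_one]
    linarith
  exact mul_le_mul e2 e8 (abs_nonneg _) (by norm_num)

/-- at a leaf the vertex is absent with probability at least one half -/
theorem leaf_half {U : Finset V} {v u : V} (hv : v ∈ U) (hu : u ∈ U) (hvu : G.Adj v u)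
    (h : ∀ x ∈ U, G.Adj v x → x = u) : PP G (del G U v) ≤ PP G (U.erase v) := by
  rw [del_leaf hvu h]
  exact PP_mono (Finset.erase_subset _ _)

end Pool.Agent.UniM
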