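import Pool.Agent.UniM.BTData

/-!
# UniM / ForestT: (T) for forests from (T) for rooted trees

Induction on `FList`. `nil`: `PP = 1`, `va = 0`, `bs = 0`. `cons`: for the tree take `x` of `rtree_data`, with
`x r = X t` (`whole_*`), for the rest the `x` of `TIneq G U'`; put them together. `log`, means, variances and
weights are additive (`PP_union`, `va_union`, `bs_union`, `bs_congr`), and `Frac` on a disjoint union
without edges in between is clear.
-/

namespace Pool.Agent.UniM

variable {V : Type*} [DecidableEq V] {G : SimpleGraph V}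

private theorem ft_nil : TIneq G (∅ : Finset V) := by
  refine ⟨fun _ => 0, ⟨?_, ?_, ?_⟩, ?_⟩
  · intro v hv
    simp at hv
  · intro v hv
    simp at hv
  · intro v hv
    simp at hv
  · have h1 : va G (∅ : Finset V) = 0 := by
      unfold va mu
      rw [SS_empty, SS_empty]
      simp
    have h2 : bs G (∅ : Finset V) (fun _ => 0) = 0 := by
      unfold bs
      rw [ind_empty]
      simp
    rw [h1, h2, PP_empty]
    simp

private theorem ft_cons {X : BT → ℝ} (hX : AdmX X)
    (h2 : ∀ t : BT, BT.vt t ≤ k1 * ((BT.lo t + Real.log (1 + BT.R t)) / Real.log 2) +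
      (1 / 4 + k2 - k1) * (2 * BT.bt X t))
    {U U' : Finset V} {r : V} {t : BT} (ht : RTree G U r t) (hd : Disjoint U U')
    (he : ∀ x ∈ U, ∀ y ∈ U', ¬ G.Adj x y) (ih : TIneq G U') : TIneq G (U ∪ U') := by
  classical
  obtain ⟨x₁, h₁⟩ := rtree_data hX ht
  obtain ⟨x₂, hf, hv⟩ := ih
  have hr : r ∈ U := rtree_root ht
  obtain ⟨x, hx1, hxr, hx2⟩ : ∃ x : V → ℝ, (∀ v ∈ U, v ≠ r → x v = x₁ v) ∧ x r = X t ∧
      (∀ v ∈ U', x v = x₂ v) := by
    refine ⟨fun v => if v ∈ U then (if v = r then X t else x₁ v) else x₂ v, ?_, ?_, ?_⟩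
    · intro v hv hvr
      simp only [hv, hvr, if_true, if_false]
    · simp only [hr, if_true]
    · intro v hv
      have h : v ∉ U := Finset.disjoint_right.1 hd hv
      simp only [h, if_false]
  have hne : NoEdge G U U' := he
  have hfU : Frac G U x := whole_frac hX hr h₁ hx1 hxr
  have hP1 : (0:ℝ) < PP G U := by exact_mod_cast PP_pos (G := G) U
  have hP2 : (0:ℝ) < PP G U' := by exact_mod_cast PP_pos (G := G) U'
  refine ⟨x, ⟨?_, ?_, ?_⟩, ?_⟩
  · intro v hv
    rcases Finset.mem_union.1 hv with hv | hv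
    · exact hfU.nn v hv
    · rw [hx2 v hv]
      exact hf.nn v hv
  · intro v hv
    rcases Finset.mem_union.1 hv with hv | hv
    · exact hfU.le v hv
    · rw [hx2 v hv]
      exact hf.le v hv
  · intro u hu v hv huv
    rcases Finset.mem_union.1 hu with hu | hu
    · rcases Finset.mem_union.1 hv with hv | hv
      · exact hfU.edge u hu v hv huv
      · exact absurd huv (he u hu v hv)
    · rcases Finset.mem_union.1 hv with hv | hv
      · exact absurd huv.symm (he v hv u hu)
      · rw [hx2 u hu, hx2 v hv]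
        exact hf.edge u hu v hv huv
  · rw [va_union hd hne, bs_union hd hne, PP_union hd hne]
    push_cast
    rw [Real.logb_mul hP1.ne' hP2.ne']
    have e1 : va G U = BT.vt t := whole_va hr h₁
    have e2 : Real.logb 2 (PP G U) = (BT.lo t + Real.log (1 + BT.R t)) / Real.log 2 := by
      unfold Real.logb
      rw [whole_PP hr h₁]
    have e3 : bs G U x / PP G U = BT.bt X t := whole_bs hr h₁ hx1 hxr
    have e4 : bs G U' x = bs G U' x₂ := bs_congr hx2
    rw [e1, e2, e3, e4]
    have h3 := h2 t
    linarith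

theorem forest_T {X : BT → ℝ} (hX : AdmX X)
    (h2 : ∀ t : BT, BT.vt t ≤ k1 * ((BT.lo t + Real.log (1 + BT.R t)) / Real.log 2) +
      (1 / 4 + k2 - k1) * (2 * BT.bt X t))
    {U : Finset V} {L : List BT} (h : FList G U L) : TIneq G U := by
  induction h with
  | nil => exact ft_nil
  | cons ht _ hd he ih => exact ft_cons hX h2 ht hd he ih

end Pool.Agent.UniM
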