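import Pool.Agent.UniM.GoodDef

/-!
# UniM / GoodE: edgeless graphs

`ik_edgeless`, `mu_edgeless`: `ind G U` is the powerset of `U` (`PP = 2 ^ card`), the mean by the
complement map. `good_edgeless`: `C(n, k+1) ≤ C(n, k)` if `2 k + 1 ≥ n`, and `C(n,k) ≤ C(n,k+1)` if
`2 k + 1 ≤ n`. `three_le_PP`: `∅`, `{v}`, `{u}` are independent.
-/

namespace Pool.Agent.UniM

variable {V : Type*} [DecidableEq V] {G : SimpleGraph V}

private theorem ge_ind {U : Finset V} (h : ∀ x ∈ U, ∀ y ∈ U, ¬ G.Adj x y) :
    ind G U = U.powerset := by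
  ext s
  rw [mem_ind, Finset.mem_powerset]
  refine ⟨fun hs => hs.1, fun hs => ⟨hs, ?_⟩⟩
  intro x hx y hy _
  exact h x (hs (Finset.mem_coe.1 hx)) y (hs (Finset.mem_coe.1 hy))

theorem ik_edgeless {U : Finset V} (h : ∀ x ∈ U, ∀ y ∈ U, ¬ G.Adj x y) (k : ℕ) :
    ik G U k = U.card.choose k := by
  unfold ik
  rw [ge_ind h, ← Finset.card_powersetCard k U]
  congr 1
  ext s
  rw [Finset.mem_filter, Finset.mem_powerset, Finset.mem_powersetCard]

private theorem ge_sum (U : Finset V) :
    2 * ∑ s ∈ U.powerset, (s.card : ℝ) = 2 ^ U.card * U.card := by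
  have h1 : ∑ s ∈ U.powerset, (s.card : ℝ) = ∑ s ∈ U.powerset, ((U \ s).card : ℝ) := by
    refine Finset.sum_nbij' (fun s => U \ s) (fun s => U \ s) ?_ ?_ ?_ ?_ ?_
    · intro s _
      rw [Finset.mem_powerset]
      exact Finset.sdiff_subset
    · intro s _
      rw [Finset.mem_powerset]
      exact Finset.sdiff_subset
    · intro s hs
      rw [Finset.mem_powerset] at hs
      exact Finset.sdiff_sdiff_eq_self hs
    · intro s hs
      rw [Finset.mem_powerset] at hs
      exact Finset.sdiff_sdiff_eq_self hs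
    · intro s hs
      rw [Finset.mem_powerset] at hs
      show (s.card : ℝ) = ((U \ (U \ s)).card : ℝ)
      rw [Finset.sdiff_sdiff_eq_self hs]
  have h2 : ∀ s ∈ U.powerset, (s.card : ℝ) + ((U \ s).card : ℝ) = (U.card : ℝ) := by
    intro s hs
    rw [Finset.mem_powerset] at hs
    have h3 := Finset.card_sdiff_add_card_eq_card hs
    have h4 : ((U \ s).card : ℝ) + (s.card : ℝ) = (U.card : ℝ) := by exact_mod_cast h3
    linarith
  calc 2 * ∑ s ∈ U.powerset, (s.card : ℝ)
      = ∑ s ∈ U.powerset, (s.card : ℝ) + ∑ s ∈ U.powerset, ((U \ s).card : ℝ) := by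
        rw [← h1]; ring
    _ = ∑ s ∈ U.powerset, ((s.card : ℝ) + ((U \ s).card : ℝ)) := by
        rw [Finset.sum_add_distrib]
    _ = ∑ _s ∈ U.powerset, (U.card : ℝ) := Finset.sum_congr rfl h2
    _ = 2 ^ U.card * U.card := by
        rw [Finset.sum_const, Finset.card_powerset, nsmul_eq_mul]
        push_cast
        ring

theorem mu_edgeless {U : Finset V} (h : ∀ x ∈ U, ∀ y ∈ U, ¬ G.Adj x y) :
    mu G U = (U.card : ℝ) / 2 := by
  unfold mu SS PP
  rw [ge_ind h, Finset.card_powerset]
  have h1 := ge_sum U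
  have h2 : (0 : ℝ) < 2 ^ U.card := by positivity
  push_cast
  rw [div_eq_div_iff h2.ne' (by norm_num)]
  linarith

theorem good_edgeless {w : ℕ → ℝ} (hw : ∀ P, 0 ≤ w P) {U : Finset V}
    (h : ∀ x ∈ U, ∀ y ∈ U, ¬ G.Adj x y) : Good G w U := by
  constructor
  · intro k hk
    rw [mu_edgeless h] at hk
    have h0 := hw (PP G U)
    have h1 : (U.card : ℝ) ≤ ((2 * k + 1 : ℕ) : ℝ) := by
      push_cast
      linarith
    have h2 : U.card ≤ 2 * k + 1 := by exact_mod_cast h1
    rw [ik_edgeless h, ik_edgeless h]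
    have h3 := Nat.choose_succ_right_eq U.card k
    have h4 : U.card.choose k * (U.card - k) ≤ U.card.choose k * (k + 1) :=
      Nat.mul_le_mul_left _ (by omega)
    rw [← h3] at h4
    exact Nat.le_of_mul_le_mul_right h4 (Nat.succ_pos k)
  · intro k hk
    rw [mu_edgeless h] at hk
    have h0 := hw (PP G U)
    have h1 : ((2 * k + 1 : ℕ) : ℝ) ≤ (U.card : ℝ) := by
      push_cast
      linarith
    have h2 : 2 * k + 1 ≤ U.card := by exact_mod_cast h1
    rw [ik_edgeless h, ik_edgeless h]
    have h3 := Nat.choose_succ_right_eq U.card k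
    have h4 : U.card.choose k * (k + 1) ≤ U.card.choose k * (U.card - k) :=
      Nat.mul_le_mul_left _ (by omega)
    rw [← h3] at h4
    exact Nat.le_of_mul_le_mul_right h4 (Nat.succ_pos k)

theorem three_le_PP {U : Finset V} {v u : V} (hv : v ∈ U) (hu : u ∈ U) (h : v ≠ u) :
    3 ≤ PP G U := by
  have h1 : ({∅, {v}, {u}} : Finset (Finset V)) ⊆ ind G U := by
    intro s hs
    rw [Finset.mem_insert, Finset.mem_insert, Finset.mem_singleton] at hs
    rw [mem_ind]
    rcases hs with rfl | rfl | rfl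
    · refine ⟨Finset.empty_subset _, ?_⟩
      intro x hx
      simp at hx
    · refine ⟨Finset.singleton_subset_iff.2 hv, ?_⟩
      intro x hx y hy hxy
      rw [Finset.coe_singleton, Set.mem_singleton_iff] at hx hy
      exact absurd (hx.trans hy.symm) hxy
    · refine ⟨Finset.singleton_subset_iff.2 hu, ?_⟩
      intro x hx y hy hxy
      rw [Finset.coe_singleton, Set.mem_singleton_iff] at hx hy
      exact absurd (hx.trans hy.symm) hxy
  have h2 : ({∅, {v}, {u}} : Finset (Finset V)).card = 3 := by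
    rw [Finset.card_insert_of_notMem, Finset.card_pair]
    · intro e
      exact h (Finset.singleton_inj.1 e)
    · rw [Finset.mem_insert, Finset.mem_singleton]
      rintro (e | e)
      · exact absurd e.symm (Finset.singleton_ne_empty v)
      · exact absurd e.symm (Finset.singleton_ne_empty u)
  unfold PP
  rw [← h2]
  exact Finset.card_le_card h1

end Pool.Agent.UniM
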