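import Pool.Agent.UniM.GoodDef

/-!
# UniM / GoodStep: the induction step (part P4)

`i_k(U) = i_k(U - v) + i_(k-1)(del G U v)` (`ik_rec`), `P mu = P1 m1 + P2 (m2 + 1)` (`mu_rec`), `P = P1 + P2`,
`P2 ≤ P1`, `D = m2 + 1 - m1`: `m1 = mu - (P2/P) D`, `m2 + 1 = mu + (P1/P) D`; so `m1 ≤ mu + δ`,
`m2 + 1 ≤ mu + δ`, `m1 ≥ mu - δ`, `m2 + 1 ≥ mu - δ` with `δ = (P1/P) |D| ≤ d`. If
`k + 1/2 ≥ mu + w(P) + δ` then `k + 1/2 ≥ m1 + w(P1)` and `(k - 1) + 1/2 ≥ m2 + w(P2)` (`w` monotone,
`PP_mono`), so both parts are nonincreasing (`k = 0` is impossible, as `m2, w ≥ 0`: `mu_nonneg`). If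
`w(P) ≤ k + 1/2 - mu ≤ w(P) + δ` use `hb`. Similarly below; for `k = 0` the second part is `0 ≤ i_0`.
-/

namespace Pool.Agent.UniM

variable {V : Type*} [DecidableEq V] {G : SimpleGraph V}

theorem good_step {w : ℕ → ℝ} (hm : Monotone w) (hw : ∀ P, 0 ≤ w P) {U : Finset V} {v : V}
    (hv : v ∈ U) (h1 : Good G w (U.erase v)) (h2 : Good G w (del G U v))
    (hle : PP G (del G U v) ≤ PP G (U.erase v)) {d : ℝ}
    (hd : (PP G (U.erase v) : ℝ) / PP G U * |mu G (del G U v) + 1 - mu G (U.erase v)| ≤ d)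
    (hb : ∀ k : ℕ, w (PP G U) ≤ (k : ℝ) + 1 / 2 - mu G U →
      (k : ℝ) + 1 / 2 - mu G U ≤ w (PP G U) + d → ik G U (k + 1) ≤ ik G U k)
    (hb' : ∀ k : ℕ, w (PP G U) ≤ mu G U - ((k : ℝ) + 1 / 2) →
      mu G U - ((k : ℝ) + 1 / 2) ≤ w (PP G U) + d → ik G U k ≤ ik G U (k + 1)) :
    Good G w U := by
  have hP := PP_rec (G := G) hv
  set P1 : ℕ := PP G (U.erase v) with hP1
  set P2 : ℕ := PP G (del G U v) with hP2
  set P : ℕ := PP G U with hPd
  set m1 : ℝ := mu G (U.erase v) with hm1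
  set m2 : ℝ := mu G (del G U v) with hm2
  set m : ℝ := mu G U with hmd
  have hP1pos : (0 : ℝ) < P1 := by exact_mod_cast PP_pos (G := G) (U.erase v)
  have hP2pos : (0 : ℝ) < P2 := by exact_mod_cast PP_pos (G := G) (del G U v)
  have hPR : (P : ℝ) = P1 + P2 := by exact_mod_cast hP
  have hPpos : (0 : ℝ) < P := by rw [hPR]; linarith
  have hleR : (P2 : ℝ) ≤ P1 := by exact_mod_cast hle
  have hmu : (P : ℝ) * m = P1 * m1 + P2 * (m2 + 1) := mu_rec hv
  set D : ℝ := m2 + 1 - m1 with hD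
  set δ : ℝ := (P1 : ℝ) / P * |D| with hδ
  have hδ0 : 0 ≤ δ := by positivity
  have hm1e : m1 = m - P2 / P * D := by
    have : (P : ℝ) * m1 = P * m - P2 * D := by
      rw [hmu, hPR, hD]
      ring
    field_simp
    linarith
  have hm2e : m2 + 1 = m + P1 / P * D := by
    have : (P : ℝ) * (m2 + 1) = P * m + P1 * D := by
      rw [hmu, hPR, hD]
      ring
    field_simp
    linarith
  have ha : |(P1 : ℝ) / P * D| = δ := by
    rw [abs_mul, abs_of_nonneg (by positivity : (0 : ℝ) ≤ P1 / P)]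
  have hb1 : |(P2 : ℝ) / P * D| ≤ δ := by
    rw [abs_mul, abs_of_nonneg (by positivity : (0 : ℝ) ≤ P2 / P)]
    exact mul_le_mul_of_nonneg_right (div_le_div_of_nonneg_right hleR hPpos.le) (abs_nonneg _)
  have ha' := abs_le.1 ha.le
  have hb1' := abs_le.1 hb1
  have hw1 : w P1 ≤ w P := hm (by omega)
  have hw2 : w P2 ≤ w P := hm (by omega)
  have hm20 : 0 ≤ m2 := mu_nonneg _
  have hwP2 : 0 ≤ w P2 := hw P2
  constructor
  · intro k hk
    by_cases hc : (k : ℝ) + 1 / 2 - m ≤ w P + d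
    · exact hb k (by linarith) hc
    · push Not at hc
      rcases k with _ | k
      · exfalso
        norm_num at hc hk
        linarith
      · have e1 : ik G (U.erase v) (k + 1 + 1) ≤ ik G (U.erase v) (k + 1) := by
          refine h1.up (k + 1) ?_
          show m1 + w P1 ≤ _
          push_cast at hc ⊢
          linarith
        have e2 : ik G (del G U v) (k + 1) ≤ ik G (del G U v) k := by
          refine h2.up k ?_
          show m2 + w P2 ≤ _
          push_cast at hc ⊢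
          linarith
        rw [ik_rec hv, ik_rec hv]
        omega
  · intro k hk
    by_cases hc : m - ((k : ℝ) + 1 / 2) ≤ w P + d
    · exact hb' k (by linarith) hc
    · push Not at hc
      rcases k with _ | k
      · rw [ik_rec hv, ik_zero]
        have e1 : ik G (U.erase v) 0 ≤ ik G (U.erase v) (0 + 1) := by
          refine h1.dn 0 ?_
          show _ ≤ m1 - w P1
          linarith
        rw [ik_zero] at e1
        omega
      · have e1 : ik G (U.erase v) (k + 1) ≤ ik G (U.erase v) (k + 1 + 1) := by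
          refine h1.dn (k + 1) ?_
          show _ ≤ m1 - w P1
          linarith
        have e2 : ik G (del G U v) k ≤ ik G (del G U v) (k + 1) := by
          refine h2.dn k ?_
          show _ ≤ m2 - w P2
          push_cast at hc ⊢
          linarith
        rw [ik_rec hv, ik_rec hv]
        omega

end Pool.Agent.UniM
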