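import Pool.Agent.UniM.GoodDef

/-!
# UniM / GoodUni: unimodality from the signs outside and concavity inside the window

Let `m` be the least `k` with `i_(k+1) < i_k` (exists as `i_0 = 1` (`ik_zero`), `i_k = 0` for large `k`
(`ik_large`)). Suppose `i_(k+1) > i_k` with `k ≥ m`, so `k > m`. Then `k + 1/2 < mu + w` (`up`),
`m + 1/2 > mu - w` (`dn`), so every `j ∈ [m+1, k]` has `|j - mu| ≤ w - 1/2`, so
`i_(j+1) - i_j ≤ i_j - i_(j-1)` by `ha` (with `k := j - 1`); hence by induction
`i_(k+1) - i_k ≤ i_(m+1) - i_m < 0` (work in the integers), contradiction.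
-/

namespace Pool.Agent.UniM

variable {V : Type*} [DecidableEq V] {G : SimpleGraph V}

theorem unimodal_of_good {w : ℕ → ℝ} {U : Finset V} (h : Good G w U)
    (ha : ∀ k : ℕ, |(k : ℝ) + 1 - mu G U| ≤ w (PP G U) - 1 / 2 →
      ik G U (k + 2) + ik G U k ≤ 2 * ik G U (k + 1)) :
    ∃ m, (∀ i, i < m → ik G U i ≤ ik G U (i + 1)) ∧
      ∀ i, m ≤ i → ik G U (i + 1) ≤ ik G U i := by
  classical
  have hex : ∃ k, ik G U (k + 1) < ik G U k := by
    by_contra hne
    push Not at hne
    have hmono : ∀ n : ℕ, 1 ≤ ik G U n := by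
      intro n
      induction n with
      | zero => rw [ik_zero]
      | succ n ih => exact ih.trans (hne n)
    have h0 := hmono (U.card + 1)
    rw [ik_large (Nat.lt_succ_self _)] at h0
    omega
  refine ⟨Nat.find hex, ?_, ?_⟩
  · intro i hi
    exact not_lt.1 (Nat.find_min hex hi)
  · intro k hk
    by_contra hlt
    rw [not_le] at hlt
    set m := Nat.find hex with hm
    have hms : ik G U (m + 1) < ik G U m := Nat.find_spec hex
    have h1 : (k : ℝ) + 1 / 2 < mu G U + w (PP G U) := by
      by_contra hc
      exact absurd (h.up k (not_lt.1 hc)) (not_le.2 hlt)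
    have h2 : mu G U - w (PP G U) < (m : ℝ) + 1 / 2 := by
      by_contra hc
      exact absurd (h.dn m (not_lt.1 hc)) (not_le.2 hms)
    have key : ∀ j : ℕ, m ≤ j → j ≤ k → ik G U (j + 1) < ik G U j := by
      intro j hj
      induction j, hj using Nat.le_induction with
      | base => intro _; exact hms
      | succ j hj ih =>
        intro hjk
        have hlt' := ih (by omega)
        have hmj : (m : ℝ) ≤ j := by exact_mod_cast hj
        have hjk' : (j : ℝ) + 1 ≤ k := by exact_mod_cast hjk
        have hab : |(j : ℝ) + 1 - mu G U| ≤ w (PP G U) - 1 / 2 := by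
          rw [abs_le]
          constructor <;> linarith
        have := ha j hab
        have e : j + 1 + 1 = j + 2 := rfl
        rw [e]
        omega
    have := key k hk le_rfl
    omega

end Pool.Agent.UniM
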