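import Pool.Agent.UniM.P2Def

/-!
# UniM / P2Large: the closure lemma of part P2 for `W ≥ 8` (MP_346bfe_co)

Bits: `R = 2 ^ (-W)`, `q = R / (1 + R)`, `w = logb 2 (1 + R)`, `l = 1 - W / 2 - S`,
`zeta = q l - w / 2`, `eps = w / 10 + (1 - q) E + q (7 / 20 x + T) - q (1 - q) l ^ 2`,
`tau = w / 10 + E`.
-/

namespace Pool.Agent.UniM

private theorem large_core (W S E T x R q w l : ℝ) (hW : 8 ≤ W) (hx : 0 ≤ x)
    (hE1 : 58 / 100 * S ^ 2 + 13 / 100 * S * W + 25 / 1000 * W ^ 2 ≤ E * W)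
    (hT1 : 5 / 10 * S ^ 2 - 3 / 100 * S * W + 99 / 1000 * W ^ 2 ≤ T * W)
    (hR0 : 0 < R) (hR : R ≤ 1 / 256) (hRW : R * W ≤ 1 / 32) (hq0 : 0 < q) (hqR : q ≤ R)
    (hw1 : 143 / 100 * R ≤ w) (hw2 : w ≤ 3 / 2 * R)
    (hl : l = 1 - W / 2 - S) :
    (58 / 100 * (q * l - w / 2) ^ 2 + 13 / 100 * (q * l - w / 2) * w + 25 / 1000 * w ^ 2 ≤
      (w / 10 + (1 - q) * E + q * (7 / 20 * x + T) - q * (1 - q) * l ^ 2) * w) ∧
    (-(64 / 100) * (q * l - w / 2) - 7 / 100 * w ≤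
      w / 10 + (1 - q) * E + q * (7 / 20 * x + T) - q * (1 - q) * l ^ 2) ∧
    (5 / 10 * (q * l - w / 2) ^ 2 - 3 / 100 * (q * l - w / 2) * w + 99 / 1000 * w ^ 2 ≤
      (w / 10 + E) * w) ∧
    (163 / 100 * (q * l - w / 2) + 88 / 1000 * w ≤ w / 10 + E) := by
  have hW0 : 0 < W := by linarith
  -- T ≥ 0
  have hT0 : 0 ≤ T := by
    have h1 : 0 ≤ T * W := by nlinarith [sq_nonneg (S - 3 / 100 * W), sq_nonneg W]
    exact nonneg_of_mul_nonneg_left h1 hW0
  -- E ≥ W / 60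
  have hE0 : 1 / 60 * W ≤ E := by
    have h1 : 1 / 60 * W * W ≤ E * W := by nlinarith [sq_nonneg (S + 13 / 116 * W)]
    exact le_of_mul_le_mul_right h1 hW0
  have hEpos : 2 / 15 ≤ E := by linarith
  -- l ^ 2 bound
  have hl2 : 97 / 1000 * l ^ 2 ≤ E * W := by
    have h1 : 97 / 1000 * (1 - W / 2 - S) ^ 2 ≤
        58 / 100 * S ^ 2 + 13 / 100 * S * W + 25 / 1000 * W ^ 2 := by
      nlinarith [sq_nonneg (S + (65 / 1000 - 97 / 2000) / (58 / 100 - 97 / 1000) * W + 1 / 5),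
        sq_nonneg (W - 8), sq_nonneg (S + W / 30)]
    rw [hl]; linarith
  have hRl : R * l ^ 2 ≤ 323 / 1000 * E := by
    have h1 : R * (97 / 1000 * l ^ 2) ≤ R * (E * W) := mul_le_mul_of_nonneg_left hl2 hR0.le
    have h2 : R * W * E ≤ 1 / 32 * E := mul_le_mul_of_nonneg_right hRW (by linarith)
    nlinarith
  have hRl1 : R * |l| ≤ 1 / 2 * R + 1 / 2 * (R * l ^ 2) := by
    have h1 : |l| ≤ 1 / 2 + 1 / 2 * l ^ 2 := by
      have := sq_nonneg (|l| - 1)
      have h2 : |l| ^ 2 = l ^ 2 := sq_abs l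
      nlinarith
    nlinarith
  have hql : |q * l| ≤ R * |l| := by
    rw [abs_mul, abs_of_pos hq0]
    exact mul_le_mul_of_nonneg_right hqR (abs_nonneg l)
  have hqlb := abs_le.mp (hql.trans (hRl1.trans (add_le_add_right (mul_le_mul_of_nonneg_left hRl (by norm_num)) _)))
  have hw0 : 0 < w := by linarith [mul_pos (by norm_num : (0 : ℝ) < 143 / 100) hR0]
  have hql2 : q * l ^ 2 ≤ 323 / 1000 * E :=
    (mul_le_mul_of_nonneg_right hqR (sq_nonneg l)).trans hRl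
  have hq1 : q ≤ 1 / 256 := hqR.trans hR
  have hqE : q * E ≤ 1 / 256 * E := mul_le_mul_of_nonneg_right hq1 (by linarith)
  have hqT : 0 ≤ q * (7 / 20 * x + T) := by positivity
  have hq1l : q * (1 - q) * l ^ 2 ≤ q * l ^ 2 := by
    nlinarith [mul_nonneg (mul_nonneg hq0.le hq0.le) (sq_nonneg l)]
  have hq2 : q ^ 2 * l ^ 2 ≤ 1 / 1 * (7 / 10 * w) * (q * l ^ 2) := by
    have h1 : q ≤ 7 / 10 * w := by linarith
    nlinarith [mul_nonneg hq0.le (sq_nonneg l)]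
  obtain ⟨hqla, hqlc⟩ := hqlb
  refine ⟨?_, ?_, ?_, ?_⟩
  · -- (i)
    have key : 0 ≤ (1 - q) * E - 5 / 1000 * w + 45 / 100 * (q * l) - q * (1 - q) * l ^ 2
        - 58 / 100 * (7 / 10 * (q * l ^ 2)) := by
      nlinarith
    nlinarith [mul_nonneg hw0.le key, mul_nonneg hw0.le hqT]
  · nlinarith
  · have key : 0 ≤ E - 139 / 1000 * w - 5 / 10 * (7 / 10 * (q * l ^ 2)) + 53 / 100 * (q * l) := by
      nlinarith
    nlinarith [mul_nonneg hw0.le key]
  · nlinarith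

theorem closure_large (W S E T x : ℝ) (hW : 8 ≤ W) (hx : 0 ≤ x)
    (hE1 : 58 / 100 * S ^ 2 + 13 / 100 * S * W + 25 / 1000 * W ^ 2 ≤ E * W)
    (hT1 : 5 / 10 * S ^ 2 - 3 / 100 * S * W + 99 / 1000 * W ^ 2 ≤ T * W)
    {R q w l : ℝ} (hR : R = (2 : ℝ) ^ (-W)) (hq : q = R / (1 + R))
    (hw : w = Real.logb 2 (1 + R)) (hl : l = 1 - W / 2 - S) :
    (58 / 100 * (q * l - w / 2) ^ 2 + 13 / 100 * (q * l - w / 2) * w + 25 / 1000 * w ^ 2 ≤
      (w / 10 + (1 - q) * E + q * (7 / 20 * x + T) - q * (1 - q) * l ^ 2) * w) ∧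
    (-(64 / 100) * (q * l - w / 2) - 7 / 100 * w ≤
      w / 10 + (1 - q) * E + q * (7 / 20 * x + T) - q * (1 - q) * l ^ 2) ∧
    (5 / 10 * (q * l - w / 2) ^ 2 - 3 / 100 * (q * l - w / 2) * w + 99 / 1000 * w ^ 2 ≤
      (w / 10 + E) * w) ∧
    (163 / 100 * (q * l - w / 2) + 88 / 1000 * w ≤ w / 10 + E) := by
  have hR0 : 0 < R := by rw [hR]; positivity
  -- R * W ≤ 1 / 32
  have hRW : R * W ≤ 1 / 32 := by
    have h1 : (2 : ℝ) ^ (-W) = (1 / 256) * (2 : ℝ) ^ (-(W - 8)) := by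
      rw [show -W = (-8 : ℝ) + (-(W - 8)) by ring, Real.rpow_add (by norm_num)]
      congr 1
      rw [show (-8 : ℝ) = -((8 : ℕ) : ℝ) by norm_num, Real.rpow_neg (by norm_num),
        Real.rpow_natCast]
      norm_num
    have h2 : 1 + (W - 8) / 2 ≤ (2 : ℝ) ^ (W - 8) := by
      have h3 : (W - 8) * Real.log 2 + 1 ≤ Real.exp ((W - 8) * Real.log 2) :=
        Real.add_one_le_exp _
      have h4 : (2 : ℝ) ^ (W - 8) = Real.exp ((W - 8) * Real.log 2) := by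
        rw [Real.rpow_def_of_pos (by norm_num), mul_comm]
      rw [h4]
      have h5 : (0.6931471803 : ℝ) < Real.log 2 := Real.log_two_gt_d9
      nlinarith
    have h6 : (2 : ℝ) ^ (-(W - 8)) * (1 + (W - 8) / 2) ≤ 1 := by
      rw [Real.rpow_neg (by norm_num)]
      rw [inv_mul_le_iff₀ (by positivity)]
      simpa using h2
    have h7 : W ≤ 8 * (1 + (W - 8) / 2) := by linarith
    have h8 : 0 < (2 : ℝ) ^ (-(W - 8)) := by positivity
    rw [hR, h1]
    nlinarith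
  have hR1 : R ≤ 1 / 256 := by
    have : R * 8 ≤ R * W := mul_le_mul_of_nonneg_left hW hR0.le
    linarith
  have hl2a := Real.log_two_gt_d9
  have hl2b := Real.log_two_lt_d9
  have hlog2 : 0 < Real.log 2 := by linarith
  have hw1 : 143 / 100 * R ≤ w := by
    rw [hw, Real.logb, le_div_iff₀ hlog2]
    have h1 : 2 * R / (R + 2) ≤ Real.log (1 + R) := by
      have := Real.le_log_one_add_of_nonneg hR0.le
      simpa using this
    have h2 : 143 / 100 * R * Real.log 2 ≤ 2 * R / (R + 2) := by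
      rw [le_div_iff₀ (by linarith)]
      have h3 : 143 / 100 * Real.log 2 ≤ 992 / 1000 := by linarith
      have h4 : 143 / 100 * Real.log 2 * (R + 2) ≤ 992 / 1000 * (R + 2) :=
        mul_le_mul_of_nonneg_right h3 (by linarith)
      have h5 : 143 / 100 * Real.log 2 * (R + 2) ≤ 2 := by linarith
      have h6 := mul_le_mul_of_nonneg_left h5 hR0.le
      linarith
    linarith
  have hw2 : w ≤ 3 / 2 * R := by
    rw [hw, Real.logb, div_le_iff₀ hlog2]
    have h1 : Real.log (1 + R) ≤ R := by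
      have := Real.log_le_sub_one_of_pos (show 0 < 1 + R by linarith)
      linarith
    nlinarith
  have hq0 : 0 < q := by rw [hq]; positivity
  have hqR : q ≤ R := by
    rw [hq, div_le_iff₀ (by linarith)]
    nlinarith
  exact large_core W S E T x R q w l hW hx hE1 hT1 hR0 hR1 hRW hq0 hqR hw1 hw2 hl

/-- the closure step for `W ≥ 8` -/
theorem clo_large8 : ∀ W : ℝ, 8 ≤ W → Clo W := by
  intro W hW S E T h
  have hR1 : R2 W ≤ 1 / 2 := by
    have h1 : R2 W ≤ (2 : ℝ) ^ (-1 : ℝ) :=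
      Real.rpow_le_rpow_of_exponent_le (by norm_num) (by linarith)
    have h2 : (2 : ℝ) ^ (-1 : ℝ) = 1 / 2 := by
      rw [Real.rpow_neg (by norm_num), Real.rpow_one]; norm_num
    rwa [h2] at h1
  have hX : X2 (R2 W) = 0 := by rw [X2, if_pos hR1]
  obtain ⟨a1, a2, a3, a4⟩ := closure_large W S E T (X2 (R2 W)) hW (by rw [hX])
    (by have := h.i1; linarith) (by have := h.i3; linarith)
    (R := R2 W) (q := q2 W) (w := w2 W) (l := l2 W S) rfl rfl rfl rfl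
  refine ⟨?_, ?_, ?_, ?_⟩
  · simp only [z2, e2]; linarith
  · simp only [z2, e2]; linarith
  · simp only [z2, t2]; linarith
  · simp only [z2, t2]; linarith

theorem clo_large : ∀ W : ℝ, 10 ≤ W → Clo W := fun W hW => clo_large8 W (by linarith)

end Pool.Agent.UniM
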