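import Pool.Agent.UniM.P2Tab

/-!
# UniM / P2Mid: the closure step for `1 / 40 ≤ W ≤ 10`
-/

set_option autoImplicit false

namespace Pool.Agent.UniM

open Ja

/-! ### The weight is monotone -/

/-- `h` is monotone and at least `v` on `(c, ∞)` -/
def MonoAt (c : ℝ) (h : ℝ → ℝ) (v : ℝ) : Prop :=
  (∀ r s, c < r → r ≤ s → h r ≤ h s) ∧ ∀ s, c < s → v ≤ h s

theorem MonoAt.ite {c0 c v v' : ℝ} {f g : ℝ → ℝ} (hcc : c0 < c)
    (hf : ∀ r s, c0 < r → r ≤ s → s ≤ c → f r ≤ f s) (hv : ∀ s, c0 < s → s ≤ c → v ≤ f s)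
    (hg : MonoAt c g v') (h1 : f c ≤ v') : MonoAt c0 (fun r => if r ≤ c then f r else g r) v := by
  have h2 : v ≤ v' := (hv c hcc le_rfl).trans h1
  constructor
  · intro r s hr hrs
    show (if r ≤ c then f r else g r) ≤ (if s ≤ c then f s else g s)
    by_cases hrc : r ≤ c
    · rw [if_pos hrc]
      by_cases hsc : s ≤ c
      · rw [if_pos hsc]
        exact hf r s hr hrs hsc
      · rw [if_neg hsc]
        exact (hf r c hr hrc le_rfl).trans (h1.trans (hg.2 s (not_le.1 hsc)))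
    · rw [if_neg hrc, if_neg (fun h => hrc (hrs.trans h))]
      exact hg.1 r s (not_le.1 hrc) hrs
  · intro s hs
    show v ≤ (if s ≤ c then f s else g s)
    by_cases hsc : s ≤ c
    · rw [if_pos hsc]
      exact hv s hs hsc
    · rw [if_neg hsc]
      exact h2.trans (hg.2 s (not_le.1 hsc))

theorem div_anti {k r s : ℝ} (hk : 0 ≤ k) (hr : 0 < r) (hrs : r ≤ s) : k / s ≤ k / r :=
  div_le_div_of_nonneg_left hk hr hrs

theorem X2_monoAt : MonoAt 0 X2 0 := by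
  have h7 : MonoAt (4 / 5) (fun r => r) (4 / 5) := ⟨fun r s _ h => h, fun s h => h.le⟩
  have h6 := MonoAt.ite (c0 := 7 / 10) (f := fun r => 2 * r - 4 / 5) (v := 3 / 5) (by norm_num)
    (fun r s _ h _ => by show 2 * r - 4 / 5 ≤ 2 * s - 4 / 5; linarith)
    (fun s h _ => by show (3 / 5 : ℝ) ≤ 2 * s - 4 / 5; linarith) h7
    (by show (2 : ℝ) * (4 / 5) - 4 / 5 ≤ _; norm_num)
  have h5 := MonoAt.ite (c0 := 13 / 21) (f := fun r => 6 / 5 * r - 6 / 25) (v := 502 / 1000)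
    (by norm_num)
    (fun r s _ h _ => by show 6 / 5 * r - 6 / 25 ≤ 6 / 5 * s - 6 / 25; linarith)
    (fun s h _ => by show (502 / 1000 : ℝ) ≤ 6 / 5 * s - 6 / 25; linarith) h6
    (by show (6 / 5 : ℝ) * (7 / 10) - 6 / 25 ≤ _; norm_num)
  have h4 := MonoAt.ite (c0 := 10 / 17) (f := fun r => 61 / 25 - 6 / 5 / r) (v := 2 / 5)
    (by norm_num)
    (fun r s h1 h _ => by
      show 61 / 25 - 6 / 5 / r ≤ 61 / 25 - 6 / 5 / s
      have := div_anti (k := 6 / 5) (by norm_num) (by linarith) h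
      linarith)
    (fun s h _ => by
      show (2 / 5 : ℝ) ≤ 61 / 25 - 6 / 5 / s
      have := div_anti (k := 6 / 5) (r := 10 / 17) (by norm_num) (by norm_num) h.le
      norm_num at this
      norm_num
      linarith) h5
    (by show (61 / 25 : ℝ) - 6 / 5 / (13 / 21) ≤ _; norm_num)
  have h3 := MonoAt.ite (c0 := 5 / 9) (f := fun r => 19 / 5 - 2 / r) (v := 1 / 5)
    (by norm_num)
    (fun r s h1 h _ => by
      show 19 / 5 - 2 / r ≤ 19 / 5 - 2 / s
      have := div_anti (k := 2) (by norm_num) (by linarith) h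
      linarith)
    (fun s h _ => by
      show (1 / 5 : ℝ) ≤ 19 / 5 - 2 / s
      have := div_anti (k := 2) (r := 5 / 9) (by norm_num) (by norm_num) h.le
      norm_num at this
      norm_num
      linarith) h4
    (by show (19 / 5 : ℝ) - 2 / (10 / 17) ≤ _; norm_num)
  have h2 := MonoAt.ite (c0 := 1 / 2) (f := fun r => 2 - 1 / r) (v := 0)
    (by norm_num)
    (fun r s h1 h _ => by
      show 2 - 1 / r ≤ 2 - 1 / s
      have := div_anti (k := 1) (by norm_num) (by linarith) h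
      linarith)
    (fun s h _ => by
      show (0 : ℝ) ≤ 2 - 1 / s
      have := div_anti (k := 1) (r := 1 / 2) (by norm_num) (by norm_num) h.le
      norm_num at this
      norm_num
      linarith) h3
    (by show (2 : ℝ) - 1 / (5 / 9) ≤ _; norm_num)
  have h1 := MonoAt.ite (c0 := 0) (f := fun _ => 0) (v := 0)
    (by norm_num) (fun r s _ _ _ => le_rfl) (fun s _ _ => le_rfl) h2 (by norm_num)
  exact h1

theorem X2_mono {r s : ℝ} (hr : 0 < r) (hrs : r ≤ s) : X2 r ≤ X2 s := X2_monoAt.1 r s hr hrs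

theorem X2_nonneg {r : ℝ} (hr : 0 < r) : 0 ≤ X2 r := X2_monoAt.2 r hr

theorem le_iff_int (r a b : Int) (ha : 0 < a) (x : ℝ) (hx : x = (b : ℝ) / a) :
    (r : ℝ) / 16777216 ≤ x ↔ a * r ≤ b * 16777216 := by
  have ha' : (0 : ℝ) < a := by exact_mod_cast ha
  rw [hx, div_le_div_iff₀ (by norm_num) ha']
  constructor
  · intro h
    have : ((a * r : Int) : ℝ) ≤ ((b * 16777216 : Int) : ℝ) := by
      push_cast
      linarith
    exact_mod_cast this
  · intro h
    have : ((a * r : Int) : ℝ) ≤ ((b * 16777216 : Int) : ℝ) := by exact_mod_cast h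
    push_cast at this
    linarith

/-- `xlo` is a lower bound for the weight -/
theorem xlo_le (r : Int) (hr : 0 < r) : (xlo r : ℝ) ≤ X2 ((r : ℝ) / 16777216) * 16777216 := by
  have hr' : (0 : ℝ) < r := by exact_mod_cast hr
  have ce : ∀ a b : Int, 0 < b → (a : ℝ) / b ≤ ((-(-a / b) : Int) : ℝ) := by
    intro a b hb
    have hb' : (0 : ℝ) < b := by exact_mod_cast hb
    rw [div_le_iff₀ hb']
    exact le_ce a b hb
  have fl : ∀ a b : Int, 0 < b → ((a / b : Int) : ℝ) ≤ (a : ℝ) / b := by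
    intro a b hb
    have hb' : (0 : ℝ) < b := by exact_mod_cast hb
    rw [le_div_iff₀ hb']
    exact fl_le a b hb
  unfold xlo X2
  simp only [Bool.cond_decide]
  have q1 := le_iff_int r 2 1 (by norm_num) (1 / 2) (by norm_num)
  have q2 := le_iff_int r 9 5 (by norm_num) (5 / 9) (by norm_num)
  have q3 := le_iff_int r 17 10 (by norm_num) (10 / 17) (by norm_num)
  have q4 := le_iff_int r 21 13 (by norm_num) (13 / 21) (by norm_num)
  have q5 := le_iff_int r 10 7 (by norm_num) (7 / 10) (by norm_num)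
  have q6 := le_iff_int r 5 4 (by norm_num) (4 / 5) (by norm_num)
  rw [one_mul] at q1
  by_cases c1 : 2 * r ≤ 16777216
  · rw [if_pos c1, if_pos (q1.2 c1)]
    norm_num
  have n1 : ¬ ((r : ℝ) / 16777216 ≤ 1 / 2) := fun h => c1 (q1.1 h)
  rw [if_neg c1, if_neg n1]
  by_cases c2 : 9 * r ≤ 5 * 16777216
  · rw [if_pos c2, if_pos (q2.2 c2)]
    have h := ce (16777216 * 16777216) r hr
    push_cast at h ⊢
    have e : (2 - 1 / ((r : ℝ) / 16777216)) * 16777216 = 2 * 16777216 - 16777216 * 16777216 / r := by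
      field_simp
    rw [e]
    linarith
  have n2 : ¬ ((r : ℝ) / 16777216 ≤ 5 / 9) := fun h => c2 (q2.1 h)
  rw [if_neg c2, if_neg n2]
  by_cases c3 : 17 * r ≤ 10 * 16777216
  · rw [if_pos c3, if_pos (q3.2 c3)]
    have h := ce (2 * (16777216 * 16777216)) r hr
    have h2 := fl (19 * 16777216) 5 (by norm_num)
    push_cast at h h2 ⊢
    have e : (19 / 5 - 2 / ((r : ℝ) / 16777216)) * 16777216 =
        19 * 16777216 / 5 - 2 * (16777216 * 16777216) / r := by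
      field_simp
    rw [e]
    linarith
  have n3 : ¬ ((r : ℝ) / 16777216 ≤ 10 / 17) := fun h => c3 (q3.1 h)
  rw [if_neg c3, if_neg n3]
  by_cases c4 : 21 * r ≤ 13 * 16777216
  · rw [if_pos c4, if_pos (q4.2 c4)]
    have h := ce (6 * (16777216 * 16777216)) (5 * r) (by linarith)
    have h2 := fl (61 * 16777216) 25 (by norm_num)
    push_cast at h h2 ⊢
    have e : (61 / 25 - 6 / 5 / ((r : ℝ) / 16777216)) * 16777216 =
        61 * 16777216 / 25 - 6 * (16777216 * 16777216) / (5 * r) := by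
      field_simp
    rw [e]
    linarith
  have n4 : ¬ ((r : ℝ) / 16777216 ≤ 13 / 21) := fun h => c4 (q4.1 h)
  rw [if_neg c4, if_neg n4]
  by_cases c5 : 10 * r ≤ 7 * 16777216
  · rw [if_pos c5, if_pos (q5.2 c5)]
    have h := fl (6 * r) 5 (by norm_num)
    have h2 := ce (6 * 16777216) 25 (by norm_num)
    push_cast at h h2 ⊢
    have e : (6 / 5 * ((r : ℝ) / 16777216) - 6 / 25) * 16777216 = 6 * r / 5 - 6 * 16777216 / 25 := by
      field_simp
    rw [e]
    linarith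
  have n5 : ¬ ((r : ℝ) / 16777216 ≤ 7 / 10) := fun h => c5 (q5.1 h)
  rw [if_neg c5, if_neg n5]
  by_cases c6 : 5 * r ≤ 4 * 16777216
  · rw [if_pos c6, if_pos (q6.2 c6)]
    have h2 := ce (4 * 16777216) 5 (by norm_num)
    push_cast at h2 ⊢
    have e : (2 * ((r : ℝ) / 16777216) - 4 / 5) * 16777216 = 2 * r - 4 * 16777216 / 5 := by
      field_simp
    rw [e]
    linarith
  have n6 : ¬ ((r : ℝ) / 16777216 ≤ 4 / 5) := fun h => c6 (q6.1 h)
  rw [if_neg c6, if_neg n6]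
  rw [div_mul_cancel₀ _ (by norm_num)]

/-! ### Nodes -/

theorem rpow_node (a k : ℕ) (hk : 0 < k) : ((2 : ℝ) ^ (-((a : ℝ) / k))) ^ k * 2 ^ a = 1 := by
  have hk' : (0 : ℝ) < k := by exact_mod_cast hk
  rw [← Real.rpow_natCast ((2 : ℝ) ^ (-((a : ℝ) / k))) k, ← Real.rpow_mul (by norm_num),
    ← Real.rpow_natCast (2 : ℝ) a, ← Real.rpow_add (by norm_num)]
  have : -((a : ℝ) / k) * (k : ℝ) + a = 0 := by
    field_simp
    ring
  rw [this, Real.rpow_zero]

theorem node_r1 {D k r a : ℕ} (hD : 0 < D) (hk : 0 < k) (h : r ^ k * 2 ^ a ≤ D ^ k) :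
    (r : ℝ) / D ≤ (2 : ℝ) ^ (-((a : ℝ) / k)) := by
  have hD' : (0 : ℝ) < D := by exact_mod_cast hD
  have hy := rpow_node a k hk
  have hy0 : (0 : ℝ) < (2 : ℝ) ^ (-((a : ℝ) / k)) := Real.rpow_pos_of_pos (by norm_num) _
  set y := (2 : ℝ) ^ (-((a : ℝ) / k)) with hydef
  have h2a : (0 : ℝ) < 2 ^ a := by positivity
  apply le_of_pow_le_pow_left₀ hk.ne' hy0.le
  have h' : (r : ℝ) ^ k * 2 ^ a ≤ (D : ℝ) ^ k := by exact_mod_cast h
  rw [div_pow, div_le_iff₀ (by positivity)]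
  apply le_of_mul_le_mul_right _ h2a
  calc (r : ℝ) ^ k * 2 ^ a ≤ (D : ℝ) ^ k := h'
    _ = (y ^ k * 2 ^ a) * (D : ℝ) ^ k := by rw [hy, one_mul]
    _ = y ^ k * (D : ℝ) ^ k * 2 ^ a := by ring

theorem node_r2 {D k r a : ℕ} (hD : 0 < D) (hk : 0 < k) (h : D ^ k ≤ r ^ k * 2 ^ a) :
    (2 : ℝ) ^ (-((a : ℝ) / k)) ≤ (r : ℝ) / D := by
  have hD' : (0 : ℝ) < D := by exact_mod_cast hD
  have hy := rpow_node a k hk
  set y := (2 : ℝ) ^ (-((a : ℝ) / k)) with hydef
  have h2a : (0 : ℝ) < 2 ^ a := by positivity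
  apply le_of_pow_le_pow_left₀ hk.ne' (by positivity)
  have h' : (D : ℝ) ^ k ≤ (r : ℝ) ^ k * 2 ^ a := by exact_mod_cast h
  rw [div_pow, le_div_iff₀ (by positivity)]
  apply le_of_mul_le_mul_right _ h2a
  calc y ^ k * (D : ℝ) ^ k * 2 ^ a = (y ^ k * 2 ^ a) * (D : ℝ) ^ k := by ring
    _ = (D : ℝ) ^ k := by rw [hy, one_mul]
    _ ≤ (r : ℝ) ^ k * 2 ^ a := h'

theorem node_l1 {D k r l : ℕ} (hD : 0 < D) (hk : 0 < k) (h : 2 ^ l * D ^ k ≤ (D + r) ^ k) :
    (l : ℝ) / k ≤ Real.logb 2 (1 + (r : ℝ) / D) := by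
  have hD' : (0 : ℝ) < D := by exact_mod_cast hD
  have hk' : (0 : ℝ) < k := by exact_mod_cast hk
  have h' : (2 : ℝ) ^ l * (D : ℝ) ^ k ≤ ((D : ℝ) + r) ^ k := by exact_mod_cast h
  have h3 : (2 : ℝ) ^ l ≤ (1 + (r : ℝ) / D) ^ k := by
    have e : (1 + (r : ℝ) / D) = ((D : ℝ) + r) / D := by field_simp
    rw [e, div_pow, le_div_iff₀ (by positivity)]
    exact h'
  have h4 := Real.logb_le_logb_of_le (b := 2) (by norm_num) (by positivity) h3
  rw [Real.logb_pow, Real.logb_pow, Real.logb_self_eq_one (by norm_num)] at h4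
  rw [div_le_iff₀ hk']
  linarith

theorem node_l2 {D k r l : ℕ} (hD : 0 < D) (hk : 0 < k) (h : (D + r) ^ k ≤ 2 ^ l * D ^ k) :
    Real.logb 2 (1 + (r : ℝ) / D) ≤ (l : ℝ) / k := by
  have hD' : (0 : ℝ) < D := by exact_mod_cast hD
  have hk' : (0 : ℝ) < k := by exact_mod_cast hk
  have h' : ((D : ℝ) + r) ^ k ≤ (2 : ℝ) ^ l * (D : ℝ) ^ k := by exact_mod_cast h
  have h3 : (1 + (r : ℝ) / D) ^ k ≤ (2 : ℝ) ^ l := by
    have e : (1 + (r : ℝ) / D) = ((D : ℝ) + r) / D := by field_simp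
    rw [e, div_pow, div_le_iff₀ (by positivity)]
    exact h'
  have h4 := Real.logb_le_logb_of_le (b := 2) (by norm_num) (by positivity) h3
  rw [Real.logb_pow, Real.logb_pow, Real.logb_self_eq_one (by norm_num)] at h4
  rw [le_div_iff₀ hk']
  linarith

structure Nd.Ok (n : Nd) : Prop where
  a : 1 ≤ n.a
  r : 1 ≤ n.r
  l : 1 ≤ n.l
  r1 : (n.r : ℝ) / (16777216 : ℕ) ≤ (2 : ℝ) ^ (-((n.a : ℝ) / (2048 : ℕ)))
  r2 : (2 : ℝ) ^ (-((n.a : ℝ) / (2048 : ℕ))) ≤ ((n.r + 1 : ℕ) : ℝ) / (16777216 : ℕ)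
  l1 : (n.l : ℝ) / (8192 : ℕ) ≤ Real.logb 2 (1 + (n.r : ℝ) / (16777216 : ℕ))
  l2 : Real.logb 2 (1 + ((n.r + 1 : ℕ) : ℝ) / (16777216 : ℕ)) ≤ (n.m : ℝ) / (8192 : ℕ)
  t0 : n.t0 ≤ 20
  p0 : n.p0 ≤ 20
  t1 : n.t1 ≤ 20
  p1 : n.p1 ≤ 20
  t2 : n.t2 ≤ 20
  t3 : n.t3 ≤ 20

theorem Nd.ok_sound {n : Nd} (h : n.ok = true) : n.Ok := by
  unfold Nd.ok at h
  simp only [Bool.and_eq_true] at h
  obtain ⟨⟨⟨⟨⟨⟨⟨⟨⟨⟨⟨⟨h1, h2⟩, h3⟩, h4⟩, h5⟩, h6⟩, h7⟩, h8⟩, h9⟩, h10⟩, h11⟩, h12⟩, h13⟩ := h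
  have g7 := Nat.le_of_ble_eq_true h7
  rw [show 16777217 + n.r = 16777216 + (n.r + 1) from by omega] at g7
  exact ⟨Nat.le_of_ble_eq_true h1, Nat.le_of_ble_eq_true h2, Nat.le_of_ble_eq_true h3,
    node_r1 (by norm_num) (by norm_num) (Nat.le_of_ble_eq_true h4),
    node_r2 (by norm_num) (by norm_num) (Nat.le_of_ble_eq_true h5),
    node_l1 (by norm_num) (by norm_num) (Nat.le_of_ble_eq_true h6),
    node_l2 (by norm_num) (by norm_num) g7,
    Nat.le_of_ble_eq_true h8, Nat.le_of_ble_eq_true h9,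
    Nat.le_of_ble_eq_true h10, Nat.le_of_ble_eq_true h11, Nat.le_of_ble_eq_true h12,
    Nat.le_of_ble_eq_true h13⟩

/-! ### Cells -/

theorem mem_inv {x : ℝ} (hx : 0 < x) {lo hi : Int} (hlo : 0 < lo) (h1 : (lo : ℝ) ≤ x * 16777216)
    (h2 : x * 16777216 ≤ hi) :
    Mem x⁻¹ ⟨16777216 * 16777216 / hi, -(-(16777216 * 16777216) / lo)⟩ := by
  have hlo' : (0 : ℝ) < lo := by exact_mod_cast hlo
  have hhi' : (0 : ℝ) < hi := by linarith
  have hhi : 0 < hi := by exact_mod_cast hhi'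
  constructor
  · have h3 := fl_le (16777216 * 16777216) hi hhi
    show ((16777216 * 16777216 / hi : Int) : ℝ) ≤ x⁻¹ * 16777216
    have h4 : ((16777216 * 16777216 / hi : Int) : ℝ) ≤ 16777216 * 16777216 / hi := by
      rw [le_div_iff₀ hhi']
      push_cast at h3 ⊢
      linarith
    refine h4.trans ?_
    rw [div_le_iff₀ hhi', inv_mul_eq_div, div_mul_eq_mul_div, le_div_iff₀ hx]
    nlinarith
  · have h3 := le_ce (16777216 * 16777216) lo hlo
    show x⁻¹ * 16777216 ≤ ((-(-(16777216 * 16777216) / lo) : Int) : ℝ)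
    have h4 : (16777216 * 16777216 / lo : ℝ) ≤ ((-(-(16777216 * 16777216) / lo) : Int) : ℝ) := by
      rw [div_le_iff₀ hlo']
      push_cast at h3 ⊢
      linarith
    refine le_trans ?_ h4
    rw [le_div_iff₀ hlo', inv_mul_eq_div, div_mul_eq_mul_div, div_le_iff₀ hx]
    nlinarith

theorem div_one_add_mono {x y : ℝ} (hx : 0 ≤ x) (hxy : x ≤ y) : x / (1 + x) ≤ y / (1 + y) := by
  rw [div_le_div_iff₀ (by linarith) (by linarith)]
  nlinarith

theorem inBx_bx {n n' : Nd} (hn : n.Ok) (hn' : n'.Ok) {W : ℝ} (h1 : (n.a : ℝ) / 2048 ≤ W)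
    (h2 : W ≤ (n'.a : ℝ) / 2048) :
    InBx (bx n n') W W⁻¹ (q2 W) (w2 W) (w2 W)⁻¹ ((xlo n'.r : ℝ) / 16777216) ∧
      (xlo n'.r : ℝ) / 16777216 ≤ X2 (R2 W) := by
  have ha : (1 : ℝ) ≤ n.a := by exact_mod_cast hn.a
  have hr' : (1 : ℝ) ≤ n'.r := by exact_mod_cast hn'.r
  have hl' : (1 : ℝ) ≤ n'.l := by exact_mod_cast hn'.l
  have hW : 0 < W := by
    refine lt_of_lt_of_le ?_ h1
    positivity
  have c1 : (((16777216 : ℕ) : ℝ)) = 16777216 := by norm_num
  have c2 : (((2048 : ℕ) : ℝ)) = 2048 := by norm_num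
  have c3 : (((8192 : ℕ) : ℝ)) = 8192 := by norm_num
  have r1 := hn'.r1
  have r2 := hn.r2
  have l1 := hn'.l1
  have l2 := hn.l2
  rw [c1, c2] at r1 r2
  rw [c1, c3] at l1 l2
  push_cast at r2 l2
  have R1 : (n'.r : ℝ) / 16777216 ≤ R2 W := by
    refine r1.trans ?_
    exact Real.rpow_le_rpow_of_exponent_le (by norm_num) (by linarith)
  have Rb : R2 W ≤ ((n.r : ℝ) + 1) / 16777216 := by
    refine le_trans ?_ r2
    exact Real.rpow_le_rpow_of_exponent_le (by norm_num) (by linarith)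
  have hR : 0 < R2 W := Real.rpow_pos_of_pos (by norm_num) _
  have w1 : (n'.l : ℝ) / 8192 ≤ w2 W := by
    refine l1.trans ?_
    apply Real.logb_le_logb_of_le (by norm_num) (by positivity)
    linarith
  have wb : w2 W ≤ (n.m : ℝ) / 8192 := by
    refine le_trans ?_ l2
    apply Real.logb_le_logb_of_le (by norm_num) (by linarith)
    linarith
  have hw : 0 < w2 W := Real.logb_pos (by norm_num) (by linarith)
  have hWm : Mem W ⟨n.a * 8192, n'.a * 8192⟩ := by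
    constructor
    · show ((n.a * 8192 : Int) : ℝ) ≤ W * 16777216
      push_cast
      rw [div_le_iff₀ (by norm_num)] at h1
      linarith
    · show W * 16777216 ≤ ((n'.a * 8192 : Int) : ℝ)
      push_cast
      rw [le_div_iff₀ (by norm_num)] at h2
      linarith
  have hwm : Mem (w2 W) ⟨n'.l * 2048, n.m * 2048⟩ := by
    constructor
    · show ((n'.l * 2048 : Int) : ℝ) ≤ w2 W * 16777216
      push_cast
      rw [div_le_iff₀ (by norm_num)] at w1
      linarith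
    · show w2 W * 16777216 ≤ ((n.m * 2048 : Int) : ℝ)
      push_cast
      rw [le_div_iff₀ (by norm_num)] at wb
      linarith
  refine ⟨⟨hWm, ?_, ?_, hwm, ?_, ?_⟩, ?_⟩
  · exact mem_inv hW (by have := hn.a; omega) hWm.1 hWm.2
  · constructor
    · show ((16777216 * n'.r / (16777216 + n'.r) : Int) : ℝ) ≤ q2 W * 16777216
      have h3 := fl_le (16777216 * n'.r) (16777216 + n'.r) (by positivity)
      push_cast at h3
      have h4 : (n'.r : ℝ) / (16777216 + n'.r) ≤ q2 W := by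
        refine le_trans (le_of_eq ?_) (div_one_add_mono (by positivity) R1)
        field_simp
      have h5 : (0 : ℝ) < 16777216 + n'.r := by positivity
      rw [div_le_iff₀ h5] at h4
      rw [← mul_le_mul_iff_left₀ h5]
      nlinarith
    · show q2 W * 16777216 ≤ ((-(-(16777216 * (n.r + 1)) / (16777217 + n.r)) : Int) : ℝ)
      have h3 := le_ce (16777216 * (n.r + 1)) (16777217 + n.r) (by positivity)
      push_cast at h3
      have h4 : q2 W ≤ ((n.r : ℝ) + 1) / (16777217 + n.r) := by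
        refine le_trans (div_one_add_mono hR.le Rb) (le_of_eq ?_)
        field_simp
        ring
      have h5 : (0 : ℝ) < 16777217 + n.r := by positivity
      rw [le_div_iff₀ h5] at h4
      rw [← mul_le_mul_iff_left₀ h5]
      push_cast
      nlinarith
  · exact mem_inv hw (by have := hn'.l; omega) hwm.1 hwm.2
  · constructor
    · show ((xlo n'.r : Int) : ℝ) ≤ (xlo n'.r : ℝ) / 16777216 * 16777216
      rw [div_mul_cancel₀ _ (by norm_num)]
    · show (xlo n'.r : ℝ) / 16777216 * 16777216 ≤ ((xlo n'.r : Int) : ℝ)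
      rw [div_mul_cancel₀ _ (by norm_num)]
  · have h3 := xlo_le (n'.r : Int) (by have := hn'.r; omega)
    rw [div_le_iff₀ (by norm_num)]
    refine h3.trans ?_
    apply mul_le_mul_of_nonneg_right _ (by norm_num)
    apply X2_mono (by push_cast; positivity)
    push_cast
    exact R1

theorem cell_sound {n n' : Nd} (hn : n.Ok) (hn' : n'.Ok) (hc : cell n n' = true) {W : ℝ}
    (h1 : (n.a : ℝ) / 2048 ≤ W) (h2 : W ≤ (n'.a : ℝ) / 2048) : Clo W := by
  have ha : (1 : ℝ) ≤ n.a := by exact_mod_cast hn.a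
  have hW : 0 < W := by
    refine lt_of_lt_of_le ?_ h1
    positivity
  obtain ⟨hb, hx⟩ := inBx_bx hn hn' h1 h2
  unfold cell at hc
  simp only [Bool.and_eq_true] at hc
  obtain ⟨⟨⟨d0, d1⟩, d2⟩, d3⟩ := hc
  have m01 : ∀ k : ℕ, k ≤ 20 → 0 ≤ (((k : ℕ) : Int) : ℝ) / 20 ∧ (((k : ℕ) : Int) : ℝ) / 20 ≤ 1 := by
    intro k hk
    have hk' : (k : ℝ) ≤ 20 := by exact_mod_cast hk
    push_cast
    constructor
    · positivity
    · rw [div_le_one (by norm_num)]
      exact hk'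
  have e0 := chk0_sound hb d0
  have e1 := chk1_sound hb d1
  have e2 := chk2_sound hb d2
  have e3 := chk3_sound hb d3
  rw [show (((900 : Int) : ℝ)) = 900 from by norm_num] at e0
  rw [show (((1280 : Int) : ℝ)) = 1280 from by norm_num] at e1
  exact clo_of_quad hW hx (m01 _ hn.t0) (m01 _ hn.p0) (m01 _ hn.t1) (m01 _ hn.p1) (m01 _ hn.t2)
    (m01 _ hn.t3) e0 e1 e2 e3

theorem cover_sound : ∀ (L : List Nd) (n : Nd), n.Ok → cover n L = true → ∀ W : ℝ,
    (n.a : ℝ) / 2048 < W → W ≤ (lastA n L : ℝ) / 2048 → Clo W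
  | [], n, _, _, W, h1, h2 => by
    exact absurd (lt_of_lt_of_le h1 h2) (lt_irrefl _)
  | n' :: L, n, hn, hc, W, h1, h2 => by
    unfold cover at hc
    simp only [Bool.and_eq_true] at hc
    obtain ⟨⟨⟨c1, -⟩, c3⟩, c4⟩ := hc
    have hn' := Nd.ok_sound c1
    rcases le_or_gt W ((n'.a : ℝ) / 2048) with h | h
    · exact cell_sound hn hn' c3 h1.le h
    · exact cover_sound L n' hn' c4 W h h2

/-- The closure step for `1 / 40 ≤ W ≤ 10`. -/
theorem clo_mid (W : ℝ) (h1 : 1 / 40 ≤ W) (h2 : W ≤ 10) : Clo W := by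
  apply cover_sound nds nd0 (Nd.ok_sound nd0_ok) nds_ok W
  · show ((50 : ℕ) : ℝ) / 2048 < W
    norm_num
    linarith
  · rw [lastA_eq]
    norm_num
    exact h2

end Pool.Agent.UniM
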