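import Pool.Agent.UniM.P2Def

/-!
# UniM / P2X: the weight `X2` (MP_346bfe_co)

`0 ≤ X2 r ≤ 1` and `X2 r + X2 s ≤ 1` as soon as `r (1 + s) ≤ 1`.
-/

namespace Pool.Agent.UniM

theorem X2_0 {r : ℝ} (h : r ≤ 1 / 2) : X2 r = 0 := by
  unfold X2; rw [if_pos h]

theorem X2_1 {r : ℝ} (h : 1 / 2 < r) (h' : r ≤ 5 / 9) : X2 r = 2 - 1 / r := by
  unfold X2; rw [if_neg (not_le.mpr h), if_pos h']

theorem X2_2 {r : ℝ} (h : 5 / 9 < r) (h' : r ≤ 10 / 17) : X2 r = 19 / 5 - 2 / r := by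
  unfold X2
  rw [if_neg (by linarith), if_neg (not_le.mpr h), if_pos h']

theorem X2_3 {r : ℝ} (h : 10 / 17 < r) (h' : r ≤ 13 / 21) : X2 r = 61 / 25 - 6 / 5 / r := by
  unfold X2
  rw [if_neg (by linarith), if_neg (by linarith), if_neg (not_le.mpr h), if_pos h']

theorem X2_4 {r : ℝ} (h : 13 / 21 < r) (h' : r ≤ 7 / 10) : X2 r = 6 / 5 * r - 6 / 25 := by
  unfold X2
  rw [if_neg (by linarith), if_neg (by linarith), if_neg (by linarith), if_neg (not_le.mpr h),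
    if_pos h']

theorem X2_5 {r : ℝ} (h : 7 / 10 < r) (h' : r ≤ 4 / 5) : X2 r = 2 * r - 4 / 5 := by
  unfold X2
  rw [if_neg (by linarith), if_neg (by linarith), if_neg (by linarith), if_neg (by linarith),
    if_neg (not_le.mpr h), if_pos h']

theorem X2_6 {r : ℝ} (h : 4 / 5 < r) : X2 r = r := by
  unfold X2
  rw [if_neg (by linarith), if_neg (by linarith), if_neg (by linarith), if_neg (by linarith),
    if_neg (by linarith), if_neg (by linarith)]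

/-- the seven ranges -/
theorem X2_ranges (r : ℝ) : r ≤ 1 / 2 ∨ (1 / 2 < r ∧ r ≤ 5 / 9) ∨ (5 / 9 < r ∧ r ≤ 10 / 17) ∨
    (10 / 17 < r ∧ r ≤ 13 / 21) ∨ (13 / 21 < r ∧ r ≤ 7 / 10) ∨ (7 / 10 < r ∧ r ≤ 4 / 5) ∨
    4 / 5 < r := by
  rcases le_or_gt r (1 / 2) with h | h
  · exact Or.inl h
  rcases le_or_gt r (5 / 9) with h1 | h1
  · exact Or.inr (Or.inl ⟨h, h1⟩)
  rcases le_or_gt r (10 / 17) with h2 | h2
  · exact Or.inr (Or.inr (Or.inl ⟨h1, h2⟩))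
  rcases le_or_gt r (13 / 21) with h3 | h3
  · exact Or.inr (Or.inr (Or.inr (Or.inl ⟨h2, h3⟩)))
  rcases le_or_gt r (7 / 10) with h4 | h4
  · exact Or.inr (Or.inr (Or.inr (Or.inr (Or.inl ⟨h3, h4⟩))))
  rcases le_or_gt r (4 / 5) with h5 | h5
  · exact Or.inr (Or.inr (Or.inr (Or.inr (Or.inr (Or.inl ⟨h4, h5⟩)))))
  · exact Or.inr (Or.inr (Or.inr (Or.inr (Or.inr (Or.inr h5)))))

theorem X2_nonneg {r : ℝ} (h0 : 0 < r) : 0 ≤ X2 r := by
  have hr : r * (1 / r) = 1 := by field_simp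
  have e2 : 2 / r = 2 * (1 / r) := by ring
  have e3 : 6 / 5 / r = 6 / 5 * (1 / r) := by ring
  rcases X2_ranges r with h | ⟨h, h'⟩ | ⟨h, h'⟩ | ⟨h, h'⟩ | ⟨h, h'⟩ | ⟨h, h'⟩ | h
  · rw [X2_0 h]
  · rw [X2_1 h h']
    have : 1 / r ≤ 2 := by rw [div_le_iff₀ h0]; linarith
    linarith
  · rw [X2_2 h h', e2]
    have : 1 / r ≤ 9 / 5 := by rw [div_le_iff₀ h0]; linarith
    linarith
  · rw [X2_3 h h', e3]
    have : 1 / r ≤ 17 / 10 := by rw [div_le_iff₀ h0]; linarith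
    linarith
  · rw [X2_4 h h']; linarith
  · rw [X2_5 h h']; linarith
  · rw [X2_6 h]; exact h0.le

/-- `X2 r ≤ r` -/
theorem X2_le_self {r : ℝ} (h0 : 0 < r) : X2 r ≤ r := by
  have hr : r * (1 / r) = 1 := by field_simp
  have hp : 0 < 1 / r := by positivity
  have e2 : 2 / r = 2 * (1 / r) := by ring
  have e3 : 6 / 5 / r = 6 / 5 * (1 / r) := by ring
  rcases X2_ranges r with h | ⟨h, h'⟩ | ⟨h, h'⟩ | ⟨h, h'⟩ | ⟨h, h'⟩ | ⟨h, h'⟩ | h
  · rw [X2_0 h]; exact h0.le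
  · rw [X2_1 h h']
    nlinarith [mul_nonneg hp.le (sq_nonneg (r - 1))]
  · rw [X2_2 h h', e2]
    have : 17 / 10 ≤ 1 / r := by rw [le_div_iff₀ h0]; linarith
    linarith
  · rw [X2_3 h h', e3]
    have : 21 / 13 ≤ 1 / r := by rw [le_div_iff₀ h0]; linarith
    linarith
  · rw [X2_4 h h']; linarith
  · rw [X2_5 h h']; linarith
  · rw [X2_6 h]

theorem X2_le_one {r : ℝ} (h0 : 0 < r) (h1 : r ≤ 1) : X2 r ≤ 1 := (X2_le_self h0).trans h1

/-- bound for `r ≤ 10 / 17` -/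
theorem X2_le_a {r : ℝ} (h0 : 0 < r) (h1 : r ≤ 10 / 17) : X2 r ≤ 2 / 5 := by
  have e2 : 2 / r = 2 * (1 / r) := by ring
  have hk : 17 / 10 ≤ 1 / r := by rw [le_div_iff₀ h0]; linarith
  rcases X2_ranges r with h | ⟨h, h'⟩ | ⟨h, h'⟩ | ⟨h, h'⟩ | ⟨h, h'⟩ | ⟨h, h'⟩ | h
  · rw [X2_0 h]; norm_num
  · rw [X2_1 h h']; linarith
  · rw [X2_2 h h', e2]; linarith
  all_goals exfalso; linarith

/-- bound for `10 / 17 < r ≤ 7 / 10` -/
theorem X2_le_b {r : ℝ} (h0 : 10 / 17 < r) (h1 : r ≤ 7 / 10) : X2 r ≤ 6 / 5 * r - 6 / 25 := by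
  have hr0 : 0 < r := by linarith
  have hr : r * (1 / r) = 1 := by field_simp
  have e3 : 6 / 5 / r = 6 / 5 * (1 / r) := by ring
  rcases le_or_gt r (13 / 21) with h | h
  · rw [X2_3 h0 h, e3]
    have hk : 21 / 13 ≤ 1 / r := by rw [le_div_iff₀ hr0]; linarith
    -- `(13/21 - r) (1/r - 13/21) ≥ 0`-type bound: `r + 1/r ≥ 13/21 + 21/13`
    have h2 : 13 / 21 + 21 / 13 ≤ r + 1 / r := by
      have h3 : 0 ≤ (13 / 21 - r) * (1 / r - 13 / 21) :=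
        mul_nonneg (by linarith) (by linarith)
      nlinarith
    linarith
  · rw [X2_4 h h1]

theorem X2_add_le {r s : ℝ} (hr0 : 0 < r) (hr : r ≤ 1) (hs0 : 0 < s) (hs : s ≤ 1)
    (h : r * (1 + s) ≤ 1) : X2 r + X2 s ≤ 1 := by
  have hrr : r * (1 / r) = 1 := by field_simp
  have hss : s * (1 / s) = 1 := by field_simp
  have hs' : s ≤ 1 / r - 1 := by
    have : 1 + s ≤ 1 / r := by rw [le_div_iff₀ hr0]; linarith
    linarith
  have e2 : 2 / r = 2 * (1 / r) := by ring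
  have e3 : 6 / 5 / r = 6 / 5 * (1 / r) := by ring
  rcases X2_ranges r with h1 | ⟨h1, h2⟩ | ⟨h1, h2⟩ | ⟨h1, h2⟩ | ⟨h1, h2⟩ | ⟨h1, h2⟩ | h1
  · rw [X2_0 h1]; linarith [X2_le_one hs0 hs]
  · rw [X2_1 h1 h2]; linarith [X2_le_self hs0]
  · rw [X2_2 h1 h2, e2]
    have k1 : 17 / 10 ≤ 1 / r := by rw [le_div_iff₀ hr0]; linarith
    have k2 : 1 / r < 9 / 5 := by rw [div_lt_iff₀ hr0]; linarith
    rcases le_or_gt s (10 / 17) with g | g
    · linarith [X2_le_a hs0 g]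
    rcases le_or_gt s (7 / 10) with g1 | g1
    · linarith [X2_le_b g g1]
    · rw [X2_5 g1 (by linarith)]; linarith
  · rw [X2_3 h1 h2, e3]
    have k1 : 21 / 13 ≤ 1 / r := by rw [le_div_iff₀ hr0]; linarith
    have k2 : 1 / r < 17 / 10 := by rw [div_lt_iff₀ hr0]; linarith
    rcases le_or_gt s (10 / 17) with g | g
    · linarith [X2_le_a hs0 g]
    · linarith [X2_le_b g (by linarith)]
  · rw [X2_4 h1 h2]
    have k2 : 1 / r < 21 / 13 := by rw [div_lt_iff₀ hr0]; linarith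
    have gs : s < 8 / 13 := by linarith
    rcases X2_ranges s with g | ⟨g, g'⟩ | ⟨g, g'⟩ | ⟨g, g'⟩ | ⟨g, g'⟩ | ⟨g, g'⟩ | g
    · rw [X2_0 g]; linarith
    · rw [X2_1 g g']
      have : 9 / 5 ≤ 1 / s := by rw [le_div_iff₀ hs0]; linarith
      linarith
    · have e4 : 2 / s = 2 * (1 / s) := by ring
      rw [X2_2 g g', e4]
      have k3 : 17 / 10 ≤ 1 / s := by rw [le_div_iff₀ hs0]; linarith
      have k4 : r * (14 / 9) ≤ 1 := le_trans (mul_le_mul_of_nonneg_left (by linarith) hr0.le) h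
      linarith
    · have e4 : 6 / 5 / s = 6 / 5 * (1 / s) := by ring
      rw [X2_3 g g', e4]
      -- `r ≤ 1 / (1 + s) ≤ 1 / s - 1`, as `s (1 + s) ≤ 1`
      have k3 : r ≤ 1 / s - 1 := by
        have k4 : s * (1 + s) ≤ 1 := by nlinarith
        have k5 : r * (1 + s) ≤ (1 / s - 1) * (1 + s) := by
          have : (1 / s - 1) * (1 + s) = 1 / s - s + (s * (1 / s) - 1) := by ring
          rw [this, hss]
          have k6 : 1 + s ≤ 1 / s := by rw [le_div_iff₀ hs0]; linarith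
          linarith
        exact le_of_mul_le_mul_right k5 (by linarith)
      linarith
    all_goals exfalso; linarith
  · have k2 : 1 / r < 10 / 7 := by rw [div_lt_iff₀ hr0]; linarith
    rw [X2_0 (show s ≤ 1 / 2 by linarith)]
    linarith [X2_le_one hr0 hr]
  · have k2 : 1 / r < 5 / 4 := by rw [div_lt_iff₀ hr0]; linarith
    rw [X2_0 (show s ≤ 1 / 2 by linarith)]
    linarith [X2_le_one hr0 hr]

end Pool.Agent.UniM
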