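import Pool.Agent.UniM.BT
import Pool.Agent.UniM.Const
import Pool.Agent.UniM.P2X

/-!
# UniM / P2Rec: part P2 from the closure step (MP_346bfe_co)

For a rooted tree `t` the accumulated sums over the children `c` of its root are
`Wd t = ∑ log₂ (1 + R c)`, `Sd t = ∑ ζ c`, `Ed t = ∑ ε c`, `Td t = ∑ τ c`.
-/

namespace Pool.Agent.UniM

/-- sum over the children of `logb 2 (1 + R)` -/
noncomputable def Wd : BT → ℝ
  | BT.leaf => 0
  | BT.join a b => Wd a + Real.logb 2 (1 + BT.R b)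

theorem Wd_nonneg (t : BT) : 0 ≤ Wd t := by
  induction t with
  | leaf => exact le_rfl
  | join a b ha hb =>
    show 0 ≤ Wd a + Real.logb 2 (1 + BT.R b)
    have h1 := BT.R_pos b
    have h2 : 0 < Real.logb 2 (1 + BT.R b) := Real.logb_pos (by norm_num) (by linarith)
    linarith

theorem R2_zero : R2 0 = 1 := by simp [R2]

theorem R_eq (t : BT) : BT.R t = R2 (Wd t) := by
  induction t with
  | leaf => exact R2_zero.symm
  | join a b ha hb =>
    show BT.R a / (1 + BT.R b) = R2 (Wd a + Real.logb 2 (1 + BT.R b))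
    have h1 := BT.R_pos b
    rw [ha]
    unfold R2
    rw [neg_add, Real.rpow_add (by norm_num), Real.rpow_neg (by norm_num : (0 : ℝ) ≤ 2) (Real.logb 2 _),
      Real.rpow_logb (by norm_num) (by norm_num) (by linarith), div_eq_mul_inv]

/-- the sum of `ζ` over the children -/
noncomputable def Sd (t : BT) : ℝ := 1 - Wd t / 2 - ((BT.mm t).2 - (BT.mm t).1)

/-- the sum of `ε` over the children -/
noncomputable def Ed (X : BT → ℝ) (t : BT) : ℝ :=
  1 / 10 * (BT.lo t / Real.log 2) + 7 / 20 * (BT.bb X t).1 - (BT.vv t).1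

/-- the sum of `τ` over the children -/
noncomputable def Td (X : BT → ℝ) (t : BT) : ℝ :=
  1 / 10 * (BT.lo t / Real.log 2) + 7 / 20 * (BT.bb X t).2 - (BT.vv t).2

theorem l2_eq (t : BT) : l2 (Wd t) (Sd t) = (BT.mm t).2 - (BT.mm t).1 := by
  unfold l2 Sd; ring

theorem q2_eq (t : BT) : q2 (Wd t) = BT.q t := by
  unfold q2 BT.q; rw [R_eq t]

theorem w2_eq (t : BT) : w2 (Wd t) = Real.logb 2 (1 + BT.R t) := by
  unfold w2; rw [R_eq t]

/-- the value of `ε` for the whole tree -/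
theorem e2_eq (X : BT → ℝ) (hX : ∀ t, X t = X2 (BT.R t)) (t : BT) :
    e2 (Wd t) (Sd t) (Ed X t) (Td X t) =
      1 / 10 * ((BT.lo t + Real.log (1 + BT.R t)) / Real.log 2) + 7 / 20 * BT.bt X t - BT.vt t := by
  unfold e2
  rw [q2_eq, w2_eq, l2_eq, ← R_eq, ← hX]
  unfold Ed Td BT.bt BT.vt Real.logb
  ring

theorem Wd_join (a b : BT) : Wd (BT.join a b) = Wd a + w2 (Wd b) := by
  rw [w2_eq]; rfl

theorem Sd_join (a b : BT) : Sd (BT.join a b) = Sd a + z2 (Wd b) (Sd b) := by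
  have h : Sd (BT.join a b) = 1 - (Wd a + Real.logb 2 (1 + BT.R b)) / 2 -
      (((BT.mm a).2 + (BT.mm b).1) -
        ((BT.mm a).1 + ((1 - BT.q b) * (BT.mm b).1 + BT.q b * (BT.mm b).2))) := rfl
  rw [h]
  unfold z2
  rw [q2_eq, w2_eq, l2_eq]
  unfold Sd
  ring

theorem Ed_join (X : BT → ℝ) (hX : ∀ t, X t = X2 (BT.R t)) (a b : BT) :
    Ed X (BT.join a b) = Ed X a + e2 (Wd b) (Sd b) (Ed X b) (Td X b) := by
  have h : Ed X (BT.join a b) = 1 / 10 * ((BT.lo a + (BT.lo b + Real.log (1 + BT.R b))) / Real.log 2)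
      + 7 / 20 * ((BT.bb X a).1 + BT.bt X b) - ((BT.vv a).1 + BT.vt b) := rfl
  rw [h, e2_eq X hX]
  unfold Ed
  ring

theorem Td_join (X : BT → ℝ) (a b : BT) :
    Td X (BT.join a b) = Td X a + t2 (Wd b) (Ed X b) := by
  have h : Td X (BT.join a b) = 1 / 10 * ((BT.lo a + (BT.lo b + Real.log (1 + BT.R b))) / Real.log 2)
      + 7 / 20 * ((BT.bb X a).2 + (BT.bb X b).1) - ((BT.vv a).2 + (BT.vv b).1) := rfl
  rw [h]
  unfold t2
  rw [w2_eq]
  unfold Td Ed Real.logb
  ring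

theorem Inv.zero : Inv 0 0 0 0 := ⟨by norm_num, by norm_num, by norm_num, by norm_num⟩

/-- one quadratic inequality passes to sums -/
theorem quad_add {a b c w z e w' z' e' : ℝ} (ha : 0 ≤ a) (hw : 0 < w) (hw' : 0 < w')
    (h : a * z ^ 2 + b * z * w + c * w ^ 2 ≤ e * w)
    (h' : a * z' ^ 2 + b * z' * w' + c * w' ^ 2 ≤ e' * w') :
    a * (z + z') ^ 2 + b * (z + z') * (w + w') + c * (w + w') ^ 2 ≤ (e + e') * (w + w') := by
  have h1 : a * (z ^ 2 / w) + b * z + c * w ≤ e := by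
    have h2 : (a * (z ^ 2 / w) + b * z + c * w) * w ≤ e * w := by
      have h3 : (a * (z ^ 2 / w) + b * z + c * w) * w = a * z ^ 2 + b * z * w + c * w ^ 2 := by
        field_simp
      rw [h3]; exact h
    exact le_of_mul_le_mul_right h2 hw
  have h1' : a * (z' ^ 2 / w') + b * z' + c * w' ≤ e' := by
    have h2 : (a * (z' ^ 2 / w') + b * z' + c * w') * w' ≤ e' * w' := by
      have h3 : (a * (z' ^ 2 / w') + b * z' + c * w') * w' =
          a * z' ^ 2 + b * z' * w' + c * w' ^ 2 := by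
        field_simp
      rw [h3]; exact h'
    exact le_of_mul_le_mul_right h2 hw'
  have hs : 0 < w + w' := by linarith
  have h4 : (z + z') ^ 2 ≤ (z ^ 2 / w + z' ^ 2 / w') * (w + w') := by
    rw [div_add_div _ _ hw.ne' hw'.ne', div_mul_eq_mul_div, le_div_iff₀ (mul_pos hw hw')]
    nlinarith [sq_nonneg (z * w' - z' * w)]
  have h5 : a * (z + z') ^ 2 ≤ a * ((z ^ 2 / w + z' ^ 2 / w') * (w + w')) :=
    mul_le_mul_of_nonneg_left h4 ha
  have h6 : (a * (z ^ 2 / w) + b * z + c * w + (a * (z' ^ 2 / w') + b * z' + c * w')) * (w + w') ≤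
      (e + e') * (w + w') := mul_le_mul_of_nonneg_right (add_le_add h1 h1') hs.le
  calc a * (z + z') ^ 2 + b * (z + z') * (w + w') + c * (w + w') ^ 2
      ≤ a * ((z ^ 2 / w + z' ^ 2 / w') * (w + w')) + b * (z + z') * (w + w') + c * (w + w') ^ 2 := by
        linarith
    _ = (a * (z ^ 2 / w) + b * z + c * w + (a * (z' ^ 2 / w') + b * z' + c * w')) * (w + w') := by
        ring
    _ ≤ _ := h6

theorem Inv.add {w z e t w' z' e' t' : ℝ} (hw : 0 < w) (hw' : 0 < w') (h : Inv w z e t)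
    (h' : Inv w' z' e' t') : Inv (w + w') (z + z') (e + e') (t + t') := by
  refine ⟨?_, ?_, ?_, ?_⟩
  · exact quad_add (by norm_num) hw hw' h.i1 h'.i1
  · linarith [h.i2, h'.i2]
  · have h1 : 1 / 2 * z ^ 2 + (-(3 / 100)) * z * w + 99 / 1000 * w ^ 2 ≤ t * w := by
      linarith [h.i3]
    have h2 : 1 / 2 * z' ^ 2 + (-(3 / 100)) * z' * w' + 99 / 1000 * w' ^ 2 ≤ t' * w' := by
      linarith [h'.i3]
    have h3 := quad_add (by norm_num : (0 : ℝ) ≤ 1 / 2) hw hw' h1 h2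
    linarith
  · linarith [h.i4, h'.i4]

theorem Inv.e_nonneg {w z e t : ℝ} (hw : 0 < w) (h : Inv w z e t) : 0 ≤ e := by
  have h1 : 0 ≤ e * w := by nlinarith [h.i1, sq_nonneg (z + 13 / 116 * w), sq_nonneg w]
  exact nonneg_of_mul_nonneg_left h1 hw

theorem w2_pos (W : ℝ) : 0 < w2 W := by
  unfold w2 R2
  have : 0 < (2 : ℝ) ^ (-W) := Real.rpow_pos_of_pos (by norm_num) _
  exact Real.logb_pos (by norm_num) (by linarith)

/-- the invariants of a leaf -/
theorem clo_leaf : Inv (w2 0) (z2 0 0) (e2 0 0 0 0) (t2 0 0) := by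
  have hR : R2 0 = 1 := R2_zero
  have hw : w2 0 = 1 := by
    unfold w2
    rw [hR, show (1 : ℝ) + 1 = 2 by norm_num]
    exact Real.logb_self_eq_one (by norm_num)
  have hq : q2 0 = 1 / 2 := by unfold q2; rw [hR]; norm_num
  have hl : l2 0 0 = 1 := by unfold l2; norm_num
  have hz : z2 0 0 = 0 := by unfold z2; rw [hq, hl, hw]; norm_num
  have hX : X2 1 = 1 := X2_6 (by norm_num)
  have he : e2 0 0 0 0 = 1 / 40 := by
    unfold e2; rw [hq, hl, hw, hR, hX]; norm_num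
  have ht : t2 0 0 = 1 / 10 := by unfold t2; rw [hw]; norm_num
  rw [hw, hz, he, ht]
  exact ⟨by norm_num, by norm_num, by norm_num, by norm_num⟩

/-- The invariants hold for the children's sums of every tree. -/
theorem inv_tree (hclo : ∀ W : ℝ, 0 < W → Clo W) (X : BT → ℝ) (hX : ∀ t, X t = X2 (BT.R t)) :
    ∀ t : BT, Inv (Wd t) (Sd t) (Ed X t) (Td X t) ∧
      Inv (w2 (Wd t)) (z2 (Wd t) (Sd t)) (e2 (Wd t) (Sd t) (Ed X t) (Td X t)) (t2 (Wd t) (Ed X t)) ∧
      (Wd t = 0 → Sd t = 0 ∧ Ed X t = 0 ∧ Td X t = 0) := by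
  have key : ∀ t : BT, Inv (Wd t) (Sd t) (Ed X t) (Td X t) →
      (Wd t = 0 → Sd t = 0 ∧ Ed X t = 0 ∧ Td X t = 0) →
      Inv (w2 (Wd t)) (z2 (Wd t) (Sd t)) (e2 (Wd t) (Sd t) (Ed X t) (Td X t))
        (t2 (Wd t) (Ed X t)) := by
    intro t ht h0
    rcases (Wd_nonneg t).eq_or_lt with h | h
    · obtain ⟨h1, h2, h3⟩ := h0 h.symm
      rw [← h, h1, h2, h3]
      exact clo_leaf
    · exact hclo _ h _ _ _ ht
  intro t
  induction t with
  | leaf =>
    have h0 : Wd BT.leaf = 0 := rfl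
    have h1 : Sd BT.leaf = 0 := by
      show (1 : ℝ) - 0 / 2 - (1 - 0) = 0
      norm_num
    have h2 : Ed X BT.leaf = 0 := by
      show (1 : ℝ) / 10 * (0 / Real.log 2) + 7 / 20 * 0 - 0 = 0
      norm_num
    have h3 : Td X BT.leaf = 0 := by
      show (1 : ℝ) / 10 * (0 / Real.log 2) + 7 / 20 * 0 - 0 = 0
      norm_num
    have hI : Inv (Wd BT.leaf) (Sd BT.leaf) (Ed X BT.leaf) (Td X BT.leaf) := by
      rw [h0, h1, h2, h3]; exact Inv.zero
    exact ⟨hI, key _ hI (fun _ => ⟨h1, h2, h3⟩), fun _ => ⟨h1, h2, h3⟩⟩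
  | join a b ha hb =>
    have hI : Inv (Wd (BT.join a b)) (Sd (BT.join a b)) (Ed X (BT.join a b))
        (Td X (BT.join a b)) := by
      rw [Wd_join, Sd_join, Ed_join X hX, Td_join]
      rcases (Wd_nonneg a).eq_or_lt with h | h
      · obtain ⟨h1, h2, h3⟩ := ha.2.2 h.symm
        rw [← h, h1, h2, h3, zero_add, zero_add, zero_add, zero_add]
        exact hb.2.1
      · exact Inv.add h (w2_pos _) ha.1 hb.2.1
    have hpos : 0 < Wd (BT.join a b) := by
      rw [Wd_join]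
      linarith [Wd_nonneg a, w2_pos (Wd b)]
    have h0 : Wd (BT.join a b) = 0 → Sd (BT.join a b) = 0 ∧ Ed X (BT.join a b) = 0 ∧
        Td X (BT.join a b) = 0 := fun h => absurd h hpos.ne'
    exact ⟨hI, key _ hI h0, h0⟩

theorem R_child (t c : BT) (h : BT.IsChild c t) : BT.R t * (1 + BT.R c) ≤ 1 := by
  induction t with
  | leaf => exact absurd h id
  | join a b ha hb =>
    have hb0 := BT.R_pos b
    have ha0 := BT.R_pos a
    have hc0 := BT.R_pos c
    show BT.R a / (1 + BT.R b) * (1 + BT.R c) ≤ 1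
    rcases h with h | h
    · subst h
      have : BT.R a / (1 + BT.R c) * (1 + BT.R c) = BT.R a := by field_simp
      rw [this]; exact BT.R_le_one a
    · have h1 := ha h
      have h2 : BT.R a / (1 + BT.R b) ≤ BT.R a := div_le_self ha0.le (by linarith)
      exact le_trans (mul_le_mul_of_nonneg_right h2 (by linarith)) h1

theorem admX2 : AdmX (fun t => X2 (BT.R t)) where
  nn t := X2_nonneg (BT.R_pos t)
  le t := X2_le_one (BT.R_pos t) (BT.R_le_one t)
  child t c h := X2_add_le (BT.R_pos t) (BT.R_le_one t) (BT.R_pos c) (BT.R_le_one c) (R_child t c h)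

/-- Part P2 from the closure step. -/
theorem p2_of_clo (hclo : ∀ W : ℝ, 0 < W → Clo W) : ∃ X : BT → ℝ, AdmX X ∧ ∀ t : BT,
    BT.vt t ≤ k1 * ((BT.lo t + Real.log (1 + BT.R t)) / Real.log 2) +
      (1 / 4 + k2 - k1) * (2 * BT.bt X t) := by
  refine ⟨fun t => X2 (BT.R t), admX2, fun t => ?_⟩
  have h := (inv_tree hclo (fun t => X2 (BT.R t)) (fun _ => rfl) t).2.1
  have h1 := Inv.e_nonneg (w2_pos _) h
  rw [e2_eq _ (fun _ => rfl)] at h1
  unfold k1 k2
  linarith

end Pool.Agent.UniM
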