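import Mathlib

/-!
# UniM / P2Def: the data of the closure step of P2 (MP_346bfe_co)

`W` is the sum of `log₂ (1 + R_c)` over the children, `S`, `E`, `T` are the sums of `ζ_c`, `ε_c`, `τ_c`.
-/

namespace Pool.Agent.UniM

/-- the weight of a vertex with ratio `r` -/
noncomputable def X2 (r : ℝ) : ℝ :=
  if r ≤ 1 / 2 then 0 else if r ≤ 5 / 9 then 2 - 1 / r else if r ≤ 10 / 17 then 19 / 5 - 2 / r
  else if r ≤ 13 / 21 then 61 / 25 - 6 / 5 / r else if r ≤ 7 / 10 then 6 / 5 * r - 6 / 25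
  else if r ≤ 4 / 5 then 2 * r - 4 / 5 else r

/-- ratio -/
noncomputable def R2 (W : ℝ) : ℝ := (2 : ℝ) ^ (-W)

/-- occupation probability -/
noncomputable def q2 (W : ℝ) : ℝ := R2 W / (1 + R2 W)

/-- logarithm of `1 + R` in base 2 -/
noncomputable def w2 (W : ℝ) : ℝ := Real.logb 2 (1 + R2 W)

/-- difference of the two conditional means -/
noncomputable def l2 (W S : ℝ) : ℝ := 1 - W / 2 - S

/-- `ζ` -/
noncomputable def z2 (W S : ℝ) : ℝ := q2 W * l2 W S - w2 W / 2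

/-- `ε` -/
noncomputable def e2 (W S E T : ℝ) : ℝ :=
  1 / 10 * w2 W + (1 - q2 W) * E + q2 W * (7 / 20 * X2 (R2 W) + T) - q2 W * (1 - q2 W) * l2 W S ^ 2

/-- `τ` -/
noncomputable def t2 (W E : ℝ) : ℝ := 1 / 10 * w2 W + E

/-- The invariants of a vertex (or of a sum over vertices) with data `w, ζ, ε, τ`. -/
structure Inv (w z e t : ℝ) : Prop where
  i1 : 29 / 50 * z ^ 2 + 13 / 100 * z * w + 1 / 40 * w ^ 2 ≤ e * w
  i2 : -(16 / 25) * z - 7 / 100 * w ≤ e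
  i3 : 1 / 2 * z ^ 2 - 3 / 100 * z * w + 99 / 1000 * w ^ 2 ≤ t * w
  i4 : 163 / 100 * z + 11 / 125 * w ≤ t

/-- The closure step at `W`. -/
def Clo (W : ℝ) : Prop :=
  ∀ S E T : ℝ, Inv W S E T → Inv (w2 W) (z2 W S) (e2 W S E T) (t2 W E)

end Pool.Agent.UniM
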