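import Mathlib
import Pool.Agent.UniM.P2Def

/-!
# UniM / P2Small: the closure step for small `W` (MP_346bfe_co)

`0 < W ≤ 1/40`. Write `x = W`, `S = s x`, `q = 1/2 - c x`, `w = 1 - ω x`; then `17/100 ≤ c ≤ 1749/10000`,
`491/1000 ≤ ω ≤ 1/2`, `X2 R = R`, `q R ≥ 1/2 - 3 c x`, `z = - x y` with
`y = (1/2 - c x) s + (1/4 - ω/2 + c - c x/2)`. All four inequalities reduce to quadratic inequalities in `s`.
-/

namespace Pool.Agent.UniM

namespace Small

theorem quad {A B C s : ℝ} (hA : 0 < A) (h : B ^ 2 ≤ 4 * A * C) : 0 ≤ A * s ^ 2 + B * s + C := by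
  have h1 : 0 ≤ (2 * A * s + B) ^ 2 := sq_nonneg _
  have h2 : 0 ≤ 4 * A * (A * s ^ 2 + B * s + C) := by nlinarith
  exact nonneg_of_mul_nonneg_right h2 (by positivity)

/-- bounds for the functions of `W` -/
theorem data {x : ℝ} (hx : 0 < x) (hx1 : x ≤ 1 / 40) :
    ∃ c ω : ℝ, 17 / 100 ≤ c ∧ c ≤ 1749 / 10000 ∧ 491 / 1000 ≤ ω ∧ ω ≤ 1 / 2 ∧
      q2 x = 1 / 2 - c * x ∧ w2 x = 1 - ω * x ∧ X2 (R2 x) = R2 x ∧
      1 / 2 - 3 * (c * x) ≤ q2 x * R2 x := by
  have ha1 := Real.log_two_gt_d9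
  have ha2 := Real.log_two_lt_d9
  set a := Real.log 2 with ha
  have hR : R2 x = Real.exp (-(a * x)) := by
    rw [R2, Real.rpow_def_of_pos (by norm_num), ← ha]
    congr 1; ring
  set u := a * x with hu
  have hu0 : 0 < u := by positivity
  have hu1 : u ≤ 6932 / 10000 * x := by nlinarith
  have hu2 : 6931 / 10000 * x ≤ u := by nlinarith
  have hRlo : 1 - u ≤ R2 x := by
    rw [hR]
    have := Real.add_one_le_exp (-u)
    linarith
  have hRpos : 0 < R2 x := by rw [hR]; exact Real.exp_pos _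
  have hRhi : R2 x * (1 + u) ≤ 1 := by
    rw [hR]
    have h1 := Real.add_one_le_exp u
    have h2 : Real.exp (-u) * Real.exp u = 1 := by rw [← Real.exp_add]; simp
    calc Real.exp (-u) * (1 + u) ≤ Real.exp (-u) * Real.exp u :=
          mul_le_mul_of_nonneg_left (by linarith) (Real.exp_pos _).le
      _ = 1 := h2
  have hRhi' : R2 x ≤ 1 - u * (1 - u) := by
    have h3 : 0 < 1 + u := by linarith
    have h4 : R2 x ≤ 1 / (1 + u) := by rw [le_div_iff₀ h3]; exact hRhi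
    refine h4.trans ?_
    rw [div_le_iff₀ h3]
    nlinarith [pow_pos hu0 3]
  set R := R2 x with hRdef
  have hR1 : R < 1 := by nlinarith
  -- c
  refine ⟨(1 / 2 - q2 x) / x, (1 - w2 x) / x, ?_, ?_, ?_, ?_, ?_, ?_, ?_, ?_⟩
  · rw [le_div_iff₀ hx, q2, ← hRdef]
    have h1R : 0 < 1 + R := by linarith
    have e : 1 / 2 - R / (1 + R) = (1 - R) / (2 * (1 + R)) := by field_simp; ring
    rw [e, le_div_iff₀ (by positivity)]
    nlinarith
  · rw [div_le_iff₀ hx, q2, ← hRdef]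
    have h1R : 0 < 1 + R := by linarith
    have e : 1 / 2 - R / (1 + R) = (1 - R) / (2 * (1 + R)) := by field_simp; ring
    rw [e, div_le_iff₀ (by positivity)]
    nlinarith
  · rw [le_div_iff₀ hx]
    -- w ≤ 1 - (1-R)/(2a)
    have h1 : Real.log (1 + R) ≤ a + (R - 1) / 2 := by
      have h2 : 1 + R = 2 * (1 + (R - 1) / 2) := by ring
      rw [h2, Real.log_mul (by norm_num) (by nlinarith), ← ha]
      have h3 := Real.log_le_sub_one_of_pos (show 0 < 1 + (R - 1) / 2 by nlinarith)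
      linarith
    have hw : w2 x = Real.log (1 + R) / a := by rw [w2, Real.logb, ← hRdef, ← ha]
    rw [hw]
    have ha0 : 0 < a := by linarith
    have h4 : Real.log (1 + R) / a ≤ 1 + (R - 1) / (2 * a) := by
      rw [div_le_iff₀ ha0]
      have : (1 + (R - 1) / (2 * a)) * a = a + (R - 1) / 2 := by field_simp
      rw [this]; exact h1
    have h5 : (R - 1) / (2 * a) ≤ -(491 / 1000 * x) := by
      rw [div_le_iff₀ (by positivity)]
      have h6 : R - 1 ≤ -(u * (1 - u)) := by linarith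
      have h7 : u * (1 - u) ≥ 491 / 1000 * (2 * u) := by nlinarith
      have h8 : -(491 / 1000 * x) * (2 * a) = -(491 / 1000 * (2 * u)) := by rw [hu]; ring
      rw [h8]; linarith
    linarith
  · rw [div_le_iff₀ hx]
    -- w ≥ 1 - x/2
    have hw : w2 x = Real.log (1 + R) / a := by rw [w2, Real.logb, ← hRdef, ← ha]
    have ha0 : 0 < a := by linarith
    have h1 : a * (1 - x / 2) ≤ Real.log (1 + R) := by
      rw [Real.le_log_iff_exp_le (by linarith)]
      have h2 : Real.exp (a * (1 - x / 2)) = 2 * Real.exp (-(u / 2)) := by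
        have : a * (1 - x / 2) = a + -(u / 2) := by rw [hu]; ring
        rw [this, Real.exp_add, ha, Real.exp_log (by norm_num)]
      have h3 : R = Real.exp (-(u / 2)) ^ 2 := by
        rw [← Real.exp_nat_mul, hR]
        congr 1; push_cast; ring
      rw [h2, h3]
      nlinarith [sq_nonneg (Real.exp (-(u / 2)) - 1)]
    rw [hw]
    have h4 : 1 - x / 2 ≤ Real.log (1 + R) / a := by
      rw [le_div_iff₀ ha0]; linarith
    linarith
  · field_simp; ring
  · field_simp; ring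
  · have h45 : 4 / 5 < R := by nlinarith
    unfold X2
    rw [if_neg (by linarith), if_neg (by linarith), if_neg (by linarith), if_neg (by linarith),
      if_neg (by linarith), if_neg (by linarith)]
  · have e : (1 / 2 - q2 x) / x * x = 1 / 2 - q2 x := by field_simp
    rw [e, q2, ← hRdef]
    have h1R : 0 < 1 + R := by linarith
    have e2 : R / (1 + R) * R - (1 / 2 - 3 * (1 / 2 - R / (1 + R))) = (1 - R) ^ 2 / (1 + R) := by
      field_simp; ring
    have : 0 ≤ (1 - R) ^ 2 / (1 + R) := by positivity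
    linarith

/-- bounds for the coefficients of `y = y1 s + y0` -/
structure Par (x c ω y1 y0 : ℝ) : Prop where
  hx : 0 < x
  hx1 : x ≤ 1 / 40
  hc1 : 17 / 100 ≤ c
  hc2 : c ≤ 1749 / 10000
  hω1 : 491 / 1000 ≤ ω
  hω2 : ω ≤ 1 / 2
  hcx0 : 0 < c * x
  hcx1 : c * x ≤ 44 / 10000
  hy1 : y1 = 1 / 2 - c * x
  hy0 : y0 = 1 / 4 - ω / 2 + c - c * x / 2
  hy1a : 4955 / 10000 ≤ y1
  hy1b : y1 ≤ 1 / 2
  hy0a : 1677 / 10000 ≤ y0
  hy0b : y0 ≤ 18 / 100
  p1 : x * y1 ^ 2 ≤ 1 / 160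
  p2 : 0 ≤ x * y1 * y0
  p3 : x * y1 * y0 ≤ 1 / 40 * (1 / 2) * (18 / 100)
  p4 : x * y0 ^ 2 ≤ 1 / 40 * (18 / 100) ^ 2

theorem par {x c ω : ℝ} (hx : 0 < x) (hx1 : x ≤ 1 / 40) (hc1 : 17 / 100 ≤ c)
    (hc2 : c ≤ 1749 / 10000) (hω1 : 491 / 1000 ≤ ω) (hω2 : ω ≤ 1 / 2) :
    Par x c ω (1 / 2 - c * x) (1 / 4 - ω / 2 + c - c * x / 2) := by
  have hcx0 : 0 < c * x := by positivity
  have hcx1 : c * x ≤ 44 / 10000 := by nlinarith
  have a1 : 4955 / 10000 ≤ 1 / 2 - c * x := by linarith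
  have a2 : 1 / 2 - c * x ≤ 1 / 2 := by linarith
  have a3 : 1677 / 10000 ≤ 1 / 4 - ω / 2 + c - c * x / 2 := by linarith
  have a4 : 1 / 4 - ω / 2 + c - c * x / 2 ≤ 18 / 100 := by linarith
  refine ⟨hx, hx1, hc1, hc2, hω1, hω2, hcx0, hcx1, rfl, rfl, a1, a2, a3, a4, ?_, ?_, ?_, ?_⟩
  · have h1 : (1 / 2 - c * x) ^ 2 ≤ (1 / 2) ^ 2 := pow_le_pow_left₀ (by linarith) a2 2
    calc x * (1 / 2 - c * x) ^ 2 ≤ 1 / 40 * (1 / 2) ^ 2 :=
          mul_le_mul hx1 h1 (sq_nonneg _) (by norm_num)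
      _ = 1 / 160 := by norm_num
  · exact mul_nonneg (mul_nonneg hx.le (by linarith)) (by linarith)
  · exact mul_le_mul (mul_le_mul hx1 a2 (by linarith) (by norm_num)) a4 (by linarith) (by norm_num)
  · exact mul_le_mul hx1 (pow_le_pow_left₀ (by linarith) a4 2) (sq_nonneg _) (by norm_num)

/-- the lower bound of `(e - 1/40) / x` -/
noncomputable def bet (x c ω s : ℝ) : ℝ := -(ω / 10) + (1 / 2 + c * x) * (-(16 / 25) * s - 7 / 100) -
  21 / 20 * c + (1 / 2 - c * x) * (1 / 2 * s ^ 2 - 3 / 100 * s + 99 / 1000) + (s + 1 / 2) / 2 -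
  x * (s + 1 / 2) ^ 2 / 4

theorem prod_bd {A B C a b c : ℝ} (ha : 0 < a) (hc : 0 ≤ c) (hA : a ≤ A) (hB : B ^ 2 ≤ b) (hC : c ≤ C)
    (h : b ≤ 4 * a * c) : B ^ 2 ≤ 4 * A * C := by
  have h1 : a * c ≤ A * C := mul_le_mul hA hC hc (by linarith)
  linarith

theorem core1 {x c ω y1 y0 s : ℝ} (h : Par x c ω y1 y0) :
    3 / 5 * x * (y1 * s + y0) ^ 2 ≤ 1 / 40 * ω + bet x c ω s + 13 / 100 * (y1 * s + y0) := by
  obtain ⟨hx, hx1, hc1, hc2, hω1, hω2, hcx0, hcx1, hy1, hy0, hy1a, hy1b, hy0a, hy0b, p1, p2, p3,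
    p4⟩ := h
  have hkey := quad (s := s) (A := 1 / 4 - 1 / 2 * (c * x) - x / 4 - 3 / 5 * (x * y1 ^ 2))
        (B := 23 / 100 - 74 / 100 * (c * x) - x / 4 - 6 / 5 * (x * y1 * y0))
        (C := 2645 / 10000 - 75 / 1000 * ω - 21 / 20 * c - 169 / 1000 * (c * x) - x / 16 +
          13 / 100 * y0 - 3 / 5 * (x * y0 ^ 2)) (by linarith) ?_
  · have e : 1 / 40 * ω + bet x c ω s + 13 / 100 * (y1 * s + y0) -
          3 / 5 * x * (y1 * s + y0) ^ 2 =
          (1 / 4 - 1 / 2 * (c * x) - x / 4 - 3 / 5 * (x * y1 ^ 2)) * s ^ 2 +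
          (23 / 100 - 74 / 100 * (c * x) - x / 4 - 6 / 5 * (x * y1 * y0)) * s +
          (2645 / 10000 - 75 / 1000 * ω - 21 / 20 * c - 169 / 1000 * (c * x) - x / 16 +
          13 / 100 * y0 - 3 / 5 * (x * y0 ^ 2)) := by
      rw [bet, hy1]; ring
    linarith
  · refine prod_bd (a := 2375 / 10000) (b := (23 / 100) ^ 2) (c := 625 / 10000) (by norm_num)
      (by norm_num) (by linarith) (pow_le_pow_left₀ (by linarith) (by linarith) 2) ?_ (by norm_num)
    rw [hy0] at p4 ⊢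
    linarith

theorem core2 {x c ω y1 y0 s : ℝ} (h : Par x c ω y1 y0) :
    0 ≤ bet x c ω s - 7 / 100 * ω - 16 / 25 * (y1 * s + y0) + 1 := by
  obtain ⟨hx, hx1, hc1, hc2, hω1, hω2, hcx0, hcx1, hy1, hy0, hy1a, hy1b, hy0a, hy0b, p1, p2, p3,
    p4⟩ := h
  have hkey := quad (s := s) (A := 1 / 4 - 1 / 2 * (c * x) - x / 4)
        (B := -(155 / 1000) - x / 4 + 3 / 100 * (c * x))
        (C := 2645 / 10000 - 17 / 100 * ω - 21 / 20 * c - 169 / 1000 * (c * x) - x / 16 -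
          16 / 25 * y0 + 1) (by linarith) ?_
  · have h1 : bet x c ω s - 7 / 100 * ω - 16 / 25 * (y1 * s + y0) + 1 =
        (1 / 4 - 1 / 2 * (c * x) - x / 4) * s ^ 2 +
        (-(155 / 1000) - x / 4 + 3 / 100 * (c * x)) * s + (2645 / 10000 - 17 / 100 * ω -
          21 / 20 * c - 169 / 1000 * (c * x) - x / 16 - 16 / 25 * y0 + 1) := by
      rw [bet, hy1]; ring
    linarith
  · refine prod_bd (a := 24 / 100) (b := (17 / 100) ^ 2) (c := 8 / 10) (by norm_num)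
      (by norm_num) (by linarith) ?_ (by linarith) (by norm_num)
    exact sq_le_sq' (by linarith) (by linarith)

theorem core3 {x c ω y1 y0 s : ℝ} (h : Par x c ω y1 y0) :
    51 / 100 * x * (y1 * s + y0) ^ 2 ≤
      29 / 50 * s ^ 2 + 13 / 100 * s + 1 / 40 - 3 / 100 * (y1 * s + y0) := by
  obtain ⟨hx, hx1, hc1, hc2, hω1, hω2, hcx0, hcx1, hy1, hy0, hy1a, hy1b, hy0a, hy0b, p1, p2, p3,
    p4⟩ := h
  have hkey := quad (s := s) (A := 29 / 50 - 51 / 100 * (x * y1 ^ 2))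
        (B := 13 / 100 - 3 / 100 * y1 - 51 / 50 * (x * y1 * y0))
        (C := 1 / 40 - 3 / 100 * y0 - 51 / 100 * (x * y0 ^ 2)) (by linarith) ?_
  · have h1 : 29 / 50 * s ^ 2 + 13 / 100 * s + 1 / 40 - 3 / 100 * (y1 * s + y0) -
          51 / 100 * x * (y1 * s + y0) ^ 2 =
          (29 / 50 - 51 / 100 * (x * y1 ^ 2)) * s ^ 2 +
          (13 / 100 - 3 / 100 * y1 - 51 / 50 * (x * y1 * y0)) * s +
          (1 / 40 - 3 / 100 * y0 - 51 / 100 * (x * y0 ^ 2)) := by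
      ring
    linarith
  · refine prod_bd (a := 57 / 100) (b := (13 / 100) ^ 2) (c := 19 / 1000) (by norm_num)
      (by norm_num) (by linarith) (pow_le_pow_left₀ (by linarith) (by linarith) 2) (by linarith)
      (by norm_num)

theorem core4 {x c ω y1 y0 s : ℝ} (h : Par x c ω y1 y0) :
    0 ≤ 29 / 50 * s ^ 2 + 13 / 100 * s + 1 / 40 + 163 / 100 * (y1 * s + y0) + 1 / 5 := by
  obtain ⟨hx, hx1, hc1, hc2, hω1, hω2, hcx0, hcx1, hy1, hy0, hy1a, hy1b, hy0a, hy0b, p1, p2, p3,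
    p4⟩ := h
  have hkey := quad (s := s) (A := 29 / 50) (B := 13 / 100 + 163 / 100 * y1)
        (C := 1 / 40 + 163 / 100 * y0 + 1 / 5) (by norm_num) ?_
  · have h1 : 29 / 50 * s ^ 2 + 13 / 100 * s + 1 / 40 + 163 / 100 * (y1 * s + y0) + 1 / 5 =
        29 / 50 * s ^ 2 + (13 / 100 + 163 / 100 * y1) * s + (1 / 40 + 163 / 100 * y0 + 1 / 5) := by
      ring
    linarith
  · refine prod_bd (a := 29 / 50) (b := (945 / 1000) ^ 2) (c := 49 / 100) (by norm_num)
      (by norm_num) le_rfl (pow_le_pow_left₀ (by linarith) (by linarith) 2) (by linarith)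
      (by norm_num)

end Small

open Pool.Agent.UniM.Small

theorem clo_small : ∀ W : ℝ, 0 < W → W ≤ 1 / 40 → Clo W := by
  intro x hx hx1 S E T hI
  obtain ⟨c, ω, hc1, hc2, hω1, hω2, hq, hw, hX, hqR⟩ := data hx hx1
  obtain ⟨s, rfl⟩ : ∃ s, S = s * x := ⟨S / x, by field_simp⟩
  -- the two bounds for E, one for T
  have hE1 : x * (29 / 50 * s ^ 2 + 13 / 100 * s + 1 / 40) ≤ E := by
    have h := hI.i1
    have h' : (x * (29 / 50 * s ^ 2 + 13 / 100 * s + 1 / 40)) * x ≤ E * x := by linarith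
    exact le_of_mul_le_mul_right h' hx
  have hE2 : x * (-(16 / 25) * s - 7 / 100) ≤ E := by
    have h := hI.i2
    linarith
  have hT : x * (1 / 2 * s ^ 2 - 3 / 100 * s + 99 / 1000) ≤ T := by
    have h := hI.i3
    have h' : (x * (1 / 2 * s ^ 2 - 3 / 100 * s + 99 / 1000)) * x ≤ T * x := by linarith
    exact le_of_mul_le_mul_right h' hx
  have hp := par hx hx1 hc1 hc2 hω1 hω2
  have k1 := core1 (s := s) hp
  have k2 := core2 (s := s) hp
  have k3 := core3 (s := s) hp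
  have k4 := core4 (s := s) hp
  have hz : z2 x (s * x) = -(x * ((1 / 2 - c * x) * s + (1 / 4 - ω / 2 + c - c * x / 2))) := by
    rw [z2, l2, hq, hw]; ring
  have hcx0 := hp.hcx0
  have hcx1 := hp.hcx1
  -- lower bound for e
  have he : 1 / 40 + x * bet x c ω s ≤ e2 x (s * x) E T := by
    rw [e2, l2, hX, hw]
    have h3 : (1 / 2 - c * x) * (x * (1 / 2 * s ^ 2 - 3 / 100 * s + 99 / 1000)) ≤ q2 x * T := by
      rw [hq]; exact mul_le_mul_of_nonneg_left hT (by linarith)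
    have h5 : (1 / 2 + c * x) * (x * (-(16 / 25) * s - 7 / 100)) ≤ (1 - q2 x) * E := by
      have h6 : 1 - q2 x = 1 / 2 + c * x := by rw [hq]; ring
      rw [h6]; exact mul_le_mul_of_nonneg_left hE2 (by linarith)
    have h7 : q2 x * (1 - q2 x) * (1 - x / 2 - s * x) ^ 2 ≤ 1 / 4 * (1 - x / 2 - s * x) ^ 2 := by
      apply mul_le_mul_of_nonneg_right _ (sq_nonneg _)
      have := sq_nonneg (q2 x - 1 / 2)
      linarith
    generalize q2 x * (1 - q2 x) * (1 - x / 2 - s * x) ^ 2 = Q at h7 ⊢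
    have e1 : q2 x * (7 / 20 * R2 x + T) = 7 / 20 * (q2 x * R2 x) + q2 x * T := by ring
    rw [e1]
    generalize q2 x * R2 x = Q1 at hqR ⊢
    generalize q2 x * T = Q2 at h3 ⊢
    generalize (1 - q2 x) * E = Q3 at h5 ⊢
    have e2 : 1 / 40 + x * bet x c ω s = 1 / 10 * (1 - ω * x) +
        (1 / 2 + c * x) * (x * (-(16 / 25) * s - 7 / 100)) +
        (7 / 20 * (1 / 2 - 3 * (c * x)) +
          (1 / 2 - c * x) * (x * (1 / 2 * s ^ 2 - 3 / 100 * s + 99 / 1000))) -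
        1 / 4 * (1 - x / 2 - s * x) ^ 2 := by
      rw [bet]; ring
    rw [e2]
    linarith
  have hwpos : 79 / 80 ≤ w2 x := by
    rw [hw]
    have : ω * x ≤ 1 / 2 * (1 / 40) := mul_le_mul hω2 hx1 hx.le (by norm_num)
    linarith
  clear hI hq hqR hX hT hE2 hcx0 hcx1
  rw [hz]
  generalize bet x c ω s = β at k1 k2 he
  generalize (1 / 2 - c * x) * s + (1 / 4 - ω / 2 + c - c * x / 2) = y at k1 k2 k3 k4 ⊢
  generalize e2 x (s * x) E T = e at he ⊢
  rw [t2]
  generalize w2 x = w at hw hwpos ⊢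
  have hxy : 0 ≤ x * y ^ 2 := by positivity
  refine ⟨?_, ?_, ?_, ?_⟩
  · -- (i1)
    have h2 : 29 / 50 * (x * y ^ 2) ≤ w * (1 / 40 * ω + β + 13 / 100 * y) := by
      have h1 : w * (3 / 5 * x * y ^ 2) ≤ w * (1 / 40 * ω + β + 13 / 100 * y) :=
        mul_le_mul_of_nonneg_left k1 (by linarith)
      have h0 : 79 / 80 * (3 / 5 * (x * y ^ 2)) ≤ w * (3 / 5 * (x * y ^ 2)) :=
        mul_le_mul_of_nonneg_right hwpos (by positivity)
      have e0 : w * (3 / 5 * x * y ^ 2) = w * (3 / 5 * (x * y ^ 2)) := by ring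
      linarith
    have h3 := mul_le_mul_of_nonneg_left h2 hx.le
    have h4 : (1 / 40 + x * β) * w ≤ e * w :=
      mul_le_mul_of_nonneg_right he (by linarith)
    have h5 : 1 / 40 * w ^ 2 = 1 / 40 * (w * (1 - ω * x)) := by rw [← hw]; ring
    rw [h5]
    linarith
  · -- (i2)
    have h2 := mul_nonneg hx.le k2
    rw [hw]
    linarith
  · -- (i3)
    have h3 : 1 / 2 * (x * y ^ 2) ≤
        w * (29 / 50 * s ^ 2 + 13 / 100 * s + 1 / 40 - 3 / 100 * y) := by
      have h2 := mul_le_mul_of_nonneg_left k3 (show 0 ≤ w by linarith)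
      have h0 : 79 / 80 * (51 / 100 * (x * y ^ 2)) ≤ w * (51 / 100 * (x * y ^ 2)) :=
        mul_le_mul_of_nonneg_right hwpos (by positivity)
      have e0 : w * (51 / 100 * x * y ^ 2) = w * (51 / 100 * (x * y ^ 2)) := by ring
      linarith
    have h4 := mul_le_mul_of_nonneg_left h3 hx.le
    have h5 : w * (x * (29 / 50 * s ^ 2 + 13 / 100 * s + 1 / 40)) ≤ w * E :=
      mul_le_mul_of_nonneg_left hE1 (by linarith)
    have h6 := sq_nonneg w
    linarith
  · -- (i4)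
    have h2 := mul_nonneg hx.le k4
    linarith

end Pool.Agent.UniM
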