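import Pool.Agent.UniM.BT
import Pool.Agent.UniM.Const
import Pool.Agent.UniM.P2Rec
import Pool.Agent.UniM.P2Small
import Pool.Agent.UniM.P2Mid
import Pool.Agent.UniM.P2Large

/-!
# UniM / P2: the variance inequality for rooted trees (part P2)
-/

namespace Pool.Agent.UniM

theorem p2_exists : ∃ X : BT → ℝ, AdmX X ∧ ∀ t : BT,
    BT.vt t ≤ k1 * ((BT.lo t + Real.log (1 + BT.R t)) / Real.log 2) +
      (1 / 4 + k2 - k1) * (2 * BT.bt X t) := by
  refine p2_of_clo fun W hW => ?_
  rcases le_total W (1 / 40) with h | h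
  · exact clo_small W hW h
  · rcases le_total W 10 with h' | h'
    · exact clo_mid W h h'
    · exact clo_large W h'

end Pool.Agent.UniM
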