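import Mathlib

/-!
# Unimodality of independence sequences of forests, part P3: definitions

`ch f j` is the binomial coefficient with an integer lower index, `PsA f j` and `PsB f j` are the second
difference and minus the first difference of `j ↦ ch f j / 2 ^ f`. A law is a finite probability space
with a random natural number `f` (number of hidden coins), `2 ^ f ≤ P`, with exponential moments.
-/

set_option autoImplicit false

namespace Pool.Agent.UniM

/-- binomial coefficient with an integer lower index -/
def ch (f : ℕ) (j : ℤ) : ℕ := if j < 0 then 0 else f.choose j.toNat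

/-- normalised second difference of the binomial coefficients -/
noncomputable def PsA (f : ℕ) (j : ℤ) : ℝ :=
  ((ch f (j + 1) : ℝ) - 2 * ch f j + ch f (j - 1)) / 2 ^ f

/-- normalised (negative) first difference of the binomial coefficients -/
noncomputable def PsB (f : ℕ) (j : ℤ) : ℝ := ((ch f j : ℝ) - ch f (j + 1)) / 2 ^ f

/-- law of the number of hidden coins -/
structure Law {ι : Type*} (P : ℕ) (s : Finset ι) (p : ι → ℝ) (f : ι → ℕ) : Prop where
  nn : ∀ i ∈ s, 0 ≤ p i
  sum : ∑ i ∈ s, p i = 1
  le : ∀ i ∈ s, 2 ^ f i ≤ P
  tail : ∀ θ : ℝ, 0 < θ → θ ≤ 1 →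
    ∑ i ∈ s, p i * θ ^ f i ≤ ((1 + 2 * θ) / 3) ^ Real.logb 3 P

/-- largest distance of the means that occurs in the induction -/
noncomputable def dmax (P : ℕ) : ℝ := 2 / 3 * (1 + √(11 / 40 * Real.logb 2 (2 * P / 3)))

end Pool.Agent.UniM
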