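import Mathlib
import Pool.Agent.UniM.P3Def

/-!
# P3: the checker for certificates on an interval of values of `P`

All coefficients are natural numbers, in units of `10 ^ (-9)` (`w`, `dm`, `ya`, `yb`: `10 ^ (-3)`;
`ell`: `10 ^ (-2)`; `n5`, `n2`, `n8`: `10 ^ (-60)`).

Certificate (a), for `f ≤ F`, all `j`, `y = j - f / 2`:
`PsA f j ≤ a (y^2 - (L2 - f) / 10 - f / 40) - k + q5 2^(-f) + q2 5^(-f) + q8 (4/5)^f`, and
`a (w - 1/2)^2 + q5 r5 + q2 r2 + q8 r8 ≤ k`.
Certificate (b), for `f ≤ F`, all `j`, `y = j + 1/2 - f / 2`: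
`PsB f j ≥ - a (y^2 - (L2 - f) / 10 - f / 40) + b y - k - q5 2^(-f) - q2 5^(-f) - q8 (4/5)^f`, and
`k + q5 r5 + q2 r2 + q8 r8 ≤ b y - a y^2` at `y = ya` and `y = yb`.
-/

set_option autoImplicit false

namespace Pool.Agent.UniM

/-! ### The programs -/

/-- `U + 10 ^ f`-scaled inequality (a) for the indices `i, i + 1, ..., i + n - 1`; `c0 = C(f, i - 1)`,
`c1 = C(f, i)` -/
def rowA (W U T V f : ℕ) : ℕ → ℕ → ℕ → ℕ → Bool
  | 0, _, _, _ => true
  | n + 1, i, c0, c1 =>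
    Nat.ble (W * (c0 + c1 * (f - i) / (i + 1)) + U)
      (W * (2 * c1) + (T * ((f - 2 * i) * (f - 2 * i)) + V)) &&
    rowA W U T V f n (i + 1) c1 (c1 * (f - i) / (i + 1))

/-- certificate (a) for one value of `f` -/
def chkA (ell a k q5 q2 q8 f : ℕ) : Bool :=
  Nat.ble (5 ^ f * 1000000000000 + 10 ^ f * (a * (ell - 75 * f) + 1000 * k))
    (10 ^ f * (250 * a) * ((f + 2) * (f + 2)) + (5 ^ f * (1000 * q5) + 2 ^ f * (1000 * q2) + 8 ^ f * (1000 * q8))) &&
  rowA (5 ^ f * 1000000000000) (10 ^ f * (a * (ell - 75 * f) + 1000 * k)) (10 ^ f * (250 * a))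
    (5 ^ f * (1000 * q5) + 2 ^ f * (1000 * q2) + 8 ^ f * (1000 * q8)) f (f / 2 + 1) 0 0 1

/-- certificate (a) for the values `f < n` -/
def allA (ell a k q5 q2 q8 : ℕ) : ℕ → Bool
  | 0 => true
  | n + 1 => chkA ell a k q5 q2 q8 n && allA ell a k q5 q2 q8 n

/-- inequality (b) for the indices `i, ..., i + n - 1`; `c0 = C(f, i - 1)`, `c1 = C(f, i)`,
`t = f + 1 - 2 i` -/
def rowB (W U T V S f : ℕ) : ℕ → ℕ → ℕ → ℕ → Bool
  | 0, _, _, _ => true
  | n + 1, i, c0, c1 =>
    Nat.ble (W * c0 + U + S * (f + 1 - 2 * i))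
      (W * c1 + (T * ((f + 1 - 2 * i) * (f + 1 - 2 * i)) + V)) &&
    (Nat.ble (W * c1 + U)
      (W * c0 + (T * ((f + 1 - 2 * i) * (f + 1 - 2 * i)) + V) + S * (f + 1 - 2 * i)) &&
    rowB W U T V S f n (i + 1) c1 (c1 * (f - i) / (i + 1)))

/-- certificate (b) for one value of `f` -/
def chkB (ell a b k q5 q2 q8 f : ℕ) : Bool :=
  (Nat.ble (10 ^ f * (a * (ell - 75 * f)) * a + 250 * b * b * 10 ^ f)
      ((10 ^ f * (1000 * k) + (5 ^ f * (1000 * q5) + 2 ^ f * (1000 * q2) + 8 ^ f * (1000 * q8))) * a) ||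
    (Nat.ble b (a * (f + 3)) &&
      Nat.ble (10 ^ f * (a * (ell - 75 * f)) + 10 ^ f * (500 * b) * (f + 3))
        (10 ^ f * (250 * a) * ((f + 3) * (f + 3)) +
          (10 ^ f * (1000 * k) + (5 ^ f * (1000 * q5) + 2 ^ f * (1000 * q2) + 8 ^ f * (1000 * q8)))))) &&
  rowB (5 ^ f * 1000000000000) (10 ^ f * (a * (ell - 75 * f))) (10 ^ f * (250 * a))
    (10 ^ f * (1000 * k) + (5 ^ f * (1000 * q5) + 2 ^ f * (1000 * q2) + 8 ^ f * (1000 * q8))) (10 ^ f * (500 * b)) f
    ((f + 1) / 2 + 1) 0 0 1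

/-- certificate (b) for the values `f < n` -/
def allB (ell a b k q5 q2 q8 : ℕ) : ℕ → Bool
  | 0 => true
  | n + 1 => chkB ell a b k q5 q2 q8 n && allB ell a b k q5 q2 q8 n

/-! ### Binomial coefficients -/

theorem ch_nat (f i : ℕ) : ch f i = f.choose i := by
  unfold ch
  rw [if_neg (by omega)]
  rfl

theorem ch_neg {f : ℕ} {j : ℤ} (h : j < 0) : ch f j = 0 := by
  unfold ch
  rw [if_pos h]

theorem ch_gt {f : ℕ} {j : ℤ} (h : (f : ℤ) < j) : ch f j = 0 := by
  obtain ⟨i, rfl⟩ := Int.eq_ofNat_of_zero_le (by omega : 0 ≤ j)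
  rw [ch_nat]
  exact Nat.choose_eq_zero_of_lt (by omega)

theorem ch_refl_fin (f : ℕ) (j : ℤ) : ch f (f - j) = ch f j := by
  rcases lt_or_ge j 0 with h | h
  · rw [ch_neg h, ch_gt (by omega)]
  rcases lt_or_ge (f : ℤ) j with h' | h'
  · rw [ch_gt h', ch_neg (by omega)]
  obtain ⟨i, rfl⟩ := Int.eq_ofNat_of_zero_le h
  have hi : i ≤ f := by omega
  have e : (f : ℤ) - (i : ℤ) = ((f - i : ℕ) : ℤ) := by omega
  rw [e, ch_nat, ch_nat, Nat.choose_symm hi]

theorem choose_step (f i : ℕ) : f.choose i * (f - i) / (i + 1) = f.choose (i + 1) := by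
  rw [← Nat.choose_succ_right_eq]
  exact Nat.mul_div_cancel _ (Nat.succ_pos i)

/-- `C(f, i - 1)` with value `0` for `i = 0` -/
def chm (f i : ℕ) : ℕ := ch f ((i : ℤ) - 1)

theorem chm_zero (f : ℕ) : chm f 0 = 0 := ch_neg (by simp)

theorem chm_succ (f i : ℕ) : chm f (i + 1) = f.choose i := by
  unfold chm
  have e : ((i + 1 : ℕ) : ℤ) - 1 = (i : ℤ) := by push_cast; ring
  rw [e, ch_nat]

theorem rowA_sound (W U T V f : ℕ) : ∀ n i : ℕ,
    rowA W U T V f n i (chm f i) (f.choose i) = true → ∀ k, k < n →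
      W * (chm f (i + k) + f.choose (i + k + 1)) + U ≤
        W * (2 * f.choose (i + k)) + (T * ((f - 2 * (i + k)) * (f - 2 * (i + k))) + V) := by
  intro n
  induction n with
  | zero => intro i _ k hk; omega
  | succ n ih =>
    intro i h k hk
    rw [rowA, Bool.and_eq_true, choose_step] at h
    rcases k with _ | k
    · simpa using Nat.le_of_ble_eq_true h.1
    · have h2 := h.2
      rw [← chm_succ f i] at h2
      have := ih (i + 1) h2 k (by omega)
      have e : i + 1 + k = i + (k + 1) := by omega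
      rw [e] at this
      exact this

theorem rowB_sound (W U T V S f : ℕ) : ∀ n i : ℕ,
    rowB W U T V S f n i (chm f i) (f.choose i) = true → ∀ k, k < n →
      (W * chm f (i + k) + U + S * (f + 1 - 2 * (i + k)) ≤ W * f.choose (i + k) +
        (T * ((f + 1 - 2 * (i + k)) * (f + 1 - 2 * (i + k))) + V)) ∧
      (W * f.choose (i + k) + U ≤ W * chm f (i + k) +
        (T * ((f + 1 - 2 * (i + k)) * (f + 1 - 2 * (i + k))) + V) + S * (f + 1 - 2 * (i + k))) := by
  intro n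
  induction n with
  | zero => intro i _ k hk; omega
  | succ n ih =>
    intro i h k hk
    rw [rowB, Bool.and_eq_true, Bool.and_eq_true, choose_step] at h
    rcases k with _ | k
    · exact ⟨by simpa using Nat.le_of_ble_eq_true h.1, by simpa using Nat.le_of_ble_eq_true h.2.1⟩
    · have h2 := h.2.2
      rw [← chm_succ f i] at h2
      have := ih (i + 1) h2 k (by omega)
      have e : i + 1 + k = i + (k + 1) := by omega
      rw [e] at this
      exact this

/-! ### Pointwise inequalities -/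

/-- the inequality of certificate (a) -/
def LinA (ell a k q5 q2 q8 : ℝ) (f : ℕ) (j : ℤ) : Prop :=
  PsA f j ≤ a / 1000000000 * (((j : ℝ) - f / 2) ^ 2 - (ell / 100 - f) / 10 - f / 40) - k / 1000000000 +
    q5 / 1000000000 * (1 / 2) ^ f + q2 / 1000000000 * (1 / 5) ^ f + q8 / 1000000000 * (4 / 5) ^ f

/-- the inequality of certificate (b) -/
def LinB (ell a b k q5 q2 q8 : ℝ) (f : ℕ) (j : ℤ) : Prop :=
  - (a / 1000000000 * (((j : ℝ) + 1 / 2 - f / 2) ^ 2 - (ell / 100 - f) / 10 - f / 40)) +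
    b / 1000000000 * ((j : ℝ) + 1 / 2 - f / 2) - k / 1000000000 -
    q5 / 1000000000 * (1 / 2) ^ f - q2 / 1000000000 * (1 / 5) ^ f - q8 / 1000000000 * (4 / 5) ^ f ≤ PsB f j

theorem scale_pow (f : ℕ) : (10 : ℝ) ^ f = 5 ^ f * 2 ^ f := by
  rw [← mul_pow]
  norm_num

theorem scale8 (f : ℕ) : (8 : ℝ) ^ f = 2 ^ f * 4 ^ f := by
  rw [← mul_pow]
  norm_num

/-- (a) from the scaled inequality, `x = c₊ + c₋`, `z = c`, `t = 2 y` -/
theorem linA_of (ell a k q5 q2 q8 x z t : ℝ) (f : ℕ)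
    (h : 5 ^ f * 1000000000000 * x + 10 ^ f * (a * (ell - 75 * f) + 1000 * k) ≤
      5 ^ f * 1000000000000 * (2 * z) + (10 ^ f * (250 * a) * (t * t) +
        (5 ^ f * (1000 * q5) + 2 ^ f * (1000 * q2) + 8 ^ f * (1000 * q8)))) :
    (x - 2 * z) / 2 ^ f ≤ a / 1000000000 * ((t / 2) ^ 2 - (ell / 100 - f) / 10 - f / 40) -
      k / 1000000000 + q5 / 1000000000 * (1 / 2) ^ f + q2 / 1000000000 * (1 / 5) ^ f +
      q8 / 1000000000 * (4 / 5) ^ f := by
  rw [scale_pow, scale8] at h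
  have h5 : (0 : ℝ) < 5 ^ f := by positivity
  have h2 : (0 : ℝ) < 2 ^ f := by positivity
  rw [div_le_iff₀ h2, one_div_pow, one_div_pow, div_pow (4 : ℝ) 5 f]
  have key : 5 ^ f * 1000000000000 * (x - 2 * z) ≤ 5 ^ f * 1000000000000 *
      ((a / 1000000000 * ((t / 2) ^ 2 - (ell / 100 - f) / 10 - f / 40) -
      k / 1000000000 + q5 / 1000000000 * (1 / 2 ^ f) + q2 / 1000000000 * (1 / 5 ^ f) +
      q8 / 1000000000 * (4 ^ f / 5 ^ f)) * 2 ^ f) := by
    have e : 5 ^ f * 1000000000000 *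
      ((a / 1000000000 * ((t / 2) ^ 2 - (ell / 100 - f) / 10 - f / 40) -
      k / 1000000000 + q5 / 1000000000 * (1 / 2 ^ f) + q2 / 1000000000 * (1 / 5 ^ f) +
      q8 / 1000000000 * (4 ^ f / 5 ^ f)) * 2 ^ f) =
      5 ^ f * 2 ^ f * (250 * a) * (t * t) - 5 ^ f * 2 ^ f * (a * (ell - 75 * f) + 1000 * k) +
        (5 ^ f * (1000 * q5) + 2 ^ f * (1000 * q2) + 2 ^ f * 4 ^ f * (1000 * q8)) := by
      field_simp
      ring
    rw [e]
    linarith
  exact le_of_mul_le_mul_left key (by positivity)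

/-- (b) from the scaled inequality, `x = C(f, j)`, `z = C(f, j+1)`, `t = 2 y` -/
theorem linB_of (ell a b k q5 q2 q8 x z t : ℝ) (f : ℕ)
    (h : 5 ^ f * 1000000000000 * z + 10 ^ f * (a * (ell - 75 * f)) + 10 ^ f * (500 * b) * t ≤
      5 ^ f * 1000000000000 * x + (10 ^ f * (250 * a) * (t * t) +
        (10 ^ f * (1000 * k) + (5 ^ f * (1000 * q5) + 2 ^ f * (1000 * q2) + 8 ^ f * (1000 * q8))))) :
    - (a / 1000000000 * ((t / 2) ^ 2 - (ell / 100 - f) / 10 - f / 40)) + b / 1000000000 * (t / 2) -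
      k / 1000000000 - q5 / 1000000000 * (1 / 2) ^ f - q2 / 1000000000 * (1 / 5) ^ f -
      q8 / 1000000000 * (4 / 5) ^ f ≤ (x - z) / 2 ^ f := by
  rw [scale_pow, scale8] at h
  have h5 : (0 : ℝ) < 5 ^ f := by positivity
  have h2 : (0 : ℝ) < 2 ^ f := by positivity
  rw [le_div_iff₀ h2, one_div_pow, one_div_pow, div_pow (4 : ℝ) 5 f]
  have key : 5 ^ f * 1000000000000 *
      ((- (a / 1000000000 * ((t / 2) ^ 2 - (ell / 100 - f) / 10 - f / 40)) + b / 1000000000 * (t / 2) -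
      k / 1000000000 - q5 / 1000000000 * (1 / 2 ^ f) - q2 / 1000000000 * (1 / 5 ^ f) -
      q8 / 1000000000 * (4 ^ f / 5 ^ f)) * 2 ^ f) ≤
      5 ^ f * 1000000000000 * (x - z) := by
    have e : 5 ^ f * 1000000000000 *
      ((- (a / 1000000000 * ((t / 2) ^ 2 - (ell / 100 - f) / 10 - f / 40)) + b / 1000000000 * (t / 2) -
      k / 1000000000 - q5 / 1000000000 * (1 / 2 ^ f) - q2 / 1000000000 * (1 / 5 ^ f) -
      q8 / 1000000000 * (4 ^ f / 5 ^ f)) * 2 ^ f) =
      5 ^ f * 2 ^ f * (a * (ell - 75 * f)) + 5 ^ f * 2 ^ f * (500 * b) * t -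
      (5 ^ f * 2 ^ f * (250 * a) * (t * t) + (5 ^ f * 2 ^ f * (1000 * k) +
        (5 ^ f * (1000 * q5) + 2 ^ f * (1000 * q2) + 2 ^ f * 4 ^ f * (1000 * q8)))) := by
      field_simp
      ring
    rw [e]
    linarith
  exact le_of_mul_le_mul_left key (by positivity)

theorem PsA_symm (f : ℕ) (j : ℤ) : PsA f (f - j) = PsA f j := by
  unfold PsA
  have e1 : (f : ℤ) - j + 1 = f - (j - 1) := by ring
  have e2 : (f : ℤ) - j - 1 = f - (j + 1) := by ring
  rw [e1, e2, ch_refl_fin, ch_refl_fin, ch_refl_fin]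
  ring

theorem LinA_symm {ell a k q5 q2 q8 : ℝ} {f : ℕ} {j : ℤ} (h : LinA ell a k q5 q2 q8 f (f - j)) :
    LinA ell a k q5 q2 q8 f j := by
  unfold LinA at *
  rw [PsA_symm] at h
  have e : (((f : ℤ) - j : ℤ) : ℝ) - f / 2 = - ((j : ℝ) - f / 2) := by push_cast; ring
  rw [e, neg_sq] at h
  exact h

theorem chkA_sound {ell a k q5 q2 q8 f : ℕ} (h : chkA ell a k q5 q2 q8 f = true)
    (hl : 75 * f ≤ ell) (j : ℤ) : LinA ell a k q5 q2 q8 f j := by
  rw [chkA, Bool.and_eq_true] at h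
  obtain ⟨h1, h2⟩ := h
  have h1' := Nat.le_of_ble_eq_true h1
  have h0 : rowA (5 ^ f * 1000000000000) (10 ^ f * (a * (ell - 75 * f) + 1000 * k))
      (10 ^ f * (250 * a)) (5 ^ f * (1000 * q5) + 2 ^ f * (1000 * q2) + 8 ^ f * (1000 * q8)) f (f / 2 + 1) 0
      (chm f 0) (f.choose 0) = true := by
    rw [chm_zero, Nat.choose_zero_right]
    exact h2
  have hrow := rowA_sound _ _ _ _ f (f / 2 + 1) 0 h0
  suffices H : ∀ j : ℤ, (f : ℤ) ≤ 2 * j → LinA ell a k q5 q2 q8 f j by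
    rcases le_total (f : ℤ) (2 * j) with h | h
    · exact H j h
    · exact LinA_symm (H (f - j) (by omega))
  clear j
  intro j hj
  rcases le_or_gt j (f : ℤ) with hjf | hjf
  · -- ordinary index
    obtain ⟨i, hi⟩ := Int.eq_ofNat_of_zero_le (by omega : 0 ≤ (f : ℤ) - j)
    have hi2 : 2 * i ≤ f := by omega
    have hk := hrow i (by omega)
    simp only [Nat.zero_add] at hk
    have e1 : ch f j = f.choose i := by rw [← ch_refl_fin, hi]; exact ch_nat f i
    have e2 : ch f (j + 1) = chm f i := by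
      rw [← ch_refl_fin, chm]
      congr 1
      omega
    have e3 : ch f (j - 1) = f.choose (i + 1) := by
      rw [← ch_refl_fin, ← ch_nat]
      congr 1
      push_cast
      omega
    have hk' : (5 : ℝ) ^ f * 1000000000000 * ((chm f i : ℝ) + f.choose (i + 1)) +
        10 ^ f * (a * (ell - 75 * f) + 1000 * k) ≤
      5 ^ f * 1000000000000 * (2 * (f.choose i : ℝ)) + (10 ^ f * (250 * a) *
        (((f : ℝ) - 2 * i) * ((f : ℝ) - 2 * i)) + (5 ^ f * (1000 * q5) + 2 ^ f * (1000 * q2) + 8 ^ f * (1000 * q8))) := by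
      have h3 : ((f - 2 * i : ℕ) : ℝ) = (f : ℝ) - 2 * i := by
        rw [Nat.cast_sub hi2]; push_cast; ring
      have h4 : ((ell - 75 * f : ℕ) : ℝ) = (ell : ℝ) - 75 * f := by
        rw [Nat.cast_sub hl]; push_cast; ring
      rw [← h3, ← h4]
      exact_mod_cast hk
    have h5 := linA_of ell a k q5 q2 q8 _ _ _ f hk'
    unfold LinA PsA
    rw [e1, e2, e3]
    have h6 : (j : ℝ) - f / 2 = ((f : ℝ) - 2 * i) / 2 := by
      have : (i : ℤ) = (f : ℤ) - j := hi.symm
      have h7 : (i : ℝ) = (f : ℝ) - j := by exact_mod_cast this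
      rw [h7]; ring
    rw [h6]
    refine le_of_eq_of_le ?_ h5
    ring
  · -- beyond the last index
    have e1 : ch f j = 0 := ch_gt hjf
    have e2 : ch f (j + 1) = 0 := ch_gt (by omega)
    have h1r : (5 : ℝ) ^ f * 1000000000000 * 1 + 10 ^ f * (a * (ell - 75 * f) + 1000 * k) ≤
        5 ^ f * 1000000000000 * (2 * 0) + (10 ^ f * (250 * a) * (((f : ℝ) + 2) * ((f : ℝ) + 2)) +
          (5 ^ f * (1000 * q5) + 2 ^ f * (1000 * q2) + 8 ^ f * (1000 * q8))) := by
      have h4 : ((ell - 75 * f : ℕ) : ℝ) = (ell : ℝ) - 75 * f := by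
        rw [Nat.cast_sub hl]; push_cast; ring
      rw [← h4, mul_zero, mul_zero, zero_add, mul_one]
      exact_mod_cast h1'
    have h5 := linA_of ell a k q5 q2 q8 _ _ _ f h1r
    have e3 : ((ch f (j - 1) : ℕ) : ℝ) ≤ 1 := by
      rcases eq_or_lt_of_le (by omega : (f : ℤ) ≤ j - 1) with h | h
      · rw [← h, ch_nat, Nat.choose_self]
        norm_num
      · rw [ch_gt h]
        norm_num
    unfold LinA PsA
    rw [e1, e2]
    have h7 : ((f : ℝ) + 2) / 2 ≤ (j : ℝ) - f / 2 := by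
      have : (f : ℤ) + 1 ≤ j := by omega
      have h8 : (f : ℝ) + 1 ≤ j := by exact_mod_cast this
      linarith
    have h8 : (((f : ℝ) + 2) / 2) ^ 2 ≤ ((j : ℝ) - f / 2) ^ 2 := by
      apply pow_le_pow_left₀ (by positivity) h7
    have h9 : (a : ℝ) / 1000000000 * (((f : ℝ) + 2) / 2) ^ 2 ≤
        a / 1000000000 * ((j : ℝ) - f / 2) ^ 2 := mul_le_mul_of_nonneg_left h8 (by positivity)
    have h10 : (((0 : ℕ) : ℝ) - 2 * ((0 : ℕ) : ℝ) + (ch f (j - 1) : ℝ)) / 2 ^ f ≤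
        (1 - 2 * 0) / 2 ^ f := by
      apply div_le_div_of_nonneg_right _ (by positivity)
      push_cast
      linarith
    refine h10.trans (h5.trans ?_)
    nlinarith [h9]

theorem allA_sound {ell a k q5 q2 q8 : ℕ} : ∀ n : ℕ, allA ell a k q5 q2 q8 n = true →
    75 * n ≤ ell + 75 → ∀ f, f < n → ∀ j : ℤ, LinA ell a k q5 q2 q8 f j := by
  intro n
  induction n with
  | zero => intro _ _ f hf; omega
  | succ n ih =>
    intro h hl f hf j
    rw [allA, Bool.and_eq_true] at h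
    rcases Nat.lt_succ_iff_lt_or_eq.1 hf with h' | rfl
    · exact ih h.2 (by omega) f h' j
    · exact chkA_sound h.1 (by omega) j

/-- reflection of the index -/
theorem PsB_symm (f : ℕ) (j : ℤ) : PsB f (f - 1 - j) = - PsB f j := by
  unfold PsB
  have e1 : (f : ℤ) - 1 - j = f - (j + 1) := by ring
  have e2 : (f : ℤ) - (j + 1) + 1 = f - j := by ring
  rw [e1, e2, ch_refl_fin, ch_refl_fin]
  ring

theorem chkB_sound {ell a b k q5 q2 q8 f : ℕ} (h : chkB ell a b k q5 q2 q8 f = true)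
    (hl : 75 * f ≤ ell) (ha : 0 < a) (j : ℤ) : LinB ell a b k q5 q2 q8 f j := by
  rw [chkB, Bool.and_eq_true] at h
  obtain ⟨h1, h2⟩ := h
  have h0 : rowB (5 ^ f * 1000000000000) (10 ^ f * (a * (ell - 75 * f)))
      (10 ^ f * (250 * a)) (10 ^ f * (1000 * k) + (5 ^ f * (1000 * q5) + 2 ^ f * (1000 * q2) + 8 ^ f * (1000 * q8)))
      (10 ^ f * (500 * b)) f ((f + 1) / 2 + 1) 0 (chm f 0) (f.choose 0) = true := by
    rw [chm_zero, Nat.choose_zero_right]
    exact h2
  have hrow := rowB_sound _ _ _ _ _ f ((f + 1) / 2 + 1) 0 h0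
  have h4 : ((ell - 75 * f : ℕ) : ℝ) = (ell : ℝ) - 75 * f := by
    rw [Nat.cast_sub hl]; push_cast; ring
  have hA : (0 : ℝ) < a := by exact_mod_cast ha
  -- far away from the centre
  have hfar : ∀ t : ℝ, (f : ℝ) + 3 ≤ |t| →
      (5 : ℝ) ^ f * 1000000000000 * 0 + 10 ^ f * (a * (ell - 75 * f)) + 10 ^ f * (500 * b) * t ≤
      5 ^ f * 1000000000000 * 0 + (10 ^ f * (250 * a) * (t * t) +
        (10 ^ f * (1000 * k) + (5 ^ f * (1000 * q5) + 2 ^ f * (1000 * q2) + 8 ^ f * (1000 * q8)))) := by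
    intro t ht
    have h10 : (0 : ℝ) < 10 ^ f := by positivity
    have hb : (0 : ℝ) ≤ b := by positivity
    have htt : t ≤ |t| := le_abs_self t
    have hsq : t * t = |t| * |t| := (abs_mul_abs_self t).symm
    rcases Bool.or_eq_true _ _ |>.mp h1 with h1 | h1
    · have h1' := Nat.le_of_ble_eq_true h1
      have h1r : (10 : ℝ) ^ f * (a * (ell - 75 * f)) * a + 250 * b * b * 10 ^ f ≤
          (10 ^ f * (1000 * k) + (5 ^ f * (1000 * q5) + 2 ^ f * (1000 * q2) + 8 ^ f * (1000 * q8))) * a := by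
        rw [← h4]
        exact_mod_cast h1'
      have h5 : (0 : ℝ) ≤ 10 ^ f * 250 * ((a : ℝ) * t - b) ^ 2 := by positivity
      have h6 : (0 : ℝ) ≤ a * ((10 ^ f * (250 * a) * (t * t) +
        (10 ^ f * (1000 * k) + (5 ^ f * (1000 * q5) + 2 ^ f * (1000 * q2) + 8 ^ f * (1000 * q8)))) -
        (10 ^ f * (a * (ell - 75 * f)) + 10 ^ f * (500 * b) * t)) := by
        nlinarith
      have h7 := nonneg_of_mul_nonneg_right h6 hA
      linarith
    · rw [Bool.and_eq_true] at h1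
      have h1a := Nat.le_of_ble_eq_true h1.1
      have h1b := Nat.le_of_ble_eq_true h1.2
      have ra : (b : ℝ) ≤ a * (f + 3) := by exact_mod_cast h1a
      have rb : (10 : ℝ) ^ f * (a * (ell - 75 * f)) + 10 ^ f * (500 * b) * (f + 3) ≤
          10 ^ f * (250 * a) * ((f + 3) * (f + 3)) +
          (10 ^ f * (1000 * k) + (5 ^ f * (1000 * q5) + 2 ^ f * (1000 * q2) + 8 ^ f * (1000 * q8))) := by
        rw [← h4]
        exact_mod_cast h1b
      have h5 : (10 : ℝ) ^ f * (500 * b) * t ≤ 10 ^ f * (500 * b) * |t| :=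
        mul_le_mul_of_nonneg_left htt (by positivity)
      have h6 : (0 : ℝ) ≤ 10 ^ f * 250 * ((|t| - (f + 3)) * (a * (|t| + (f + 3)) - 2 * b)) := by
        have h7 : (0 : ℝ) ≤ |t| - (f + 3) := by linarith
        have h8 : (0 : ℝ) ≤ a * (|t| + (f + 3)) - 2 * b := by nlinarith
        positivity
      rw [hsq]
      nlinarith
  have hcase : ∀ j : ℤ, ((5 : ℝ) ^ f * 1000000000000 * (ch f (j + 1)) +
      10 ^ f * (a * (ell - 75 * f)) + 10 ^ f * (500 * b) * (2 * (j : ℝ) + 1 - f) ≤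
      5 ^ f * 1000000000000 * (ch f j) + (10 ^ f * (250 * a) * ((2 * (j : ℝ) + 1 - f) *
        (2 * (j : ℝ) + 1 - f)) +
        (10 ^ f * (1000 * k) + (5 ^ f * (1000 * q5) + 2 ^ f * (1000 * q2) + 8 ^ f * (1000 * q8))))) := by
    intro j
    by_cases hj : f < j
    · -- to the right
      have e1 : ch f j = 0 := ch_gt hj
      have e2 : ch f (j + 1) = 0 := ch_gt (by omega)
      have h9 : (f : ℝ) + 1 ≤ j := by exact_mod_cast (by omega : (f : ℤ) + 1 ≤ j)
      have := hfar (2 * (j : ℝ) + 1 - f) (by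
        rw [abs_of_nonneg (by linarith)]
        linarith)
      rw [e1, e2]
      exact_mod_cast this
    by_cases hj2 : j < -1
    · have e1 : ch f j = 0 := ch_neg (by omega)
      have e2 : ch f (j + 1) = 0 := ch_neg (by omega)
      have h9 : (j : ℝ) ≤ -2 := by exact_mod_cast (by omega : j ≤ -2)
      have := hfar (2 * (j : ℝ) + 1 - f) (by
        rw [abs_of_nonpos (by
          have : (0 : ℝ) ≤ f := by positivity
          linarith)]
        linarith)
      rw [e1, e2]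
      exact_mod_cast this
    push Not at hj hj2
    rcases le_total (f : ℤ) (2 * j + 1) with ht | ht
    · -- t = 2 j + 1 - f ≥ 0, i = f - j
      obtain ⟨i, hi⟩ := Int.eq_ofNat_of_zero_le (by omega : 0 ≤ (f : ℤ) - j)
      have hi2 : 2 * i ≤ f + 1 := by omega
      have hk := (hrow i (by omega)).1
      simp only [Nat.zero_add] at hk
      have e1 : ch f j = f.choose i := by rw [← ch_refl_fin, hi]; exact ch_nat f i
      have e2 : ch f (j + 1) = chm f i := by
        rw [← ch_refl_fin, chm]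
        congr 1
        omega
      have h7 : (j : ℝ) = (f : ℝ) - i := by
        have : j = (f : ℤ) - i := by omega
        exact_mod_cast this
      have h3 : ((f + 1 - 2 * i : ℕ) : ℝ) = 2 * (j : ℝ) + 1 - f := by
        rw [Nat.cast_sub hi2, h7]; push_cast; ring
      rw [e1, e2, ← h3, ← h4]
      exact_mod_cast hk
    · -- t ≤ 0, i = j + 1
      obtain ⟨i, hi⟩ := Int.eq_ofNat_of_zero_le (by omega : 0 ≤ j + 1)
      have hi2 : 2 * i ≤ f + 1 := by omega
      have hk := (hrow i (by omega)).2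
      simp only [Nat.zero_add] at hk
      have e1 : ch f (j + 1) = f.choose i := by rw [hi]; exact ch_nat f i
      have e2 : ch f j = chm f i := by
        rw [chm]
        congr 1
        omega
      have h7 : (j : ℝ) = (i : ℝ) - 1 := by
        have : j = (i : ℤ) - 1 := by omega
        exact_mod_cast this
      have h3 : ((f + 1 - 2 * i : ℕ) : ℝ) = - (2 * (j : ℝ) + 1 - f) := by
        rw [Nat.cast_sub hi2, h7]; push_cast; ring
      have hkr : (5 : ℝ) ^ f * 1000000000000 * (f.choose i) + 10 ^ f * (a * (ell - 75 * f)) ≤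
          5 ^ f * 1000000000000 * (chm f i) + (10 ^ f * (250 * a) * (((f + 1 - 2 * i : ℕ) : ℝ) *
          ((f + 1 - 2 * i : ℕ) : ℝ)) + (10 ^ f * (1000 * k) + (5 ^ f * (1000 * q5) +
            2 ^ f * (1000 * q2) + 8 ^ f * (1000 * q8)))) + 10 ^ f * (500 * b) * ((f + 1 - 2 * i : ℕ) : ℝ) := by
        rw [← h4]
        exact_mod_cast hk
      rw [h3] at hkr
      rw [e1, e2]
      nlinarith
  have h5 := linB_of ell a b k q5 q2 q8 _ _ _ f (hcase j)
  unfold LinB PsB
  have h6 : (j : ℝ) + 1 / 2 - f / 2 = (2 * (j : ℝ) + 1 - f) / 2 := by ring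
  rw [h6]
  exact h5

theorem allB_sound {ell a b k q5 q2 q8 : ℕ} (ha : 0 < a) : ∀ n : ℕ,
    allB ell a b k q5 q2 q8 n = true → 75 * n ≤ ell + 75 →
      ∀ f, f < n → ∀ j : ℤ, LinB ell a b k q5 q2 q8 f j := by
  intro n
  induction n with
  | zero => intro _ _ f hf; omega
  | succ n ih =>
    intro h hl f hf j
    rw [allB, Bool.and_eq_true] at h
    rcases Nat.lt_succ_iff_lt_or_eq.1 hf with h' | rfl
    · exact ih h.2 (by omega) f h' j
    · exact chkB_sound h.1 (by omega) ha j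

end Pool.Agent.UniM
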