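import Mathlib
import Pool.Agent.UniM.P3Def
import Pool.Agent.UniM.P3Chk

/-!
# P3: soundness of the certificates on an interval `P1 ≤ P ≤ P2`
-/

set_option autoImplicit false

namespace Pool.Agent.UniM

open Finset

/-- certificate (b) for `ya ≤ 1000 y0 ≤ yb` -/
structure CB where
  ya : ℕ
  yb : ℕ
  a : ℕ
  b : ℕ
  k : ℕ
  q5 : ℕ
  q2 : ℕ
  q8 : ℕ

/-- certificates on an interval of values of `P` -/
structure Iv where
  P1 : ℕ
  P2 : ℕ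
  F : ℕ
  ell : ℕ
  n5 : ℕ
  n2 : ℕ
  n8 : ℕ
  w : ℕ
  dm : ℕ
  a : ℕ
  k : ℕ
  q5 : ℕ
  q2 : ℕ
  q8 : ℕ
  cb : List CB

/-- the side conditions -/
def Iv.side (c : Iv) : Bool :=
  Nat.ble 1 c.P1 && Nat.blt c.P2 (2 ^ (c.F + 1)) && Nat.ble (c.P2 ^ 100) (2 ^ c.ell) &&
  Nat.ble (75 * c.F) c.ell && Nat.ble ((10 ^ 60) ^ 84) (c.n5 ^ 84 * c.P1 ^ 31) &&
  Nat.ble ((10 ^ 60) ^ 111) (c.n2 ^ 111 * c.P1 ^ 77) &&
  Nat.ble ((10 ^ 60) ^ 100) (c.n8 ^ 100 * c.P1 ^ 13) &&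
  Nat.ble (10 ^ 54 * (c.a * ((c.w - 500) * (c.w - 500))) + (c.q5 * c.n5 + c.q2 * c.n2 + c.q8 * c.n8))
    (10 ^ 60 * c.k) &&
  Nat.ble 2000 (3 * c.dm) &&
  Nat.ble (11000 * c.ell) ((3 * c.dm - 2000) * (3 * c.dm - 2000) + 638000)

/-- the end point condition of certificate (b) -/
def CB.endp (n5 n2 n8 : ℕ) (d : CB) (y : ℕ) : Bool :=
  Nat.ble (10 ^ 60 * d.k + (d.q5 * n5 + d.q2 * n2 + d.q8 * n8) + 10 ^ 54 * (d.a * (y * y)))
    (10 ^ 57 * (d.b * y))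

/-- one certificate (b) -/
def CB.chk (ell n5 n2 n8 F : ℕ) (d : CB) : Bool :=
  Nat.ble 1 d.a && d.endp n5 n2 n8 d.ya && d.endp n5 n2 n8 d.yb &&
    allB ell d.a d.b d.k d.q5 d.q2 d.q8 (F + 1)

/-- the intervals `[ya, yb]` cover `[lo, hi]` -/
def covers (hi : ℕ) : List CB → ℕ → Bool
  | [], lo => Nat.ble (hi + 1) lo
  | d :: l, lo => (Nat.ble hi d.yb && Nat.ble d.ya lo) || (Nat.ble d.ya lo && covers hi l d.yb)

/-- all conditions on an interval -/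
def Iv.check (c : Iv) : Bool :=
  c.side && allA c.ell c.a c.k c.q5 c.q2 c.q8 (c.F + 1) && covers (c.w + c.dm) c.cb c.w &&
  c.cb.all (CB.chk c.ell c.n5 c.n2 c.n8 c.F)

/-! ### Logarithms -/

theorem rpow_logb_le {x P : ℝ} {u v : ℕ} (hx : 0 < x) (hP : 1 ≤ P) (hv : 0 < v)
    (h : x ^ v * 3 ^ u ≤ 1) : x ^ Real.logb 3 P ≤ P ^ (- (u : ℝ) / v) := by
  have hP0 : 0 < P := by linarith
  have h3 : (0 : ℝ) < Real.log 3 := Real.log_pos (by norm_num)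
  have hlP : 0 ≤ Real.log P := Real.log_nonneg hP
  rw [Real.rpow_def_of_pos hx, Real.rpow_def_of_pos hP0]
  apply Real.exp_le_exp.2
  have h1 : (v : ℝ) * Real.log x + u * Real.log 3 ≤ 0 := by
    have h2 : Real.log (x ^ v * 3 ^ u) ≤ 0 := Real.log_nonpos (by positivity) h
    rw [Real.log_mul (by positivity) (by positivity), Real.log_pow, Real.log_pow] at h2
    exact h2
  have hv' : (0 : ℝ) < v := by exact_mod_cast hv
  have h4 : Real.log x ≤ - (u : ℝ) / v * Real.log 3 := by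
    rw [neg_div, neg_mul, div_mul_eq_mul_div, le_neg, ← sub_nonneg]
    have : -Real.log x - u * Real.log 3 / v = (- (v * Real.log x + u * Real.log 3)) / v := by
      field_simp
      ring
    rw [this]
    exact div_nonneg (by linarith) hv'.le
  unfold Real.logb
  have h5 : 0 ≤ Real.log P / Real.log 3 := div_nonneg hlP h3.le
  calc Real.log x * (Real.log P / Real.log 3)
      ≤ (- (u : ℝ) / v * Real.log 3) * (Real.log P / Real.log 3) :=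
        mul_le_mul_of_nonneg_right h4 h5
    _ = Real.log P * (- (u : ℝ) / v) := by
        field_simp

theorem rpow_neg_le {P1 P : ℕ} {n u v N : ℕ} (hN : 0 < N) (h1 : 1 ≤ P1) (hP : P1 ≤ P) (hv : 0 < v)
    (h : N ^ v ≤ n ^ v * P1 ^ u) : (P : ℝ) ^ (- (u : ℝ) / v) ≤ n / N := by
  have hN' : (0 : ℝ) < N := by exact_mod_cast hN
  have hP0 : (0 : ℝ) < P1 := by exact_mod_cast h1
  have hPP : (P1 : ℝ) ≤ P := by exact_mod_cast hP
  have hv' : (0 : ℝ) < v := by exact_mod_cast hv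
  have hneg : - (u : ℝ) / v ≤ 0 := by
    rw [neg_div]
    have : (0 : ℝ) ≤ u / v := by positivity
    linarith
  refine (Real.rpow_le_rpow_of_nonpos hP0 hPP hneg).trans ?_
  have h2 : (N : ℝ) ^ v ≤ (n : ℝ) ^ v * (P1 : ℝ) ^ u := by exact_mod_cast h
  have h3 : ((P1 : ℝ) ^ (- (u : ℝ) / v)) ^ v * (P1 : ℝ) ^ u = 1 := by
    rw [← Real.rpow_natCast ((P1 : ℝ) ^ (- (u : ℝ) / v)) v, ← Real.rpow_mul hP0.le,
      ← Real.rpow_natCast (P1 : ℝ) u, ← Real.rpow_add hP0]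
    have : - (u : ℝ) / v * v + u = 0 := by
      field_simp
      ring
    rw [this, Real.rpow_zero]
  have h4 : ((P1 : ℝ) ^ (- (u : ℝ) / v)) ^ v ≤ ((n : ℝ) / N) ^ v := by
    have h5 : (0 : ℝ) < (P1 : ℝ) ^ u := by positivity
    rw [div_pow, le_div_iff₀ (by positivity)]
    have h6 : ((P1 : ℝ) ^ (- (u : ℝ) / v)) ^ v = 1 / (P1 : ℝ) ^ u := by
      rw [eq_div_iff h5.ne']
      exact h3
    rw [h6, div_mul_eq_mul_div, one_mul, div_le_iff₀ h5]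
    exact h2
  exact le_of_pow_le_pow_left₀ hv.ne' (by positivity) h4

/-! ### Soundness -/

theorem Iv.side_sound {c : Iv} (h : c.side = true) :
    1 ≤ c.P1 ∧ c.P2 < 2 ^ (c.F + 1) ∧ c.P2 ^ 100 ≤ 2 ^ c.ell ∧ 75 * c.F ≤ c.ell ∧
      (10 ^ 60) ^ 84 ≤ c.n5 ^ 84 * c.P1 ^ 31 ∧ (10 ^ 60) ^ 111 ≤ c.n2 ^ 111 * c.P1 ^ 77 ∧
      (10 ^ 60) ^ 100 ≤ c.n8 ^ 100 * c.P1 ^ 13 ∧
      10 ^ 54 * (c.a * ((c.w - 500) * (c.w - 500))) + (c.q5 * c.n5 + c.q2 * c.n2 + c.q8 * c.n8) ≤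
        10 ^ 60 * c.k ∧
      2000 ≤ 3 * c.dm ∧
      11000 * c.ell ≤ (3 * c.dm - 2000) * (3 * c.dm - 2000) + 638000 := by
  unfold Iv.side at h
  simp only [Bool.and_eq_true] at h
  obtain ⟨⟨⟨⟨⟨⟨⟨⟨⟨h1, h2⟩, h3⟩, h4⟩, h5⟩, h6⟩, h10⟩, h7⟩, h8⟩, h9⟩ := h
  exact ⟨Nat.le_of_ble_eq_true h1, Nat.le_of_ble_eq_true h2, Nat.le_of_ble_eq_true h3,
    Nat.le_of_ble_eq_true h4, Nat.le_of_ble_eq_true h5, Nat.le_of_ble_eq_true h6,
    Nat.le_of_ble_eq_true h10, Nat.le_of_ble_eq_true h7, Nat.le_of_ble_eq_true h8,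
    Nat.le_of_ble_eq_true h9⟩

section law

variable {ι : Type*} {P : ℕ} {s : Finset ι} {p : ι → ℝ} {f : ι → ℕ}

theorem Iv.logb_le {c : Iv} (h : c.side = true) (h1 : c.P1 ≤ P) (h2 : P ≤ c.P2) :
    Real.logb 2 P ≤ c.ell / 100 := by
  obtain ⟨a1, -, a3, -⟩ := Iv.side_sound h
  have hP : (0 : ℝ) < P := by
    have : 0 < P := by omega
    exact_mod_cast this
  have h3 : P ^ 100 ≤ 2 ^ c.ell := (Nat.pow_le_pow_left h2 100).trans a3
  have h4 : (P : ℝ) ^ 100 ≤ (2 : ℝ) ^ c.ell := by exact_mod_cast h3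
  have h5 := Real.logb_le_logb_of_le (b := 2) (by norm_num) (by positivity) h4
  rw [Real.logb_pow, Real.logb_pow, Real.logb_self_eq_one (by norm_num)] at h5
  rw [le_div_iff₀ (by norm_num)]
  push_cast at h5
  linarith

theorem Iv.t5_le {c : Iv} (h : c.side = true) (h1 : c.P1 ≤ P) (L : Law P s p f) :
    ∑ i ∈ s, p i * (1 / 2 : ℝ) ^ f i ≤ c.n5 / 10 ^ 60 := by
  obtain ⟨a1, -, -, -, a5, -⟩ := Iv.side_sound h
  refine (L.tail (1 / 2) (by norm_num) (by norm_num)).trans ?_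
  have hP : (1 : ℝ) ≤ P := by exact_mod_cast (a1.trans h1)
  refine (rpow_logb_le (u := 31) (v := 84) (by norm_num) hP (by norm_num) (by norm_num)).trans ?_
  have h3 := rpow_neg_le (by positivity) a1 h1 (by norm_num) a5
  have e : ((10 ^ 60 : ℕ) : ℝ) = 10 ^ 60 := by norm_num
  rw [e] at h3
  exact h3

theorem Iv.t2_le {c : Iv} (h : c.side = true) (h1 : c.P1 ≤ P) (L : Law P s p f) :
    ∑ i ∈ s, p i * (1 / 5 : ℝ) ^ f i ≤ c.n2 / 10 ^ 60 := by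
  obtain ⟨a1, -, -, -, -, a6, -⟩ := Iv.side_sound h
  refine (L.tail (1 / 5) (by norm_num) (by norm_num)).trans ?_
  have hP : (1 : ℝ) ≤ P := by exact_mod_cast (a1.trans h1)
  refine (rpow_logb_le (u := 77) (v := 111) (by norm_num) hP (by norm_num) (by norm_num)).trans ?_
  have h3 := rpow_neg_le (by positivity) a1 h1 (by norm_num) a6
  have e : ((10 ^ 60 : ℕ) : ℝ) = 10 ^ 60 := by norm_num
  rw [e] at h3
  exact h3

theorem Iv.t8_le {c : Iv} (h : c.side = true) (h1 : c.P1 ≤ P) (L : Law P s p f) :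
    ∑ i ∈ s, p i * (4 / 5 : ℝ) ^ f i ≤ c.n8 / 10 ^ 60 := by
  obtain ⟨a1, -, -, -, -, -, a6, -⟩ := Iv.side_sound h
  refine (L.tail (4 / 5) (by norm_num) (by norm_num)).trans ?_
  have hP : (1 : ℝ) ≤ P := by exact_mod_cast (a1.trans h1)
  refine (rpow_logb_le (u := 13) (v := 100) (by norm_num) hP (by norm_num) (by norm_num)).trans ?_
  have h3 := rpow_neg_le (by positivity) a1 h1 (by norm_num) a6
  have e : ((10 ^ 60 : ℕ) : ℝ) = 10 ^ 60 := by norm_num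
  rw [e] at h3
  exact h3

theorem Iv.f_lt {c : Iv} (h : c.side = true) (h2 : P ≤ c.P2) (L : Law P s p f) :
    ∀ i ∈ s, f i < c.F + 1 := by
  intro i hi
  obtain ⟨-, a2, -⟩ := Iv.side_sound h
  have h3 := (L.le i hi).trans h2
  exact (Nat.pow_lt_pow_iff_right (by norm_num)).1 (lt_of_le_of_lt h3 a2)

/-- combination of the constraints -/
theorem comb_bound (hnn : ∀ i ∈ s, 0 ≤ p i) (hsum : ∑ i ∈ s, p i = 1) {y : ι → ℝ}
    {y0 L2 r5 r2 r8 A K Q5 Q2 Q8 : ℝ}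
    (hL : Real.logb 2 P ≤ L2)
    (hv : ∑ i ∈ s, p i * y i ^ 2 ≤ y0 ^ 2 +
      ∑ i ∈ s, p i * (1 / 10 * (Real.logb 2 P - f i) + 1 / 40 * f i))
    (h5 : ∑ i ∈ s, p i * (1 / 2 : ℝ) ^ f i ≤ r5) (h2 : ∑ i ∈ s, p i * (1 / 5 : ℝ) ^ f i ≤ r2)
    (h8 : ∑ i ∈ s, p i * (4 / 5 : ℝ) ^ f i ≤ r8)
    (hA : 0 ≤ A) (hQ5 : 0 ≤ Q5) (hQ2 : 0 ≤ Q2) (hQ8 : 0 ≤ Q8) :
    ∑ i ∈ s, p i * (A * (y i ^ 2 - (L2 - f i) / 10 - f i / 40) - K + Q5 * (1 / 2) ^ f i +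
      Q2 * (1 / 5) ^ f i + Q8 * (4 / 5) ^ f i) ≤
        A * y0 ^ 2 - K + Q5 * r5 + Q2 * r2 + Q8 * r8 := by
  have e : ∑ i ∈ s, p i * (A * (y i ^ 2 - (L2 - f i) / 10 - f i / 40) - K + Q5 * (1 / 2) ^ f i +
      Q2 * (1 / 5) ^ f i + Q8 * (4 / 5) ^ f i) = A * (∑ i ∈ s, p i * y i ^ 2 -
        ∑ i ∈ s, p i * ((L2 - f i) / 10 + f i / 40)) - K * ∑ i ∈ s, p i +
        Q5 * ∑ i ∈ s, p i * (1 / 2 : ℝ) ^ f i + Q2 * ∑ i ∈ s, p i * (1 / 5 : ℝ) ^ f i +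
        Q8 * ∑ i ∈ s, p i * (4 / 5 : ℝ) ^ f i := by
    rw [← Finset.sum_sub_distrib, Finset.mul_sum, Finset.mul_sum, Finset.mul_sum, Finset.mul_sum,
      Finset.mul_sum, ← Finset.sum_sub_distrib, ← Finset.sum_add_distrib,
      ← Finset.sum_add_distrib, ← Finset.sum_add_distrib]
    refine Finset.sum_congr rfl fun i _ => ?_
    ring
  rw [e, hsum]
  have h1 : ∑ i ∈ s, p i * (1 / 10 * (Real.logb 2 P - f i) + 1 / 40 * f i) ≤
      ∑ i ∈ s, p i * ((L2 - f i) / 10 + f i / 40) := by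
    refine Finset.sum_le_sum fun i hi => ?_
    refine mul_le_mul_of_nonneg_left ?_ (hnn i hi)
    linarith
  have h6 : A * (∑ i ∈ s, p i * y i ^ 2 - ∑ i ∈ s, p i * ((L2 - f i) / 10 + f i / 40)) ≤
      A * y0 ^ 2 := by
    refine mul_le_mul_of_nonneg_left ?_ hA
    linarith
  have h7 := mul_le_mul_of_nonneg_left h5 hQ5
  have h8' := mul_le_mul_of_nonneg_left h2 hQ2
  have h9 := mul_le_mul_of_nonneg_left h8 hQ8
  linarith

theorem Iv.sound_a {c : Iv} (h : c.check = true) (h1 : c.P1 ≤ P) (h2 : P ≤ c.P2)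
    (L : Law P s p f) (j : ι → ℤ) (y0 : ℝ)
    (hv : ∑ i ∈ s, p i * ((j i : ℝ) - f i / 2) ^ 2 ≤ y0 ^ 2 +
      ∑ i ∈ s, p i * (1 / 10 * (Real.logb 2 P - f i) + 1 / 40 * f i))
    (hy : |y0| ≤ c.w / 1000 - 1 / 2) : ∑ i ∈ s, p i * PsA (f i) (j i) ≤ 0 := by
  unfold Iv.check at h
  simp only [Bool.and_eq_true] at h
  obtain ⟨⟨⟨hs, hA⟩, -⟩, -⟩ := h
  obtain ⟨a1, a2, -, a4, -, -, -, a7, a8, a9⟩ := Iv.side_sound hs
  have hlin := allA_sound (c.F + 1) hA (by omega)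
  have hf := Iv.f_lt hs h2 L
  have hw : 500 ≤ c.w := by
    have h3 : (0 : ℝ) ≤ c.w / 1000 - 1 / 2 := (abs_nonneg y0).trans hy
    have h4 : (500 : ℝ) ≤ c.w := by linarith
    exact_mod_cast h4
  have hb := comb_bound (A := c.a / 1000000000) (K := c.k / 1000000000) (Q5 := c.q5 / 1000000000)
    (Q2 := c.q2 / 1000000000) (Q8 := c.q8 / 1000000000) L.nn L.sum (Iv.logb_le hs h1 h2) hv
    (Iv.t5_le hs h1 L) (Iv.t2_le hs h1 L) (Iv.t8_le hs h1 L) (by positivity) (by positivity)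
    (by positivity) (by positivity)
  refine (Finset.sum_le_sum fun i hi => mul_le_mul_of_nonneg_left (hlin (f i) (hf i hi) (j i))
    (L.nn i hi)).trans (hb.trans ?_)
  have h3 : ((10 ^ 54 * (c.a * ((c.w - 500) * (c.w - 500))) + (c.q5 * c.n5 + c.q2 * c.n2 +
      c.q8 * c.n8) : ℕ) : ℝ) ≤ ((10 ^ 60 * c.k : ℕ) : ℝ) := by exact_mod_cast a7
  push_cast [Nat.cast_sub hw] at h3
  have h4 : y0 ^ 2 ≤ ((c.w : ℝ) / 1000 - 1 / 2) ^ 2 := by
    rw [← sq_abs]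
    exact pow_le_pow_left₀ (abs_nonneg _) hy 2
  have h5 : (c.a : ℝ) / 1000000000 * y0 ^ 2 ≤ c.a / 1000000000 * ((c.w : ℝ) / 1000 - 1 / 2) ^ 2 :=
    mul_le_mul_of_nonneg_left h4 (by positivity)
  have e1 : (c.a : ℝ) / 1000000000 * ((c.w : ℝ) / 1000 - 1 / 2) ^ 2 =
      10 ^ 54 * (c.a * ((c.w - 500) * (c.w - 500))) / 10 ^ 69 := by ring
  have e2 : (c.q5 : ℝ) / 1000000000 * (c.n5 / 10 ^ 60) = c.q5 * c.n5 / 10 ^ 69 := by ring
  have e3 : (c.q2 : ℝ) / 1000000000 * (c.n2 / 10 ^ 60) = c.q2 * c.n2 / 10 ^ 69 := by ring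
  rw [e1] at h5
  have e4 : (c.q8 : ℝ) / 1000000000 * (c.n8 / 10 ^ 60) = c.q8 * c.n8 / 10 ^ 69 := by ring
  rw [e2, e3, e4]
  clear a1 a2 a4 a8 a9 hlin hf hb hv a7
  linarith

theorem covers_sound {hi : ℕ} {x : ℝ} (hx : x ≤ hi / 1000) : ∀ (l : List CB) (lo : ℕ),
    covers hi l lo = true → (lo : ℝ) / 1000 ≤ x →
      ∃ d ∈ l, (d.ya : ℝ) / 1000 ≤ x ∧ x ≤ d.yb / 1000 := by
  intro l
  induction l with
  | nil =>
    intro lo h hlo
    have h1 := Nat.le_of_ble_eq_true h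
    have h2 : (hi : ℝ) + 1 ≤ lo := by exact_mod_cast h1
    exfalso
    have : (lo : ℝ) / 1000 ≤ hi / 1000 := hlo.trans hx
    have h3 : (lo : ℝ) ≤ hi := by linarith
    linarith
  | cons d l ih =>
    intro lo h hlo
    rw [covers, Bool.or_eq_true, Bool.and_eq_true, Bool.and_eq_true] at h
    rcases h with ⟨h1, h2⟩ | ⟨h1, h2⟩
    · have h1' : (hi : ℝ) ≤ d.yb := by exact_mod_cast Nat.le_of_ble_eq_true h1
      have h2' : (d.ya : ℝ) ≤ lo := by exact_mod_cast Nat.le_of_ble_eq_true h2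
      exact ⟨d, List.mem_cons_self, by linarith, by linarith⟩
    · have h1' : (d.ya : ℝ) ≤ lo := by exact_mod_cast Nat.le_of_ble_eq_true h1
      rcases le_total x ((d.yb : ℝ) / 1000) with hxy | hxy
      · exact ⟨d, List.mem_cons_self, by linarith, hxy⟩
      · obtain ⟨d', hd', hh⟩ := ih d.yb h2 hxy
        exact ⟨d', List.mem_cons_of_mem _ hd', hh⟩

theorem Iv.dmax_le {c : Iv} (h : c.side = true) (h1 : c.P1 ≤ P) (h2 : P ≤ c.P2) :
    dmax P ≤ c.dm / 1000 := by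
  obtain ⟨a1, a2, -, a4, -, -, -, a7, a8, a9⟩ := Iv.side_sound h
  have hlog := Iv.logb_le h h1 h2
  have hP : (0 : ℝ) < P := by
    have : 0 < P := by omega
    exact_mod_cast this
  have h3 : Real.logb 2 (2 * P / 3) = Real.logb 2 P - Real.logb 2 (3 / 2) := by
    rw [← Real.logb_div (by positivity) (by norm_num)]
    congr 1
    field_simp
  have h4 : (58 : ℝ) / 100 ≤ Real.logb 2 (3 / 2) := by
    rw [Real.le_logb_iff_rpow_le (by norm_num) (by norm_num)]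
    have h5 : ((2 : ℝ) ^ ((58 : ℝ) / 100)) ^ 100 ≤ (3 / 2 : ℝ) ^ 100 := by
      rw [← Real.rpow_natCast ((2 : ℝ) ^ ((58 : ℝ) / 100)) 100, ← Real.rpow_mul (by norm_num)]
      have e : (58 : ℝ) / 100 * ((100 : ℕ) : ℝ) = ((58 : ℕ) : ℝ) := by norm_num
      rw [e, Real.rpow_natCast]
      norm_num
    exact le_of_pow_le_pow_left₀ (by norm_num) (by norm_num) h5
  have hdm : (2000 : ℝ) ≤ 3 * c.dm := by exact_mod_cast a8
  have h9 : (11000 : ℝ) * c.ell ≤ (3 * c.dm - 2000) * (3 * c.dm - 2000) + 638000 := by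
    have e : ((3 * c.dm - 2000 : ℕ) : ℝ) = 3 * (c.dm : ℝ) - 2000 := by
      rw [Nat.cast_sub a8]; push_cast; ring
    rw [← e]
    exact_mod_cast a9
  have h6 : √(11 / 40 * Real.logb 2 (2 * P / 3)) ≤ 3 * c.dm / 2000 - 1 := by
    apply Real.sqrt_le_iff.2
    constructor
    · linarith
    · rw [h3]
      clear a1 a2 a4 a7 a8 a9
      nlinarith
  unfold dmax
  clear a1 a2 a4 a7 a8 a9
  linarith

theorem Iv.sound_b {c : Iv} (h : c.check = true) (h1 : c.P1 ≤ P) (h2 : P ≤ c.P2)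
    (L : Law P s p f) (j : ι → ℤ) (y0 : ℝ)
    (hm : ∑ i ∈ s, p i * ((j i : ℝ) + 1 / 2 - f i / 2) = y0)
    (hv : ∑ i ∈ s, p i * ((j i : ℝ) + 1 / 2 - f i / 2) ^ 2 ≤ y0 ^ 2 +
      ∑ i ∈ s, p i * (1 / 10 * (Real.logb 2 P - f i) + 1 / 40 * f i))
    (hy1 : c.w / 1000 ≤ y0) (hy2 : y0 ≤ c.w / 1000 + dmax P) :
    0 ≤ ∑ i ∈ s, p i * PsB (f i) (j i) := by
  unfold Iv.check at h
  simp only [Bool.and_eq_true] at h
  obtain ⟨⟨⟨hs, -⟩, hcov⟩, hall⟩ := h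
  have hdm := Iv.dmax_le (P := P) hs h1 h2
  have hy2' : y0 ≤ ((c.w + c.dm : ℕ) : ℝ) / 1000 := by
    push_cast
    linarith
  obtain ⟨d, hd, hya, hyb⟩ := covers_sound hy2' c.cb c.w hcov hy1
  have hchk := List.all_eq_true.1 hall d hd
  unfold CB.chk at hchk
  simp only [Bool.and_eq_true] at hchk
  obtain ⟨⟨⟨b1, b2⟩, b3⟩, b4⟩ := hchk
  have b1' := Nat.le_of_ble_eq_true b1
  have b2' := Nat.le_of_ble_eq_true b2
  have b3' := Nat.le_of_ble_eq_true b3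
  obtain ⟨a1, a2, -, a4, -, -, -, a7, a8, a9⟩ := Iv.side_sound hs
  have hlin := allB_sound (by omega) (c.F + 1) b4 (by omega)
  have hf := Iv.f_lt hs h2 L
  have hb := comb_bound (A := d.a / 1000000000) (K := - ((d.k : ℝ) / 1000000000)) (Q5 := d.q5 / 1000000000)
    (Q2 := d.q2 / 1000000000) (Q8 := d.q8 / 1000000000) L.nn L.sum (Iv.logb_le hs h1 h2) hv
    (Iv.t5_le hs h1 L) (Iv.t2_le hs h1 L) (Iv.t8_le hs h1 L) (by positivity) (by positivity)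
    (by positivity) (by positivity)
  have hneg : - ∑ i ∈ s, p i * PsB (f i) (j i) ≤ ∑ i ∈ s, p i * (d.a / 1000000000 *
      (((j i : ℝ) + 1 / 2 - f i / 2) ^ 2 - (c.ell / 100 - f i) / 10 - f i / 40) -
        - ((d.k : ℝ) / 1000000000) + d.q5 / 1000000000 * (1 / 2) ^ f i +
      d.q2 / 1000000000 * (1 / 5) ^ f i + d.q8 / 1000000000 * (4 / 5) ^ f i) -
        d.b / 1000000000 * y0 := by
    rw [← hm, Finset.mul_sum, ← Finset.sum_sub_distrib, ← Finset.sum_neg_distrib]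
    refine Finset.sum_le_sum fun i hi => ?_
    have h3 := mul_le_mul_of_nonneg_left (hlin (f i) (hf i hi) (j i)) (L.nn i hi)
    clear a1 a2 a4 a7 a8 a9 b1' b2' b3' hb
    linarith
  obtain ⟨R, hR⟩ : ∃ R : ℝ, ((d.q5 : ℝ) * c.n5 + d.q2 * c.n2 + d.q8 * c.n8) = 10 ^ 54 * R :=
    ⟨((d.q5 : ℝ) * c.n5 + d.q2 * c.n2 + d.q8 * c.n8) / 10 ^ 54, by field_simp⟩
  have r2 : (1000000 : ℝ) * d.k + R + d.a * (d.ya * d.ya) ≤ 1000 * (d.b * d.ya) := by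
    have : (10 : ℝ) ^ 60 * d.k + (d.q5 * c.n5 + d.q2 * c.n2 + d.q8 * c.n8) + 10 ^ 54 * (d.a * (d.ya * d.ya)) ≤
      10 ^ 57 * (d.b * d.ya) := by exact_mod_cast b2'
    rw [hR] at this
    linarith
  have r3 : (1000000 : ℝ) * d.k + R + d.a * (d.yb * d.yb) ≤ 1000 * (d.b * d.yb) := by
    have : (10 : ℝ) ^ 60 * d.k + (d.q5 * c.n5 + d.q2 * c.n2 + d.q8 * c.n8) + 10 ^ 54 * (d.a * (d.yb * d.yb)) ≤
      10 ^ 57 * (d.b * d.yb) := by exact_mod_cast b3'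
    rw [hR] at this
    linarith
  clear b1' b2' b3' a1 a2 a4 a7 a8 a9 hlin hf hv hm
  have hfin : (d.a : ℝ) / 1000000000 * y0 ^ 2 + d.k / 1000000000 +
      d.q5 / 1000000000 * (c.n5 / 10 ^ 60) +
      d.q2 / 1000000000 * (c.n2 / 10 ^ 60) + d.q8 / 1000000000 * (c.n8 / 10 ^ 60) ≤
        d.b / 1000000000 * y0 := by
    have e2 : (d.q5 : ℝ) / 1000000000 * (c.n5 / 10 ^ 60) + d.q2 / 1000000000 * (c.n2 / 10 ^ 60) +
        d.q8 / 1000000000 * (c.n8 / 10 ^ 60) = R / 10 ^ 15 := by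
      have : (d.q5 : ℝ) / 1000000000 * (c.n5 / 10 ^ 60) + d.q2 / 1000000000 * (c.n2 / 10 ^ 60) +
        d.q8 / 1000000000 * (c.n8 / 10 ^ 60) = (d.q5 * c.n5 + d.q2 * c.n2 + d.q8 * c.n8) / 10 ^ 69 := by ring
      rw [this, hR]
      ring
    rw [add_assoc, add_assoc, ← add_assoc ((d.q5 : ℝ) / 1000000000 * (c.n5 / 10 ^ 60)), e2]
    set x : ℝ := 1000 * y0 with hx
    have hxa : (d.ya : ℝ) ≤ x := by rw [hx]; linarith
    have hxb : x ≤ d.yb := by rw [hx]; linarith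
    have ha0 : (0 : ℝ) ≤ d.a := by positivity
    have hconv : (1000000 : ℝ) * d.k + R + d.a * (x * x) ≤
        1000 * (d.b * x) := by
      rcases eq_or_lt_of_le (hxa.trans hxb) with hab | hab
      · have : x = d.ya := by linarith
        rw [this]
        exact r2
      · have h6 : 0 ≤ d.a * ((x - d.ya) * (d.yb - x)) :=
          mul_nonneg ha0 (mul_nonneg (by linarith) (by linarith))
        have h7 : 0 ≤ (d.yb - x) * (1000 * (d.b * d.ya) -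
            ((1000000 : ℝ) * d.k + R + d.a * (d.ya * d.ya))) :=
          mul_nonneg (by linarith) (by linarith)
        have h8 : 0 ≤ (x - d.ya) * (1000 * (d.b * d.yb) -
            ((1000000 : ℝ) * d.k + R + d.a * (d.yb * d.yb))) :=
          mul_nonneg (by linarith) (by linarith)
        have h9 : 0 < (d.yb : ℝ) - d.ya := by linarith
        have h10 : 0 ≤ ((d.yb : ℝ) - d.ya) * (1000 * (d.b * x) -
            ((1000000 : ℝ) * d.k + R + d.a * (x * x))) := by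
          have h11 : 0 ≤ ((d.yb : ℝ) - d.ya) * (d.a * ((x - d.ya) * (d.yb - x))) :=
            mul_nonneg h9.le h6
          nlinarith [h7, h8, h11]
        have := nonneg_of_mul_nonneg_right h10 h9
        linarith
    have hy : y0 = x / 1000 := by rw [hx]; ring
    rw [hy]
    nlinarith [hconv]
  linarith

end law

end Pool.Agent.UniM
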