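import Mathlib
import Pool.Agent.UniM.P3Iv

/-!
# P3: kernel friendly versions of the checker (recursors and `Nat.add`, `Nat.mul`, ... only)
-/

set_option autoImplicit false

namespace Pool.Agent.UniM

/-- conjunction -/
noncomputable def fand (a b : Bool) : Bool := Bool.rec (motive := fun _ => Bool) false b a

theorem fand_eq (a b : Bool) : fand a b = (a && b) := by cases a <;> rfl

/-- disjunction -/
noncomputable def fbor (a b : Bool) : Bool := Bool.rec (motive := fun _ => Bool) b true a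

theorem fbor_eq (a b : Bool) : fbor a b = (a || b) := by cases a <;> rfl

/-- kernel version of `rowA` -/
noncomputable def frowA (W U T V f n : ℕ) : ℕ → ℕ → ℕ → Bool :=
  Nat.rec (motive := fun _ => ℕ → ℕ → ℕ → Bool) (fun _ _ _ => true)
    (fun _ ih i c0 c1 =>
      Bool.rec (motive := fun _ => Bool) false
        (ih (Nat.succ i) c1 (Nat.div (Nat.mul c1 (Nat.sub f i)) (Nat.succ i)))
        (Nat.ble (Nat.add (Nat.mul W (Nat.add c0
          (Nat.div (Nat.mul c1 (Nat.sub f i)) (Nat.succ i)))) U)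
          (Nat.add (Nat.mul W (Nat.mul 2 c1)) (Nat.add (Nat.mul T
            (Nat.mul (Nat.sub f (Nat.mul 2 i)) (Nat.sub f (Nat.mul 2 i)))) V)))) n

theorem frowA_eq (W U T V f : ℕ) : ∀ n i c0 c1 : ℕ,
    frowA W U T V f n i c0 c1 = rowA W U T V f n i c0 c1 := by
  intro n
  induction n with
  | zero => intro i c0 c1; rfl
  | succ n ih =>
    intro i c0 c1
    rw [rowA, ← ih, ← fand_eq]
    rfl

/-- kernel version of `rowB` -/
noncomputable def frowB (W U T V S f n : ℕ) : ℕ → ℕ → ℕ → Bool :=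
  Nat.rec (motive := fun _ => ℕ → ℕ → ℕ → Bool) (fun _ _ _ => true)
    (fun _ ih i c0 c1 =>
      Bool.rec (motive := fun _ => Bool) false
        (Bool.rec (motive := fun _ => Bool) false
          (ih (Nat.succ i) c1 (Nat.div (Nat.mul c1 (Nat.sub f i)) (Nat.succ i)))
          (Nat.ble (Nat.add (Nat.mul W c1) U) (Nat.add (Nat.add (Nat.mul W c0)
            (Nat.add (Nat.mul T (Nat.mul (Nat.sub (Nat.succ f) (Nat.mul 2 i))
              (Nat.sub (Nat.succ f) (Nat.mul 2 i)))) V))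
            (Nat.mul S (Nat.sub (Nat.succ f) (Nat.mul 2 i))))))
        (Nat.ble (Nat.add (Nat.add (Nat.mul W c0) U)
          (Nat.mul S (Nat.sub (Nat.succ f) (Nat.mul 2 i))))
          (Nat.add (Nat.mul W c1) (Nat.add (Nat.mul T
            (Nat.mul (Nat.sub (Nat.succ f) (Nat.mul 2 i))
              (Nat.sub (Nat.succ f) (Nat.mul 2 i)))) V)))) n

theorem frowB_eq (W U T V S f : ℕ) : ∀ n i c0 c1 : ℕ,
    frowB W U T V S f n i c0 c1 = rowB W U T V S f n i c0 c1 := by
  intro n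
  induction n with
  | zero => intro i c0 c1; rfl
  | succ n ih =>
    intro i c0 c1
    rw [rowB, ← ih, ← fand_eq, ← fand_eq]
    rfl

/-- kernel version of `chkA` -/
noncomputable def fchkA (ell a k q5 q2 q8 f : ℕ) : Bool :=
  fand (Nat.ble (Nat.add (Nat.mul (Nat.pow 5 f) 1000000000000)
      (Nat.mul (Nat.pow 10 f) (Nat.add (Nat.mul a (Nat.sub ell (Nat.mul 75 f)))
        (Nat.mul 1000 k))))
    (Nat.add (Nat.mul (Nat.mul (Nat.pow 10 f) (Nat.mul 250 a))
        (Nat.mul (Nat.add f 2) (Nat.add f 2)))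
      (Nat.add (Nat.add (Nat.mul (Nat.pow 5 f) (Nat.mul 1000 q5))
        (Nat.mul (Nat.pow 2 f) (Nat.mul 1000 q2))) (Nat.mul (Nat.pow 8 f) (Nat.mul 1000 q8)))))
    (frowA (Nat.mul (Nat.pow 5 f) 1000000000000)
      (Nat.mul (Nat.pow 10 f) (Nat.add (Nat.mul a (Nat.sub ell (Nat.mul 75 f)))
        (Nat.mul 1000 k))) (Nat.mul (Nat.pow 10 f) (Nat.mul 250 a))
      (Nat.add (Nat.add (Nat.mul (Nat.pow 5 f) (Nat.mul 1000 q5))
        (Nat.mul (Nat.pow 2 f) (Nat.mul 1000 q2))) (Nat.mul (Nat.pow 8 f) (Nat.mul 1000 q8)))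
      f (Nat.succ (Nat.div f 2)) 0 0 1)

theorem fchkA_eq (ell a k q5 q2 q8 f : ℕ) :
    fchkA ell a k q5 q2 q8 f = chkA ell a k q5 q2 q8 f := by
  unfold fchkA chkA
  rw [fand_eq, frowA_eq]
  rfl

/-- kernel version of `chkB` -/
noncomputable def fchkB (ell a b k q5 q2 q8 f : ℕ) : Bool :=
  fand (fbor (Nat.ble (Nat.add (Nat.mul (Nat.mul (Nat.pow 10 f)
        (Nat.mul a (Nat.sub ell (Nat.mul 75 f)))) a)
        (Nat.mul (Nat.mul (Nat.mul 250 b) b) (Nat.pow 10 f)))
      (Nat.mul (Nat.add (Nat.mul (Nat.pow 10 f) (Nat.mul 1000 k))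
        (Nat.add (Nat.add (Nat.mul (Nat.pow 5 f) (Nat.mul 1000 q5))
        (Nat.mul (Nat.pow 2 f) (Nat.mul 1000 q2))) (Nat.mul (Nat.pow 8 f) (Nat.mul 1000 q8)))) a))
    (fand (Nat.ble b (Nat.mul a (Nat.add f 3)))
      (Nat.ble (Nat.add (Nat.mul (Nat.pow 10 f) (Nat.mul a (Nat.sub ell (Nat.mul 75 f))))
        (Nat.mul (Nat.mul (Nat.pow 10 f) (Nat.mul 500 b)) (Nat.add f 3)))
        (Nat.add (Nat.mul (Nat.mul (Nat.pow 10 f) (Nat.mul 250 a))
          (Nat.mul (Nat.add f 3) (Nat.add f 3)))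
          (Nat.add (Nat.mul (Nat.pow 10 f) (Nat.mul 1000 k))
        (Nat.add (Nat.add (Nat.mul (Nat.pow 5 f) (Nat.mul 1000 q5))
        (Nat.mul (Nat.pow 2 f) (Nat.mul 1000 q2)))
          (Nat.mul (Nat.pow 8 f) (Nat.mul 1000 q8))))))))
    (frowB (Nat.mul (Nat.pow 5 f) 1000000000000)
      (Nat.mul (Nat.pow 10 f) (Nat.mul a (Nat.sub ell (Nat.mul 75 f))))
      (Nat.mul (Nat.pow 10 f) (Nat.mul 250 a))
      (Nat.add (Nat.mul (Nat.pow 10 f) (Nat.mul 1000 k))
        (Nat.add (Nat.add (Nat.mul (Nat.pow 5 f) (Nat.mul 1000 q5))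
        (Nat.mul (Nat.pow 2 f) (Nat.mul 1000 q2))) (Nat.mul (Nat.pow 8 f) (Nat.mul 1000 q8))))
      (Nat.mul (Nat.pow 10 f) (Nat.mul 500 b)) f
      (Nat.succ (Nat.div (Nat.succ f) 2)) 0 0 1)

theorem fchkB_eq (ell a b k q5 q2 q8 f : ℕ) :
    fchkB ell a b k q5 q2 q8 f = chkB ell a b k q5 q2 q8 f := by
  unfold fchkB chkB
  rw [fand_eq, fand_eq, fbor_eq, frowB_eq]
  rfl

/-- `g f` for `lo ≤ f < lo + n` -/
noncomputable def rngG (g : ℕ → Bool) (n : ℕ) : ℕ → Bool :=
  Nat.rec (motive := fun _ => ℕ → Bool) (fun _ => true)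
    (fun _ ih lo => Bool.rec (motive := fun _ => Bool) false (ih (Nat.succ lo)) (g lo)) n

theorem rngG_spec (g : ℕ → Bool) : ∀ n lo : ℕ, rngG g n lo = true →
    ∀ f, lo ≤ f → f < lo + n → g f = true := by
  intro n
  induction n with
  | zero => intro lo _ f h1 h2; omega
  | succ n ih =>
    intro lo h f h1 h2
    have h' : fand (g lo) (rngG g n (lo + 1)) = true := h
    rw [fand_eq, Bool.and_eq_true] at h'
    rcases eq_or_lt_of_le h1 with rfl | h3
    · exact h'.1
    · exact ih (lo + 1) h'.2 f h3 (by omega)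

/-- all members of the list satisfy `g` -/
noncomputable def lstG (g : CB → Bool) (l : List CB) : Bool :=
  List.rec (motive := fun _ => Bool) true (fun d _ ih => fand (g d) ih) l

theorem lstG_spec (g : CB → Bool) : ∀ l : List CB, lstG g l = true → ∀ d ∈ l, g d = true := by
  intro l
  induction l with
  | nil => intro _ d hd; simp at hd
  | cons e l ih =>
    intro h d hd
    have h' : fand (g e) (lstG g l) = true := h
    rw [fand_eq, Bool.and_eq_true] at h'
    rcases List.mem_cons.1 hd with rfl | hd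
    · exact h'.1
    · exact ih h'.2 d hd

theorem allA_of (ell a k q5 q2 q8 : ℕ) : ∀ n : ℕ,
    (∀ f, f < n → chkA ell a k q5 q2 q8 f = true) → allA ell a k q5 q2 q8 n = true := by
  intro n
  induction n with
  | zero => intro _; rfl
  | succ n ih =>
    intro h
    rw [allA, Bool.and_eq_true]
    exact ⟨h n (Nat.lt_succ_self n), ih (fun f hf => h f (Nat.lt_succ_of_lt hf))⟩

theorem allB_of (ell a b k q5 q2 q8 : ℕ) : ∀ n : ℕ,
    (∀ f, f < n → chkB ell a b k q5 q2 q8 f = true) → allB ell a b k q5 q2 q8 n = true := by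
  intro n
  induction n with
  | zero => intro _; rfl
  | succ n ih =>
    intro h
    rw [allB, Bool.and_eq_true]
    exact ⟨h n (Nat.lt_succ_self n), ih (fun f hf => h f (Nat.lt_succ_of_lt hf))⟩

/-- certificate (a) and all certificates (b) of the interval `c` for `lo ≤ f < lo + n` -/
noncomputable def Iv.rng (c : Iv) (lo n : ℕ) : Bool :=
  fand (rngG (fchkA c.ell c.a c.k c.q5 c.q2 c.q8) n lo)
    (lstG (fun d => rngG (fchkB c.ell d.a d.b d.k d.q5 d.q2 d.q8) n lo) c.cb)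

/-- the cheap conditions -/
def Iv.cheap (c : Iv) : Bool :=
  c.side && covers (c.w + c.dm) c.cb c.w &&
  c.cb.all (fun d => Nat.ble 1 d.a && d.endp c.n5 c.n2 c.n8 d.ya && d.endp c.n5 c.n2 c.n8 d.yb)

/-- all parts together -/
theorem Iv.check_of (c : Iv) (l : List (ℕ × ℕ)) (h : c.cheap = true)
    (hl : ∀ x ∈ l, c.rng x.1 x.2 = true)
    (hcov : ∀ f, f < c.F + 1 → ∃ x ∈ l, x.1 ≤ f ∧ f < x.1 + x.2) : c.check = true := by
  unfold Iv.cheap at h
  simp only [Bool.and_eq_true] at h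
  obtain ⟨⟨h1, h2⟩, h3⟩ := h
  have hx : ∀ x ∈ l, rngG (fchkA c.ell c.a c.k c.q5 c.q2 c.q8) x.2 x.1 = true ∧
      ∀ d ∈ c.cb, rngG (fchkB c.ell d.a d.b d.k d.q5 d.q2 d.q8) x.2 x.1 = true := by
    intro x hxl
    have := hl x hxl
    unfold Iv.rng at this
    rw [fand_eq, Bool.and_eq_true] at this
    exact ⟨this.1, lstG_spec _ _ this.2⟩
  unfold Iv.check
  simp only [Bool.and_eq_true]
  refine ⟨⟨⟨h1, ?_⟩, h2⟩, ?_⟩
  · refine allA_of _ _ _ _ _ _ _ fun f hf => ?_
    obtain ⟨x, hxl, hx1, hx2⟩ := hcov f hf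
    rw [← fchkA_eq]
    exact rngG_spec _ _ _ (hx x hxl).1 f hx1 hx2
  · rw [List.all_eq_true] at h3 ⊢
    intro d hd
    have h4 := h3 d hd
    simp only [Bool.and_eq_true] at h4
    unfold CB.chk
    simp only [Bool.and_eq_true]
    refine ⟨⟨⟨h4.1.1, h4.1.2⟩, h4.2⟩, ?_⟩
    refine allB_of _ _ _ _ _ _ _ _ fun f hf => ?_
    obtain ⟨x, hxl, hx1, hx2⟩ := hcov f hf
    rw [← fchkB_eq]
    exact rngG_spec _ _ _ ((hx x hxl).2 d hd) f hx1 hx2

/-- all conditions on an interval, kernel version -/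
noncomputable def Iv.full (c : Iv) : Bool := fand c.cheap (c.rng 0 (Nat.succ c.F))

/-- all members of the list satisfy `g` -/
noncomputable def lstI (g : Iv → Bool) (l : List Iv) : Bool :=
  List.rec (motive := fun _ => Bool) true (fun d _ ih => fand (g d) ih) l

theorem lstI_spec (g : Iv → Bool) : ∀ l : List Iv, lstI g l = true → ∀ d ∈ l, g d = true := by
  intro l
  induction l with
  | nil => intro _ d hd; simp at hd
  | cons e l ih =>
    intro h d hd
    have h' : fand (g e) (lstI g l) = true := h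
    rw [fand_eq, Bool.and_eq_true] at h'
    rcases List.mem_cons.1 hd with rfl | hd
    · exact h'.1
    · exact ih h'.2 d hd

theorem Iv.check_of_full (c : Iv) (h : c.full = true) : c.check = true := by
  unfold Iv.full at h
  rw [fand_eq, Bool.and_eq_true] at h
  refine Iv.check_of c [(0, c.F + 1)] h.1 ?_ ?_
  · intro x hx
    rw [List.mem_singleton] at hx
    subst hx
    exact h.2
  · intro f hf
    exact ⟨(0, c.F + 1), List.mem_singleton.2 rfl, Nat.zero_le _, by simpa using hf⟩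

theorem check_of_list (l : List Iv) (h : lstI Iv.full l = true) : ∀ c ∈ l, c.check = true :=
  fun c hc => Iv.check_of_full c (lstI_spec _ l h c hc)

end Pool.Agent.UniM
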