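import Mathlib
import Pool.Agent.UniM.P3Fast

/-!
# P3: certificates (table B), computed by helper19
-/

set_option autoImplicit false

namespace Pool.Agent.UniM

/-- certificates, part B -/
def tabB : List Iv := [
  ⟨1797010299914431210413179829509605039731475627537851106401, 48519278097689642681155855396759336072749841943521979872826, 194, 19496,
    741898398930369269724497756501551212296,
    191813573722260752018,
    36050262084198229042192206359148686917694527622897639,
    2330, 5541, 108920, 628853, 0, 0, 3353034041071,
    [⟨2330, 7871, 292586, 3090274, 5144653, 0, 0, 8392129128087⟩]⟩,
  ⟨48519278097689642681155855396759336072749841943521979872827, 1310020508637620352391208095712502073964245732475093456566328, 199, 19971,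
    219838141903525133775971185669019320923,
    19496260554493001948,
    23487194110275056505596792040113052471725287228187212,
    2360, 5601, 102472, 607870, 0, 0, 4821403451717,
    [⟨2360, 7961, 252747, 2864052, 4891758, 0, 0, 12046827697991⟩]⟩,
  ⟨1310020508637620352391208095712502073964245732475093456566329, 35370553733215749514562618584237555997034634776827523327290882, 204, 20447,
    65142085095846586785021499439702555205,
    1981633354889978400,
    15302199076537120326085880950262861527428116109779379,
    2380, 5659, 91625, 611797, 0, 0, 9594925739100,
    [⟨2380, 8039, 244140, 2775531, 4788042, 0, 0, 17757382351794⟩]⟩,
  ⟨35370553733215749514562618584237555997034634776827523327290883, 25785133671514281396116148947909178321838248752307264505595053706, 213, 21397,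
    19302798021722512887236784229426876475,
    201416612290173043,
    9969573014067932960758898726593316608620590676278932,
    2420, 5774, 87123, 544150, 0, 0, 13485129942131,
    [⟨2420, 8194, 236174, 2690711, 4805199, 0, 0, 26214656828650⟩]⟩,
  ⟨25785133671514281396116148947909178321838248752307264505595053707, 18797362446533911137768672583025790996620083340431995824578794152402, 223, 22348,
    1694874275415443267750038900823599356,
    2080842713045331,
    4231769261844261811443593147787054671850484263356773,
    2470, 5887, 78493, 507923, 0, 0, 28586862281366,
    [⟨2470, 8357, 220605, 2536131, 4607124, 0, 0, 57338050271060⟩]⟩,
  ⟨18797362446533911137768672583025790996620083340431995824578794152403, 13703277223523221219433362313025801636536040755174924956117940937101786, 232, 23299,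
    148817741667934800354039915124062642,
    21497265529399,
    1796252563697599469789728828455286347412279911088766,
    2520, 5997, 70815, 476742, 0, 0, 60730757321395,
    [⟨2520, 8517, 201003, 2373316, 4402763, 0, 0, 125636183934640⟩]⟩,
  ⟨13703277223523221219433362313025801636536040755174924956117940937101787, 9989689095948428268966921126195809393034773710522520293009978943147202722, 242, 24250,
    13066880863311014623153071927498829,
    222089071099,
    762452551863386926763055094587409741877671912154326,
    2570, 6105, 63958, 449803, 0, 0, 129279932523002,
    [⟨2570, 8675, 196392, 2313511, 4423704, 0, 0, 186773812196527⟩]⟩,
  ⟨9989689095948428268966921126195809393034773710522520293009978943147202723, 7282483350946404208076885500996745047522350034970917293604274649554310785066, 252, 25201,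
    1147332123053934505510833510484520,
    2294410675,
    323637057277908914975417455002272965904973823845813,
    2610, 6211, 57812, 426464, 0, 0, 275720276049764,
    [⟨2610, 8821, 185953, 2199719, 4265108, 0, 0, 413663940133173⟩]⟩,
  ⟨7282483350946404208076885500996745047522350034970917293604274649554310785067, 5308930362839928667688049530226627139643793175493798707037516219525092562313842, 261, 26152,
    100741027209296350482135400127324,
    23703645,
    137373721928694576820466182341525400661475058474728,
    2660, 6315, 53380, 399642, 0, 0, 547002277724788,
    [⟨2660, 8975, 176856, 2097416, 4120593, 0, 0, 926968711093647⟩]⟩]

theorem tabB_full : lstI Iv.full tabB = true := by decide +kernel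

theorem tabB_ok : ∀ c ∈ tabB, c.check = true := check_of_list _ tabB_full

end Pool.Agent.UniM
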