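import Mathlib
import Pool.Agent.UniM.P3Fast

/-!
# P3: certificates (table C), computed by helper19
-/

set_option autoImplicit false

namespace Pool.Agent.UniM

/-- certificates, part C -/
def tabC : List Iv := [
  ⟨5308930362839928667688049530226627139643793175493798707037516219525092562313843, 3870210234510307998744588107535211184800325224934979257430349324033792477926791546, 271, 27103,
    8845524638646510410900610020382,
    244884,
    58310811608749757162838038328140880378070633848561,
    2700, 6417, 48930, 378100, 0, 0, 1187715637057722,
    [⟨2700, 9117, 147791, 1905257, 3874143, 0, 0, 2020882082014763⟩]⟩,
  ⟨3870210234510307998744588107535211184800325224934979257430349324033792477926791547, 2821383260958014531084804730393168953719437088977599878666724657220634716408631037762, 280, 28054,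
    776677668477081110835615578026,
    2530,
    24751100157539541033218420871424607008275058686118,
    2750, 6517, 44891, 359085, 0, 0, 2582669288554491,
    [⟨2750, 9267, 142603, 1830839, 3757660, 0, 0, 4531545228775207⟩]⟩,
  ⟨2821383260958014531084804730393168953719437088977599878666724657220634716408631037763, 2056788397238392593160822648456620167261469637864670311548042275113842708261892026529226, 290, 29005,
    68195864615589054107902922615,
    27,
    10506061262173006835174600697272831058616558313125,
    2790, 6615, 41215, 342258, 0, 0, 5623732246457814,
    [⟨2790, 9405, 135686, 1751137, 3639402, 0, 0, 10174993015978654⟩]⟩,
  ⟨2056788397238392593160822648456620167261469637864670311548042275113842708261892026529227, 40483766022843281411184472189571654752207506882090305742200116101065766026718820758174775040, 304, 30432,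
    5987909965001121248829153520,
    1,
    4459491600049533699468376315702396873637637492517,
    2850, 6760, 37835, 308938, 0, 0, 12260191090969264,
    [⟨2850, 9610, 129671, 1678341, 3596052, 0, 0, 22924069046698355⟩]⟩,
  ⟨40483766022843281411184472189571654752207506882090305742200116101065766026718820758174775041, 796841966627624308016343966107338880487700357960183487923724885217277472703906548983154097132002, 318, 31858,
    155794131370708381542129818,
    1,
    1233256696122719688789399884380003756355529776700,
    2910, 6901, 34038, 286273, 0, 0, 36438638462735304,
    [⟨2910, 9811, 106834, 1501024, 3331370, 0, 0, 76600581108926042⟩]⟩]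

theorem tabC_full : lstI Iv.full tabC = true := by decide +kernel

theorem tabC_ok : ∀ c ∈ tabC, c.check = true := check_of_list _ tabC_full

end Pool.Agent.UniM
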