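import Mathlib
import Pool.Agent.UniM.P3Fast

/-!
# P3: certificates (table D), computed by helper19
-/

set_option autoImplicit false

namespace Pool.Agent.UniM

/-- certificates, part D -/
def tabD : List Iv := [
  ⟨796841966627624308016343966107338880487700357960183487923724885217277472703906548983154097132003, 47052721287394587764057094854672253553918218437190874778408030747195017485692977810906266281547645146, 334, 33443,
    4053469659934841138323563,
    1,
    341052795909433390384850113330219857198224787251,
    2980, 7055, 30481, 263525, 0, 0, 119884166835842432,
    [⟨2980, 10035, 100221, 1415836, 3207350, 0, 0, 261636612196198349⟩]⟩,
  ⟨47052721287394587764057094854672253553918218437190874778408030747195017485692977810906266281547645147, 2778416139299363012879807394073541900105316880497683964790215807591118587512684646756204117659106898285202, 350, 35028,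
    70310841572762314073455,
    1,
    81764348953692110467495685244834784895393419276,
    3040, 7205, 27328, 244413, 0, 0, 395303681442492792,
    [⟨3040, 10245, 94412, 1339941, 3096341, 0, 0, 898522237366636062⟩]⟩,
  ⟨2778416139299363012879807394073541900105316880497683964790215807591118587512684646756204117659106898285203, 164062694609488086547539746812648575659318856476507740436897453222447961474036515706307096943652603236842951946, 366, 36613,
    1219600701969864778196,
    1,
    19602269326056025628917889596431643462887419174,
    3100, 7351, 23970, 233380, 0, 0, 1763890250201732320,
    [⟨3100, 10451, 79680, 1202998, 2839577, 0, 0, 4628335541602058770⟩]⟩]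

theorem tabD_full : lstI Iv.full tabD = true := by decide +kernel

theorem tabD_ok : ∀ c ∈ tabD, c.check = true := check_of_list _ tabD_full

end Pool.Agent.UniM
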