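import Mathlib
import Pool.Agent.UniM.P3Fast

/-!
# P3: certificates (table E), computed by helper19
-/

set_option autoImplicit false

namespace Pool.Agent.UniM

/-- certificates, part E -/
def tabE : List Iv := [
  ⟨164062694609488086547539746812648575659318856476507740436897453222447961474036515706307096943652603236842951947, 9687738053995662022545674509540085744107119156081305565058357715332329677080382215941727767425742568532339469518402, 381, 38198,
    21155000267008611397,
    1,
    4699468260291039683682736219365880835332358949,
    3160, 7495, 21791, 216981, 0, 0, 5922197438024416820,
    [⟨3160, 10655, 74152, 1136891, 2741630, 0, 0, 15486989584529990800⟩]⟩,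
  ⟨9687738053995662022545674509540085744107119156081305565058357715332329677080382215941727767425742568532339469518403, 572051244350389846769299534113832523103781279047445012311130964732658735101919489469143082938722672929266113335592178746, 397, 39783,
    366951278048864700,
    1,
    1126655366382846806945473927463435168038270734,
    3220, 7635, 19826, 202806, 0, 0, 19916575984723580100,
    [⟨3220, 10855, 70235, 1081969, 2654061, 0, 0, 55048607873123659000⟩]⟩]

theorem tabE_full : lstI Iv.full tabE = true := by decide +kernel

theorem tabE_ok : ∀ c ∈ tabE, c.check = true := check_of_list _ tabE_full

end Pool.Agent.UniM
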