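import Mathlib
import Pool.Agent.UniM.P3Fast

/-!
# P3: certificates (table F), computed by helper19
-/

set_option autoImplicit false

namespace Pool.Agent.UniM

/-- certificates, part F -/
def tabF : List Iv := [
  ⟨572051244350389846769299534113832523103781279047445012311130964732658735101919489469143082938722672929266113335592178747, 33779053927646170061880368189887696656755180746472580531959972336498765649033243933663429904448635113800234726353382562831602, 413, 41368,
    6365078646285248,
    1,
    270105519240309828173640909518232334746469604,
    3280, 7773, 17506, 196313, 0, 0, 100599695992150212000,
    [⟨3280, 11053, 66541, 1031121, 2573438, 0, 0, 194753552439448306000⟩]⟩]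

theorem tabF_full : lstI Iv.full tabF = true := by decide +kernel

theorem tabF_ok : ∀ c ∈ tabF, c.check = true := check_of_list _ tabF_full

end Pool.Agent.UniM
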