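import Mathlib
import Pool.Agent.UniM.P3Iv
import Pool.Agent.UniM.P3TabA
import Pool.Agent.UniM.P3TabB
import Pool.Agent.UniM.P3TabC
import Pool.Agent.UniM.P3TabD
import Pool.Agent.UniM.P3TabE
import Pool.Agent.UniM.P3TabF

/-!
# P3: the finite part, all `3 ≤ P ≤ Pmax`
-/

set_option autoImplicit false

namespace Pool.Agent.UniM

/-- all certificates -/
def tab : List Iv := tabA ++ tabB ++ tabC ++ tabD ++ tabE ++ tabF

/-- consecutive intervals, nondecreasing `w`, starting after `q` with `w ≥ u`, ending at `e` -/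
def chain (e : ℕ) : List Iv → ℕ → ℕ → Bool
  | [], q, _ => Nat.beq q e
  | c :: l, q, u => Nat.beq c.P1 (q + 1) && (Nat.ble u c.w && chain e l c.P2 c.w)

/-- the value of `1000 w` read off from the list -/
def wOf : List Iv → ℕ → ℕ
  | [], _ => 0
  | c :: l, P => if P ≤ c.P2 then c.w else wOf l P

theorem wOf_ge {e : ℕ} : ∀ (l : List Iv) (q u : ℕ), chain e l q u = true → ∀ P, P ≤ e →
    q < P → u ≤ wOf l P := by
  intro l
  induction l with
  | nil =>
    intro q u h P hP hq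
    have := Nat.eq_of_beq_eq_true h
    omega
  | cons c l ih =>
    intro q u h P hP hq
    rw [chain, Bool.and_eq_true, Bool.and_eq_true] at h
    obtain ⟨h1, h2, h3⟩ := h
    have h2' := Nat.le_of_ble_eq_true h2
    unfold wOf
    split_ifs with hc
    · exact h2'
    · exact h2'.trans (ih _ _ h3 P hP (by omega))

theorem wOf_mono {e : ℕ} : ∀ (l : List Iv) (q u : ℕ), chain e l q u = true → ∀ P P', P ≤ P' →
    P' ≤ e → wOf l P ≤ wOf l P' := by
  intro l
  induction l with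
  | nil => intro q u _ P P' _ _; exact le_rfl
  | cons c l ih =>
    intro q u h P P' hPP hP'
    rw [chain, Bool.and_eq_true, Bool.and_eq_true] at h
    obtain ⟨h1, h2, h3⟩ := h
    unfold wOf
    split_ifs with hc hc' hc'
    · exact le_rfl
    · exact wOf_ge l _ _ h3 P' hP' (by omega)
    · omega
    · exact ih _ _ h3 P P' hPP hP'

theorem wOf_spec {e : ℕ} : ∀ (l : List Iv) (q u : ℕ), chain e l q u = true → ∀ P, P ≤ e →
    q < P → ∃ c ∈ l, c.P1 ≤ P ∧ P ≤ c.P2 ∧ wOf l P = c.w := by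
  intro l
  induction l with
  | nil =>
    intro q u h P hP hq
    have := Nat.eq_of_beq_eq_true h
    omega
  | cons c l ih =>
    intro q u h P hP hq
    rw [chain, Bool.and_eq_true, Bool.and_eq_true] at h
    obtain ⟨h1, h2, h3⟩ := h
    have h1' := Nat.eq_of_beq_eq_true h1
    by_cases hc : P ≤ c.P2
    · refine ⟨c, List.mem_cons_self, by omega, hc, ?_⟩
      unfold wOf
      rw [if_pos hc]
    · obtain ⟨d, hd, hd1, hd2, hd3⟩ := ih _ _ h3 P hP (by omega)
      refine ⟨d, List.mem_cons_of_mem _ hd, hd1, hd2, ?_⟩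
      rw [wOf, if_neg hc]
      exact hd3

theorem tab_all : ∀ c ∈ tab, c.check = true := by
  intro c hc
  unfold tab at hc
  simp only [List.mem_append] at hc
  rcases hc with ((((h | h) | h) | h) | h) | h
  · exact tabA_ok c h
  · exact tabB_ok c h
  · exact tabC_ok c h
  · exact tabD_ok c h
  · exact tabE_ok c h
  · exact tabF_ok c h

/-- last value of `P` covered by the table -/
def Pmax : ℕ := 33779053927646170061880368189887696656755180746472580531959972336498765649033243933663429904448635113800234726353382562831602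

theorem tab_chain : chain Pmax tab 2 0 = true := by decide +kernel

section law

variable {ι : Type*} {P : ℕ} {s : Finset ι} {p : ι → ℝ} {f : ι → ℕ}

/-- **P3 (a), finite part** -/
theorem fin_a (h1 : 3 ≤ P) (h2 : P ≤ Pmax) (L : Law P s p f) (j : ι → ℤ) (y0 : ℝ)
    (hv : ∑ i ∈ s, p i * ((j i : ℝ) - f i / 2) ^ 2 ≤ y0 ^ 2 +
      ∑ i ∈ s, p i * (1 / 10 * (Real.logb 2 P - f i) + 1 / 40 * f i))
    (hy : |y0| ≤ wOf tab P / 1000 - 1 / 2) : ∑ i ∈ s, p i * PsA (f i) (j i) ≤ 0 := by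
  obtain ⟨c, hc, hc1, hc2, hc3⟩ := wOf_spec tab 2 0 tab_chain P h2 (by omega)
  rw [hc3] at hy
  exact Iv.sound_a (tab_all c hc) hc1 hc2 L j y0 hv hy

/-- **P3 (b), finite part** -/
theorem fin_b (h1 : 3 ≤ P) (h2 : P ≤ Pmax) (L : Law P s p f) (j : ι → ℤ) (y0 : ℝ)
    (hm : ∑ i ∈ s, p i * ((j i : ℝ) + 1 / 2 - f i / 2) = y0)
    (hv : ∑ i ∈ s, p i * ((j i : ℝ) + 1 / 2 - f i / 2) ^ 2 ≤ y0 ^ 2 +
      ∑ i ∈ s, p i * (1 / 10 * (Real.logb 2 P - f i) + 1 / 40 * f i))
    (hy1 : wOf tab P / 1000 ≤ y0) (hy2 : y0 ≤ wOf tab P / 1000 + dmax P) :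
    0 ≤ ∑ i ∈ s, p i * PsB (f i) (j i) := by
  obtain ⟨c, hc, hc1, hc2, hc3⟩ := wOf_spec tab 2 0 tab_chain P h2 (by omega)
  rw [hc3] at hy1 hy2
  exact Iv.sound_b (tab_all c hc) hc1 hc2 L j y0 hm hv hy1 hy2

end law

end Pool.Agent.UniM
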