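import Pool.Agent.UniM.P3LDef

/-!
# UniM / P3LNumB: the two-variable inequality for part (b), positive side

`qB τ v = (17/5)(τ v - 13/80)(τ v - 61/100) τ² - (3453/10000) τ² + (51/200) τ⁴`
`= A τ⁴ - B τ³ - (331/40000) τ²`, `A = (17/5) v² + 51/200`, `B = (5253/2000) v`.

`qB_amgm`: `(4Aτ - 3B)² ((4Aτ)² + 2 B (4Aτ) + 3 B²) ≥ 0` is
`256 A⁴ τ⁴ - 256 A³ B τ³ + 27 B⁴ ≥ 0`.
`numB1` (`v ≤ 1/10`): exp ≥ .97, minimum .028. `numB2` (`1/10 ≤ v ≤ 1`): by `qB_amgm` it is enough that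
`v exp (-2v² - v⁴/69) ≥ 27/256 B⁴/A³ + .00832`, margin `.0119` (smallest at `v = .305`).
`numB3` (`1 ≤ v ≤ 13/10`): `A τ⁴ - B τ³` is increasing for `τ ≥ 59/100 ≥ 3B/(4A)`, so take `τ = 59/100`;
margin `.023`. `numB4`: the same without the exponential, `v ≥ 13/10`, margin `.017`.
-/

set_option autoImplicit false

namespace Pool.Agent.UniM

/-- the polynomial part of the inequality for part (b) -/
noncomputable def qB (τ v : ℝ) : ℝ :=
  (17 / 5 * v ^ 2 + 51 / 200) * τ ^ 4 - 5253 / 2000 * v * τ ^ 3 - 331 / 40000 * τ ^ 2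

theorem qB_eq (τ v : ℝ) : qB τ v = 17 / 5 * (τ * v - 13 / 80) * (τ * v - 61 / 100) * τ ^ 2 -
    3453 / 10000 * τ ^ 2 + 51 / 200 * τ ^ 4 := by
  unfold qB
  ring

theorem qB_amgm (τ v : ℝ) (hτ : 0 ≤ τ) (hv : 0 ≤ v) :
    -(27 / 256 * (5253 / 2000 * v) ^ 4 / (17 / 5 * v ^ 2 + 51 / 200) ^ 3) - 331 / 40000 * τ ^ 2 ≤
      qB τ v := by
  have hA : 0 < 17 / 5 * v ^ 2 + 51 / 200 := by positivity
  have hB : 0 ≤ 5253 / 2000 * v := by positivity
  unfold qB
  generalize 17 / 5 * v ^ 2 + 51 / 200 = A at *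
  generalize 5253 / 2000 * v = B at *
  have key : 0 ≤ 256 * A ^ 4 * τ ^ 4 - 256 * A ^ 3 * B * τ ^ 3 + 27 * B ^ 4 := by
    have h1 : 256 * A ^ 4 * τ ^ 4 - 256 * A ^ 3 * B * τ ^ 3 + 27 * B ^ 4 =
        (4 * A * τ - 3 * B) ^ 2 * ((4 * A * τ) ^ 2 + 2 * B * (4 * A * τ) + 3 * B ^ 2) := by
      ring
    rw [h1]
    positivity
  have h2 : -(27 / 256 * B ^ 4 / A ^ 3) ≤ A * τ ^ 4 - B * τ ^ 3 := by
    rw [neg_le_iff_add_nonneg']
    have h3 : 27 / 256 * B ^ 4 / A ^ 3 + (A * τ ^ 4 - B * τ ^ 3) =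
        (256 * A ^ 4 * τ ^ 4 - 256 * A ^ 3 * B * τ ^ 3 + 27 * B ^ 4) / (256 * A ^ 3) := by
      field_simp
      ring
    rw [h3]
    positivity
  linarith

theorem exp_lowB (x0 : ℝ) (h : x0 ≤ 64) : (1 - x0 / 64) ^ 64 ≤ Real.exp (-x0) := by
  have h1 : 1 - x0 / 64 ≤ Real.exp (-x0 / 64) := by
    have := Real.add_one_le_exp (-x0 / 64)
    linarith
  have h2 : 0 ≤ 1 - x0 / 64 := by linarith
  calc (1 - x0 / 64) ^ 64 ≤ Real.exp (-x0 / 64) ^ 64 := pow_le_pow_left₀ h2 h1 64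
    _ = Real.exp (-x0) := by
      rw [← Real.exp_nat_mul]
      congr 1
      push_cast
      ring

theorem exp_tanB (x0 E τ v : ℝ) (hE0 : 0 ≤ E) (hE : E ≤ Real.exp (-x0)) (h1 : 59 / 100 ≤ τ) :
    E * (1 + x0 - 2 * v ^ 2 - v ^ 4 / 69) ≤ Real.exp (-2 * v ^ 2 - v ^ 4 / (200 * τ ^ 2)) := by
  have ht : (69 : ℝ) ≤ 200 * τ ^ 2 := by nlinarith
  have h2 : v ^ 4 / (200 * τ ^ 2) ≤ v ^ 4 / 69 :=
    div_le_div_of_nonneg_left (by positivity) (by norm_num) ht
  have h3 : (x0 - 2 * v ^ 2 - v ^ 4 / 69) + 1 ≤ Real.exp (x0 - 2 * v ^ 2 - v ^ 4 / 69) :=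
    Real.add_one_le_exp _
  calc E * (1 + x0 - 2 * v ^ 2 - v ^ 4 / 69) ≤ E * Real.exp (x0 - 2 * v ^ 2 - v ^ 4 / 69) :=
        mul_le_mul_of_nonneg_left (by linarith) hE0
    _ ≤ Real.exp (-x0) * Real.exp (x0 - 2 * v ^ 2 - v ^ 4 / 69) :=
        mul_le_mul_of_nonneg_right hE (Real.exp_pos _).le
    _ = Real.exp (-2 * v ^ 2 - v ^ 4 / 69) := by
        rw [← Real.exp_add]
        congr 1
        ring
    _ ≤ Real.exp (-2 * v ^ 2 - v ^ 4 / (200 * τ ^ 2)) := Real.exp_le_exp.2 (by linarith)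

theorem tau_sqB (τ : ℝ) (h1 : 59 / 100 ≤ τ) (h2 : τ ≤ 401 / 400) :
    331 / 40000 * τ ^ 2 ≤ 832 / 100000 := by
  nlinarith

theorem polB1 (v : ℝ) (h1 : 1 / 10 ≤ v) (h2 : v ≤ 9 / 20) :
    0 ≤ (v * (409 / 500 * (1 + 1 / 5 - 2 * v ^ 2 - v ^ 4 / 69)) - 832 / 100000) *
      (17 / 5 * v ^ 2 + 51 / 200) ^ 3 - 27 / 256 * (5253 / 2000 * v) ^ 4 := by
  have hs : ∀ P Q : ℝ, 0 ≤ P → 0 ≤ Q → 0 ≤
      22992995988090043469 / 136435545267000000 * (P ^ 0 * Q ^ 11) +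
      113093401945467323351 / 45478515089000000 * (P ^ 1 * Q ^ 10) +
      273691938220383872299 / 18191406035600000 * (P ^ 2 * Q ^ 9) +
      110804851874859573733 / 2273925754450000 * (P ^ 3 * Q ^ 8) +
      13111582865061134181443 / 145531248284800000 * (P ^ 4 * Q ^ 7) +
      9567298245740601715631 / 103950891632000000 * (P ^ 5 * Q ^ 6) +
      4600906266803991232797 / 103950891632000000 * (P ^ 6 * Q ^ 5) +
      71109973930206548817 / 5821249931392000 * (P ^ 7 * Q ^ 4) +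
      4064951611789373074617 / 145531248284800000 * (P ^ 8 * Q ^ 3) +
      1123732005663974543523 / 29106249656960000 * (P ^ 9 * Q ^ 2) +
      14532999103324522438497 / 727656241424000000 * (P ^ 10 * Q ^ 1) +
      2471801509102625390799 / 727656241424000000 * (P ^ 11 * Q ^ 0) := by
    intro P Q hP hQ
    positivity
  have key : (v * (409 / 500 * (1 + 1 / 5 - 2 * v ^ 2 - v ^ 4 / 69)) - 832 / 100000) *
      (17 / 5 * v ^ 2 + 51 / 200) ^ 3 - 27 / 256 * (5253 / 2000 * v) ^ 4 =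
      22992995988090043469 / 136435545267000000 * ((v - 1 / 10) ^ 0 * (9 / 20 - v) ^ 11) +
      113093401945467323351 / 45478515089000000 * ((v - 1 / 10) ^ 1 * (9 / 20 - v) ^ 10) +
      273691938220383872299 / 18191406035600000 * ((v - 1 / 10) ^ 2 * (9 / 20 - v) ^ 9) +
      110804851874859573733 / 2273925754450000 * ((v - 1 / 10) ^ 3 * (9 / 20 - v) ^ 8) +
      13111582865061134181443 / 145531248284800000 * ((v - 1 / 10) ^ 4 * (9 / 20 - v) ^ 7) +
      9567298245740601715631 / 103950891632000000 * ((v - 1 / 10) ^ 5 * (9 / 20 - v) ^ 6) +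
      4600906266803991232797 / 103950891632000000 * ((v - 1 / 10) ^ 6 * (9 / 20 - v) ^ 5) +
      71109973930206548817 / 5821249931392000 * ((v - 1 / 10) ^ 7 * (9 / 20 - v) ^ 4) +
      4064951611789373074617 / 145531248284800000 * ((v - 1 / 10) ^ 8 * (9 / 20 - v) ^ 3) +
      1123732005663974543523 / 29106249656960000 * ((v - 1 / 10) ^ 9 * (9 / 20 - v) ^ 2) +
      14532999103324522438497 / 727656241424000000 * ((v - 1 / 10) ^ 10 * (9 / 20 - v) ^ 1) +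
      2471801509102625390799 / 727656241424000000 * ((v - 1 / 10) ^ 11 * (9 / 20 - v) ^ 0) := by
    ring
  rw [key]
  exact hs _ _ (sub_nonneg.2 h1) (sub_nonneg.2 h2)

theorem polB2 (v : ℝ) (h1 : 9 / 20 ≤ v) (h2 : v ≤ 13 / 20) :
    0 ≤ (v * (547 / 1000 * (1 + 3 / 5 - 2 * v ^ 2 - v ^ 4 / 69)) - 832 / 100000) *
      (17 / 5 * v ^ 2 + 51 / 200) ^ 3 - 27 / 256 * (5253 / 2000 * v) ^ 4 := by
  have hs : ∀ P Q : ℝ, 0 ≤ P → 0 ≤ Q → 0 ≤
      2571956241966756895311 / 1543503872000000 * (P ^ 0 * Q ^ 11) +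
      38550545617127601598677 / 1543503872000000 * (P ^ 1 * Q ^ 10) +
      51539950277864354994021 / 308700774400000 * (P ^ 2 * Q ^ 9) +
      1624220311704066367083 / 2469606195200 * (P ^ 3 * Q ^ 8) +
      261978485180634704976687 / 154350387200000 * (P ^ 4 * Q ^ 7) +
      2325667135527258719858937 / 771751936000000 * (P ^ 5 * Q ^ 6) +
      2897665363948626794290249 / 771751936000000 * (P ^ 6 * Q ^ 5) +
      506248729938428742635199 / 154350387200000 * (P ^ 7 * Q ^ 4) +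
      606689491159504848477743 / 308700774400000 * (P ^ 8 * Q ^ 3) +
      236842102416121229230037 / 308700774400000 * (P ^ 9 * Q ^ 2) +
      269903600125233613868389 / 1543503872000000 * (P ^ 10 * Q ^ 1) +
      81054059475408005184029 / 4630511616000000 * (P ^ 11 * Q ^ 0) := by
    intro P Q hP hQ
    positivity
  have key : (v * (547 / 1000 * (1 + 3 / 5 - 2 * v ^ 2 - v ^ 4 / 69)) - 832 / 100000) *
      (17 / 5 * v ^ 2 + 51 / 200) ^ 3 - 27 / 256 * (5253 / 2000 * v) ^ 4 =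
      2571956241966756895311 / 1543503872000000 * ((v - 9 / 20) ^ 0 * (13 / 20 - v) ^ 11) +
      38550545617127601598677 / 1543503872000000 * ((v - 9 / 20) ^ 1 * (13 / 20 - v) ^ 10) +
      51539950277864354994021 / 308700774400000 * ((v - 9 / 20) ^ 2 * (13 / 20 - v) ^ 9) +
      1624220311704066367083 / 2469606195200 * ((v - 9 / 20) ^ 3 * (13 / 20 - v) ^ 8) +
      261978485180634704976687 / 154350387200000 * ((v - 9 / 20) ^ 4 * (13 / 20 - v) ^ 7) +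
      2325667135527258719858937 / 771751936000000 * ((v - 9 / 20) ^ 5 * (13 / 20 - v) ^ 6) +
      2897665363948626794290249 / 771751936000000 * ((v - 9 / 20) ^ 6 * (13 / 20 - v) ^ 5) +
      506248729938428742635199 / 154350387200000 * ((v - 9 / 20) ^ 7 * (13 / 20 - v) ^ 4) +
      606689491159504848477743 / 308700774400000 * ((v - 9 / 20) ^ 8 * (13 / 20 - v) ^ 3) +
      236842102416121229230037 / 308700774400000 * ((v - 9 / 20) ^ 9 * (13 / 20 - v) ^ 2) +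
      269903600125233613868389 / 1543503872000000 * ((v - 9 / 20) ^ 10 * (13 / 20 - v) ^ 1) +
      81054059475408005184029 / 4630511616000000 * ((v - 9 / 20) ^ 11 * (13 / 20 - v) ^ 0) := by
    ring
  rw [key]
  exact hs _ _ (sub_nonneg.2 h1) (sub_nonneg.2 h2)

theorem polB3 (v : ℝ) (h1 : 13 / 20 ≤ v) (h2 : v ≤ 41 / 50) :
    0 ≤ (v * (329 / 1000 * (1 + 11 / 10 - 2 * v ^ 2 - v ^ 4 / 69)) - 832 / 100000) *
      (17 / 5 * v ^ 2 + 51 / 200) ^ 3 - 27 / 256 * (5253 / 2000 * v) ^ 4 := by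
  have hs : ∀ P Q : ℝ, 0 ≤ P → 0 ≤ Q → 0 ≤
      51770290452888218940625 / 492879117751296 * (P ^ 0 * Q ^ 11) +
      657945443585382460549375 / 492879117751296 * (P ^ 1 * Q ^ 10) +
      3768300013816126409123125 / 492879117751296 * (P ^ 2 * Q ^ 9) +
      4277801554925647676402625 / 164293039250432 * (P ^ 3 * Q ^ 8) +
      9619274966593211494618225 / 164293039250432 * (P ^ 4 * Q ^ 7) +
      14982633404749367016684231 / 164293039250432 * (P ^ 5 * Q ^ 6) +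
      82367570071036462216108369 / 821465196252160 * (P ^ 6 * Q ^ 5) +
      63818299929616290373707399 / 821465196252160 * (P ^ 7 * Q ^ 4) +
      2661123895237060966165283 / 64176968457200 * (P ^ 8 * Q ^ 3) +
      111421020135132030752321669 / 7701236214864000 * (P ^ 9 * Q ^ 2) +
      12363714902288043296933387 / 4185454464600000 * (P ^ 10 * Q ^ 1) +
      127582285023022841766675449 / 481327263429000000 * (P ^ 11 * Q ^ 0) := by
    intro P Q hP hQ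
    positivity
  have key : (v * (329 / 1000 * (1 + 11 / 10 - 2 * v ^ 2 - v ^ 4 / 69)) - 832 / 100000) *
      (17 / 5 * v ^ 2 + 51 / 200) ^ 3 - 27 / 256 * (5253 / 2000 * v) ^ 4 =
      51770290452888218940625 / 492879117751296 * ((v - 13 / 20) ^ 0 * (41 / 50 - v) ^ 11) +
      657945443585382460549375 / 492879117751296 * ((v - 13 / 20) ^ 1 * (41 / 50 - v) ^ 10) +
      3768300013816126409123125 / 492879117751296 * ((v - 13 / 20) ^ 2 * (41 / 50 - v) ^ 9) +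
      4277801554925647676402625 / 164293039250432 * ((v - 13 / 20) ^ 3 * (41 / 50 - v) ^ 8) +
      9619274966593211494618225 / 164293039250432 * ((v - 13 / 20) ^ 4 * (41 / 50 - v) ^ 7) +
      14982633404749367016684231 / 164293039250432 * ((v - 13 / 20) ^ 5 * (41 / 50 - v) ^ 6) +
      82367570071036462216108369 / 821465196252160 * ((v - 13 / 20) ^ 6 * (41 / 50 - v) ^ 5) +
      63818299929616290373707399 / 821465196252160 * ((v - 13 / 20) ^ 7 * (41 / 50 - v) ^ 4) +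
      2661123895237060966165283 / 64176968457200 * ((v - 13 / 20) ^ 8 * (41 / 50 - v) ^ 3) +
      111421020135132030752321669 / 7701236214864000 * ((v - 13 / 20) ^ 9 * (41 / 50 - v) ^ 2) +
      12363714902288043296933387 / 4185454464600000 * ((v - 13 / 20) ^ 10 * (41 / 50 - v) ^ 1) +
      127582285023022841766675449 / 481327263429000000 * ((v - 13 / 20) ^ 11 * (41 / 50 - v) ^ 0) := by
    ring
  rw [key]
  exact hs _ _ (sub_nonneg.2 h1) (sub_nonneg.2 h2)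

theorem polB4 (v : ℝ) (h1 : 41 / 50 ≤ v) (h2 : v ≤ 1) :
    0 ≤ (v * (197 / 1000 * (1 + 8 / 5 - 2 * v ^ 2 - v ^ 4 / 69)) - 832 / 100000) *
      (17 / 5 * v ^ 2 + 51 / 200) ^ 3 - 27 / 256 * (5253 / 2000 * v) ^ 4 := by
  have hs : ∀ P Q : ℝ, 0 ≤ P → 0 ≤ Q → 0 ≤
      623827061837785134093445078441 / 4434520295467008000000 * (P ^ 0 * Q ^ 11) +
      299707728161851407238829271167 / 177380811818680320000 * (P ^ 1 * Q ^ 10) +
      323311491567382808425366070897 / 35476162363736064000 * (P ^ 2 * Q ^ 9) +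
      13756968439188517208629794197 / 473015498183147520 * (P ^ 3 * Q ^ 8) +
      5756563742490238023868220801 / 94603099636629504 * (P ^ 4 * Q ^ 7) +
      8258030577094295086107381175 / 94603099636629504 * (P ^ 5 * Q ^ 6) +
      8237687744503382155788225325 / 94603099636629504 * (P ^ 6 * Q ^ 5) +
      5657257187157585088469638475 / 94603099636629504 * (P ^ 7 * Q ^ 4) +
      5028760914736157167319375 / 184771678977792 * (P ^ 8 * Q ^ 3) +
      267278439980548664455015625 / 35476162363736064 * (P ^ 9 * Q ^ 2) +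
      18348570690023611066015625 / 17738081181868032 * (P ^ 10 * Q ^ 1) +
      570061271794134150390625 / 17738081181868032 * (P ^ 11 * Q ^ 0) := by
    intro P Q hP hQ
    positivity
  have key : (v * (197 / 1000 * (1 + 8 / 5 - 2 * v ^ 2 - v ^ 4 / 69)) - 832 / 100000) *
      (17 / 5 * v ^ 2 + 51 / 200) ^ 3 - 27 / 256 * (5253 / 2000 * v) ^ 4 =
      623827061837785134093445078441 / 4434520295467008000000 * ((v - 41 / 50) ^ 0 * (1 - v) ^ 11) +
      299707728161851407238829271167 / 177380811818680320000 * ((v - 41 / 50) ^ 1 * (1 - v) ^ 10) +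
      323311491567382808425366070897 / 35476162363736064000 * ((v - 41 / 50) ^ 2 * (1 - v) ^ 9) +
      13756968439188517208629794197 / 473015498183147520 * ((v - 41 / 50) ^ 3 * (1 - v) ^ 8) +
      5756563742490238023868220801 / 94603099636629504 * ((v - 41 / 50) ^ 4 * (1 - v) ^ 7) +
      8258030577094295086107381175 / 94603099636629504 * ((v - 41 / 50) ^ 5 * (1 - v) ^ 6) +
      8237687744503382155788225325 / 94603099636629504 * ((v - 41 / 50) ^ 6 * (1 - v) ^ 5) +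
      5657257187157585088469638475 / 94603099636629504 * ((v - 41 / 50) ^ 7 * (1 - v) ^ 4) +
      5028760914736157167319375 / 184771678977792 * ((v - 41 / 50) ^ 8 * (1 - v) ^ 3) +
      267278439980548664455015625 / 35476162363736064 * ((v - 41 / 50) ^ 9 * (1 - v) ^ 2) +
      18348570690023611066015625 / 17738081181868032 * ((v - 41 / 50) ^ 10 * (1 - v) ^ 1) +
      570061271794134150390625 / 17738081181868032 * ((v - 41 / 50) ^ 11 * (1 - v) ^ 0) := by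
    ring
  rw [key]
  exact hs _ _ (sub_nonneg.2 h1) (sub_nonneg.2 h2)

theorem polB5 (v : ℝ) (h1 : 1 ≤ v) (h2 : v ≤ 13 / 10) :
    0 ≤ v * (39 / 500 * (1 + 5 / 2 - 2 * v ^ 2 - v ^ 4 / 69)) +
      ((17 / 5 * v ^ 2 + 51 / 200) * (59 / 100) ^ 4 - 5253 / 2000 * v * (59 / 100) ^ 3) - 832 / 100000 := by
  have hs : ∀ P Q : ℝ, 0 ≤ P → 0 ≤ Q → 0 ≤
      5065136483 / 1117800000 * (P ^ 0 * Q ^ 5) +
      9225985459 / 279450000 * (P ^ 1 * Q ^ 4) +
      58860999911 / 698625000 * (P ^ 2 * Q ^ 3) +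
      274206483467 / 2794500000 * (P ^ 3 * Q ^ 2) +
      295507060649 / 5589000000 * (P ^ 4 * Q ^ 1) +
      29390874119 / 2794500000 * (P ^ 5 * Q ^ 0) := by
    intro P Q hP hQ
    positivity
  have key : v * (39 / 500 * (1 + 5 / 2 - 2 * v ^ 2 - v ^ 4 / 69)) +
      ((17 / 5 * v ^ 2 + 51 / 200) * (59 / 100) ^ 4 - 5253 / 2000 * v * (59 / 100) ^ 3) - 832 / 100000 =
      5065136483 / 1117800000 * ((v - 1) ^ 0 * (13 / 10 - v) ^ 5) +
      9225985459 / 279450000 * ((v - 1) ^ 1 * (13 / 10 - v) ^ 4) +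
      58860999911 / 698625000 * ((v - 1) ^ 2 * (13 / 10 - v) ^ 3) +
      274206483467 / 2794500000 * ((v - 1) ^ 3 * (13 / 10 - v) ^ 2) +
      295507060649 / 5589000000 * ((v - 1) ^ 4 * (13 / 10 - v) ^ 1) +
      29390874119 / 2794500000 * ((v - 1) ^ 5 * (13 / 10 - v) ^ 0) := by
    ring
  rw [key]
  exact hs _ _ (sub_nonneg.2 h1) (sub_nonneg.2 h2)

theorem numB1 (τ v : ℝ) (h1 : 59 / 100 ≤ τ) (h2 : τ ≤ 401 / 400) (hv : 0 ≤ v)
    (hv1 : v ≤ 1 / 10) :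
    0 ≤ v * Real.exp (-2 * v ^ 2 - v ^ 4 / (200 * τ ^ 2)) + qB τ v := by
  have e1 := exp_tanB 0 1 τ v zero_le_one (by simp) h1
  have hv2 : v ^ 2 ≤ 1 / 100 := by nlinarith
  have hv4 : v ^ 4 ≤ 1 / 10000 := by nlinarith [sq_nonneg (v ^ 2)]
  have e2 : (97 : ℝ) / 100 ≤ Real.exp (-2 * v ^ 2 - v ^ 4 / (200 * τ ^ 2)) := by linarith
  have e3 : v * (97 / 100) ≤ v * Real.exp (-2 * v ^ 2 - v ^ 4 / (200 * τ ^ 2)) :=
    mul_le_mul_of_nonneg_left e2 hv
  have e4 : 0 ≤ v * (97 / 100) + qB τ v := by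
    unfold qB
    have p4 : 0 ≤ v ^ 2 * τ ^ 4 := by positivity
    have p0 : 0 < τ := by linarith
    have t1 : 0 ≤ 51 / 200 * τ ^ 4 - 331 / 40000 * τ ^ 2 := by
      have : 51 / 200 * τ ^ 4 - 331 / 40000 * τ ^ 2 = τ ^ 2 * (51 / 200 * τ ^ 2 - 331 / 40000) := by
        ring
      rw [this]
      have : 0 ≤ 51 / 200 * τ ^ 2 - 331 / 40000 := by nlinarith
      positivity
    have t2 : 0 ≤ 97 / 1000 - 5253 / 20000 * τ ^ 3 + 51 / 200 * τ ^ 4 - 331 / 40000 * τ ^ 2 := by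
      nlinarith [sq_nonneg (τ ^ 2 - 3 / 5 * τ), sq_nonneg (τ - 3 / 4), sq_nonneg (τ ^ 2 - 1 / 2)]
    have t3 : v * (97 / 100) + ((17 / 5 * v ^ 2 + 51 / 200) * τ ^ 4 - 5253 / 2000 * v * τ ^ 3 -
        331 / 40000 * τ ^ 2) = 17 / 5 * (v ^ 2 * τ ^ 4) +
        10 * v * (97 / 1000 - 5253 / 20000 * τ ^ 3 + 51 / 200 * τ ^ 4 - 331 / 40000 * τ ^ 2) +
        (1 - 10 * v) * (51 / 200 * τ ^ 4 - 331 / 40000 * τ ^ 2) := by
      ring
    rw [t3]
    have t4 : 0 ≤ 1 - 10 * v := by linarith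
    have t5 := mul_nonneg t4 t1
    have t6 := mul_nonneg (mul_nonneg (by norm_num : (0 : ℝ) ≤ 10) hv) t2
    linarith
  linarith

theorem numB2_aux (x0 E τ v : ℝ) (h1 : 59 / 100 ≤ τ) (h2 : τ ≤ 401 / 400) (hv : 0 ≤ v)
    (hE0 : 0 ≤ E) (hE : E ≤ Real.exp (-x0))
    (hp : 0 ≤ (v * (E * (1 + x0 - 2 * v ^ 2 - v ^ 4 / 69)) - 832 / 100000) *
      (17 / 5 * v ^ 2 + 51 / 200) ^ 3 - 27 / 256 * (5253 / 2000 * v) ^ 4) :
    0 ≤ v * Real.exp (-2 * v ^ 2 - v ^ 4 / (200 * τ ^ 2)) + qB τ v := by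
  have e1 := mul_le_mul_of_nonneg_left (exp_tanB x0 E τ v hE0 hE h1) hv
  have e2 := qB_amgm τ v (by linarith) hv
  have e3 := tau_sqB τ h1 h2
  have hA : 0 < (17 / 5 * v ^ 2 + 51 / 200) ^ 3 := by positivity
  have e4 : 27 / 256 * (5253 / 2000 * v) ^ 4 / (17 / 5 * v ^ 2 + 51 / 200) ^ 3 ≤
      v * (E * (1 + x0 - 2 * v ^ 2 - v ^ 4 / 69)) - 832 / 100000 := by
    rw [div_le_iff₀ hA]
    linarith
  linarith

theorem numB2 (τ v : ℝ) (h1 : 59 / 100 ≤ τ) (h2 : τ ≤ 401 / 400) (hv : 1 / 10 ≤ v)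
    (hv1 : v ≤ 1) :
    0 ≤ v * Real.exp (-2 * v ^ 2 - v ^ 4 / (200 * τ ^ 2)) + qB τ v := by
  have hv0 : 0 ≤ v := by linarith
  rcases le_total v (9 / 20) with h | h
  · exact numB2_aux (1 / 5) (409 / 500) τ v h1 h2 hv0 (by norm_num)
      (le_trans (by norm_num) (exp_lowB (1 / 5) (by norm_num))) (polB1 v hv h)
  rcases le_total v (13 / 20) with h' | h'
  · exact numB2_aux (3 / 5) (547 / 1000) τ v h1 h2 hv0 (by norm_num)
      (le_trans (by norm_num) (exp_lowB (3 / 5) (by norm_num))) (polB2 v h h')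
  rcases le_total v (41 / 50) with h'' | h''
  · exact numB2_aux (11 / 10) (329 / 1000) τ v h1 h2 hv0 (by norm_num)
      (le_trans (by norm_num) (exp_lowB (11 / 10) (by norm_num))) (polB3 v h' h'')
  · exact numB2_aux (8 / 5) (197 / 1000) τ v h1 h2 hv0 (by norm_num)
      (le_trans (by norm_num) (exp_lowB (8 / 5) (by norm_num))) (polB4 v h'' hv1)

theorem numB3 (τ v : ℝ) (h1 : 59 / 100 ≤ τ) (h2 : τ ≤ 401 / 400) (hv : 1 ≤ v)
    (hv1 : v ≤ 13 / 10) :
    0 ≤ v * Real.exp (-2 * v ^ 2 - v ^ 4 / (200 * τ ^ 2)) + qB τ v := by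
  have hv0 : 0 ≤ v := by linarith
  have e1 := mul_le_mul_of_nonneg_left (exp_tanB (5 / 2) (39 / 500) τ v (by norm_num)
    (le_trans (by norm_num) (exp_lowB (5 / 2) (by norm_num))) h1) hv0
  have e3 := tau_sqB τ h1 h2
  have e5 := polB5 v hv hv1
  have e6 : (17 / 5 * v ^ 2 + 51 / 200) * (59 / 100) ^ 4 - 5253 / 2000 * v * (59 / 100) ^ 3 ≤
      (17 / 5 * v ^ 2 + 51 / 200) * τ ^ 4 - 5253 / 2000 * v * τ ^ 3 := by
    have hAB : 3 * (5253 / 2000 * v) ≤ 4 * (17 / 5 * v ^ 2 + 51 / 200) * (59 / 100) := by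
      nlinarith
    have hA : 0 < 17 / 5 * v ^ 2 + 51 / 200 := by positivity
    have hB : 0 ≤ 5253 / 2000 * v := by positivity
    generalize 17 / 5 * v ^ 2 + 51 / 200 = A at *
    generalize 5253 / 2000 * v = B at *
    obtain ⟨r, hr0, rfl⟩ : ∃ r, 0 ≤ r ∧ τ = 59 / 100 + r := ⟨τ - 59 / 100, by linarith, by ring⟩
    have k0 : 0 ≤ A * (4 * (59 / 100)) - 3 * B := by linarith
    have k1 : A * (59 / 100 + r) ^ 4 - B * (59 / 100 + r) ^ 3 -
        (A * (59 / 100) ^ 4 - B * (59 / 100) ^ 3) =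
        (A * (4 * (59 / 100)) - 3 * B) * ((59 / 100) ^ 2 * r + 59 / 100 * r ^ 2 + r ^ 3 / 3) +
        A * (2 * (59 / 100) ^ 2 * r ^ 2 + (8 / 3) * (59 / 100) * r ^ 3 + r ^ 4) := by
      ring
    have k2 : 0 ≤ (59 / 100) ^ 2 * r + 59 / 100 * r ^ 2 + r ^ 3 / 3 := by positivity
    have k3 : 0 ≤ A * (2 * (59 / 100) ^ 2 * r ^ 2 + (8 / 3) * (59 / 100) * r ^ 3 + r ^ 4) := by
      positivity
    have k4 := mul_nonneg k0 k2
    linarith
  unfold qB
  linarith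

theorem numB4 (τ v : ℝ) (h1 : 59 / 100 ≤ τ) (h2 : τ ≤ 401 / 400) (hv : 13 / 10 ≤ v) :
    0 ≤ qB τ v := by
  have h0 : 0 < τ := by linarith
  have e1 : 1 / 10 ≤ (17 / 5 * v ^ 2 + 51 / 200) * τ - 5253 / 2000 * v := by
    have : (17 / 5 * v ^ 2 + 51 / 200) * (59 / 100) ≤ (17 / 5 * v ^ 2 + 51 / 200) * τ :=
      mul_le_mul_of_nonneg_left h1 (by positivity)
    nlinarith
  have e2 : 0 ≤ τ * ((17 / 5 * v ^ 2 + 51 / 200) * τ - 5253 / 2000 * v) - 331 / 40000 := by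
    nlinarith
  have e3 : qB τ v = τ ^ 2 * (τ * ((17 / 5 * v ^ 2 + 51 / 200) * τ - 5253 / 2000 * v) -
      331 / 40000) := by
    unfold qB
    ring
  rw [e3]
  positivity

theorem numBpos (τ v : ℝ) (h1 : 59 / 100 ≤ τ) (h2 : τ ≤ 401 / 400) (hv : 0 ≤ v)
    (hv1 : v ≤ 13 / 10) :
    0 ≤ v * Real.exp (-2 * v ^ 2 - v ^ 4 / (200 * τ ^ 2)) + qB τ v := by
  rcases le_total v (1 / 10) with h | h
  · exact numB1 τ v h1 h2 hv h
  rcases le_total v 1 with h' | h'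
  · exact numB2 τ v h1 h2 h h'
  · exact numB3 τ v h1 h2 h' hv1

end Pool.Agent.UniM
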