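import Pool.Agent.UniM.P3LDef

/-!
# UniM / P3LNumC: the inequality for part (b), negative side

For `v ≥ 0`: `v exp (-2v²) ≤ v - 2 v³ + 2 v⁵` and `v exp (-2v²) ≤ 304/1000` (maximum `exp (-1/2)/2`).
On each piece `[τ1, τ2]` replace `τ` by `τ1` (the right side is increasing in `τ` for fixed `T`) and
`T` by the value at `τ2`; then a one-variable inequality
`(1 + 1/(250 τ1²)) v exp (-2v²) ≤ 17/5 τ1⁴ v² + 5253/2000 τ1³ v + 51/200 τ1⁴ - 331/40000 τ1² + T/250 τ1²`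
(use the polynomial bound for `v ≤ 1/2` and `304/1000` for `v ≥ 1/2`), margin at least `.0015`:
pieces `[.57,.5865]` (T ≥ 340), `[.5865,.6095]` (T ≥ 29.6), `[.6095,.6175]` (T ≥ 12.3),
`[.6175,.6225]` (T ≥ 7.1), `[.6225,.627]` (T ≥ 4.3), `[.627,.636]` (T ≥ 1.56), `[.636, 1.0025]` (T ≥ 0).
On `[0, 1/2]` the difference with the polynomial is convex in `v`, so a tangent line suffices.
-/

set_option autoImplicit false

namespace Pool.Agent.UniM

theorem g_le_poly (v : ℝ) (hv : 0 ≤ v) :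
    v * Real.exp (-2 * v ^ 2) ≤ v - 2 * v ^ 3 + 2 * v ^ 5 := by
  have hx : (0 : ℝ) ≤ 2 * v ^ 2 := by positivity
  have h1 := Real.quadratic_le_exp_of_nonneg hx
  have h2 : Real.exp (-2 * v ^ 2) * Real.exp (2 * v ^ 2) = 1 := by
    rw [← Real.exp_add, ← Real.exp_zero]
    congr 1
    ring
  have h3 : Real.exp (-2 * v ^ 2) ≤ 1 - 2 * v ^ 2 + 2 * v ^ 4 := by
    have hp := Real.exp_pos (2 * v ^ 2)
    have hq : 0 ≤ 1 - 2 * v ^ 2 + 2 * v ^ 4 := by nlinarith [sq_nonneg (v ^ 2 - 1 / 2)]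
    have h4 : 1 ≤ (1 - 2 * v ^ 2 + 2 * v ^ 4) * Real.exp (2 * v ^ 2) := by
      calc (1 : ℝ) ≤ (1 - 2 * v ^ 2 + 2 * v ^ 4) * (1 + 2 * v ^ 2 + (2 * v ^ 2) ^ 2 / 2) := by
            have : (1 - 2 * v ^ 2 + 2 * v ^ 4) * (1 + 2 * v ^ 2 + (2 * v ^ 2) ^ 2 / 2) =
                1 + 4 * v ^ 8 := by ring
            rw [this]
            have : (0 : ℝ) ≤ v ^ 8 := by positivity
            linarith
        _ ≤ _ := mul_le_mul_of_nonneg_left h1 hq
    exact le_of_mul_le_mul_right (h2.le.trans h4) hp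
  calc v * Real.exp (-2 * v ^ 2) ≤ v * (1 - 2 * v ^ 2 + 2 * v ^ 4) :=
        mul_le_mul_of_nonneg_left h3 hv
    _ = _ := by ring

theorem g_le_max (v : ℝ) (hv : 0 ≤ v) : v * Real.exp (-2 * v ^ 2) ≤ 304 / 1000 := by
  have h1 : Real.exp (-2 * v ^ 2) ≤ Real.exp (1 / 2 - 2 * v) := by
    apply Real.exp_le_exp.mpr
    nlinarith [sq_nonneg (2 * v - 1)]
  have h2 : 2 * v ≤ Real.exp (2 * v - 1) := by
    have := Real.add_one_le_exp (2 * v - 1)
    linarith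
  have h3 : 2 * (v * Real.exp (-2 * v ^ 2)) ≤ Real.exp (-(1 / 2)) := by
    calc 2 * (v * Real.exp (-2 * v ^ 2)) = (2 * v) * Real.exp (-2 * v ^ 2) := by ring
      _ ≤ (2 * v) * Real.exp (1 / 2 - 2 * v) := mul_le_mul_of_nonneg_left h1 (by linarith)
      _ ≤ Real.exp (2 * v - 1) * Real.exp (1 / 2 - 2 * v) :=
          mul_le_mul_of_nonneg_right h2 (Real.exp_pos _).le
      _ = _ := by
          rw [← Real.exp_add]
          congr 1
          ring
  have h4 : Real.exp (-(1 / 2)) ≤ 608 / 1000 := by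
    have h5 : Real.exp (-(1 / 2)) * Real.exp (-(1 / 2)) * Real.exp 1 = 1 := by
      rw [← Real.exp_add, ← Real.exp_add, ← Real.exp_zero]
      congr 1
      ring
    have h6 := Real.exp_one_gt_d9
    have h7 := Real.exp_pos (-(1 / 2) : ℝ)
    by_contra hc
    push Not at hc
    have h8 : (608 / 1000 : ℝ) * (608 / 1000) ≤ Real.exp (-(1 / 2)) * Real.exp (-(1 / 2)) :=
      mul_le_mul hc.le hc.le (by norm_num) h7.le
    have h9 : (608 / 1000 : ℝ) * (608 / 1000) * Real.exp 1 ≤ 1 := by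
      calc (608 / 1000 : ℝ) * (608 / 1000) * Real.exp 1 ≤
            Real.exp (-(1 / 2)) * Real.exp (-(1 / 2)) * Real.exp 1 :=
            mul_le_mul_of_nonneg_right h8 (Real.exp_pos _).le
        _ = 1 := h5
    linarith
  linarith

/-- the convexity step: tangent line at `v0` -/
theorem numC_tangent (a k v w : ℝ) (ha : 0 ≤ a) (hk : 0 ≤ k) (hv : 0 ≤ v) (hv2 : v ≤ 1 / 2)
    (hw : 0 ≤ w) (hw2 : w ≤ 1 / 2) :
    (a * w ^ 2 + 2 * k * w ^ 3 - 2 * k * w ^ 5) +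
      (2 * a * w + 6 * k * w ^ 2 - 10 * k * w ^ 4) * (v - w) ≤
      a * v ^ 2 + 2 * k * v ^ 3 - 2 * k * v ^ 5 := by
  have hq : 0 ≤ (v + 2 * w) - (v ^ 3 + 2 * v ^ 2 * w + 3 * v * w ^ 2 + 4 * w ^ 3) := by
    have h1 : v ^ 2 ≤ 1 / 4 := by nlinarith
    have h2 : w ^ 2 ≤ 1 / 4 := by nlinarith
    have h3 : v * v ^ 2 ≤ v * (1 / 4) := mul_le_mul_of_nonneg_left h1 hv
    have h4 : w * v ^ 2 ≤ w * (1 / 4) := mul_le_mul_of_nonneg_left h1 hw
    have h5 : v * w ^ 2 ≤ v * (1 / 4) := mul_le_mul_of_nonneg_left h2 hv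
    have h6 : w * w ^ 2 ≤ w * (1 / 4) := mul_le_mul_of_nonneg_left h2 hw
    nlinarith
  have h := mul_nonneg (sq_nonneg (v - w)) (add_nonneg ha (mul_nonneg (mul_nonneg two_pos.le hk) hq))
  nlinarith [h]

/-- one piece -/
theorem numC_piece (τ v T s T1 w : ℝ) (hs : 57 / 100 ≤ s) (hsτ : s ≤ τ) (hT1 : 0 ≤ T1)
    (hT : T1 ≤ T) (hv : 0 ≤ v) (hw : 0 ≤ w) (hw2 : w ≤ 1 / 2)
    (h0 : 0 ≤ (17 / 5 * s ^ 4 * w ^ 2 + 2 * (1 + 1 / (250 * s ^ 2)) * w ^ 3 -
        2 * (1 + 1 / (250 * s ^ 2)) * w ^ 5) +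
      (2 * (17 / 5 * s ^ 4) * w + 6 * (1 + 1 / (250 * s ^ 2)) * w ^ 2 -
        10 * (1 + 1 / (250 * s ^ 2)) * w ^ 4) * (0 - w) +
      (51 / 200 * s ^ 4 - 331 / 40000 * s ^ 2 + 1 / 250 * T1 * s ^ 2))
    (h1 : 0 ≤ (17 / 5 * s ^ 4 * w ^ 2 + 2 * (1 + 1 / (250 * s ^ 2)) * w ^ 3 -
        2 * (1 + 1 / (250 * s ^ 2)) * w ^ 5) +
      (2 * (17 / 5 * s ^ 4) * w + 6 * (1 + 1 / (250 * s ^ 2)) * w ^ 2 -
        10 * (1 + 1 / (250 * s ^ 2)) * w ^ 4) * (1 / 2 - w) +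
      (5253 / 2000 * s ^ 3 - (1 + 1 / (250 * s ^ 2))) * (1 / 2) +
      (51 / 200 * s ^ 4 - 331 / 40000 * s ^ 2 + 1 / 250 * T1 * s ^ 2))
    (h2 : (1 + 1 / (250 * s ^ 2)) * (304 / 1000) ≤ 17 / 5 * s ^ 4 * (1 / 2) ^ 2 +
      5253 / 2000 * s ^ 3 * (1 / 2) +
      (51 / 200 * s ^ 4 - 331 / 40000 * s ^ 2 + 1 / 250 * T1 * s ^ 2)) :
    (1 + 1 / (250 * τ ^ 2)) * (v * Real.exp (-2 * v ^ 2)) ≤
      17 / 5 * τ ^ 4 * v ^ 2 + 5253 / 2000 * τ ^ 3 * v + 51 / 200 * τ ^ 4 - 331 / 40000 * τ ^ 2 +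
        1 / 250 * T * τ ^ 2 := by
  have hs0 : 0 < s := by linarith
  have hτ0 : 0 < τ := by linarith
  have hs2 : s ^ 2 ≤ τ ^ 2 := pow_le_pow_left₀ hs0.le hsτ 2
  have hs3 : s ^ 3 ≤ τ ^ 3 := pow_le_pow_left₀ hs0.le hsτ 3
  have hs4 : s ^ 4 ≤ τ ^ 4 := pow_le_pow_left₀ hs0.le hsτ 4
  have hsq : (57 / 100 : ℝ) ^ 2 ≤ s ^ 2 := pow_le_pow_left₀ (by norm_num) hs 2
  have hg0 : 0 ≤ v * Real.exp (-2 * v ^ 2) := mul_nonneg hv (Real.exp_pos _).le
  -- left side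
  have hL : (1 + 1 / (250 * τ ^ 2)) * (v * Real.exp (-2 * v ^ 2)) ≤
      (1 + 1 / (250 * s ^ 2)) * (v * Real.exp (-2 * v ^ 2)) := by
    apply mul_le_mul_of_nonneg_right _ hg0
    have : 1 / (250 * τ ^ 2) ≤ 1 / (250 * s ^ 2) :=
      one_div_le_one_div_of_le (by positivity) (by linarith)
    linarith
  -- right side
  have hR : 17 / 5 * s ^ 4 * v ^ 2 + 5253 / 2000 * s ^ 3 * v +
      (51 / 200 * s ^ 4 - 331 / 40000 * s ^ 2 + 1 / 250 * T1 * s ^ 2) ≤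
      17 / 5 * τ ^ 4 * v ^ 2 + 5253 / 2000 * τ ^ 3 * v + 51 / 200 * τ ^ 4 - 331 / 40000 * τ ^ 2 +
        1 / 250 * T * τ ^ 2 := by
    have e1 : s ^ 4 * v ^ 2 ≤ τ ^ 4 * v ^ 2 := mul_le_mul_of_nonneg_right hs4 (by positivity)
    have e2 : s ^ 3 * v ≤ τ ^ 3 * v := mul_le_mul_of_nonneg_right hs3 hv
    have e3 : T1 * s ^ 2 ≤ T * τ ^ 2 := mul_le_mul hT hs2 (by positivity) (hT1.trans hT)
    have e4 : 0 ≤ (τ ^ 2 - s ^ 2) * (51 / 200 * (τ ^ 2 + s ^ 2) - 331 / 40000) := by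
      apply mul_nonneg (by linarith)
      norm_num at hsq
      linarith
    nlinarith [e1, e2, e3, e4]
  refine hL.trans (le_trans ?_ hR)
  generalize hK : 1 + 1 / (250 * s ^ 2) = K at *
  have hKp : 0 ≤ K := by
    rw [← hK]
    positivity
  generalize hC : 51 / 200 * s ^ 4 - 331 / 40000 * s ^ 2 + 1 / 250 * T1 * s ^ 2 = C at *
  have ha : 0 ≤ 17 / 5 * s ^ 4 := by positivity
  have hb : 0 ≤ 5253 / 2000 * s ^ 3 := by positivity
  generalize hA : 17 / 5 * s ^ 4 = A at *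
  generalize hB : 5253 / 2000 * s ^ 3 = B at *
  rcases le_total v (1 / 2) with hv2 | hv2
  · have hp := mul_le_mul_of_nonneg_left (g_le_poly v hv) hKp
    have ht := numC_tangent A K v w ha hKp hv hv2 hw hw2
    generalize A * w ^ 2 + 2 * K * w ^ 3 - 2 * K * w ^ 5 = X at *
    generalize 2 * A * w + 6 * K * w ^ 2 - 10 * K * w ^ 4 = S at *
    have hlin : 0 ≤ X + S * (v - w) + (B - K) * v + C := by
      have hc : X + S * (v - w) + (B - K) * v + C =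
          (1 - 2 * v) * (X + S * (0 - w) + C) +
          (2 * v) * (X + S * (1 / 2 - w) + (B - K) * (1 / 2) + C) := by ring
      rw [hc]
      exact add_nonneg (mul_nonneg (by linarith) h0) (mul_nonneg (by linarith) h1)
    nlinarith [hp, ht, hlin]
  · have hp := mul_le_mul_of_nonneg_left (g_le_max v hv) hKp
    have e1 : A * (1 / 2) ^ 2 ≤ A * v ^ 2 :=
      mul_le_mul_of_nonneg_left (pow_le_pow_left₀ (by norm_num) hv2 2) ha
    have e2 : B * (1 / 2) ≤ B * v := mul_le_mul_of_nonneg_left hv2 hb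
    linarith

theorem numBneg (τ v T : ℝ) (h1 : 57 / 100 ≤ τ) (h2 : τ ≤ 401 / 400) (hv : 0 ≤ v) (hT0 : 0 ≤ T)
    (hT : τ ≤ 159 / 250 → 39 / 25 * Real.exp (446 / 5 * (809 / 2000 - τ ^ 2)) ≤ T) :
    (1 + 1 / (250 * τ ^ 2)) * (v * Real.exp (-2 * v ^ 2)) ≤
      17 / 5 * τ ^ 4 * v ^ 2 + 5253 / 2000 * τ ^ 3 * v + 51 / 200 * τ ^ 4 - 331 / 40000 * τ ^ 2 +
        1 / 250 * T * τ ^ 2 := by
  have hτ0 : 0 ≤ τ := by linarith
  have hTx : ∀ t2 x : ℝ, τ ≤ t2 → t2 ≤ 159 / 250 → x ≤ 446 / 5 * (809 / 2000 - t2 ^ 2) →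
      39 / 25 * Real.exp x ≤ T := by
    intro t2 x ht ht2 hx
    refine le_trans ?_ (hT (ht.trans ht2))
    have h3 : τ ^ 2 ≤ t2 ^ 2 := pow_le_pow_left₀ hτ0 ht 2
    have h4 : x ≤ 446 / 5 * (809 / 2000 - τ ^ 2) := by linarith
    have h5 := Real.exp_le_exp.mpr h4
    linarith
  have he := Real.exp_one_gt_d9
  have he0 := Real.exp_pos 1
  rcases le_total τ (1173 / 2000) with c1 | c1
  · -- T ≥ 300
    have hT1 : (300 : ℝ) ≤ T := by
      refine le_trans ?_ (hTx (1173 / 2000) (5 + 39 / 100) c1 (by norm_num) (by norm_num))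
      have e1 : Real.exp 5 = Real.exp 1 ^ 5 := by
        rw [← Real.exp_nat_mul]
        norm_num
      have e2 : (2.7 : ℝ) ^ 5 ≤ Real.exp 1 ^ 5 := pow_le_pow_left₀ (by norm_num) (by linarith) 5
      have e3 := Real.add_one_le_exp (39 / 100 : ℝ)
      rw [Real.exp_add, e1]
      norm_num at e2 e3 ⊢
      nlinarith [e2, e3]
    apply numC_piece τ v T (57 / 100) 300 (1 / 4) (by norm_num) h1 (by norm_num) hT1 hv
      (by norm_num) (by norm_num) <;> norm_num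
  rcases le_total τ (1219 / 2000) with c2 | c2
  · have hT1 : (29.5 : ℝ) ≤ T := by
      refine le_trans ?_ (hTx (1219 / 2000) (3 + (-(56 / 1000))) c2 (by norm_num) (by norm_num))
      have e1 : Real.exp 3 = Real.exp 1 ^ 3 := by
        rw [← Real.exp_nat_mul]
        norm_num
      have e2 : (2.7182 : ℝ) ^ 3 ≤ Real.exp 1 ^ 3 :=
        pow_le_pow_left₀ (by norm_num) (by linarith) 3
      have e3 := Real.add_one_le_exp (-(56 / 1000) : ℝ)
      rw [Real.exp_add, e1]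
      norm_num at e2 e3 ⊢
      nlinarith [e2, e3]
    apply numC_piece τ v T (1173 / 2000) 29.5 (23 / 100) (by norm_num) c1 (by norm_num) hT1 hv
      (by norm_num) (by norm_num) <;> norm_num
  rcases le_total τ (247 / 400) with c3 | c3
  · have hT1 : (12.3 : ℝ) ≤ T := by
      refine le_trans ?_ (hTx (247 / 400) (2 + 688 / 10000) c3 (by norm_num) (by norm_num))
      have e1 : Real.exp 2 = Real.exp 1 ^ 2 := by
        rw [← Real.exp_nat_mul]
        norm_num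
      have e2 : (2.7182 : ℝ) ^ 2 ≤ Real.exp 1 ^ 2 :=
        pow_le_pow_left₀ (by norm_num) (by linarith) 2
      have e3 := Real.add_one_le_exp (688 / 10000 : ℝ)
      rw [Real.exp_add, e1]
      norm_num at e2 e3 ⊢
      nlinarith [e2, e3]
    apply numC_piece τ v T (1219 / 2000) 12.3 (1 / 5) (by norm_num) c2 (by norm_num) hT1 hv
      (by norm_num) (by norm_num) <;> norm_num
  rcases le_total τ (249 / 400) with c4 | c4
  · have hT1 : (7.1 : ℝ) ≤ T := by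
      refine le_trans ?_ (hTx (249 / 400) (3 / 2 + 158 / 10000) c4 (by norm_num) (by norm_num))
      have e1 : Real.exp (3 / 2) * Real.exp (3 / 2) = Real.exp 1 ^ 3 := by
        rw [← Real.exp_nat_mul, ← Real.exp_add]
        norm_num
      have e2 : (2.71828 : ℝ) ^ 3 ≤ Real.exp 1 ^ 3 :=
        pow_le_pow_left₀ (by norm_num) (by linarith) 3
      have e4 : (4.4816 : ℝ) ≤ Real.exp (3 / 2) := by
        by_contra hc
        push Not at hc
        have e5 : Real.exp (3 / 2) * Real.exp (3 / 2) ≤ (4.4816 : ℝ) * 4.4816 :=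
          mul_le_mul hc.le hc.le (Real.exp_pos _).le (by norm_num)
        rw [e1] at e5
        have e6 := e2.trans e5
        norm_num at e6
      have e3 := Real.add_one_le_exp (158 / 10000 : ℝ)
      rw [Real.exp_add]
      norm_num at e3 e4 ⊢
      nlinarith [e4, e3]
    apply numC_piece τ v T (247 / 400) 7.1 (19 / 100) (by norm_num) c3 (by norm_num) hT1 hv
      (by norm_num) (by norm_num) <;> norm_num
  rcases le_total τ (627 / 1000) with c5 | c5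
  · have hT1 : (4.3 : ℝ) ≤ T := by
      refine le_trans ?_ (hTx (627 / 1000) (1 + 142 / 10000) c5 (by norm_num) (by norm_num))
      have e3 := Real.add_one_le_exp (142 / 10000 : ℝ)
      rw [Real.exp_add]
      norm_num at e3 ⊢
      nlinarith [he, e3]
    apply numC_piece τ v T (249 / 400) 4.3 (181 / 1000) (by norm_num) c4 (by norm_num) hT1 hv
      (by norm_num) (by norm_num) <;> norm_num
  rcases le_total τ (159 / 250) with c6 | c6
  · have hT1 : (1.56 : ℝ) ≤ T := by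
      refine le_trans ?_ (hTx (159 / 250) 0 c6 (by norm_num) (by norm_num))
      rw [Real.exp_zero]
      norm_num
    apply numC_piece τ v T (627 / 1000) 1.56 (7 / 40) (by norm_num) c5 (by norm_num) hT1 hv
      (by norm_num) (by norm_num) <;> norm_num
  · apply numC_piece τ v T (159 / 250) 0 (33 / 200) (by norm_num) c6 (by norm_num) hT0 hv
      (by norm_num) (by norm_num) <;> norm_num

end Pool.Agent.UniM
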