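import Pool.Agent.UniM.P3LDef

/-!
# UniM / P3LT: lower bounds for the tail function

`TT P f = exp (-f log (5/4) + L (log 2 / log 3) log (15/13))`, `L = logb 2 P`. Two numerical facts:
`log (5/4) ≥ 223/1000` (true value `0.2231436`) and
`log 2 * log (15/13) ≥ 809/2000 * log 3 * log (5/4)` (`0.099189 ≥ 0.099163`); so
`log TT ≥ log (5/4) (809/2000 L - f) ≥ 223/1000 (809/2000 L - f)`.
`TT_ge'`: if `f + 2 = τ² L`, `τ² ≤ 809/2000`, `L ≥ 400`: `exp (0.446) ≥ 39/25` and
`0.223 L (809/2000 - τ²) ≥ 446/5 (809/2000 - τ²)`.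
-/

set_option autoImplicit false

namespace Pool.Agent.UniM

private theorem log_15_13 : 1431 / 10000 ≤ Real.log (15 / 13) := by
  have h := Real.hasSum_log_sub_log_of_abs_lt_one (x := 1 / 14) (by rw [abs_of_pos] <;> norm_num)
  have h1 := sum_le_hasSum (Finset.range 2) (fun k _ => by positivity) h
  have h2 : Real.log (1 + 1 / 14) - Real.log (1 - 1 / 14) = Real.log (15 / 13) := by
    rw [← Real.log_div (by norm_num) (by norm_num)]
    norm_num
  rw [h2] at h1
  refine le_trans ?_ h1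
  norm_num [Finset.sum_range_succ]

private theorem log_5_4 : Real.log (5 / 4) = Real.log 5 - 2 * Real.log 2 := by
  rw [Real.log_div (by norm_num) (by norm_num), show (4 : ℝ) = 2 ^ 2 by norm_num, Real.log_pow]
  push_cast
  ring

private theorem log_5_4_ge : 223 / 1000 ≤ Real.log (5 / 4) := by
  have h1 := Real.log_five_gt_d9
  have h2 := Real.log_two_lt_d9
  rw [log_5_4]
  linarith

private theorem log_5_4_le : Real.log (5 / 4) ≤ 22315 / 100000 := by
  have h1 := Real.log_five_lt_d9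
  have h2 := Real.log_two_gt_d9
  rw [log_5_4]
  linarith

private theorem key_num : 809 / 2000 * (Real.log 3 * Real.log (5 / 4)) ≤
    Real.log 2 * Real.log (15 / 13) := by
  have h1 := log_15_13
  have h2 := log_5_4_le
  have h3 := Real.log_three_lt_d9
  have h4 := Real.log_two_gt_d9
  have h5 := log_5_4_ge
  have h6 : Real.log 3 * Real.log (5 / 4) ≤ 1.0986122888 * (22315 / 100000) :=
    mul_le_mul h3.le h2 (by linarith) (by norm_num)
  have h7 : 0.6931471803 * (1431 / 10000) ≤ Real.log 2 * Real.log (15 / 13) :=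
    mul_le_mul h4.le h1 (by norm_num) (by linarith)
  refine le_trans (mul_le_mul_of_nonneg_left h6 (by norm_num)) (le_trans ?_ h7)
  norm_num

private theorem TT_log (P f : ℕ) : TT P f =
    Real.exp (-(f * Real.log (5 / 4)) + Real.logb 3 P * Real.log (15 / 13)) := by
  unfold TT
  have h1 : (4 / 5 : ℝ) ^ f = Real.exp (-(f * Real.log (5 / 4))) := by
    rw [show (4 / 5 : ℝ) = (5 / 4)⁻¹ by norm_num, inv_pow, Real.exp_neg, Real.exp_nat_mul,
      Real.exp_log (by norm_num)]
  have h2 : (13 / 15 : ℝ) ^ Real.logb 3 P = Real.exp (-(Real.logb 3 P * Real.log (15 / 13))) := by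
    rw [Real.rpow_def_of_pos (by norm_num), show (13 / 15 : ℝ) = (15 / 13)⁻¹ by norm_num,
      Real.log_inv]
    congr 1
    ring
  rw [h1, h2, ← Real.exp_sub]
  congr 1
  ring

theorem logb_ge {P : ℕ} (hP : 2 ^ 400 ≤ P) : 400 ≤ Real.logb 2 P := by
  have h : ((2 : ℝ) ^ (400 : ℝ)) ≤ P := by
    rw [show (400 : ℝ) = ((400 : ℕ) : ℝ) by norm_num, Real.rpow_natCast]
    exact_mod_cast hP
  have h2 := Real.logb_le_logb_of_le (b := 2) (by norm_num) (by positivity) h
  rwa [Real.logb_rpow (by norm_num) (by norm_num)] at h2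

theorem TT_ge {P : ℕ} (hP : 2 ^ 400 ≤ P) (f : ℕ) (hf : (f : ℝ) ≤ 809 / 2000 * Real.logb 2 P) :
    Real.exp (223 / 1000 * (809 / 2000 * Real.logb 2 P - f)) ≤ TT P f := by
  rw [TT_log]
  apply Real.exp_le_exp.mpr
  have hL := logb_ge hP
  set L := Real.logb 2 P with hLd
  have h3 : Real.logb 3 P = L * (Real.log 2 / Real.log 3) := by
    rw [hLd, Real.logb, Real.logb]
    have h2 : Real.log 2 ≠ 0 := (Real.log_pos (by norm_num)).ne'
    field_simp
  have hl3 : 0 < Real.log 3 := Real.log_pos (by norm_num)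
  have h4 : 809 / 2000 * Real.log (5 / 4) ≤ Real.log 2 / Real.log 3 * Real.log (15 / 13) := by
    have h0 : Real.log 2 / Real.log 3 * Real.log (15 / 13) =
        Real.log 2 * Real.log (15 / 13) / Real.log 3 := by ring
    rw [h0, le_div_iff₀ hl3]
    have := key_num
    linarith
  have h5 : L * (809 / 2000 * Real.log (5 / 4)) ≤
      L * (Real.log 2 / Real.log 3 * Real.log (15 / 13)) :=
    mul_le_mul_of_nonneg_left h4 (by linarith)
  have h6 : 223 / 1000 * (809 / 2000 * L - f) ≤ Real.log (5 / 4) * (809 / 2000 * L - f) :=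
    mul_le_mul_of_nonneg_right log_5_4_ge (by linarith)
  rw [h3]
  linarith

theorem TT_ge' {P : ℕ} (hP : 2 ^ 400 ≤ P) (f : ℕ) (τ : ℝ)
    (hτ : ((f : ℝ) + 2) = τ ^ 2 * Real.logb 2 P) (h : τ ^ 2 ≤ 809 / 2000) :
    39 / 25 * Real.exp (446 / 5 * (809 / 2000 - τ ^ 2)) ≤ TT P f := by
  have hL := logb_ge hP
  have h1 := TT_ge hP f (by nlinarith)
  refine le_trans ?_ h1
  have h2 : (39 / 25 : ℝ) ≤ Real.exp (446 / 1000) := by
    refine le_trans ?_ (Real.sum_le_exp_of_nonneg (x := 446 / 1000) (by norm_num) 5)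
    norm_num [Finset.sum_range_succ, Nat.factorial]
  have h3 : Real.exp (223 / 1000 * (809 / 2000 * Real.logb 2 P - f)) =
      Real.exp (446 / 1000) * Real.exp (223 / 1000 * Real.logb 2 P * (809 / 2000 - τ ^ 2)) := by
    rw [← Real.exp_add]
    congr 1
    linear_combination (-223 / 1000) * hτ
  rw [h3]
  apply mul_le_mul h2 _ (Real.exp_pos _).le (Real.exp_pos _).le
  apply Real.exp_le_exp.mpr
  nlinarith

end Pool.Agent.UniM
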