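import Pool.Agent.UniM.P3LB
import Pool.Agent.UniM.P3LT
import Pool.Agent.UniM.P3LNumB
import Pool.Agent.UniM.P3LNumC

/-!
# UniM / P3LPtBn: pointwise minorant for part (b), negative side (`ptB_neg`)
-/

set_option autoImplicit false

namespace Pool.Agent.UniM

theorem ptB_neg_aux {c : ℝ} (h : BetaB c) {P : ℕ} (hP : 2 ^ 400 ≤ P) (f : ℕ) (hf : 2 ^ f ≤ P)
    (j : ℤ) (L y : ℝ) (hL : L = Real.logb 2 P) (hy : y = (j : ℝ) + 1 / 2 - f / 2) (h0 : y ≤ 0) :
    -(17 / 5) * (y / √L - 13 / 80) * (y / √L - 61 / 100) + 17 / 5 * (1 / 10 - 3 / 40 * (f / L)) +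
      1 / 250 * (1 - TT P f) ≤ PsB f j * L / (4 * c) := by
  have hL4 : 400 ≤ L := hL ▸ logb_ge hP
  have hLpos : 0 < L := by linarith
  have hc := h.ge
  have hcpos := h.pos
  have hfL : (f : ℝ) ≤ L := by
    rw [hL, Real.le_logb_iff_rpow_le (by norm_num)]
    · rw [Real.rpow_natCast]
      exact_mod_cast hf
    · have : 0 < P := lt_of_lt_of_le (by positivity) hP
      exact_mod_cast this
  have hf0 : (0 : ℝ) ≤ f := Nat.cast_nonneg f
  set s := √L with hs
  have hspos : 0 < s := Real.sqrt_pos.2 hLpos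
  have hs2 : s ^ 2 = L := Real.sq_sqrt hLpos.le
  obtain ⟨τ, hτ⟩ : ∃ τ, τ = √(((f : ℝ) + 2) / L) := ⟨_, rfl⟩
  have hτpos : 0 < τ := by
    rw [hτ]
    apply Real.sqrt_pos.2
    positivity
  have hτ2 : τ ^ 2 * L = f + 2 := by
    rw [hτ, Real.sq_sqrt (by positivity)]
    field_simp
  have hτs : √((f : ℝ) + 2) = τ * s := by
    rw [← hτ2, ← hs2]
    rw [show τ ^ 2 * s ^ 2 = (τ * s) ^ 2 by ring]
    exact Real.sqrt_sq (by positivity)
  have hτle : τ ≤ 401 / 400 := by
    by_contra hcon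
    push Not at hcon
    have h1 : (401 / 400 : ℝ) ^ 2 < τ ^ 2 := by
      apply pow_lt_pow_left₀ hcon (by norm_num) (by norm_num)
    have h2 : (401 / 400 : ℝ) ^ 2 * L < τ ^ 2 * L := mul_lt_mul_of_pos_right h1 hLpos
    norm_num at h2
    linarith
  obtain ⟨v, hv⟩ : ∃ v, v = -y / (τ * s) := ⟨_, rfl⟩
  have hv0 : 0 ≤ v := by
    rw [hv]
    apply div_nonneg (by linarith) (by positivity)
  have hyv : y = -(v * (τ * s)) := by
    rw [hv]
    field_simp
  have hys : y / s = -(τ * v) := by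
    rw [hyv]
    field_simp
  have hfd : (f : ℝ) / L = τ ^ 2 - 2 / L := by
    have : (f : ℝ) = τ ^ 2 * L - 2 := by linarith
    rw [this]
    field_simp
  have h2L : 2 / L ≤ 1 / 200 := by
    rw [div_le_div_iff₀ hLpos (by norm_num)]
    linarith
  have hTT0 := TT_nonneg P f
  -- the left side
  have hlhs : -(17 / 5) * (y / s - 13 / 80) * (y / s - 61 / 100) +
      17 / 5 * (1 / 10 - 3 / 40 * (f / L)) + 1 / 250 * (1 - TT P f) ≤
      -(17 / 5) * τ ^ 2 * v ^ 2 - 5253 / 2000 * τ * v - 51 / 200 * τ ^ 2 + 331 / 40000 -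
        1 / 250 * TT P f := by
    rw [hys, hfd]
    have e0 : -(17 / 5) * (-(τ * v) - 13 / 80) * (-(τ * v) - 61 / 100) +
      17 / 5 * (1 / 10 - 3 / 40 * (τ ^ 2 - 2 / L)) + 1 / 250 * (1 - TT P f) =
      -(17 / 5) * τ ^ 2 * v ^ 2 - 5253 / 2000 * τ * v - 51 / 200 * τ ^ 2 + 51 / 200 * (2 / L) +
        279 / 40000 - 1 / 250 * TT P f := by ring
    rw [e0]
    linarith
  refine hlhs.trans ?_
  have hτv : 0 ≤ τ * v := by positivity
  have h4c : 0 < 4 * c := by linarith
  rcases lt_or_ge τ (1 / 2) with hA | hA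
  · -- small f
    have h1 : τ ^ 2 ≤ 1 / 4 := by
      have := pow_le_pow_left₀ hτpos.le hA.le 2
      norm_num at this ⊢
      exact this
    have h2 : (f : ℝ) + 2 ≤ L / 4 := by
      rw [← hτ2]
      have := mul_le_mul_of_nonneg_right h1 hLpos.le
      linarith
    have h3 := TT_ge hP f (by rw [← hL]; linarith)
    rw [← hL] at h3
    have h4 : Real.exp 13 * (1 + (34 / 1000 * L - 13)) ≤ TT P f := by
      refine le_trans ?_ h3
      have h5 : Real.exp (34 / 1000 * L) ≤ Real.exp (223 / 1000 * (809 / 2000 * L - f)) := by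
        apply Real.exp_le_exp.2
        linarith
      refine le_trans ?_ h5
      have h6 : Real.exp (34 / 1000 * L) = Real.exp 13 * Real.exp (34 / 1000 * L - 13) := by
        rw [← Real.exp_add]
        congr 1
        ring
      rw [h6]
      apply mul_le_mul_of_nonneg_left _ (Real.exp_pos _).le
      have := Real.add_one_le_exp (34 / 1000 * L - 13)
      linarith
    have h7 : (100000 : ℝ) ≤ Real.exp 13 := by
      have h8 : (2.7 : ℝ) ≤ Real.exp 1 := by
        have := Real.exp_one_gt_d9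
        linarith
      have h9 : Real.exp 13 = Real.exp 1 ^ 13 := by
        rw [← Real.exp_nat_mul]
        norm_num
      rw [h9]
      calc (100000 : ℝ) ≤ 2.7 ^ 13 := by norm_num
        _ ≤ Real.exp 1 ^ 13 := pow_le_pow_left₀ (by norm_num) h8 13
    have h10 : 100000 * (1 + (34 / 1000 * L - 13)) ≤ TT P f := by
      refine le_trans ?_ h4
      apply mul_le_mul_of_nonneg_right h7
      linarith
    have h11 : -(L / (14 / 5)) ≤ PsB f j * L / (4 * c) := by
      have h12 := neg_one_le_PsB f j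
      have h13 : -(L / (4 * c)) ≤ PsB f j * L / (4 * c) := by
        rw [← neg_div]
        apply div_le_div_of_nonneg_right _ h4c.le
        have := mul_le_mul_of_nonneg_right h12 hLpos.le
        linarith
      refine le_trans ?_ h13
      apply neg_le_neg
      apply div_le_div_of_nonneg_left hLpos.le (by norm_num)
      linarith
    refine le_trans ?_ h11
    have h14 : 0 ≤ 17 / 5 * τ ^ 2 * v ^ 2 := by positivity
    have h15 : 0 ≤ 51 / 200 * τ ^ 2 := by positivity
    have h16 : L / (14 / 5) = 5 / 14 * L := by ring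
    rw [h16]
    have h17 : 5253 / 2000 * τ * v = 5253 / 2000 * (τ * v) := by ring
    rw [h17]
    linarith
  · -- main estimate
    have hτ2' : 1 / 4 ≤ τ ^ 2 := by
      have := pow_le_pow_left₀ (by norm_num) hA 2
      norm_num at this ⊢
      exact this
    have hf98 : 98 ≤ f := by
      have : (98 : ℝ) ≤ f := by
        have := mul_le_mul hτ2' hL4 (by norm_num) (by positivity)
        linarith
      exact_mod_cast this
    have h1 := PsB_ge_neg h f hf98 j y hy h0
    have e1 : -2 * y ^ 2 / ((f : ℝ) + 2) = -2 * v ^ 2 := by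
      rw [hyv, ← hτ2, ← hs2]
      field_simp
    rw [e1, hτs] at h1
    have h2 : -(1 / τ ^ 2 * ((1 + 1 / (250 * τ ^ 2)) * (v * Real.exp (-2 * v ^ 2)))) ≤
        PsB f j * L / (4 * c) := by
      have h3 : (4 * c * y / (((f : ℝ) + 2) * (τ * s)) * (1 + 8 / (5 * ((f : ℝ) + 2))) *
          Real.exp (-2 * v ^ 2)) * L / (4 * c) ≤ PsB f j * L / (4 * c) := by
        gcongr
      refine le_trans ?_ h3
      have e2 : (4 * c * y / (((f : ℝ) + 2) * (τ * s)) * (1 + 8 / (5 * ((f : ℝ) + 2))) *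
          Real.exp (-2 * v ^ 2)) * L / (4 * c) =
          -(1 / τ ^ 2 * ((1 + 8 / (5 * ((f : ℝ) + 2))) * (v * Real.exp (-2 * v ^ 2)))) := by
        rw [hyv, ← hτ2]
        field_simp
      rw [e2]
      apply neg_le_neg
      have h5 : 8 / (5 * ((f : ℝ) + 2)) ≤ 1 / (250 * τ ^ 2) := by
        rw [← hτ2, div_le_div_iff₀ (by positivity) (by positivity)]
        have := mul_le_mul_of_nonneg_left hL4 (pow_pos hτpos 2).le
        linarith
      gcongr
    refine le_trans ?_ h2
    rcases lt_or_ge τ (57 / 100) with hB | hB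
    · have hB2 : τ ^ 2 ≤ 3249 / 10000 := by
        have := pow_le_pow_left₀ hτpos.le hB.le 2
        norm_num at this ⊢
        exact this
      have h3 := TT_ge' hP f τ (by rw [hτ2.symm, hL]) (by linarith)
      have h4 := g_le_max v hv0
      have h5 : (1000 : ℝ) ≤ Real.exp (446 / 5 * (809 / 2000 - τ ^ 2)) := by
        have h6 : Real.exp 7 ≤ Real.exp (446 / 5 * (809 / 2000 - τ ^ 2)) := by
          apply Real.exp_le_exp.2
          linarith
        refine le_trans ?_ h6
        have h8 : (2.7 : ℝ) ≤ Real.exp 1 := by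
          have := Real.exp_one_gt_d9
          linarith
        have h9 : Real.exp 7 = Real.exp 1 ^ 7 := by
          rw [← Real.exp_nat_mul]
          norm_num
        rw [h9]
        calc (1000 : ℝ) ≤ 2.7 ^ 7 := by norm_num
          _ ≤ Real.exp 1 ^ 7 := pow_le_pow_left₀ (by norm_num) h8 7
      have h7 : 0 ≤ v * Real.exp (-2 * v ^ 2) := by positivity
      have h8 : 1 / τ ^ 2 ≤ 4 := by
        rw [div_le_iff₀ (by positivity)]
        linarith
      have h9 : 1 / (250 * τ ^ 2) ≤ 1 := by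
        rw [div_le_iff₀ (by positivity)]
        linarith
      have h10 : 1 / τ ^ 2 * ((1 + 1 / (250 * τ ^ 2)) * (v * Real.exp (-2 * v ^ 2))) ≤
          4 * ((1 + 1) * (304 / 1000)) := by
        gcongr
      have h14 : 0 ≤ 17 / 5 * τ ^ 2 * v ^ 2 := by positivity
      have h15 : 0 ≤ 51 / 200 * τ ^ 2 := by positivity
      linarith
    · have h3 := numBneg τ v (TT P f) hB hτle hv0 hTT0 (by
        intro h5
        have := pow_le_pow_left₀ hτpos.le h5 2
        norm_num at this
        exact TT_ge' hP f τ (by rw [hτ2.symm, hL]) (by linarith))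
      have h4 : 1 / τ ^ 2 * ((1 + 1 / (250 * τ ^ 2)) * (v * Real.exp (-2 * v ^ 2))) ≤
          1 / τ ^ 2 * (17 / 5 * τ ^ 4 * v ^ 2 + 5253 / 2000 * τ ^ 3 * v + 51 / 200 * τ ^ 4 -
            331 / 40000 * τ ^ 2 + 1 / 250 * TT P f * τ ^ 2) := by
        apply mul_le_mul_of_nonneg_left h3
        positivity
      have h5 : 1 / τ ^ 2 * (17 / 5 * τ ^ 4 * v ^ 2 + 5253 / 2000 * τ ^ 3 * v + 51 / 200 * τ ^ 4 -
            331 / 40000 * τ ^ 2 + 1 / 250 * TT P f * τ ^ 2) =
          17 / 5 * τ ^ 2 * v ^ 2 + 5253 / 2000 * τ * v + 51 / 200 * τ ^ 2 - 331 / 40000 +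
            1 / 250 * TT P f := by
        field_simp
      rw [h5] at h4
      linarith

end Pool.Agent.UniM
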