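import Pool.Agent.UniM.P3LB
import Pool.Agent.UniM.P3LT
import Pool.Agent.UniM.P3LNumB

/-!
# UniM / P3LPtBp: pointwise minorant for part (b), the side `y ≥ 0`

The proof of `ptB_pos` (file `P3LPtB`), see there.
-/

set_option autoImplicit false

namespace Pool.Agent.UniM

/-- the constants -/
private theorem ptbp_const (L Y τ F T : ℝ) (hL : 400 ≤ L) (hF : F + 2 = τ ^ 2 * L) :
    -(17 / 5) * (Y - 13 / 80) * (Y - 61 / 100) + 17 / 5 * (1 / 10 - 3 / 40 * (F / L)) +
      1 / 250 * (1 - T) ≤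
    -(17 / 5) * (Y - 13 / 80) * (Y - 61 / 100) + 3453 / 10000 - 51 / 200 * τ ^ 2 - 1 / 250 * T := by
  have h0 : 0 < L := by linarith
  have h1 : F / L = τ ^ 2 - 2 / L := by
    rw [eq_sub_iff_add_eq, ← add_div, hF]
    field_simp
  have h2 : 2 / L ≤ 1 / 200 := by
    rw [div_le_div_iff₀ h0 (by norm_num)]
    linarith
  rw [h1]
  linarith

private theorem ptbp_exp : (143 : ℝ) ≤ Real.exp 5 := by
  have h1 : (27 / 10 : ℝ) ≤ Real.exp 1 := by
    have := Real.exp_one_gt_d9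
    linarith
  have h2 : Real.exp 5 = Real.exp 1 ^ 5 := by
    rw [← Real.exp_nat_mul]
    norm_num
  rw [h2]
  calc (143 : ℝ) ≤ (27 / 10) ^ 5 := by norm_num
    _ ≤ Real.exp 1 ^ 5 := pow_le_pow_left₀ (by norm_num) h1 5

private theorem ptbp_quad (Y : ℝ) :
    -(17 / 5) * (Y - 13 / 80) * (Y - 61 / 100) ≤ 1703 / 10000 := by
  nlinarith [sq_nonneg (Y - 309 / 800)]

theorem ptB_pos_aux {c : ℝ} (h : BetaB c) {P : ℕ} (hP : 2 ^ 400 ≤ P) (f : ℕ) (hf : 2 ^ f ≤ P)
    (j : ℤ) (L y : ℝ) (hL : L = Real.logb 2 P) (hy : y = (j : ℝ) + 1 / 2 - f / 2) (h0 : 0 ≤ y) :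
    -(17 / 5) * (y / √L - 13 / 80) * (y / √L - 61 / 100) + 17 / 5 * (1 / 10 - 3 / 40 * (f / L)) +
      1 / 250 * (1 - TT P f) ≤ PsB f j * L / (4 * c) := by
  have hL4 : 400 ≤ L := by
    rw [hL]
    exact logb_ge hP
  have hL0 : 0 < L := by linarith
  have hc := h.pos
  have hf0 : (0 : ℝ) ≤ f := Nat.cast_nonneg f
  have hfL : (f : ℝ) ≤ L := by
    rw [hL, Real.le_logb_iff_rpow_le (by norm_num) (by
      have : 0 < P := lt_of_lt_of_le (by positivity) hP
      exact_mod_cast this), Real.rpow_natCast]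
    exact_mod_cast hf
  set s : ℝ := √L with hs
  have hs2 : s ^ 2 = L := Real.sq_sqrt hL0.le
  have hs0 : 0 < s := Real.sqrt_pos.2 hL0
  have hs20 : 20 ≤ s := by
    rw [hs]
    apply Real.le_sqrt_of_sq_le
    linarith
  obtain ⟨τ, hτ0, hτ⟩ : ∃ τ : ℝ, 0 < τ ∧ (f : ℝ) + 2 = τ ^ 2 * L := by
    refine ⟨√(((f : ℝ) + 2) / L), Real.sqrt_pos.2 (by positivity), ?_⟩
    rw [Real.sq_sqrt (by positivity)]
    field_simp
  have hτ1 : τ ≤ 401 / 400 := by
    by_contra hcon
    push Not at hcon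
    have h1 : (401 / 400 : ℝ) ^ 2 < τ ^ 2 := pow_lt_pow_left₀ hcon (by norm_num) two_ne_zero
    nlinarith
  have hT := TT_nonneg P f
  have hps : 0 ≤ PsB f j := PsB_nonneg f j (by rw [← hy]; exact h0)
  have hps' : 0 ≤ PsB f j * L / (4 * c) := by positivity
  refine (ptbp_const L (y / s) τ f (TT P f) hL4 hτ).trans ?_
  rcases lt_or_ge τ (59 / 100) with h1 | h1
  · have h2 : τ ^ 2 ≤ 3481 / 10000 := by nlinarith
    have h3 := TT_ge' hP f τ (by rw [← hL]; exact hτ) (by linarith)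
    have h4 : Real.exp 5 ≤ Real.exp (446 / 5 * (809 / 2000 - τ ^ 2)) := by
      apply Real.exp_le_exp.2
      linarith
    have h5 := ptbp_exp
    have h6 := ptbp_quad (y / s)
    have h7 : 0 ≤ τ ^ 2 := sq_nonneg τ
    linarith
  · set v : ℝ := y / s / τ with hv
    have hv0 : 0 ≤ v := by positivity
    have hYv : y / s = τ * v := by
      rw [hv]
      field_simp
    have hyv : y = v * τ * s := by
      rw [hv]
      field_simp
    rw [hYv]
    have hτ2 : 0 < τ ^ 2 := by positivity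
    have hq := qB_eq τ v
    rcases le_total v (13 / 10) with h2 | h2
    · have h3 := numBpos τ v h1 hτ1 hv0 h2
      have h4 := PsB_ge_pos h f j y hy h0 (by
        have h5 : (f : ℝ) + 2 = (τ * s) ^ 2 := by
          rw [hτ, ← hs2]
          ring
        have h6 : 118 / 10 ≤ τ * s := by nlinarith
        have h7 : y ≤ 13 / 10 * (τ * s) := by
          rw [hyv]
          nlinarith
        nlinarith)
      have hsq : √((f : ℝ) + 2) = τ * s := by
        rw [hτ, ← hs2, show τ ^ 2 * s ^ 2 = (τ * s) ^ 2 by ring, Real.sqrt_sq (by positivity)]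
      have e1 : 4 * c * y / ((f + 2) * √((f : ℝ) + 2)) = 4 * c / L * (v / τ ^ 2) := by
        rw [hsq, hτ, hyv, ← hs2]
        field_simp
      have e2 : -2 * y ^ 2 / ((f : ℝ) + 2) = -2 * v ^ 2 := by
        rw [hτ, hyv, ← hs2]
        field_simp
      have e3 : 2 * y ^ 4 / ((f : ℝ) + 2) ^ 3 = 2 * v ^ 4 / (τ ^ 2 * L) := by
        rw [hτ, hyv, ← hs2]
        field_simp
      rw [e1, e2, e3] at h4
      have h5 : 2 * v ^ 4 / (τ ^ 2 * L) ≤ v ^ 4 / (200 * τ ^ 2) := by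
        rw [div_le_div_iff₀ (by positivity) (by positivity)]
        have h6 : 0 ≤ v ^ 4 * τ ^ 2 := by positivity
        nlinarith
      have h6 : Real.exp (-2 * v ^ 2 - v ^ 4 / (200 * τ ^ 2)) ≤
          Real.exp (-2 * v ^ 2 - 2 * v ^ 4 / (τ ^ 2 * L)) := Real.exp_le_exp.2 (by linarith)
      have h7 : v / τ ^ 2 * Real.exp (-2 * v ^ 2 - v ^ 4 / (200 * τ ^ 2)) ≤
          PsB f j * L / (4 * c) := by
        rw [le_div_iff₀ (by positivity)]
        have h8 : 4 * c / L * (v / τ ^ 2) * Real.exp (-2 * v ^ 2 - v ^ 4 / (200 * τ ^ 2)) ≤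
            PsB f j := (mul_le_mul_of_nonneg_left h6 (by positivity)).trans h4
        have h9 := mul_le_mul_of_nonneg_right h8 hL0.le
        calc v / τ ^ 2 * Real.exp (-2 * v ^ 2 - v ^ 4 / (200 * τ ^ 2)) * (4 * c)
            = 4 * c / L * (v / τ ^ 2) * Real.exp (-2 * v ^ 2 - v ^ 4 / (200 * τ ^ 2)) * L := by
              field_simp
          _ ≤ PsB f j * L := h9
      have h8 : -(17 / 5) * (τ * v - 13 / 80) * (τ * v - 61 / 100) + 3453 / 10000 -
          51 / 200 * τ ^ 2 ≤ v / τ ^ 2 * Real.exp (-2 * v ^ 2 - v ^ 4 / (200 * τ ^ 2)) := by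
        rw [hq] at h3
        have h9 : v / τ ^ 2 * Real.exp (-2 * v ^ 2 - v ^ 4 / (200 * τ ^ 2)) =
            v * Real.exp (-2 * v ^ 2 - v ^ 4 / (200 * τ ^ 2)) / τ ^ 2 := by
          ring
        rw [h9, le_div_iff₀ hτ2]
        linarith
      linarith
    · have h3 := numB4 τ v h1 hτ1 h2
      rw [hq] at h3
      have h8 : -(17 / 5) * (τ * v - 13 / 80) * (τ * v - 61 / 100) + 3453 / 10000 -
          51 / 200 * τ ^ 2 ≤ 0 := by
        have h9 : (-(17 / 5) * (τ * v - 13 / 80) * (τ * v - 61 / 100) + 3453 / 10000 -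
          51 / 200 * τ ^ 2) * τ ^ 2 ≤ 0 := by linarith
        by_contra hcon
        push Not at hcon
        have := mul_pos hcon hτ2
        linarith
      linarith

end Pool.Agent.UniM
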