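import Pool.Agent.UniM.P3LB
import Pool.Agent.UniM.P3LT
import Pool.Agent.UniM.P3LNumB
import Pool.Agent.UniM.P3LNumC
import Pool.Agent.UniM.P3LPtBp
import Pool.Agent.UniM.P3LPtBn

/-!
# UniM / P3LPtB: pointwise minorant for part (b)

`L ≥ 400`, `N = f + 2 = τ² L`, `τ² ≤ 1.005`, `y = ± v τ √L`, `51/(100 L) ≤ 13/10000`.

`ptB_pos` (`y ≥ 0`): if `τ < 59/100`: `PsB ≥ 0` and the left side is `≤ 17/5 (179/800)² + 344/1000 -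
TT/250 < 0` as `TT ≥ 39/25 exp (446/5 * 0.0564) ≥ 230`. If `τ ≥ 59/100` and `v ≤ 13/10`: `PsB_ge_pos`
(`6 y ≤ f + 5` as `τ √L ≥ 7.8`) gives `L PsB/(4c) ≥ (v/τ²) exp (-2v² - 2v⁴/(τ² L))`, then `numBpos`
divided by `τ²` (`qB_eq`). If `v ≥ 13/10`: `PsB ≥ 0`, `numB4`.

`ptB_neg` (`y ≤ 0`): `τ < 1/2`: `PsB ≥ -1` (`neg_one_le_PsB`), `4 c ≥ 2.8`, `TT ≥ 1.56 exp (0.0344 L)`;
`1/2 ≤ τ < 57/100`: `f ≥ 98`, `PsB_ge_neg`, `g_le_max`, `TT ≥ 39/25 exp (7.1)`;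
`τ ≥ 57/100`: `PsB_ge_neg`, `8/(5N) ≤ 1/(250 τ²)`, `numBneg` divided by `τ²`.
-/

set_option autoImplicit false

namespace Pool.Agent.UniM

theorem ptB_pos {c : ℝ} (h : BetaB c) {P : ℕ} (hP : 2 ^ 400 ≤ P) (f : ℕ) (hf : 2 ^ f ≤ P)
    (j : ℤ) (L y : ℝ) (hL : L = Real.logb 2 P) (hy : y = (j : ℝ) + 1 / 2 - f / 2) (h0 : 0 ≤ y) :
    -(17 / 5) * (y / √L - 13 / 80) * (y / √L - 61 / 100) + 17 / 5 * (1 / 10 - 3 / 40 * (f / L)) +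
      1 / 250 * (1 - TT P f) ≤ PsB f j * L / (4 * c) :=
  ptB_pos_aux h hP f hf j L y hL hy h0

theorem ptB_neg {c : ℝ} (h : BetaB c) {P : ℕ} (hP : 2 ^ 400 ≤ P) (f : ℕ) (hf : 2 ^ f ≤ P)
    (j : ℤ) (L y : ℝ) (hL : L = Real.logb 2 P) (hy : y = (j : ℝ) + 1 / 2 - f / 2) (h0 : y ≤ 0) :
    -(17 / 5) * (y / √L - 13 / 80) * (y / √L - 61 / 100) + 17 / 5 * (1 / 10 - 3 / 40 * (f / L)) +
      1 / 250 * (1 - TT P f) ≤ PsB f j * L / (4 * c) :=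
  ptB_neg_aux h hP f hf j L y hL hy h0

theorem ptB {c : ℝ} (h : BetaB c) {P : ℕ} (hP : 2 ^ 400 ≤ P) (f : ℕ) (hf : 2 ^ f ≤ P)
    (j : ℤ) (L y : ℝ) (hL : L = Real.logb 2 P) (hy : y = (j : ℝ) + 1 / 2 - f / 2) :
    -(17 / 5) * (y / √L - 13 / 80) * (y / √L - 61 / 100) + 17 / 5 * (1 / 10 - 3 / 40 * (f / L)) +
      1 / 250 * (1 - TT P f) ≤ PsB f j * L / (4 * c) := by
  rcases le_total 0 y with h0 | h0
  · exact ptB_pos h hP f hf j L y hL hy h0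
  · exact ptB_neg h hP f hf j L y hL hy h0

end Pool.Agent.UniM
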