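import Pool.Agent.UniM.P3LPtA
import Pool.Agent.UniM.P3LPtB

/-!
# UniM / P3LFin: part P3 for `2 ^ 400 ≤ P`, window `wL P = 13/80 √(logb 2 P)`

Multiply `ptA` by `p i` and sum: with `Y0 = (∑ p y)/√L`, `VarHyp` divided by `L`,
`∑ p TT ≤ 1`: `(L√L/(4c)) ∑ p PsA ≤ 37/2 (Y0² - (13/80 - 1/(2√L))²) ≤ 0`.
Multiply `ptB` by `p i` and sum: `(L/(4c)) ∑ p PsB ≥ -17/5 (Y0 - 13/80)(Y0 - 61/100) ≥ 0` for
`13/80 ≤ Y0 ≤ 61/100`; `wL P + dmax P ≤ 61/100 √L` as `2/3 (1 + √(11/40 L)) ≤ 179/400 √L`.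
-/

set_option autoImplicit false

namespace Pool.Agent.UniM

theorem wL_mono {P Q : ℕ} (hP : 1 ≤ P) (h : P ≤ Q) : wL P ≤ wL Q := by
  unfold wL
  have h1 : (0 : ℝ) < P := by exact_mod_cast hP
  have h2 : (P : ℝ) ≤ Q := by exact_mod_cast h
  exact mul_le_mul_of_nonneg_left (Real.sqrt_le_sqrt
    ((Real.logb_le_logb (by norm_num) h1 (lt_of_lt_of_le h1 h2)).mpr h2)) (by norm_num)

theorem sum_TT_le {n : ℕ} (P : ℕ) (p : Fin n → ℝ) (f : Fin n → ℕ)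
    (ht : ∑ i, p i * (4 / 5 : ℝ) ^ f i ≤ (13 / 15 : ℝ) ^ Real.logb 3 P) :
    ∑ i, p i * TT P (f i) ≤ 1 := by
  have h0 : (0 : ℝ) < (13 / 15 : ℝ) ^ Real.logb 3 P := by positivity
  have h1 : ∑ i, p i * TT P (f i) =
      (∑ i, p i * (4 / 5 : ℝ) ^ f i) / (13 / 15 : ℝ) ^ Real.logb 3 P := by
    rw [Finset.sum_div]
    exact Finset.sum_congr rfl fun i _ => by rw [TT, mul_div_assoc]
  rw [h1, div_le_one h0]
  exact ht

theorem large_a {c : ℝ} (h : BetaB c) (P n : ℕ) (p : Fin n → ℝ) (f : Fin n → ℕ) (j : Fin n → ℤ)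
    (hP : 2 ^ 400 ≤ P) (hnn : ∀ i, 0 ≤ p i) (hsum : ∑ i, p i = 1) (hle : ∀ i, 2 ^ f i ≤ P)
    (ht : ∑ i, p i * (4 / 5 : ℝ) ^ f i ≤ (13 / 15 : ℝ) ^ Real.logb 3 P)
    (hV : VarHyp P p f (fun i => (j i : ℝ) - f i / 2))
    (hm : |∑ i, p i * ((j i : ℝ) - f i / 2)| ≤ wL P - 1 / 2) :
    ∑ i, p i * PsA (f i) (j i) ≤ 0 := by
  obtain ⟨L, hL⟩ : ∃ L : ℝ, L = Real.logb 2 P := ⟨_, rfl⟩
  have hL4 : 400 ≤ L := by rw [hL]; exact logb_ge hP
  have hLpos : 0 < L := by linarith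
  obtain ⟨s, hs⟩ : ∃ s : ℝ, s = √L := ⟨_, rfl⟩
  have hspos : 0 < s := by rw [hs]; exact Real.sqrt_pos.mpr hLpos
  have hss : s * s = L := by rw [hs]; exact Real.mul_self_sqrt hLpos.le
  have hc := h.pos
  have hT := sum_TT_le P p f ht
  have key : (∑ i, p i * PsA (f i) (j i)) * (L * s) / (4 * c) ≤
      37 / 2 * ((∑ i, p i * ((j i : ℝ) - f i / 2) ^ 2) / L - 1 / 10 +
        3 / 40 * ((∑ i, p i * (f i : ℝ)) / L)) -
      (1 / 40 + 37 / 2 * (13 / 80 - 1 / (2 * s)) ^ 2) + 1 / 40 * ∑ i, p i * TT P (f i) := by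
    have h1 : ∀ i ∈ (Finset.univ : Finset (Fin n)), p i * (PsA (f i) (j i) * (L * s) / (4 * c)) ≤
        p i * (37 / 2 * (((j i : ℝ) - f i / 2) ^ 2 / L - 1 / 10 + 3 / 40 * ((f i : ℝ) / L)) -
      (1 / 40 + 37 / 2 * (13 / 80 - 1 / (2 * s)) ^ 2) + 1 / 40 * TT P (f i)) := by
      intro i _
      refine mul_le_mul_of_nonneg_left ?_ (hnn i)
      have := ptA h hP (f i) (hle i) (j i) L ((j i : ℝ) - f i / 2) hL rfl
      rw [← hs] at this
      exact this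
    have h2 := Finset.sum_le_sum h1
    have e1 : ∑ i, p i * (PsA (f i) (j i) * (L * s) / (4 * c)) =
        (∑ i, p i * PsA (f i) (j i)) * (L * s) / (4 * c) := by
      rw [Finset.sum_mul, Finset.sum_div]
      exact Finset.sum_congr rfl fun i _ => by ring
    have e2 : ∑ i, p i * (37 / 2 * (((j i : ℝ) - f i / 2) ^ 2 / L - 1 / 10 +
          3 / 40 * ((f i : ℝ) / L)) -
        (1 / 40 + 37 / 2 * (13 / 80 - 1 / (2 * s)) ^ 2) + 1 / 40 * TT P (f i)) =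
        37 / 2 * ((∑ i, p i * ((j i : ℝ) - f i / 2) ^ 2) / L - 1 / 10 * ∑ i, p i +
        3 / 40 * ((∑ i, p i * (f i : ℝ)) / L)) -
      (1 / 40 + 37 / 2 * (13 / 80 - 1 / (2 * s)) ^ 2) * ∑ i, p i +
        1 / 40 * ∑ i, p i * TT P (f i) := by
      simp only [Finset.mul_sum, Finset.sum_div, ← Finset.sum_add_distrib, ← Finset.sum_sub_distrib]
      exact Finset.sum_congr rfl fun i _ => by ring
    rw [e1, e2, hsum, mul_one, mul_one] at h2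
    exact h2
  have hV' : ∑ i, p i * ((j i : ℝ) - f i / 2) ^ 2 ≤ (∑ i, p i * ((j i : ℝ) - f i / 2)) ^ 2 +
      (1 / 10 * L - 3 / 40 * ∑ i, p i * (f i : ℝ)) := by
    have e3 : ∑ i, p i * (k1 * (Real.logb 2 P - f i) + k2 * f i) =
        1 / 10 * L * ∑ i, p i - 3 / 40 * ∑ i, p i * (f i : ℝ) := by
      rw [← hL]
      simp only [k1, k2, Finset.mul_sum, ← Finset.sum_sub_distrib]
      exact Finset.sum_congr rfl fun i _ => by ring
    have := hV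
    unfold VarHyp at this
    rw [e3, hsum, mul_one] at this
    exact this
  obtain ⟨A2, hA2⟩ : ∃ x : ℝ, x = ∑ i, p i * ((j i : ℝ) - f i / 2) ^ 2 := ⟨_, rfl⟩
  obtain ⟨A1, hA1⟩ : ∃ x : ℝ, x = ∑ i, p i * ((j i : ℝ) - f i / 2) := ⟨_, rfl⟩
  obtain ⟨F, hF⟩ : ∃ x : ℝ, x = ∑ i, p i * (f i : ℝ) := ⟨_, rfl⟩
  rw [← hA2, ← hF] at key
  rw [← hA2, ← hA1, ← hF] at hV'
  rw [← hA1] at hm
  have hw : wL P = 13 / 80 * s := by rw [wL, ← hL, ← hs]
  rw [hw] at hm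
  -- divide the variance bound by `L`
  have h3 : A2 / L - 1 / 10 + 3 / 40 * (F / L) ≤ A1 ^ 2 / L := by
    have : A2 / L ≤ (A1 ^ 2 + (1 / 10 * L - 3 / 40 * F)) / L :=
      div_le_div_of_nonneg_right hV' hLpos.le
    have e : (A1 ^ 2 + (1 / 10 * L - 3 / 40 * F)) / L = A1 ^ 2 / L + 1 / 10 - 3 / 40 * (F / L) := by
      field_simp
      ring
    rw [e] at this
    linarith
  have h4 : A1 ^ 2 / L ≤ (13 / 80 - 1 / (2 * s)) ^ 2 := by
    have e : (13 / 80 - 1 / (2 * s)) ^ 2 = (13 / 80 * s - 1 / 2) ^ 2 / L := by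
      rw [← hss]
      field_simp
    rw [e]
    refine div_le_div_of_nonneg_right ?_ hLpos.le
    rw [← sq_abs A1]
    exact pow_le_pow_left₀ (abs_nonneg _) hm 2
  have h5 : (∑ i, p i * PsA (f i) (j i)) * (L * s) / (4 * c) ≤ 0 := by
    linarith
  by_contra hcon
  push Not at hcon
  have : 0 < (∑ i, p i * PsA (f i) (j i)) * (L * s) / (4 * c) := by positivity
  linarith

theorem dmax_le {P : ℕ} (hP : 2 ^ 400 ≤ P) : dmax P ≤ 179 / 400 * √(Real.logb 2 P) := by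
  have hL4 : 400 ≤ Real.logb 2 P := logb_ge hP
  have hP0 : (0 : ℝ) < P := by
    have : 0 < P := lt_of_lt_of_le (by positivity) hP
    exact_mod_cast this
  have h1 : Real.logb 2 (2 * P / 3) ≤ Real.logb 2 P :=
    (Real.logb_le_logb (by norm_num) (by positivity) hP0).mpr (by linarith)
  have h2 : √(11 / 40 * Real.logb 2 (2 * P / 3)) ≤ 53 / 100 * √(Real.logb 2 P) := by
    have : √(11 / 40 * Real.logb 2 (2 * P / 3)) ≤ √((53 / 100) ^ 2 * Real.logb 2 P) :=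
      Real.sqrt_le_sqrt (by nlinarith)
    have e : √((53 / 100 : ℝ) ^ 2 * Real.logb 2 P) = 53 / 100 * √(Real.logb 2 P) := by
      rw [Real.sqrt_mul (by positivity), Real.sqrt_sq (by norm_num)]
    rwa [e] at this
  have h3 : 20 ≤ √(Real.logb 2 P) := Real.le_sqrt_of_sq_le (by linarith)
  unfold dmax
  linarith

theorem large_b {c : ℝ} (h : BetaB c) (P n : ℕ) (p : Fin n → ℝ) (f : Fin n → ℕ) (j : Fin n → ℤ)
    (hP : 2 ^ 400 ≤ P) (hnn : ∀ i, 0 ≤ p i) (hsum : ∑ i, p i = 1) (hle : ∀ i, 2 ^ f i ≤ P)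
    (ht : ∑ i, p i * (4 / 5 : ℝ) ^ f i ≤ (13 / 15 : ℝ) ^ Real.logb 3 P)
    (hV : VarHyp P p f (fun i => (j i : ℝ) + 1 / 2 - f i / 2))
    (hm1 : wL P ≤ ∑ i, p i * ((j i : ℝ) + 1 / 2 - f i / 2))
    (hm2 : ∑ i, p i * ((j i : ℝ) + 1 / 2 - f i / 2) ≤ wL P + dmax P) :
    0 ≤ ∑ i, p i * PsB (f i) (j i) := by
  obtain ⟨L, hL⟩ : ∃ L : ℝ, L = Real.logb 2 P := ⟨_, rfl⟩
  have hL4 : 400 ≤ L := by rw [hL]; exact logb_ge hP
  have hLpos : 0 < L := by linarith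
  obtain ⟨s, hs⟩ : ∃ s : ℝ, s = √L := ⟨_, rfl⟩
  have hspos : 0 < s := by rw [hs]; exact Real.sqrt_pos.mpr hLpos
  have hss : s * s = L := by rw [hs]; exact Real.mul_self_sqrt hLpos.le
  have hc := h.pos
  have hT := sum_TT_le P p f ht
  have key : -(17 / 5) * ((∑ i, p i * ((j i : ℝ) + 1 / 2 - f i / 2) ^ 2) / L -
        (13 / 80 + 61 / 100) * ((∑ i, p i * ((j i : ℝ) + 1 / 2 - f i / 2)) / s) +
        13 / 80 * (61 / 100)) +
      17 / 5 * (1 / 10 - 3 / 40 * ((∑ i, p i * (f i : ℝ)) / L)) +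
      1 / 250 * (1 - ∑ i, p i * TT P (f i)) ≤ (∑ i, p i * PsB (f i) (j i)) * L / (4 * c) := by
    have h1 : ∀ i ∈ (Finset.univ : Finset (Fin n)),
        p i * (-(17 / 5) * (((j i : ℝ) + 1 / 2 - f i / 2) / s - 13 / 80) *
          (((j i : ℝ) + 1 / 2 - f i / 2) / s - 61 / 100) +
          17 / 5 * (1 / 10 - 3 / 40 * ((f i : ℝ) / L)) +
          1 / 250 * (1 - TT P (f i))) ≤ p i * (PsB (f i) (j i) * L / (4 * c)) := by
      intro i _
      refine mul_le_mul_of_nonneg_left ?_ (hnn i)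
      have := ptB h hP (f i) (hle i) (j i) L ((j i : ℝ) + 1 / 2 - f i / 2) hL rfl
      rw [← hs] at this
      exact this
    have h2 := Finset.sum_le_sum h1
    have e1 : ∑ i, p i * (PsB (f i) (j i) * L / (4 * c)) =
        (∑ i, p i * PsB (f i) (j i)) * L / (4 * c) := by
      rw [Finset.sum_mul, Finset.sum_div]
      exact Finset.sum_congr rfl fun i _ => by ring
    have e2 : ∑ i, p i * (-(17 / 5) * (((j i : ℝ) + 1 / 2 - f i / 2) / s - 13 / 80) *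
          (((j i : ℝ) + 1 / 2 - f i / 2) / s - 61 / 100) +
          17 / 5 * (1 / 10 - 3 / 40 * ((f i : ℝ) / L)) +
          1 / 250 * (1 - TT P (f i))) =
        -(17 / 5) * ((∑ i, p i * ((j i : ℝ) + 1 / 2 - f i / 2) ^ 2) / L -
        (13 / 80 + 61 / 100) * ((∑ i, p i * ((j i : ℝ) + 1 / 2 - f i / 2)) / s) +
        13 / 80 * (61 / 100) * ∑ i, p i) +
      17 / 5 * (1 / 10 * ∑ i, p i - 3 / 40 * ((∑ i, p i * (f i : ℝ)) / L)) +
      1 / 250 * (∑ i, p i - ∑ i, p i * TT P (f i)) := by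
      simp only [Finset.mul_sum, Finset.sum_div, ← Finset.sum_add_distrib, ← Finset.sum_sub_distrib]
      refine Finset.sum_congr rfl fun i _ => ?_
      rw [← hss]
      field_simp
      ring
    rw [e1, e2, hsum, mul_one, mul_one] at h2
    exact h2
  have hV' : ∑ i, p i * ((j i : ℝ) + 1 / 2 - f i / 2) ^ 2 ≤
      (∑ i, p i * ((j i : ℝ) + 1 / 2 - f i / 2)) ^ 2 +
      (1 / 10 * L - 3 / 40 * ∑ i, p i * (f i : ℝ)) := by
    have e3 : ∑ i, p i * (k1 * (Real.logb 2 P - f i) + k2 * f i) =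
        1 / 10 * L * ∑ i, p i - 3 / 40 * ∑ i, p i * (f i : ℝ) := by
      rw [← hL]
      simp only [k1, k2, Finset.mul_sum, ← Finset.sum_sub_distrib]
      exact Finset.sum_congr rfl fun i _ => by ring
    have := hV
    unfold VarHyp at this
    rw [e3, hsum, mul_one] at this
    exact this
  have hd := dmax_le hP
  obtain ⟨A2, hA2⟩ : ∃ x : ℝ, x = ∑ i, p i * ((j i : ℝ) + 1 / 2 - f i / 2) ^ 2 := ⟨_, rfl⟩
  obtain ⟨A1, hA1⟩ : ∃ x : ℝ, x = ∑ i, p i * ((j i : ℝ) + 1 / 2 - f i / 2) := ⟨_, rfl⟩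
  obtain ⟨F, hF⟩ : ∃ x : ℝ, x = ∑ i, p i * (f i : ℝ) := ⟨_, rfl⟩
  rw [← hA2, ← hA1, ← hF] at key
  rw [← hA2, ← hA1, ← hF] at hV'
  rw [← hA1] at hm1 hm2
  have hw : wL P = 13 / 80 * s := by rw [wL, ← hL, ← hs]
  rw [hw] at hm1 hm2
  rw [← hL, ← hs] at hd
  have h3 : A2 / L - 1 / 10 + 3 / 40 * (F / L) ≤ A1 ^ 2 / L := by
    have : A2 / L ≤ (A1 ^ 2 + (1 / 10 * L - 3 / 40 * F)) / L :=
      div_le_div_of_nonneg_right hV' hLpos.le
    have e : (A1 ^ 2 + (1 / 10 * L - 3 / 40 * F)) / L = A1 ^ 2 / L + 1 / 10 - 3 / 40 * (F / L) := by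
      field_simp
      ring
    rw [e] at this
    linarith
  have h4 : 13 / 80 ≤ A1 / s := by
    rw [le_div_iff₀ hspos]
    exact hm1
  have h5 : A1 / s ≤ 61 / 100 := by
    rw [div_le_iff₀ hspos]
    linarith
  have h6 : A1 ^ 2 / L = (A1 / s) ^ 2 := by
    rw [← hss]
    field_simp
  have h7 : 0 ≤ (A1 / s - 13 / 80) * (61 / 100 - A1 / s) :=
    mul_nonneg (by linarith) (by linarith)
  have h8 : 0 ≤ (∑ i, p i * PsB (f i) (j i)) * L / (4 * c) := by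
    rw [h6] at h3
    nlinarith
  by_contra hcon
  push Not at hcon
  have : 0 < (-∑ i, p i * PsB (f i) (j i)) * L / (4 * c) := by
    have : 0 < -∑ i, p i * PsB (f i) (j i) := by linarith
    positivity
  have e : (-∑ i, p i * PsB (f i) (j i)) * L / (4 * c) =
      -((∑ i, p i * PsB (f i) (j i)) * L / (4 * c)) := by ring
  rw [e] at this
  linarith

end Pool.Agent.UniM
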