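import Pool.Agent.UniM.P3Stmt
import Pool.Agent.UniM.P3Fin
import Pool.Agent.UniM.P3LFin

/-!
# UniM / P3: part P3 (certificates for `P ≤ Pmax ≈ 2 ^ 413`, analysis for large `P`)
-/

set_option autoImplicit false

namespace Pool.Agent.UniM

/-- the window function -/
noncomputable def wP3 (P : ℕ) : ℝ := if P ≤ Pmax then (wOf tab P : ℝ) / 1000 else wL P

theorem Pmax_ge : 2 ^ 413 ≤ Pmax := by decide +kernel

theorem three_le_Pmax : 3 ≤ Pmax := by decide +kernel

theorem wOf_Pmax : wOf tab Pmax = 3280 := by decide +kernel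

theorem wL_ge {P : ℕ} (h : Pmax < P) : 3280 / 1000 ≤ wL P := by
  have h1 : (2 : ℝ) ^ 413 ≤ P := by exact_mod_cast Pmax_ge.trans h.le
  have h2 : 413 ≤ Real.logb 2 P := by
    rw [Real.le_logb_iff_rpow_le (by norm_num) (lt_of_lt_of_le (by positivity) h1)]
    have e : ((2 : ℝ) ^ (413 : ℝ)) = 2 ^ 413 := by
      rw [← Real.rpow_natCast]
      norm_num
    rw [e]
    exact h1
  have h3 : 203 / 10 ≤ √(Real.logb 2 P) := Real.le_sqrt_of_sq_le (by linarith)
  unfold wL
  linarith

theorem big_of {P : ℕ} (h : Pmax < P) : 2 ^ 400 ≤ P :=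
  (Nat.pow_le_pow_right (by norm_num) (by norm_num)).trans (Pmax_ge.trans h.le)

theorem wP3_mono : Monotone wP3 := by
  intro P Q hPQ
  unfold wP3
  split_ifs with h1 h2 h2
  · have := wOf_mono tab 2 0 tab_chain P Q hPQ h2
    have h3 : (wOf tab P : ℝ) ≤ wOf tab Q := by exact_mod_cast this
    linarith
  · have h3 := wOf_mono tab 2 0 tab_chain P Pmax h1 le_rfl
    rw [wOf_Pmax] at h3
    have h4 : (wOf tab P : ℝ) ≤ 3280 := by exact_mod_cast h3
    have h5 := wL_ge (not_le.1 h2)
    linarith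
  · exact absurd (hPQ.trans h2) h1
  · have h3 := not_le.1 h1
    have h4 := three_le_Pmax
    exact wL_mono (by omega) hPQ

theorem wP3_nonneg (P : ℕ) : 0 ≤ wP3 P := by
  unfold wP3 wL
  split_ifs <;> positivity

theorem p3_exists : ∃ w : ℕ → ℝ, P3Holds w := by
  refine ⟨wP3, wP3_mono, wP3_nonneg, ?_, ?_⟩
  · intro P n p f j hP L hV hm
    by_cases h : P ≤ Pmax
    · rw [wP3, if_pos h] at hm
      exact fin_a hP h L j _ hV hm
    · rw [wP3, if_neg h] at hm
      refine large_a betaB P n p f j (big_of (not_le.1 h)) (fun i => L.nn i (Finset.mem_univ i))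
        L.sum (fun i => L.le i (Finset.mem_univ i)) ?_ hV hm
      have := L.tail (4 / 5) (by norm_num) (by norm_num)
      have e : ((1 + 2 * (4 / 5 : ℝ)) / 3) = 13 / 15 := by norm_num
      rw [e] at this
      exact this
  · intro P n p f j hP L hV hm1 hm2
    by_cases h : P ≤ Pmax
    · rw [wP3, if_pos h] at hm1 hm2
      exact fin_b hP h L j _ rfl hV hm1 hm2
    · rw [wP3, if_neg h] at hm1 hm2
      refine large_b betaB P n p f j (big_of (not_le.1 h)) (fun i => L.nn i (Finset.mem_univ i))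
        L.sum (fun i => L.le i (Finset.mem_univ i)) ?_ hV hm1 hm2
      have := L.tail (4 / 5) (by norm_num) (by norm_num)
      have e : ((1 + 2 * (4 / 5 : ℝ)) / 3) = 13 / 15 := by norm_num
      rw [e] at this
      exact this

end Pool.Agent.UniM
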