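import Pool.Agent.UniM.Use
import Pool.Agent.UniM.Delta
import Pool.Agent.UniM.GoodE
import Pool.Agent.UniM.GoodStep
import Pool.Agent.UniM.GoodUni
import Pool.Agent.UniM.ForestT
import Pool.Agent.UniM.P2
import Pool.Agent.UniM.P3
import Pool.Prelude.Def_F_f5f3026a

/-!
# UniM / Final: assembly
-/

namespace Pool.Agent.UniM

variable {V : Type*} [DecidableEq V] {G : SimpleGraph V}

theorem T_all (hG : G.IsAcyclic) (U : Finset V) : TIneq G U := by
  obtain ⟨X, hX, h2⟩ := p2_exists
  obtain ⟨L, hL⟩ := flist_exists hG U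
  exact forest_T hX h2 hL

theorem good_all (hG : G.IsAcyclic) {w : ℕ → ℝ} (hw : P3Holds w) :
    ∀ (n : ℕ) (U : Finset V), U.card = n → Good G w U := by
  intro n
  induction n using Nat.strong_induction_on with
  | _ n ih =>
    intro U hn
    by_cases he : ∃ a ∈ U, ∃ b ∈ U, G.Adj a b
    · obtain ⟨v, hv, u, hu, hvu, huniq⟩ := exists_leaf_edge hG he
      have hdel : (del G U v).card ≤ (U.erase v).card := by
        apply Finset.card_le_card
        intro x hx
        obtain ⟨h1, h2, -⟩ := mem_del.1 hx
        exact Finset.mem_erase.2 ⟨h2, h1⟩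
      have hlt : (U.erase v).card < n := by
        rw [← hn]
        exact Finset.card_erase_lt_of_mem hv
      have h1 := ih _ hlt (U.erase v) rfl
      have h2 := ih _ (lt_of_le_of_lt hdel hlt) (del G U v) rfl
      have h3 : 3 ≤ PP G U := three_le_PP hv hu hvu.ne
      obtain ⟨m, p, s, f, hlaw⟩ := coinLaw_exists hG (T_all hG U)
      exact good_step hw.mono hw.nn hv h1 h2 (leaf_half hv hu hvu huniq)
        (delta_le hv hu hvu huniq (va_le hG (T_all hG (U.erase v))))
        (fun k hk hk' => use_b hw hlaw h3 hk hk') (fun k hk hk' => use_b' hw hlaw h3 hk hk')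
    · push Not at he
      exact good_edgeless hw.nn he

theorem unimodal_all (hG : G.IsAcyclic) (U : Finset V) :
    ∃ m, (∀ i, i < m → ik G U i ≤ ik G U (i + 1)) ∧
      ∀ i, m ≤ i → ik G U (i + 1) ≤ ik G U i := by
  obtain ⟨w, hw⟩ := p3_exists
  have hgood := good_all hG hw U.card U rfl
  by_cases h3 : 3 ≤ PP G U
  · obtain ⟨n, p, s, f, hlaw⟩ := coinLaw_exists hG (T_all hG U)
    exact unimodal_of_good hgood (fun k hk => use_a hw hlaw h3 hk)
  · -- `PP = 1 + card + ...`, so `U` has at most one vertex
    have hc : U.card ≤ 1 := by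
      by_contra hlt
      obtain ⟨a, ha, b, hb, hab⟩ := Finset.one_lt_card.1 (not_le.1 hlt)
      exact h3 (three_le_PP ha hb hab)
    refine ⟨0, fun i hi => absurd hi (Nat.not_lt_zero i), fun i _ => ?_⟩
    rcases Nat.eq_zero_or_pos i with rfl | hi
    · rw [ik_zero]
      have h1 : ∀ x ∈ U, ∀ y ∈ U, ¬ G.Adj x y := by
        intro x hx y hy hxy
        have := Finset.card_le_one.1 hc x hx y hy
        exact hxy.ne this
      rw [ik_edgeless h1, zero_add, Nat.choose_one_right]
      exact hc
    · rw [ik_large (by omega : U.card < i + 1)]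
      exact Nat.zero_le _

theorem ik_univ {V : Type*} [Fintype V] [DecidableEq V] (G : SimpleGraph V) (k : ℕ) :
    N36365310.indepSeq G k = ik G Finset.univ k := by
  classical
  unfold N36365310.indepSeq ik
  rw [Nat.card_eq_fintype_card, Fintype.card_subtype]
  congr 1
  ext s
  simp only [Finset.mem_filter, Finset.mem_univ, true_and, mem_ind, Finset.subset_univ]
  exact and_comm

theorem unimodal_forest : ∀ (V : Type) [Fintype V] (G : SimpleGraph V), G.IsAcyclic →
    N36365310.UnimodalSeq (N36365310.indepSeq G) := by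
  intro V _ G hG
  classical
  obtain ⟨m, h1, h2⟩ := unimodal_all hG (Finset.univ : Finset V)
  refine ⟨m, ?_, ?_⟩
  · intro i hi
    rw [ik_univ, ik_univ]
    exact h1 i hi
  · intro i hi
    rw [ik_univ, ik_univ]
    exact h2 i hi

end Pool.Agent.UniM
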