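import Mathlib

/-!
# UniM / BT: rooted trees and their recursive data

`leaf` is a single root; `join a b` is the tree `a` with the root of `b` attached as a new child of the
root of `a`. `R t` is the ratio (number of independent sets with the root) / (number without the root);
`lo` is the logarithm of the number of independent sets without the root; `mo`, `mi` are the means of the
size without / with the root in the set, `vo`, `vi` the variances; `bo`, `bi` the means of the total weight
of the non-root vertices, where a vertex with complete subtree `s` has weight `X s`. `mt`, `vt`, `bt` are the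
values for the whole tree.
-/

namespace Pool.Agent.UniM

/-- rooted trees -/
inductive BT : Type
  | leaf : BT
  | join : BT → BT → BT

namespace BT

/-- `c` is a child of the root of `t` -/
def IsChild (c : BT) : BT → Prop
  | leaf => False
  | join a b => c = b ∨ IsChild c a

/-- ratio of the root -/
noncomputable def R : BT → ℝ
  | leaf => 1
  | join a b => R a / (1 + R b)

/-- probability of the root -/
noncomputable def q (t : BT) : ℝ := R t / (1 + R t)

/-- logarithm of the number of independent sets without the root -/
noncomputable def lo : BT → ℝ
  | leaf => 0
  | join a b => lo a + (lo b + Real.log (1 + R b))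

/-- means of the size: (without the root, with the root) -/
noncomputable def mm : BT → ℝ × ℝ
  | leaf => (0, 1)
  | join a b => ((mm a).1 + ((1 - q b) * (mm b).1 + q b * (mm b).2), (mm a).2 + (mm b).1)

/-- mean of the size -/
noncomputable def mt (t : BT) : ℝ := (1 - q t) * (mm t).1 + q t * (mm t).2

/-- variances of the size: (without the root, with the root) -/
noncomputable def vv : BT → ℝ × ℝ
  | leaf => (0, 0)
  | join a b => ((vv a).1 + ((1 - q b) * (vv b).1 + q b * (vv b).2 +
      q b * (1 - q b) * ((mm b).2 - (mm b).1) ^ 2), (vv a).2 + (vv b).1)

/-- variance of the size -/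
noncomputable def vt (t : BT) : ℝ :=
  (1 - q t) * (vv t).1 + q t * (vv t).2 + q t * (1 - q t) * ((mm t).2 - (mm t).1) ^ 2

/-- means of the weight of the non-root vertices: (without the root, with the root) -/
noncomputable def bb (X : BT → ℝ) : BT → ℝ × ℝ
  | leaf => (0, 0)
  | join a b => ((bb X a).1 + ((1 - q b) * (bb X b).1 + q b * ((bb X b).2 + X b)),
      (bb X a).2 + (bb X b).1)

/-- mean of the weight -/
noncomputable def bt (X : BT → ℝ) (t : BT) : ℝ :=
  (1 - q t) * (bb X t).1 + q t * ((bb X t).2 + X t)

theorem R_pos (t : BT) : 0 < R t := by
  induction t with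
  | leaf => exact one_pos
  | join a b ha hb => exact div_pos ha (by linarith)

theorem R_le_one (t : BT) : R t ≤ 1 := by
  induction t with
  | leaf => exact le_rfl
  | join a b ha hb =>
    have h1 := R_pos b
    have h2 := R_pos a
    show R a / (1 + R b) ≤ 1
    rw [div_le_one (by linarith)]
    linarith

theorem vt_join (a b : BT) : (vv (join a b)).1 = (vv a).1 + vt b := rfl

theorem mt_join (a b : BT) : (mm (join a b)).1 = (mm a).1 + mt b := rfl

theorem bt_join (X : BT → ℝ) (a b : BT) : (bb X (join a b)).1 = (bb X a).1 + bt X b := rfl

end BT

/-- admissible weights of rooted trees -/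
structure AdmX (X : BT → ℝ) : Prop where
  nn : ∀ t, 0 ≤ X t
  le : ∀ t, X t ≤ 1
  child : ∀ t c, BT.IsChild c t → X t + X c ≤ 1

end Pool.Agent.UniM
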