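import Pool.Agent.UniM.BTWhole

/-!
# UniM / BTData: the recursive data are the data of the graph

`rtree_data`: induction on `RTree`, constructing `x`. For `single r`: `U.erase r = del G U r = ∅` (`PP_empty`,
`SS_empty`). For `join` of `(U, r, a, x₁)` and `(U', c, b, x₂)`: `x v = x₁ v` for `v ∈ U`, `x c = X b`,
`x v = x₂ v` otherwise. Then `(U ∪ U').erase r = (U.erase r) ∪ U'` and
`del G (U ∪ U') r = (del G U r) ∪ (U'.erase c)`, disjoint unions without edges in between (the only edge
between `U` and `U'` is `r c`), so `PP_union`, `mu_union`, `va_union`, `bs_union` apply; the data of `U'` are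
`whole_*` (with `x' = x` on `U'`), those of `U'.erase c` are fields of the `TData` of `U'`; `bs_congr`.
`fr`: `whole_frac` for `U'`, `fr` for `U`, no edges in between. `ch`: a neighbour `y` of `r` is in `U` (field
`ch` of `a`; `IsChild c (join a b)` if `IsChild c a`) or equal to `c` (`IsChild b (join a b)`).
-/

namespace Pool.Agent.UniM

variable {V : Type*} [DecidableEq V] {G : SimpleGraph V}

private theorem btd_empty_mu : mu G ∅ = 0 := by
  unfold mu
  rw [SS_empty]
  simp

private theorem btd_empty_va : va G ∅ = 0 := by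
  unfold va
  rw [SS_empty, btd_empty_mu]
  simp

private theorem btd_empty_bs (x : V → ℝ) : bs G ∅ x = 0 := by
  unfold bs
  rw [ind_empty]
  simp

private theorem btd_single (X : BT → ℝ) (r : V) : TData G {r} r BT.leaf X (fun _ => 0) := by
  have h1 : ({r} : Finset V).erase r = ∅ := by
    ext y
    simp
  have h2 : del G {r} r = ∅ := by
    ext y
    rw [mem_del]
    constructor
    · rintro ⟨h, h', -⟩
      exact absurd (Finset.mem_singleton.1 h) h'
    · intro h
      simp at h
  refine ⟨?_, ?_, ?_, ?_, ?_, ?_, ?_, ?_, ?_, ?_⟩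
  · rw [h1, PP_empty]
    simp [BT.lo]
  · rw [h1, h2, PP_empty]
    simp [BT.R]
  · rw [h1, btd_empty_mu]
    simp [BT.mm]
  · rw [h2, btd_empty_mu]
    simp [BT.mm]
  · rw [h1, btd_empty_va]
    simp [BT.vv]
  · rw [h2, btd_empty_va]
    simp [BT.vv]
  · rw [h1, btd_empty_bs]
    simp [BT.bb]
  · rw [h2, btd_empty_bs]
    simp [BT.bb]
  · rw [h1]
    refine ⟨?_, ?_, ?_⟩
    · intro v hv
      simp at hv
    · intro v hv
      simp at hv
    · intro v hv
      simp at hv
  · intro y hy hry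
    rw [Finset.mem_singleton.1 hy] at hry
    exact absurd hry (G.loopless.irrefl r)

private theorem btd_erase {U U' : Finset V} {r : V} (hd : Disjoint U U') (hr : r ∈ U) :
    (U ∪ U').erase r = (U.erase r) ∪ U' := by
  have hr' : r ∉ U' := Finset.disjoint_left.1 hd hr
  ext y
  rw [Finset.mem_erase, Finset.mem_union, Finset.mem_union, Finset.mem_erase]
  constructor
  · rintro ⟨h1, h2 | h2⟩
    · exact Or.inl ⟨h1, h2⟩
    · exact Or.inr h2
  · rintro (⟨h1, h2⟩ | h2)
    · exact ⟨h1, Or.inl h2⟩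
    · refine ⟨?_, Or.inr h2⟩
      rintro rfl
      exact hr' h2

private theorem btd_del {U U' : Finset V} {r c : V} (hd : Disjoint U U') (hr : r ∈ U)
    (hrc : G.Adj r c) (he : ∀ x ∈ U, ∀ y ∈ U', G.Adj x y → x = r ∧ y = c) :
    del G (U ∪ U') r = del G U r ∪ U'.erase c := by
  have hr' : r ∉ U' := Finset.disjoint_left.1 hd hr
  ext y
  rw [mem_del, Finset.mem_union, Finset.mem_union, Finset.mem_erase, mem_del]
  constructor
  · rintro ⟨h1 | h1, h2, h3⟩
    · exact Or.inl ⟨h1, h2, h3⟩
    · refine Or.inr ⟨?_, h1⟩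
      rintro rfl
      exact h3 hrc
  · rintro (⟨h1, h2, h3⟩ | ⟨h1, h2⟩)
    · exact ⟨Or.inl h1, h2, h3⟩
    · refine ⟨Or.inr h2, ?_, ?_⟩
      · rintro rfl
        exact hr' h2
      · intro h
        exact h1 (he r hr y h2 h).2

private theorem btd_join {X : BT → ℝ} (hX : AdmX X) {U U' : Finset V} {r c : V} {a b : BT}
    (hr : r ∈ U) (hc : c ∈ U') (hd : Disjoint U U') (hrc : G.Adj r c)
    (he : ∀ x ∈ U, ∀ y ∈ U', G.Adj x y → x = r ∧ y = c) {x₁ x₂ : V → ℝ}
    (h₁ : TData G U r a X x₁) (h₂ : TData G U' c b X x₂) :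
    ∃ x : V → ℝ, TData G (U ∪ U') r (BT.join a b) X x := by
  classical
  obtain ⟨x, hxU, hxc, hxU'⟩ : ∃ x : V → ℝ, (∀ v ∈ U, x v = x₁ v) ∧ x c = X b ∧
      (∀ v ∈ U', v ≠ c → x v = x₂ v) := by
    refine ⟨fun v => if v ∈ U then x₁ v else if v = c then X b else x₂ v, ?_, ?_, ?_⟩
    · intro v hv
      simp only [hv, if_true]
    · have h : c ∉ U := Finset.disjoint_right.1 hd hc
      simp only [h, if_false, if_true]
    · intro v hv hvc
      have h : v ∉ U := Finset.disjoint_right.1 hd hv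
      simp only [h, hvc, if_false]
  have hE := btd_erase hd hr
  have hD := btd_del hd hr hrc he
  -- disjointness and no edges
  have hd1 : Disjoint (U.erase r) U' := Finset.disjoint_of_subset_left (Finset.erase_subset r U) hd
  have hn1 : NoEdge G (U.erase r) U' := by
    intro u hu y hy h
    exact (Finset.mem_erase.1 hu).1 (he u (Finset.mem_erase.1 hu).2 y hy h).1
  have hd2 : Disjoint (del G U r) (U'.erase c) :=
    Finset.disjoint_of_subset_left del_subset
      (Finset.disjoint_of_subset_right (Finset.erase_subset c U') hd)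
  have hn2 : NoEdge G (del G U r) (U'.erase c) := by
    intro u hu y hy h
    exact (Finset.mem_erase.1 hy).1 (he u (del_subset hu) y (Finset.mem_erase.1 hy).2 h).2
  have hP1 : (0:ℝ) < PP G (U.erase r) := by exact_mod_cast PP_pos (G := G) (U.erase r)
  have hP2 : (0:ℝ) < PP G U' := by exact_mod_cast PP_pos (G := G) U'
  have hwf : Frac G U' x := whole_frac hX hc h₂ hxU' hxc
  have hb1 : bs G (U.erase r) x = bs G (U.erase r) x₁ :=
    bs_congr (fun v hv => hxU v (Finset.mem_erase.1 hv).2)
  have hb2 : bs G (del G U r) x = bs G (del G U r) x₁ :=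
    bs_congr (fun v hv => hxU v (del_subset hv))
  have hb3 : bs G (U'.erase c) x = bs G (U'.erase c) x₂ :=
    bs_congr (fun v hv => hxU' v (Finset.mem_erase.1 hv).2 (Finset.mem_erase.1 hv).1)
  refine ⟨x, ⟨?_, ?_, ?_, ?_, ?_, ?_, ?_, ?_, ?_, ?_⟩⟩
  · rw [hE, PP_union hd1 hn1]
    push_cast
    rw [Real.log_mul hP1.ne' hP2.ne', h₁.lo, whole_PP hc h₂]
    rfl
  · rw [hE, hD, PP_union hd1 hn1, PP_union hd2 hn2, PP_rec hc]
    push_cast
    rw [h₁.R, h₂.R]
    have hR := BT.R_pos b
    have : (BT.join a b).R = a.R / (1 + b.R) := rfl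
    rw [this]
    field_simp
  · rw [hE, mu_union hd1 hn1, h₁.mo, whole_mu hc h₂]
    rfl
  · rw [hD, mu_union hd2 hn2, h₂.mo]
    have h := h₁.mi
    have : (BT.join a b).mm.2 = a.mm.2 + b.mm.1 := rfl
    rw [this, ← h]
    ring
  · rw [hE, va_union hd1 hn1, h₁.vo, whole_va hc h₂]
    rfl
  · rw [hD, va_union hd2 hn2, h₁.vi, h₂.vo]
    rfl
  · rw [hE, bs_union hd1 hn1, hb1, h₁.bo, whole_bs hc h₂ hxU' hxc]
    rfl
  · rw [hD, bs_union hd2 hn2, hb2, hb3, h₁.bi, h₂.bo]
    rfl
  · rw [hE]
    refine ⟨?_, ?_, ?_⟩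
    · intro v hv
      rcases Finset.mem_union.1 hv with hv | hv
      · rw [hxU v (Finset.mem_erase.1 hv).2]
        exact h₁.fr.nn v hv
      · exact hwf.nn v hv
    · intro v hv
      rcases Finset.mem_union.1 hv with hv | hv
      · rw [hxU v (Finset.mem_erase.1 hv).2]
        exact h₁.fr.le v hv
      · exact hwf.le v hv
    · intro u hu v hv huv
      rcases Finset.mem_union.1 hu with hu | hu
      · rcases Finset.mem_union.1 hv with hv | hv
        · rw [hxU u (Finset.mem_erase.1 hu).2, hxU v (Finset.mem_erase.1 hv).2]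
          exact h₁.fr.edge u hu v hv huv
        · exact absurd huv (hn1 u hu v hv)
      · rcases Finset.mem_union.1 hv with hv | hv
        · exact absurd huv.symm (hn1 v hv u hu)
        · exact hwf.edge u hu v hv huv
  · intro y hy hry
    rcases Finset.mem_union.1 hy with hy | hy
    · obtain ⟨d, hd', hxd⟩ := h₁.ch y hy hry
      exact ⟨d, Or.inr hd', by rw [hxU y hy, hxd]⟩
    · have hyc := (he r hr y hy hry).2
      exact ⟨b, Or.inl rfl, by rw [hyc, hxc]⟩

theorem rtree_data {X : BT → ℝ} (hX : AdmX X) {U : Finset V} {r : V} {t : BT}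
    (h : RTree G U r t) : ∃ x : V → ℝ, TData G U r t X x := by
  induction h with
  | single r => exact ⟨_, btd_single X r⟩
  | join ha hb hd hrc he iha ihb =>
    obtain ⟨x₁, h₁⟩ := iha
    obtain ⟨x₂, h₂⟩ := ihb
    exact btd_join hX (rtree_root ha) (rtree_root hb) hd hrc he h₁ h₂

end Pool.Agent.UniM
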