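import Pool.Agent.UniM.Mom

/-!
# UniM / Union: disjoint unions without edges in between

If `U`, `U'` are disjoint and there is no edge between them, then `(s, s') ↦ s ∪ s'` is a bijection
from `ind G U ×ˢ ind G U'` to `ind G (U ∪ U')` (inverse `s ↦ (s ∩ U, s ∩ U')`), and
`card (s ∪ s') = card s + card s'`. This is `sum_ind_union`; the rest is algebra
(`mu_mul`, `va_mul`, `PP_pos`).
-/

namespace Pool.Agent.UniM

variable {V : Type*} [DecidableEq V] {G : SimpleGraph V}

/-- no edge between `U` and `U'` -/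
def NoEdge (G : SimpleGraph V) (U U' : Finset V) : Prop := ∀ x ∈ U, ∀ y ∈ U', ¬ G.Adj x y

theorem sum_ind_union {U U' : Finset V} (hd : Disjoint U U') (he : NoEdge G U U')
    (Φ : Finset V → ℝ) :
    ∑ s ∈ ind G (U ∪ U'), Φ s = ∑ s ∈ ind G U, ∑ s' ∈ ind G U', Φ (s ∪ s') := by
  rw [← Finset.sum_product' (ind G U) (ind G U') (fun s s' => Φ (s ∪ s'))]
  have hcup : ∀ s : Finset V, s ⊆ U ∪ U' → s ∩ U ∪ s ∩ U' = s := by
    intro s hs
    rw [← Finset.inter_union_distrib_left]
    exact Finset.inter_eq_left.2 hs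
  refine Finset.sum_nbij' (fun s => (s ∩ U, s ∩ U')) (fun p => p.1 ∪ p.2) ?_ ?_ ?_ ?_ ?_
  · intro s hs
    obtain ⟨_, h2⟩ := mem_ind.1 hs
    refine Finset.mem_product.2 ⟨mem_ind.2 ⟨Finset.inter_subset_right, ?_⟩,
      mem_ind.2 ⟨Finset.inter_subset_right, ?_⟩⟩
    · exact Set.Pairwise.mono (by
        intro x hx
        exact Finset.mem_coe.2 (Finset.mem_inter.1 (Finset.mem_coe.1 hx)).1) h2
    · exact Set.Pairwise.mono (by
        intro x hx
        exact Finset.mem_coe.2 (Finset.mem_inter.1 (Finset.mem_coe.1 hx)).1) h2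
  · intro p hp
    obtain ⟨h1, h2⟩ := Finset.mem_product.1 hp
    obtain ⟨h3, h4⟩ := mem_ind.1 h1
    obtain ⟨h5, h6⟩ := mem_ind.1 h2
    refine mem_ind.2 ⟨Finset.union_subset_union h3 h5, ?_⟩
    intro x hx y hy hxy
    rcases Finset.mem_union.1 (Finset.mem_coe.1 hx) with hx | hx
    · rcases Finset.mem_union.1 (Finset.mem_coe.1 hy) with hy | hy
      · exact h4 (Finset.mem_coe.2 hx) (Finset.mem_coe.2 hy) hxy
      · exact he x (h3 hx) y (h5 hy)
    · rcases Finset.mem_union.1 (Finset.mem_coe.1 hy) with hy | hy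
      · exact fun h => he y (h3 hy) x (h5 hx) h.symm
      · exact h6 (Finset.mem_coe.2 hx) (Finset.mem_coe.2 hy) hxy
  · intro s hs
    exact hcup s (mem_ind.1 hs).1
  · intro p hp
    obtain ⟨h1, h2⟩ := Finset.mem_product.1 hp
    have h3 := (mem_ind.1 h1).1
    have h5 := (mem_ind.1 h2).1
    have e1 : (p.1 ∪ p.2) ∩ U = p.1 := by
      rw [Finset.union_inter_distrib_right, Finset.inter_eq_left.2 h3,
        Finset.disjoint_iff_inter_eq_empty.1 (hd.symm.mono_left h5), Finset.union_empty]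
    have e2 : (p.1 ∪ p.2) ∩ U' = p.2 := by
      rw [Finset.union_inter_distrib_right, Finset.inter_eq_left.2 h5,
        Finset.disjoint_iff_inter_eq_empty.1 (hd.mono_left h3), Finset.empty_union]
    exact Prod.ext e1 e2
  · intro s hs
    show Φ s = Φ (s ∩ U ∪ s ∩ U')
    rw [hcup s (mem_ind.1 hs).1]

omit [DecidableEq V] in
private theorem disj_ind {U U' : Finset V} (hd : Disjoint U U') {s s' : Finset V}
    (hs : s ∈ ind G U) (hs' : s' ∈ ind G U') : Disjoint s s' :=
  (hd.mono_left (mem_ind.1 hs).1).mono_right (mem_ind.1 hs').1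

private theorem SS_union {U U' : Finset V} (hd : Disjoint U U') (he : NoEdge G U U')
    (φ : ℕ → ℝ) :
    SS G (U ∪ U') φ = ∑ s ∈ ind G U, ∑ s' ∈ ind G U', φ (s.card + s'.card) := by
  unfold SS
  rw [sum_ind_union hd he (fun s => φ s.card)]
  refine Finset.sum_congr rfl fun s hs => Finset.sum_congr rfl fun s' hs' => ?_
  rw [Finset.card_union_of_disjoint (disj_ind hd hs hs')]

private theorem PP_union_real {U U' : Finset V} (hd : Disjoint U U') (he : NoEdge G U U') :
    (PP G (U ∪ U') : ℝ) = PP G U * PP G U' := by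
  rw [PP_eq_SS, SS_union hd he]
  simp only [Finset.sum_const, nsmul_eq_mul, mul_one]
  rfl

theorem PP_union {U U' : Finset V} (hd : Disjoint U U') (he : NoEdge G U U') :
    PP G (U ∪ U') = PP G U * PP G U' := by
  have h := PP_union_real (G := G) hd he
  exact_mod_cast h

private theorem PP_ne (U : Finset V) : (PP G U : ℝ) ≠ 0 := by
  have h := PP_pos (G := G) U
  exact_mod_cast h.ne'

private theorem SS_one_union {U U' : Finset V} (hd : Disjoint U U') (he : NoEdge G U U') :
    SS G (U ∪ U') (fun n => (n : ℝ)) =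
      PP G U' * SS G U (fun n => (n : ℝ)) + PP G U * SS G U' (fun n => (n : ℝ)) := by
  rw [SS_union hd he]
  unfold SS PP
  rw [Finset.mul_sum, Finset.mul_sum]
  have e : ∀ s ∈ ind G U, ∑ s' ∈ ind G U', ((s.card + s'.card : ℕ) : ℝ) =
      ((ind G U').card : ℝ) * (s.card : ℝ) + ∑ s' ∈ ind G U', (s'.card : ℝ) := by
    intro s _
    push_cast
    rw [Finset.sum_add_distrib, Finset.sum_const, nsmul_eq_mul]
  rw [Finset.sum_congr rfl e, Finset.sum_add_distrib, Finset.sum_const, nsmul_eq_mul,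
    Finset.mul_sum]

private theorem SS_two_union {U U' : Finset V} (hd : Disjoint U U') (he : NoEdge G U U') :
    SS G (U ∪ U') (fun n => (n : ℝ) ^ 2) =
      PP G U' * SS G U (fun n => (n : ℝ) ^ 2) +
      2 * SS G U (fun n => (n : ℝ)) * SS G U' (fun n => (n : ℝ)) +
      PP G U * SS G U' (fun n => (n : ℝ) ^ 2) := by
  rw [SS_union hd he]
  unfold SS PP
  have e : ∀ s ∈ ind G U, ∑ s' ∈ ind G U', ((s.card + s'.card : ℕ) : ℝ) ^ 2 =
      ((ind G U').card : ℝ) * (s.card : ℝ) ^ 2 +
      (s.card : ℝ) * (2 * ∑ s' ∈ ind G U', (s'.card : ℝ)) +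
      ∑ s' ∈ ind G U', (s'.card : ℝ) ^ 2 := by
    intro s _
    have e1 : ∀ s' ∈ ind G U', ((s.card + s'.card : ℕ) : ℝ) ^ 2 =
        (s.card : ℝ) ^ 2 + (s.card : ℝ) * (2 * (s'.card : ℝ)) + (s'.card : ℝ) ^ 2 := by
      intro s' _
      push_cast
      ring
    rw [Finset.sum_congr rfl e1, Finset.sum_add_distrib, Finset.sum_add_distrib,
      Finset.sum_const, nsmul_eq_mul, ← Finset.mul_sum, ← Finset.mul_sum]
  rw [Finset.sum_congr rfl e, Finset.sum_add_distrib, Finset.sum_add_distrib,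
    Finset.sum_const, nsmul_eq_mul, ← Finset.mul_sum, ← Finset.sum_mul]
  ring

theorem mu_union {U U' : Finset V} (hd : Disjoint U U') (he : NoEdge G U U') :
    mu G (U ∪ U') = mu G U + mu G U' := by
  unfold mu
  rw [SS_one_union hd he, PP_union_real hd he]
  have h1 := PP_ne (G := G) U
  have h2 := PP_ne (G := G) U'
  field_simp

theorem va_union {U U' : Finset V} (hd : Disjoint U U') (he : NoEdge G U U') :
    va G (U ∪ U') = va G U + va G U' := by
  unfold va
  rw [mu_union hd he, SS_two_union hd he, PP_union_real hd he]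
  unfold mu
  have h1 := PP_ne (G := G) U
  have h2 := PP_ne (G := G) U'
  field_simp
  ring

theorem bs_union {U U' : Finset V} (hd : Disjoint U U') (he : NoEdge G U U') (x : V → ℝ) :
    bs G (U ∪ U') x / PP G (U ∪ U') = bs G U x / PP G U + bs G U' x / PP G U' := by
  have e : bs G (U ∪ U') x = PP G U' * bs G U x + PP G U * bs G U' x := by
    unfold bs
    rw [sum_ind_union hd he (fun s => ∑ v ∈ s, x v)]
    have e1 : ∀ s ∈ ind G U, ∑ s' ∈ ind G U', ∑ v ∈ s ∪ s', x v =
        ((ind G U').card : ℝ) * ∑ v ∈ s, x v + ∑ s' ∈ ind G U', ∑ v ∈ s', x v := by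
      intro s hs
      have e2 : ∀ s' ∈ ind G U', ∑ v ∈ s ∪ s', x v = ∑ v ∈ s, x v + ∑ v ∈ s', x v := by
        intro s' hs'
        exact Finset.sum_union (disj_ind hd hs hs')
      rw [Finset.sum_congr rfl e2, Finset.sum_add_distrib, Finset.sum_const, nsmul_eq_mul]
    rw [Finset.sum_congr rfl e1, Finset.sum_add_distrib, Finset.sum_const, nsmul_eq_mul,
      ← Finset.mul_sum]
    rfl
  rw [e, PP_union_real hd he]
  have h1 := PP_ne (G := G) U
  have h2 := PP_ne (G := G) U'
  field_simp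

end Pool.Agent.UniM
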