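import Pool.Agent.UniM.RT
import Pool.Agent.UniM.Union
import Pool.Agent.UniM.TStmt

/-!
# UniM / BTWhole: graph data of a rooted tree

`TData G U r t X x`: for a rooted tree `(U, r)` of shape `t`, with `A = U.erase r` (root out) and
`D = del G U r` (root in): `PP A = exp (lo t)`, `PP D = R t * PP A`, means, variances and weights. `x` is a weight
function on the vertices with `x v = X (subtree of v)` for the non-root vertices of `U`.

`whole_*`: the data of `U` itself, with `x' r = X t`: `PP_rec`, `mu_rec`, `va_rec`, `bs_rec` at `r`;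
`PP U = (1 + R) PP A`, so `PP A / PP U = 1 - q`, `PP D / PP U = q`. For the variance:
`va U = (1-q) (vo + mo^2) + q (vi + mi^2) - mu^2 = (1-q) vo + q vi + q (1-q) (mi - mo)^2`. For the weights
`bs_congr`. `whole_frac`: edges inside `U.erase r`: field `fr`; edges at `r`: field `ch`, `AdmX.child`.
-/

namespace Pool.Agent.UniM

variable {V : Type*} [DecidableEq V] {G : SimpleGraph V}

/-- graph data of a rooted tree -/
structure TData (G : SimpleGraph V) (U : Finset V) (r : V) (t : BT) (X : BT → ℝ) (x : V → ℝ) :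
    Prop where
  lo : Real.log (PP G (U.erase r)) = t.lo
  R : (PP G (del G U r) : ℝ) = t.R * PP G (U.erase r)
  mo : mu G (U.erase r) = t.mm.1
  mi : mu G (del G U r) + 1 = t.mm.2
  vo : va G (U.erase r) = t.vv.1
  vi : va G (del G U r) = t.vv.2
  bo : bs G (U.erase r) x / PP G (U.erase r) = (t.bb X).1
  bi : bs G (del G U r) x / PP G (del G U r) = (t.bb X).2
  fr : Frac G (U.erase r) x
  ch : ∀ y ∈ U, G.Adj r y → ∃ c, BT.IsChild c t ∧ x y = X c

private lemma whole_aux {U : Finset V} {r : V} {t : BT} {X : BT → ℝ} {x : V → ℝ} (hr : r ∈ U)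
    (h : TData G U r t X x) :
    (0 : ℝ) < PP G (U.erase r) ∧ (PP G U : ℝ) = PP G (U.erase r) * (1 + t.R) ∧
      (PP G (U.erase r) : ℝ) = PP G U * (1 - t.q) ∧ (PP G (del G U r) : ℝ) = PP G U * t.q := by
  have hA : (0 : ℝ) < PP G (U.erase r) := by exact_mod_cast PP_pos (U.erase r)
  have hR := BT.R_pos t
  have h1 : (PP G U : ℝ) = PP G (U.erase r) * (1 + t.R) := by
    have h2 : (PP G U : ℝ) = PP G (U.erase r) + PP G (del G U r) := by exact_mod_cast PP_rec hr
    rw [h2, h.R]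
    ring
  have hne : (1 : ℝ) + t.R ≠ 0 := by linarith
  refine ⟨hA, h1, ?_, ?_⟩
  · rw [h1, BT.q]
    field_simp
    ring
  · rw [h1, h.R, BT.q]
    field_simp

theorem whole_PP {U : Finset V} {r : V} {t : BT} {X : BT → ℝ} {x : V → ℝ} (hr : r ∈ U)
    (h : TData G U r t X x) : Real.log (PP G U) = t.lo + Real.log (1 + t.R) := by
  obtain ⟨hA, h1, -, -⟩ := whole_aux hr h
  have hR := BT.R_pos t
  rw [h1, Real.log_mul hA.ne' (by linarith), h.lo]

theorem whole_mu {U : Finset V} {r : V} {t : BT} {X : BT → ℝ} {x : V → ℝ} (hr : r ∈ U)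
    (h : TData G U r t X x) : mu G U = t.mt := by
  obtain ⟨hA, h1, h2, h3⟩ := whole_aux hr h
  have hP : (0 : ℝ) < PP G U := by exact_mod_cast PP_pos U
  have h4 := mu_rec (G := G) hr
  rw [h.mo, h.mi, h2, h3] at h4
  apply mul_left_cancel₀ hP.ne'
  rw [h4, BT.mt]
  ring

theorem whole_va {U : Finset V} {r : V} {t : BT} {X : BT → ℝ} {x : V → ℝ} (hr : r ∈ U)
    (h : TData G U r t X x) : va G U = t.vt := by
  obtain ⟨hA, h1, h2, h3⟩ := whole_aux hr h
  have hP : (0 : ℝ) < PP G U := by exact_mod_cast PP_pos U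
  have h4 := va_rec (G := G) hr
  rw [h.mo, h.mi, h.vo, h.vi, h2, h3, whole_mu hr h] at h4
  have h5 : va G U + t.mt ^ 2 = (1 - t.q) * (t.vv.1 + t.mm.1 ^ 2) + t.q * (t.vv.2 + t.mm.2 ^ 2) := by
    apply mul_left_cancel₀ hP.ne'
    rw [h4]
    ring
  have h6 : va G U = (1 - t.q) * (t.vv.1 + t.mm.1 ^ 2) + t.q * (t.vv.2 + t.mm.2 ^ 2) - t.mt ^ 2 := by
    linarith
  rw [h6, BT.mt, BT.vt]
  ring

theorem whole_bs {U : Finset V} {r : V} {t : BT} {X : BT → ℝ} {x : V → ℝ} (hr : r ∈ U)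
    (h : TData G U r t X x) {x' : V → ℝ} (hx : ∀ v ∈ U, v ≠ r → x' v = x v) (hxr : x' r = X t) :
    bs G U x' / PP G U = t.bt X := by
  obtain ⟨hA, h1, h2, h3⟩ := whole_aux hr h
  have hP : (0 : ℝ) < PP G U := by exact_mod_cast PP_pos U
  have hD : (0 : ℝ) < PP G (del G U r) := by exact_mod_cast PP_pos (del G U r)
  have e1 : bs G (U.erase r) x' = bs G (U.erase r) x :=
    bs_congr fun v hv => hx v (Finset.mem_of_mem_erase hv) (Finset.ne_of_mem_erase hv)
  have e2 : bs G (del G U r) x' = bs G (del G U r) x :=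
    bs_congr fun v hv => hx v (mem_del.1 hv).1 (mem_del.1 hv).2.1
  have b1 : bs G (U.erase r) x = (t.bb X).1 * PP G (U.erase r) := by
    rw [← h.bo]
    field_simp
  have b2 : bs G (del G U r) x = (t.bb X).2 * PP G (del G U r) := by
    rw [← h.bi]
    field_simp
  rw [bs_rec hr x', e1, e2, b1, b2, hxr, div_eq_iff hP.ne', h2, h3, BT.bt]
  ring

theorem whole_frac {U : Finset V} {r : V} {t : BT} {X : BT → ℝ} {x : V → ℝ} (hX : AdmX X)
    (hr : r ∈ U) (h : TData G U r t X x) {x' : V → ℝ} (hx : ∀ v ∈ U, v ≠ r → x' v = x v)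
    (hxr : x' r = X t) : Frac G U x' := by
  have key : ∀ v ∈ U, G.Adj r v → x' r + x' v ≤ 1 := by
    intro v hv hrv
    obtain ⟨c, hc, hxc⟩ := h.ch v hv hrv
    rw [hxr, hx v hv hrv.ne', hxc]
    exact hX.child t c hc
  refine ⟨?_, ?_, ?_⟩
  · intro v hv
    by_cases hvr : v = r
    · rw [hvr, hxr]
      exact hX.nn t
    · rw [hx v hv hvr]
      exact h.fr.nn v (Finset.mem_erase.2 ⟨hvr, hv⟩)
  · intro v hv
    by_cases hvr : v = r
    · rw [hvr, hxr]
      exact hX.le t
    · rw [hx v hv hvr]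
      exact h.fr.le v (Finset.mem_erase.2 ⟨hvr, hv⟩)
  · intro u hu v hv huv
    by_cases hur : u = r
    · subst hur
      exact key v hv huv
    · by_cases hvr : v = r
      · subst hvr
        rw [add_comm]
        exact key u hu huv.symm
      · rw [hx u hu hur, hx v hv hvr]
        exact h.fr.edge u (Finset.mem_erase.2 ⟨hur, hu⟩) v (Finset.mem_erase.2 ⟨hvr, hv⟩) huv

end Pool.Agent.UniM
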