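import Pool.Agent.UniM.Defs

/-!
# UniM / Cb: fair coins

All statements are by induction on `f` (with `s`, `φ` general). `cb_ind`: Pascal's rule `ch_succ`; the
case `f = 0` is `ch 0 j = if j = 0 then 1 else 0`. `cb_sq` uses `cb_id` and `cb_one`
(`2 ^ (f+1) ((s + (f+1)/2)² + (f+1)/4) = 2 ^ f ((s + f/2)² + f/4) + 2 ^ f ((s + 1 + f/2)² + f/4)`).
-/

namespace Pool.Agent.UniM

theorem cb_shift (f s : ℕ) (φ : ℕ → ℝ) : cb f s (fun n => φ (n + 1)) = cb f (s + 1) φ := by
  induction f generalizing s with
  | zero => simp [cb]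
  | succ f ih => simp only [cb, ih]

theorem cb_one (f s : ℕ) : cb f s (fun _ => 1) = 2 ^ f := by
  induction f generalizing s with
  | zero => simp [cb]
  | succ f ih =>
    simp only [cb, ih]
    ring

theorem cb_id (f s : ℕ) : cb f s (fun n => (n : ℝ)) = 2 ^ f * ((s : ℝ) + f / 2) := by
  induction f generalizing s with
  | zero => simp [cb]
  | succ f ih =>
    simp only [cb, ih]
    push_cast
    ring

theorem cb_sq (f s : ℕ) :
    cb f s (fun n => (n : ℝ) ^ 2) = 2 ^ f * (((s : ℝ) + f / 2) ^ 2 + f / 4) := by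
  induction f generalizing s with
  | zero => simp [cb]
  | succ f ih =>
    simp only [cb, ih]
    push_cast
    ring

theorem ch_zero (j : ℤ) : ch 0 j = if j = 0 then 1 else 0 := by
  unfold ch
  rcases lt_trichotomy j 0 with h | h | h
  · rw [if_pos h, if_neg (ne_of_lt h)]
  · subst h
    simp
  · rw [if_neg (not_lt.mpr h.le), if_neg (ne_of_gt h)]
    apply Nat.choose_eq_zero_of_lt
    omega

theorem ch_succ (f : ℕ) (j : ℤ) : ch (f + 1) j = ch f j + ch f (j - 1) := by
  unfold ch
  rcases lt_trichotomy j 0 with h | h | h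
  · rw [if_pos h, if_pos h, if_pos (by omega)]
  · subst h
    simp
  · rw [if_neg (by omega), if_neg (by omega), if_neg (by omega)]
    obtain ⟨n, hn⟩ : ∃ n : ℕ, j = (n : ℤ) + 1 := ⟨(j - 1).toNat, by omega⟩
    subst hn
    have h1 : ((n : ℤ) + 1).toNat = n + 1 := by omega
    have h2 : ((n : ℤ) + 1 - 1).toNat = n := by omega
    rw [h1, h2, Nat.choose_succ_succ, Nat.succ_eq_add_one]
    exact Nat.add_comm _ _

theorem ch_symm (f : ℕ) (j : ℤ) : ch f (f - j) = ch f j := by
  unfold ch
  rcases lt_or_ge j 0 with h | h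
  · rw [if_pos h, if_neg (by omega)]
    apply Nat.choose_eq_zero_of_lt
    omega
  · rcases lt_or_ge ((f : ℤ) - j) 0 with h2 | h2
    · rw [if_pos h2, if_neg (by omega)]
      symm
      apply Nat.choose_eq_zero_of_lt
      omega
    · rw [if_neg (by omega), if_neg (by omega)]
      have e : ((f : ℤ) - j).toNat = f - j.toNat := by omega
      rw [e]
      apply Nat.choose_symm
      omega

theorem cb_ind (f s k : ℕ) :
    cb f s (fun n => if n = k then 1 else 0) = (ch f ((k : ℤ) - s) : ℝ) := by
  induction f generalizing s with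
  | zero =>
    simp only [cb, ch_zero]
    by_cases h : s = k
    · subst h
      simp
    · rw [if_neg h, if_neg (by omega)]
      simp
  | succ f ih =>
    simp only [cb, ih]
    rw [ch_succ]
    push_cast
    have e : (k : ℤ) - ((s : ℤ) + 1) = (k : ℤ) - s - 1 := by ring
    rw [e]

end Pool.Agent.UniM
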