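import Mathlib

/-!
# UniM / CoinIneq: two inequalities

`coin_two`: `2 ^ logb 3 (1+t) = (1+t) ^ c` with `c = logb 3 2` in `(0,1)` (both are
`exp (log 2 log (1+t) / log 3)`), and by concavity of `x ↦ x ^ c` (`Real.concaveOn_rpow`) with
`1 + t = (1 - t/2) * 1 + (t/2) * 3`: `(1+t) ^ c ≥ (1 - t/2) + (t/2) * 2 = 1 + t/2 ≥ t` as `t ≤ 2`.

`coin_ineq` with `b = logb 3 (1+t)`, `0 < b ≤ 1`: divide by `P ^ b`: with `y = P₁/P` in `(0,1]`:
`t + y^b ≤ (2+y)^b`. The function `x ↦ x^b` is concave, so `(2+y)^b - y^b ≥ 3^b - 1 = t` (increments over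
intervals of length `2` are nonincreasing: `1` and `2 + y` are both convex combinations of `y` and `3`:
`1 = λ y + (1-λ) 3`, `2 + y = (1-λ) y + λ 3` with `λ = 2/(3-y)`, so
`1^b + (2+y)^b ≥ y^b + 3^b`).
-/

namespace Pool.Agent.UniM

theorem coin_two {t : ℝ} (ht : 0 < t) (ht2 : t ≤ 2) : t ≤ (2 : ℝ) ^ (Real.logb 3 (1 + t)) := by
  have h1 : (2 : ℝ) ^ (Real.logb 3 (1 + t)) = (1 + t) ^ (Real.logb 3 2) := by
    rw [Real.rpow_def_of_pos (by norm_num), Real.rpow_def_of_pos (by linarith)]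
    congr 1
    unfold Real.logb
    ring
  have hc0 : 0 ≤ Real.logb 3 2 := Real.logb_nonneg (by norm_num) (by norm_num)
  have hc1 : Real.logb 3 2 ≤ 1 := by
    rw [Real.logb_le_iff_le_rpow (by norm_num) (by norm_num)]
    norm_num
  have h3 : (3 : ℝ) ^ (Real.logb 3 2) = 2 :=
    Real.rpow_logb (by norm_num) (by norm_num) (by norm_num)
  have hconc := Real.concaveOn_rpow hc0 hc1
  have key := hconc.2 (show (1 : ℝ) ∈ Set.Ici (0 : ℝ) by simp)
    (show (3 : ℝ) ∈ Set.Ici (0 : ℝ) by simp) (show 0 ≤ 1 - t / 2 by linarith)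
    (show 0 ≤ t / 2 by linarith) (by ring)
  simp only [smul_eq_mul, Real.one_rpow] at key
  rw [h3] at key
  rw [h1]
  have e : (1 - t / 2) * 1 + t / 2 * 3 = 1 + t := by ring
  rw [e] at key
  linarith

theorem coin_ineq {t P P₁ : ℝ} (ht : 0 < t) (ht2 : t ≤ 2) (hP : 0 < P) (hP₁ : 0 < P₁)
    (h : P₁ ≤ P) :
    t * P ^ (Real.logb 3 (1 + t)) + P₁ ^ (Real.logb 3 (1 + t)) ≤
      (2 * P + P₁) ^ (Real.logb 3 (1 + t)) := by
  have hb0 : 0 ≤ Real.logb 3 (1 + t) := Real.logb_nonneg (by norm_num) (by linarith)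
  have hb1 : Real.logb 3 (1 + t) ≤ 1 := by
    rw [Real.logb_le_iff_le_rpow (by norm_num) (by linarith)]
    rw [Real.rpow_one]
    linarith
  have h3 : (3 : ℝ) ^ (Real.logb 3 (1 + t)) = 1 + t :=
    Real.rpow_logb (by norm_num) (by norm_num) (by linarith)
  have hconc := Real.concaveOn_rpow hb0 hb1
  have hD : 0 < 3 * P - P₁ := by linarith
  set lam : ℝ := 2 * P / (3 * P - P₁) with hlam
  have hl0 : 0 ≤ lam := by positivity
  have hl1 : lam ≤ 1 := by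
    rw [hlam, div_le_one hD]
    linarith
  have hmul : lam * (3 * P - P₁) = 2 * P := by
    rw [hlam]
    exact div_mul_cancel₀ _ hD.ne'
  have m1 : P₁ ∈ Set.Ici (0 : ℝ) := hP₁.le
  have m2 : 3 * P ∈ Set.Ici (0 : ℝ) := by
    show (0 : ℝ) ≤ 3 * P
    linarith
  have k1 := hconc.2 m1 m2 hl0 (sub_nonneg.2 hl1) (by ring)
  have k2 := hconc.2 m1 m2 (sub_nonneg.2 hl1) hl0 (by ring)
  simp only [smul_eq_mul] at k1 k2
  have e1 : lam * P₁ + (1 - lam) * (3 * P) = P := by linarith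
  have e2 : (1 - lam) * P₁ + lam * (3 * P) = 2 * P + P₁ := by linarith
  rw [e1] at k1
  rw [e2] at k2
  have e3 : (3 * P) ^ (Real.logb 3 (1 + t)) = (1 + t) * P ^ (Real.logb 3 (1 + t)) := by
    rw [Real.mul_rpow (by norm_num) hP.le, h3]
  rw [e3] at k1 k2
  linarith

end Pool.Agent.UniM
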