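import Pool.Agent.UniM.Struct
import Pool.Agent.UniM.Union
import Pool.Agent.UniM.Cb
import Pool.Agent.UniM.CoinIneq

/-!
# UniM / Coin: coin decompositions exist (part P1)

`coins_empty`: one set, `[(0, 0)]` (`Frac` weights: `bs G ∅ x = 0`).

`coins_isolated`: `v ∉ U`, no neighbour in `U`: an independent subset of `insert v U` is one of `U` with or
without `v`: `SS (insert v U) φ = SS U φ + SS U (φ (· + 1))` (`SS_rec` with `(insert v U).erase v = U`,
`del G (insert v U) v = U`), and `cb f s φ + cb f s (φ (· + 1)) = cb (f+1) s φ` (`cb_shift`). (c2): the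
sum is multiplied by `t`, `P` by `2`, and `t ≤ 2 ^ b` (`coin_two`). (c3): `bs (insert v U) x = 2 bs U x + P(U) x v`
(`bs_rec`), `x v ≤ 1`, and the right side is `2 * (old) + 2 * ∑ 2 ^ f = 2 * (old) + 2 P(U)` (c1 for the
constant `1`, `cb_one`, `PP_eq_SS`).

`coins_leaf`: `v` a leaf with neighbour `w`, both not in `U`, no other neighbours of `v` in `U`. Put
`U₁ = del G U w` (`U` without the neighbours of `w`; `w ∉ U`). Let `F = insert w (insert v U)`. Then
`F.erase w = insert v U`, in which `v` is isolated, and `del G F w = U₁`. So with lists `l` for `U` and `l₁`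
for `U₁` the list is `l.map (s, f+1) ++ l₁.map (s+1, f)`. (c1) as before. (c2) with `b = logb 3 (1+t)`
(`0 ≤ b ≤ 1`), `P = P(U)`, `P₁ = P(U₁) ≤ P`: need `t P^b + P₁^b ≤ (2P + P₁)^b`; this is `coin_ineq`.
(c3): `bs F x = bs (insert v U) x + bs U₁ x + P(U₁) x w` and `bs (insert v U) x = 2 bs U x + P(U) x v`; the
right side is `2 (old) + 2 P(U) + (old₁)`; use `x v + x w ≤ 1`, `0 ≤ x w`, `P(U₁) ≤ P(U)`.
-/

namespace Pool.Agent.UniM

variable {V : Type*} [DecidableEq V] {G : SimpleGraph V}

private theorem coin_frac_mono {U U' : Finset V} (h : U' ⊆ U) {x : V → ℝ} (hx : Frac G U x) :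
    Frac G U' x :=
  ⟨fun v hv => hx.nn v (h hv), fun v hv => hx.le v (h hv),
    fun u hu v hv huv => hx.edge u (h hu) v (h hv) huv⟩

private theorem coin_PP_sum {U : Finset V} {l : List (ℕ × ℕ)} (hl : Coins G U l) :
    (PP G U : ℝ) = (l.map (fun x => (2 : ℝ) ^ x.2)).sum := by
  rw [PP_eq_SS, hl.c1]
  simp only [cb_one]

private theorem coin_del_iso {U : Finset V} {v : V} (hv : v ∉ U) (h : ∀ x ∈ U, ¬ G.Adj v x) :
    del G (insert v U) v = U := by
  ext x
  rw [mem_del, Finset.mem_insert]
  constructor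
  · rintro ⟨h1 | h1, h2, -⟩
    · exact absurd h1 h2
    · exact h1
  · intro hx
    exact ⟨Or.inr hx, fun he => hv (he ▸ hx), h x hx⟩

private theorem coin_del_leaf {U : Finset V} {v w : V} (hvw : G.Adj v w) :
    del G (insert w (insert v U)) w = del G U w := by
  ext x
  rw [mem_del, mem_del, Finset.mem_insert, Finset.mem_insert]
  constructor
  · rintro ⟨h1 | h1 | h1, h2, h3⟩
    · exact absurd h1 h2
    · exact absurd (h1 ▸ hvw.symm) h3
    · exact ⟨h1, h2, h3⟩
  · rintro ⟨h1, h2, h3⟩
    exact ⟨Or.inr (Or.inr h1), h2, h3⟩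

private theorem coin_sum_mul {α : Type*} (l : List α) (f : α → ℝ) (c : ℝ) :
    (l.map (fun x => c * f x)).sum = c * (l.map f).sum := by
  induction l with
  | nil => simp
  | cons a l ih => simp only [List.map_cons, List.sum_cons, ih]; ring

private theorem coin_sum_add {α : Type*} (l : List α) (f g : α → ℝ) :
    (l.map (fun x => f x + g x)).sum = (l.map f).sum + (l.map g).sum := by
  induction l with
  | nil => simp
  | cons a l ih => simp only [List.map_cons, List.sum_cons, ih]; ring

private theorem coin_PP_iso {U : Finset V} {v : V} (hv : v ∉ U) (h : ∀ x ∈ U, ¬ G.Adj v x) :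
    PP G (insert v U) = PP G U + PP G U := by
  rw [PP_rec (Finset.mem_insert_self v U), Finset.erase_insert hv, coin_del_iso hv h]

private theorem coin_w_shift (l : List (ℕ × ℕ)) :
    ((l.map (fun x : ℕ × ℕ => (x.1, x.2 + 1))).map (fun y : ℕ × ℕ => (y.2 : ℝ) * 2 ^ y.2)).sum =
      2 * (l.map (fun y : ℕ × ℕ => (y.2 : ℝ) * 2 ^ y.2)).sum +
        2 * (l.map (fun x : ℕ × ℕ => (2 : ℝ) ^ x.2)).sum := by
  rw [List.map_map, ← coin_sum_mul, ← coin_sum_mul, ← coin_sum_add]
  congr 1
  refine List.map_congr_left fun y _ => ?_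
  simp only [Function.comp_apply]
  push_cast
  ring

private theorem coin_t_shift (l : List (ℕ × ℕ)) (t : ℝ) :
    ((l.map (fun x : ℕ × ℕ => (x.1, x.2 + 1))).map (fun x : ℕ × ℕ => t ^ x.2)).sum =
      t * (l.map (fun x : ℕ × ℕ => t ^ x.2)).sum := by
  rw [List.map_map, ← coin_sum_mul]
  congr 1
  refine List.map_congr_left fun y _ => ?_
  simp only [Function.comp_apply]
  rw [pow_succ]
  ring


theorem coins_empty : Coins G ∅ [(0, 0)] := by
  refine ⟨fun φ => ?_, fun t ht ht2 => ?_, fun x hx => ?_⟩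
  · rw [SS_empty]
    simp [cb]
  · rw [PP_empty]
    simp
  · have h1 : bs G ∅ x = 0 := by
      unfold bs
      rw [ind_empty, Finset.sum_singleton, Finset.sum_empty]
    rw [h1]
    simp

theorem coins_isolated {U : Finset V} {v : V} (hv : v ∉ U) (h : ∀ x ∈ U, ¬ G.Adj v x)
    {l : List (ℕ × ℕ)} (hl : Coins G U l) :
    Coins G (insert v U) (l.map (fun x => (x.1, x.2 + 1))) := by
  have hP := coin_PP_iso hv h
  have hPs := coin_PP_sum hl
  have hPpos : (0 : ℝ) < PP G U := by exact_mod_cast PP_pos (G := G) U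
  refine ⟨fun φ => ?_, fun t ht ht2 => ?_, fun x hx => ?_⟩
  · rw [SS_rec (Finset.mem_insert_self v U), Finset.erase_insert hv, coin_del_iso hv h, hl.c1, hl.c1,
      List.map_map, ← coin_sum_add]
    congr 1
    refine List.map_congr_left fun y _ => ?_
    simp only [Function.comp_apply]
    rw [cb_shift]
    rfl
  · rw [coin_t_shift, hP]
    push_cast
    have h1 := hl.c2 t ht ht2
    have h2 := coin_two ht ht2
    have h3 : (PP G U : ℝ) + PP G U = 2 * PP G U := by ring
    rw [h3, Real.mul_rpow (by norm_num) hPpos.le]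
    calc t * (l.map (fun x => t ^ x.2)).sum ≤ t * (PP G U : ℝ) ^ (Real.logb 3 (1 + t)) :=
          mul_le_mul_of_nonneg_left h1 ht.le
      _ ≤ 2 ^ (Real.logb 3 (1 + t)) * (PP G U : ℝ) ^ (Real.logb 3 (1 + t)) :=
          mul_le_mul_of_nonneg_right h2 (Real.rpow_nonneg hPpos.le _)
  · have h1 := hl.c3 x (coin_frac_mono (Finset.subset_insert v U) hx)
    have h2 := bs_rec (G := G) (Finset.mem_insert_self v U) x
    rw [Finset.erase_insert hv, coin_del_iso hv h] at h2
    have h3 := hx.le v (Finset.mem_insert_self v U)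
    rw [coin_w_shift, ← hPs, h2]
    nlinarith [mul_le_mul_of_nonneg_left h3 hPpos.le]

theorem coins_leaf {U : Finset V} {v w : V} (hv : v ∉ U) (hw : w ∉ U) (hvw : G.Adj v w)
    (h : ∀ x ∈ U, ¬ G.Adj v x) {l l₁ : List (ℕ × ℕ)} (hl : Coins G U l)
    (hl₁ : Coins G (del G U w) l₁) :
    Coins G (insert w (insert v U))
      (l.map (fun x => (x.1, x.2 + 1)) ++ l₁.map (fun x => (x.1 + 1, x.2))) := by
  have hI := coins_isolated hv h hl
  have hwF : w ∉ insert v U := by
    rw [Finset.mem_insert]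
    rintro (h1 | h1)
    · exact hvw.ne h1.symm
    · exact hw h1
  have hPI := coin_PP_iso hv h
  have hPs := coin_PP_sum hl
  have hPpos : (0 : ℝ) < PP G U := by exact_mod_cast PP_pos (G := G) U
  have hPpos1 : (0 : ℝ) < PP G (del G U w) := by exact_mod_cast PP_pos (G := G) (del G U w)
  have hPle : (PP G (del G U w) : ℝ) ≤ PP G U := by exact_mod_cast PP_mono (del_subset (G := G))
  refine ⟨fun φ => ?_, fun t ht ht2 => ?_, fun x hx => ?_⟩
  · rw [SS_rec (Finset.mem_insert_self w _), Finset.erase_insert hwF, coin_del_leaf hvw, hI.c1, hl₁.c1,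
      List.map_append, List.sum_append]
    congr 1
    rw [List.map_map]
    congr 1
    refine List.map_congr_left fun y _ => ?_
    simp only [Function.comp_apply]
    rw [cb_shift]
  · rw [List.map_append, List.sum_append, coin_t_shift, List.map_map,
      PP_rec (Finset.mem_insert_self w _), Finset.erase_insert hwF, coin_del_leaf hvw, hPI]
    push_cast
    have h1 := hl.c2 t ht ht2
    have h2 := hl₁.c2 t ht ht2
    have h3 : (PP G U : ℝ) + PP G U + PP G (del G U w) = 2 * PP G U + PP G (del G U w) := by ring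
    rw [h3]
    calc t * (l.map (fun x => t ^ x.2)).sum +
          (l₁.map ((fun x : ℕ × ℕ => t ^ x.2) ∘ fun x : ℕ × ℕ => (x.1 + 1, x.2))).sum
        ≤ t * (PP G U : ℝ) ^ (Real.logb 3 (1 + t)) +
          (PP G (del G U w) : ℝ) ^ (Real.logb 3 (1 + t)) :=
          add_le_add (mul_le_mul_of_nonneg_left h1 ht.le) h2
      _ ≤ _ := coin_ineq ht ht2 hPpos hPpos1 hPle
  · have hUF : U ⊆ insert w (insert v U) :=
      (Finset.subset_insert v U).trans (Finset.subset_insert w _)
    have h1 := hl.c3 x (coin_frac_mono hUF hx)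
    have h1' := hl₁.c3 x (coin_frac_mono (del_subset.trans hUF) hx)
    have h2 := bs_rec (G := G) (Finset.mem_insert_self w (insert v U)) x
    rw [Finset.erase_insert hwF, coin_del_leaf hvw] at h2
    have h2' := bs_rec (G := G) (Finset.mem_insert_self v U) x
    rw [Finset.erase_insert hv, coin_del_iso hv h] at h2'
    have hvF : v ∈ insert w (insert v U) := Finset.mem_insert_of_mem (Finset.mem_insert_self v U)
    have hwF' : w ∈ insert w (insert v U) := Finset.mem_insert_self w _
    have h3 := hx.edge v hvF w hwF' hvw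
    have h4 := hx.nn w hwF'
    have h5 := mul_le_mul_of_nonneg_right hPle h4
    have h6 := mul_le_mul_of_nonneg_left h3 hPpos.le
    rw [List.map_append, List.sum_append, coin_w_shift, ← hPs, h2, h2', List.map_map]
    have h7 : (l₁.map ((fun y : ℕ × ℕ => (y.2 : ℝ) * 2 ^ y.2) ∘ fun x : ℕ × ℕ => (x.1 + 1, x.2))).sum =
        (l₁.map (fun y : ℕ × ℕ => (y.2 : ℝ) * 2 ^ y.2)).sum := rfl
    rw [h7]
    nlinarith

end Pool.Agent.UniM
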