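import Pool.Agent.UniM.Coin

/-!
# UniM / CoinEx: every forest has a coin decomposition

Strong induction on `U.card`. `U = ∅`: `coins_empty`. Otherwise `exists_leaf`: isolated vertex `v`: use
`U.erase v` and `coins_isolated` (`insert v (U.erase v) = U`); leaf `v` with neighbour `w`: use
`W = (U.erase v).erase w` and `del G W w` with `coins_leaf` (`insert w (insert v W) = U`).
-/

namespace Pool.Agent.UniM

variable {V : Type*} [DecidableEq V] {G : SimpleGraph V}

theorem coins_exists (hG : G.IsAcyclic) (U : Finset V) : ∃ l : List (ℕ × ℕ), Coins G U l := by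
  induction U using Finset.strongInduction with
  | H U ih =>
    rcases U.eq_empty_or_nonempty with rfl | hU
    · exact ⟨_, coins_empty⟩
    · obtain ⟨v, hv, h | ⟨w, hw, hvw, h⟩⟩ := exists_leaf hG hU
      · obtain ⟨l, hl⟩ := ih (U.erase v) (Finset.erase_ssubset hv)
        have h1 := coins_isolated (Finset.notMem_erase v U)
          (fun x hx => h x (Finset.mem_of_mem_erase hx)) hl
        rw [Finset.insert_erase hv] at h1
        exact ⟨_, h1⟩
      · have hne : w ≠ v := hvw.ne'
        have hwe : w ∈ U.erase v := Finset.mem_erase.2 ⟨hne, hw⟩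
        have hsub : (U.erase v).erase w ⊂ U :=
          lt_of_lt_of_le (Finset.erase_ssubset hwe) (Finset.erase_subset v U)
        obtain ⟨l, hl⟩ := ih _ hsub
        obtain ⟨l₁, hl₁⟩ := ih (del G ((U.erase v).erase w) w) (lt_of_le_of_lt del_subset hsub)
        have hv' : v ∉ (U.erase v).erase w := fun hx =>
          Finset.notMem_erase v U (Finset.mem_of_mem_erase hx)
        have h1 := coins_leaf hv' (Finset.notMem_erase w _) hvw (fun x hx hadj => by
          have hx1 := Finset.mem_erase.1 hx
          exact hx1.1 (h x (Finset.mem_of_mem_erase hx1.2) hadj)) hl hl₁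
        have hU' : insert w (insert v ((U.erase v).erase w)) = U := by
          rw [Finset.insert_comm, Finset.insert_erase hwe, Finset.insert_erase hv]
        rw [hU'] at h1
        exact ⟨_, h1⟩

end Pool.Agent.UniM
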