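import Mathlib
import Pool.Agent.UniM.P3Def

/-!
# UniM / Defs: independent subsets, their moments, coins (MP_346bfe_co)

`G` is a graph on `V`, `U` a finite set of vertices; `G[U]` is the induced graph. Everything is about
the uniform measure on the independent subsets of `U` (fugacity one).
-/

namespace Pool.Agent.UniM

variable {V : Type*}

open Classical in
/-- independent subsets of `U` -/
noncomputable def ind (G : SimpleGraph V) (U : Finset V) : Finset (Finset V) :=
  U.powerset.filter (fun s => G.IsIndepSet (s : Set V))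

theorem mem_ind {G : SimpleGraph V} {U s : Finset V} :
    s ∈ ind G U ↔ s ⊆ U ∧ G.IsIndepSet (s : Set V) := by
  classical
  unfold ind
  rw [Finset.mem_filter, Finset.mem_powerset]

open Classical in
/-- `U` minus the closed neighbourhood of `v` -/
noncomputable def del (G : SimpleGraph V) (U : Finset V) (v : V) : Finset V :=
  U.filter (fun x => x ≠ v ∧ ¬ G.Adj v x)

theorem mem_del {G : SimpleGraph V} {U : Finset V} {v x : V} :
    x ∈ del G U v ↔ x ∈ U ∧ x ≠ v ∧ ¬ G.Adj v x := by
  classical
  unfold del
  rw [Finset.mem_filter]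

theorem del_subset {G : SimpleGraph V} {U : Finset V} {v : V} : del G U v ⊆ U := by
  intro x hx
  exact (mem_del.1 hx).1

/-- number of independent subsets of `U` -/
noncomputable def PP (G : SimpleGraph V) (U : Finset V) : ℕ := (ind G U).card

/-- number of independent subsets of `U` with `k` elements -/
noncomputable def ik (G : SimpleGraph V) (U : Finset V) (k : ℕ) : ℕ :=
  ((ind G U).filter (fun s => s.card = k)).card

/-- sum of `φ |s|` over the independent subsets `s` of `U` -/
noncomputable def SS (G : SimpleGraph V) (U : Finset V) (φ : ℕ → ℝ) : ℝ := ∑ s ∈ ind G U, φ s.card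

/-- mean size of a random independent subset of `U` -/
noncomputable def mu (G : SimpleGraph V) (U : Finset V) : ℝ := SS G U (fun n => (n : ℝ)) / PP G U

/-- variance of the size of a random independent subset of `U` -/
noncomputable def va (G : SimpleGraph V) (U : Finset V) : ℝ :=
  SS G U (fun n => (n : ℝ) ^ 2) / PP G U - mu G U ^ 2

/-- fractional independent sets of `G[U]` -/
structure Frac (G : SimpleGraph V) (U : Finset V) (x : V → ℝ) : Prop where
  nn : ∀ v ∈ U, 0 ≤ x v
  le : ∀ v ∈ U, x v ≤ 1
  edge : ∀ u ∈ U, ∀ v ∈ U, G.Adj u v → x u + x v ≤ 1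

/-- total weight `x` of all independent subsets of `U` -/
noncomputable def bs (G : SimpleGraph V) (U : Finset V) (x : V → ℝ) : ℝ :=
  ∑ s ∈ ind G U, ∑ v ∈ s, x v

/-- a rooted structure of the graph: `p` is the parent function, `rk` a rank which decreases from
child to parent; the edges are exactly the pairs child - parent -/
structure Par (G : SimpleGraph V) (p : V → Option V) (rk : V → ℕ) : Prop where
  adj : ∀ u v, G.Adj u v ↔ (p u = some v ∨ p v = some u)
  lt : ∀ u v, p u = some v → rk v < rk u

/-- `f` fair coins on top of `s` sure elements: sum of `φ (s + number of heads)` over the `2 ^ f`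
outcomes -/
def cb : ℕ → ℕ → (ℕ → ℝ) → ℝ
  | 0, s, φ => φ s
  | f + 1, s, φ => cb f s φ + cb f (s + 1) φ

/-- a coin decomposition of the independent subsets of `U`: every entry `(s, f)` of the list stands for
`2 ^ f` sets with sizes `s + j`, `f.choose j` of them of size `s + j` -/
structure Coins (G : SimpleGraph V) (U : Finset V) (l : List (ℕ × ℕ)) : Prop where
  c1 : ∀ φ : ℕ → ℝ, SS G U φ = (l.map (fun x => cb x.2 x.1 φ)).sum
  c2 : ∀ t : ℝ, 0 < t → t ≤ 2 →
    (l.map (fun x => t ^ x.2)).sum ≤ (PP G U : ℝ) ^ (Real.logb 3 (1 + t))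
  c3 : ∀ x : V → ℝ, Frac G U x →
    2 * bs G U x ≤ (l.map (fun y => (y.2 : ℝ) * 2 ^ y.2)).sum

end Pool.Agent.UniM
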