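import Pool.Agent.UniM.Struct

/-!
# UniM / GoodDef: the induction statement

`Good w U`: the sequence is nonincreasing for `k + 1/2 ≥ mu + w(P)` and nondecreasing for
`k + 1/2 ≤ mu - w(P)`.
-/

namespace Pool.Agent.UniM

variable {V : Type*} [DecidableEq V] {G : SimpleGraph V}

/-- signs of the first differences outside the window -/
structure Good (G : SimpleGraph V) (w : ℕ → ℝ) (U : Finset V) : Prop where
  up : ∀ k : ℕ, mu G U + w (PP G U) ≤ (k : ℝ) + 1 / 2 → ik G U (k + 1) ≤ ik G U k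
  dn : ∀ k : ℕ, (k : ℝ) + 1 / 2 ≤ mu G U - w (PP G U) → ik G U k ≤ ik G U (k + 1)

end Pool.Agent.UniM
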