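import Pool.Agent.UniM.P3Def
import Pool.Agent.UniM.Const

/-!
# UniM / P3Stmt: the statement of part P3

`VarHyp`: the variance hypothesis for the random variable `y = j - f/2` (part (a)) or
`y = j + 1/2 - f/2` (part (b)) with mean `y0`.
-/

namespace Pool.Agent.UniM

/-- `E (y - y0)^2 ≤ k1 (L - E f) + k2 E f`, written with second moments -/
def VarHyp {n : ℕ} (P : ℕ) (p : Fin n → ℝ) (f : Fin n → ℕ) (y : Fin n → ℝ) : Prop :=
  ∑ i, p i * y i ^ 2 ≤ (∑ i, p i * y i) ^ 2 +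
    ∑ i, p i * (k1 * (Real.logb 2 P - f i) + k2 * f i)

/-- the statement of part P3 for the window function `w` -/
structure P3Holds (w : ℕ → ℝ) : Prop where
  mono : Monotone w
  nn : ∀ P, 0 ≤ w P
  a : ∀ (P n : ℕ) (p : Fin n → ℝ) (f : Fin n → ℕ) (j : Fin n → ℤ), 3 ≤ P →
    Law P Finset.univ p f → VarHyp P p f (fun i => (j i : ℝ) - f i / 2) →
    |∑ i, p i * ((j i : ℝ) - f i / 2)| ≤ w P - 1 / 2 → ∑ i, p i * PsA (f i) (j i) ≤ 0
  b : ∀ (P n : ℕ) (p : Fin n → ℝ) (f : Fin n → ℕ) (j : Fin n → ℤ), 3 ≤ P →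
    Law P Finset.univ p f → VarHyp P p f (fun i => (j i : ℝ) + 1 / 2 - f i / 2) →
    w P ≤ ∑ i, p i * ((j i : ℝ) + 1 / 2 - f i / 2) →
    ∑ i, p i * ((j i : ℝ) + 1 / 2 - f i / 2) ≤ w P + dmax P → 0 ≤ ∑ i, p i * PsB (f i) (j i)

end Pool.Agent.UniM
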