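import Pool.Agent.UniM.CoinEx
import Pool.Agent.UniM.TStmt
import Pool.Agent.UniM.P3Stmt

/-!
# UniM / LawMk: the law of the coins

Let `l` be the coin list of `U` (`coins_exists`), `P = PP G U`, `n = l.length`, `(s i, f i)` the entries
(`l.get i`), `p i = 2 ^ f i / P`. A sum over `l.map g` is the sum over `Fin n` of `g (l.get i)`
(`List.sum_ofFn`, `List.ofFn_get`). `c1` for the constant `1` gives `P = ∑ 2 ^ f` (`cb_one`), so the `p i` sum
to one and `2 ^ f i ≤ P`. `c2` for `t = 2 θ`, divided by `P`: `∑ p θ^f = (∑ (2 θ)^f) / P ≤ P ^ (logb 3 (1 + 2 θ) - 1)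
= ((1 + 2 θ)/3) ^ logb 3 P`. `size`: `c1` for the indicator of `k` (`cb_ind`, `ik_eq_SS`). `mean`: `c1` for the
identity (`cb_id`, `mu_mul`). `var`: `c1` for the square (`cb_sq`, `va_mul`):
`∑ p (s + f/2)^2 = va + mu^2 - (1/4) ∑ p f`; by (T) and `c3` (divided by `P`)
`va ≤ k1 logb 2 P + (1/4 + k2 - k1) ∑ p f` (`k1_le`).
`va_le`: `∑ p f ≤ logb 2 P` since `2 ^ f i ≤ P`.
-/

namespace Pool.Agent.UniM

variable {V : Type*} [DecidableEq V] {G : SimpleGraph V}

/-- the coin law of `U` -/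
structure CoinLaw (G : SimpleGraph V) (U : Finset V) (n : ℕ) (p : Fin n → ℝ) (s f : Fin n → ℕ) :
    Prop where
  law : Law (PP G U) Finset.univ p f
  size : ∀ k : ℕ, (ik G U k : ℝ) / PP G U = ∑ i, p i * ((ch (f i) ((k : ℤ) - s i) : ℝ) / 2 ^ f i)
  mean : ∑ i, p i * ((s i : ℝ) + f i / 2) = mu G U
  var : ∑ i, p i * ((s i : ℝ) + f i / 2) ^ 2 ≤
    mu G U ^ 2 + ∑ i, p i * (k1 * (Real.logb 2 (PP G U) - f i) + k2 * f i)

private theorem map_sum_get (l : List (ℕ × ℕ)) (g : ℕ × ℕ → ℝ) :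
    (l.map g).sum = ∑ i : Fin l.length, g (l.get i) := by
  conv_lhs => rw [← List.ofFn_get l]
  rw [List.map_ofFn, List.sum_ofFn]
  rfl

private theorem rpow_div {P t : ℝ} (hP : 0 < P) (ht : 0 < t) :
    P ^ (Real.logb 3 (1 + t)) / P = ((1 + t) / 3) ^ (Real.logb 3 P) := by
  have h3 : (0 : ℝ) < 3 := by norm_num
  have h1 : (0 : ℝ) < 1 + t := by linarith
  have hP3 : (3 : ℝ) ^ (Real.logb 3 P) = P := Real.rpow_logb h3 (by norm_num) hP
  have e1 : P ^ (Real.logb 3 (1 + t)) = (1 + t) ^ (Real.logb 3 P) := by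
    rw [Real.rpow_def_of_pos hP, Real.rpow_def_of_pos h1]
    unfold Real.logb
    congr 1
    ring
  rw [e1, Real.div_rpow h1.le h3.le, hP3]

private theorem main_law (hG : G.IsAcyclic) {U : Finset V} (hT : TIneq G U) :
    ∃ (n : ℕ) (p : Fin n → ℝ) (s f : Fin n → ℕ), CoinLaw G U n p s f ∧
      va G U ≤ k1 * Real.logb 2 (PP G U) + (1 / 4 + k2 - k1) * ∑ i, p i * f i := by
  obtain ⟨l, hl⟩ := coins_exists hG U
  have hPn : 0 < PP G U := PP_pos U
  have hP : (0 : ℝ) < PP G U := by exact_mod_cast hPn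
  set P : ℝ := (PP G U : ℝ) with hPdef
  set s : Fin l.length → ℕ := fun i => (l.get i).1 with hs
  set f : Fin l.length → ℕ := fun i => (l.get i).2 with hf
  set p : Fin l.length → ℝ := fun i => 2 ^ f i / P with hp
  -- sums of cb
  have hc1 : ∀ φ : ℕ → ℝ, SS G U φ = ∑ i, cb (f i) (s i) φ := by
    intro φ
    rw [hl.c1 φ, map_sum_get]
  have hone : P = ∑ i, (2 : ℝ) ^ f i := by
    rw [hPdef, PP_eq_SS, hc1]
    exact Finset.sum_congr rfl fun i _ => cb_one _ _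
  have hpx : ∀ x : Fin l.length → ℝ, ∑ i, p i * x i = (∑ i, 2 ^ f i * x i) / P := by
    intro x
    rw [Finset.sum_div]
    refine Finset.sum_congr rfl fun i _ => ?_
    simp only [hp]
    ring
  have hsum : ∑ i, p i = 1 := by
    have h1 := hpx fun _ => 1
    simp only [mul_one] at h1
    rw [h1, ← hone, div_self hP.ne']
  have hnn : ∀ i, 0 ≤ p i := fun i => by
    simp only [hp]
    positivity
  have hfle : ∀ i, (2 : ℝ) ^ f i ≤ P := by
    intro i
    rw [hone]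
    exact Finset.single_le_sum (f := fun i => (2 : ℝ) ^ f i) (fun j _ => by positivity)
      (Finset.mem_univ i)
  have htt : ∀ t : ℝ, 0 < t → t ≤ 2 →
      ∑ i, p i * (t / 2) ^ f i ≤ ((1 + t) / 3) ^ (Real.logb 3 P) := by
    intro t ht ht2
    rw [hpx, ← rpow_div hP ht]
    have h1 := hl.c2 t ht ht2
    rw [map_sum_get] at h1
    refine div_le_div_of_nonneg_right (le_trans (le_of_eq ?_) h1) hP.le
    refine Finset.sum_congr rfl fun i _ => ?_
    rw [← mul_pow]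
    have e1 : 2 * (t / 2) = t := by ring
    rw [e1]
  have hsq : ∑ i, p i * ((s i : ℝ) + f i / 2) ^ 2 =
      va G U + mu G U ^ 2 - 1 / 4 * ∑ i, p i * f i := by
    have h1 := va_mul (G := G) U
    rw [hc1] at h1
    simp only [cb_sq] at h1
    rw [hpx, hpx]
    have h2 : ∑ i, (2 : ℝ) ^ f i * (((s i : ℝ) + f i / 2) ^ 2 + f i / 4) =
        ∑ i, (2 : ℝ) ^ f i * ((s i : ℝ) + f i / 2) ^ 2 + 1 / 4 * ∑ i, (2 : ℝ) ^ f i * f i := by
      rw [Finset.mul_sum, ← Finset.sum_add_distrib]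
      refine Finset.sum_congr rfl fun i _ => ?_
      ring
    rw [h2] at h1
    rw [div_eq_iff hP.ne']
    have h3 : (va G U + mu G U ^ 2 - 1 / 4 * ((∑ i, (2 : ℝ) ^ f i * f i) / P)) * P =
        P * (va G U + mu G U ^ 2) - 1 / 4 * ((∑ i, (2 : ℝ) ^ f i * f i) / P * P) := by ring
    rw [h3, div_mul_cancel₀ _ hP.ne', hPdef, h1]
    ring
  have hva : va G U ≤ k1 * Real.logb 2 P + (1 / 4 + k2 - k1) * ∑ i, p i * f i := by
    obtain ⟨x, hx, h1⟩ := hT
    have h2 := hl.c3 x hx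
    rw [map_sum_get] at h2
    have h3 : 2 * (bs G U x / P) ≤ ∑ i, p i * f i := by
      rw [hpx, ← mul_div_assoc]
      refine div_le_div_of_nonneg_right (h2.trans (le_of_eq ?_)) hP.le
      refine Finset.sum_congr rfl fun i _ => ?_
      simp only [hf]
      ring
    have h4 : 0 ≤ 1 / 4 + k2 - k1 := by linarith [k1_le]
    exact h1.trans (add_le_add le_rfl (mul_le_mul_of_nonneg_left h3 h4))
  have hle : ∀ i ∈ (Finset.univ : Finset (Fin l.length)), 2 ^ f i ≤ PP G U := by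
    intro i _
    have h1 := hfle i
    rw [hPdef] at h1
    exact_mod_cast h1
  have ht5 : ∑ i, p i * (1 / 2 : ℝ) ^ f i ≤ (2 / 3 : ℝ) ^ Real.logb 3 (PP G U) := by
    have h1 := htt 1 one_pos one_le_two
    have e1 : ((1 : ℝ) + 1) / 3 = 2 / 3 := by norm_num
    rw [e1] at h1
    exact h1
  have ht2 : ∑ i, p i * (1 / 5 : ℝ) ^ f i ≤ (7 / 15 : ℝ) ^ Real.logb 3 (PP G U) := by
    have h1 := htt (2 / 5) (by norm_num) (by norm_num)
    have e1 : ((1 : ℝ) + 2 / 5) / 3 = 7 / 15 := by norm_num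
    have e2 : ((2 : ℝ) / 5) / 2 = 1 / 5 := by norm_num
    rw [e1, e2] at h1
    exact h1
  have hta : ∀ θ : ℝ, 0 < θ → θ ≤ 1 →
      ∑ i, p i * θ ^ f i ≤ ((1 + 2 * θ) / 3) ^ Real.logb 3 (PP G U) := by
    intro θ h0 h1
    have h2 := htt (2 * θ) (by linarith) (by linarith)
    have e1 : 2 * θ / 2 = θ := by ring
    rw [e1] at h2
    exact h2
  have hlaw : Law (PP G U) Finset.univ p f := by
    first
    | exact ⟨fun i _ => hnn i, hsum, hle, ht5, ht2⟩
    | exact ⟨fun i _ => hnn i, hsum, hle, hta⟩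
  refine ⟨l.length, p, s, f, ⟨hlaw, ?_, ?_, ?_⟩, hva⟩
  · intro k
    rw [ik_eq_SS, hc1, hpx]
    congr 1
    refine Finset.sum_congr rfl fun i _ => ?_
    rw [cb_ind, mul_div_cancel₀ _ (by positivity)]
  · rw [hpx]
    have h1 := mu_mul (G := G) U
    rw [hc1] at h1
    simp only [cb_id] at h1
    rw [← h1]
    exact mul_div_cancel_left₀ _ hP.ne'
  · rw [hsq]
    have h1 : ∑ i, p i * (k1 * (Real.logb 2 P - f i) + k2 * f i) =
        k1 * Real.logb 2 P * (∑ i, p i) + (k2 - k1) * ∑ i, p i * f i := by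
      rw [Finset.mul_sum, Finset.mul_sum, ← Finset.sum_add_distrib]
      refine Finset.sum_congr rfl fun i _ => ?_
      ring
    rw [h1, hsum]
    linarith

theorem coinLaw_exists (hG : G.IsAcyclic) {U : Finset V} (hT : TIneq G U) :
    ∃ (n : ℕ) (p : Fin n → ℝ) (s f : Fin n → ℕ), CoinLaw G U n p s f := by
  obtain ⟨n, p, s, f, h, -⟩ := main_law hG hT
  exact ⟨n, p, s, f, h⟩

theorem va_le (hG : G.IsAcyclic) {U : Finset V} (hT : TIneq G U) :
    va G U ≤ (1 / 4 + k2) * Real.logb 2 (PP G U) := by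
  obtain ⟨n, p, s, f, h, hv⟩ := main_law hG hT
  have hPn : 0 < PP G U := PP_pos U
  have hP : (0 : ℝ) < PP G U := by exact_mod_cast hPn
  have h1 : ∑ i, p i * f i ≤ Real.logb 2 (PP G U) := by
    have h2 : ∀ i, (f i : ℝ) ≤ Real.logb 2 (PP G U) := by
      intro i
      rw [Real.le_logb_iff_rpow_le (by norm_num) hP, Real.rpow_natCast]
      exact_mod_cast h.law.le i (Finset.mem_univ i)
    calc ∑ i, p i * f i ≤ ∑ i, p i * Real.logb 2 (PP G U) :=
          Finset.sum_le_sum fun i hi => mul_le_mul_of_nonneg_left (h2 i) (h.law.nn i hi)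
      _ = Real.logb 2 (PP G U) := by rw [← Finset.sum_mul, h.law.sum, one_mul]
  have h4 : 0 ≤ 1 / 4 + k2 - k1 := by linarith [k1_le]
  have h5 := mul_le_mul_of_nonneg_left h1 h4
  linarith

end Pool.Agent.UniM
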