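import Pool.Agent.UniM.Rec

/-!
# UniM / Mom: moments and weights

`mu_mul`, `va_mul`: definitions and `PP_pos`. `mu_rec`, `va_rec`: `SS_rec` for `n` and `n ^ 2`, with
`SS_add`, `SS_smul`. `va_nonneg`: Cauchy-Schwarz (`inner_mul_le_norm_mul_norm`,
`Finset.sum_mul_sq_le_sq_mul_sq` or `sq_sum_le_card_mul_sum_sq`). `bs_rec` is `sum_ind_rec` (`v` is not in
the sets `s ∈ ind G (del G U v)`); `bs_eq`: exchange the sums; the number of independent subsets of `U`
which contain `v` is `PP G (del G U v)` (or induction on the sum with `sum_ind_rec`).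
-/

namespace Pool.Agent.UniM

variable {V : Type*} [DecidableEq V] {G : SimpleGraph V}

/-- first moment: `P μ` -/
theorem mu_mul (U : Finset V) : (PP G U : ℝ) * mu G U = SS G U (fun n => (n : ℝ)) := by
  have h : (0 : ℝ) < PP G U := by exact_mod_cast PP_pos U
  unfold mu
  field_simp

/-- second moment: `P (σ² + μ²)` -/
theorem va_mul (U : Finset V) :
    (PP G U : ℝ) * (va G U + mu G U ^ 2) = SS G U (fun n => (n : ℝ) ^ 2) := by
  have h : (0 : ℝ) < PP G U := by exact_mod_cast PP_pos U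
  unfold va
  rw [sub_add_cancel]
  field_simp

theorem mu_rec {U : Finset V} {v : V} (hv : v ∈ U) :
    (PP G U : ℝ) * mu G U = PP G (U.erase v) * mu G (U.erase v) +
      PP G (del G U v) * (mu G (del G U v) + 1) := by
  rw [mu_mul, mul_add, mu_mul, mu_mul, mul_one, PP_eq_SS (del G U v), SS_rec hv, ← SS_add]
  have h : (fun n : ℕ => ((n + 1 : ℕ) : ℝ)) = fun n : ℕ => (n : ℝ) + 1 := by
    funext n
    push_cast
    rfl
  rw [h]

/-- second moment at a vertex -/
theorem va_rec {U : Finset V} {v : V} (hv : v ∈ U) :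
    (PP G U : ℝ) * (va G U + mu G U ^ 2) =
      PP G (U.erase v) * (va G (U.erase v) + mu G (U.erase v) ^ 2) +
      PP G (del G U v) * (va G (del G U v) + (mu G (del G U v) + 1) ^ 2) := by
  have h1 : (PP G (del G U v) : ℝ) * (va G (del G U v) + (mu G (del G U v) + 1) ^ 2) =
      PP G (del G U v) * (va G (del G U v) + mu G (del G U v) ^ 2) +
      (2 * (PP G (del G U v) * mu G (del G U v)) + PP G (del G U v)) := by ring
  rw [h1, va_mul, va_mul, va_mul, mu_mul, SS_rec hv, PP_eq_SS (del G U v), ← SS_smul, ← SS_add,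
    ← SS_add]
  have h : (fun n : ℕ => ((n + 1 : ℕ) : ℝ) ^ 2) =
      fun n : ℕ => (n : ℝ) ^ 2 + (2 * (n : ℝ) + 1) := by
    funext n
    push_cast
    ring
  rw [h]

theorem mu_nonneg (U : Finset V) : 0 ≤ mu G U := by
  unfold mu SS
  exact div_nonneg (Finset.sum_nonneg fun s _ => Nat.cast_nonneg _) (Nat.cast_nonneg _)

theorem va_nonneg (U : Finset V) : 0 ≤ va G U := by
  have h : (0 : ℝ) < PP G U := by exact_mod_cast PP_pos U
  have h1 : (∑ s ∈ ind G U, (s.card : ℝ)) ^ 2 ≤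
      ((ind G U).card : ℝ) * ∑ s ∈ ind G U, (s.card : ℝ) ^ 2 := sq_sum_le_card_mul_sum_sq
  have h2 : SS G U (fun n => (n : ℝ)) ^ 2 ≤ PP G U * SS G U (fun n => (n : ℝ) ^ 2) := h1
  unfold va mu
  rw [sub_nonneg, div_pow, div_le_div_iff₀ (by positivity) h]
  calc SS G U (fun n => (n : ℝ)) ^ 2 * (PP G U : ℝ)
      ≤ (PP G U * SS G U (fun n => (n : ℝ) ^ 2)) * (PP G U : ℝ) :=
        mul_le_mul_of_nonneg_right h2 h.le
    _ = SS G U (fun n => (n : ℝ) ^ 2) * (PP G U : ℝ) ^ 2 := by ring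

/-- recursion for the total weight -/
theorem bs_rec {U : Finset V} {v : V} (hv : v ∈ U) (x : V → ℝ) :
    bs G U x = bs G (U.erase v) x + (bs G (del G U v) x + PP G (del G U v) * x v) := by
  unfold bs
  rw [sum_ind_rec hv (fun s => ∑ w ∈ s, x w)]
  congr 1
  have h : ∀ s ∈ ind G (del G U v), ∑ w ∈ insert v s, x w = ∑ w ∈ s, x w + x v := by
    intro s hs
    have hvs : v ∉ s := fun hin => (mem_del.1 ((mem_ind.1 hs).1 hin)).2.1 rfl
    rw [Finset.sum_insert hvs, add_comm]
  rw [Finset.sum_congr rfl h, Finset.sum_add_distrib, Finset.sum_const, nsmul_eq_mul]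
  rfl

/-- double counting -/
theorem bs_eq (U : Finset V) (x : V → ℝ) :
    bs G U x = ∑ v ∈ U, x v * (PP G (del G U v) : ℝ) := by
  have h1 : ∀ s ∈ ind G U, ∑ v ∈ s, x v = ∑ v ∈ U, if v ∈ s then x v else 0 := by
    intro s hs
    rw [← Finset.sum_filter]
    refine Finset.sum_congr ?_ fun _ _ => rfl
    ext v
    rw [Finset.mem_filter]
    exact ⟨fun hv => ⟨(mem_ind.1 hs).1 hv, hv⟩, fun hv => hv.2⟩
  unfold bs
  rw [Finset.sum_congr rfl h1, Finset.sum_comm]
  refine Finset.sum_congr rfl fun v hv => ?_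
  rw [sum_ind_rec hv (fun s => if v ∈ s then x v else 0)]
  have h2 : ∑ s ∈ ind G (U.erase v), (if v ∈ s then x v else 0) = 0 := by
    refine Finset.sum_eq_zero fun s hs => ?_
    have hvs : v ∉ s := fun hin => (Finset.mem_erase.1 ((mem_ind.1 hs).1 hin)).1 rfl
    rw [if_neg hvs]
  have h3 : ∑ s ∈ ind G (del G U v), (if v ∈ insert v s then x v else 0) =
      ∑ s ∈ ind G (del G U v), x v := by
    refine Finset.sum_congr rfl fun s _ => ?_
    rw [if_pos (Finset.mem_insert_self v s)]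
  rw [h2, h3, zero_add, Finset.sum_const, nsmul_eq_mul, mul_comm]
  rfl

theorem bs_congr {U : Finset V} {x y : V → ℝ} (h : ∀ v ∈ U, x v = y v) :
    bs G U x = bs G U y := by
  unfold bs
  refine Finset.sum_congr rfl fun s hs => Finset.sum_congr rfl fun v hv => ?_
  exact h v ((mem_ind.1 hs).1 hv)

theorem bs_nonneg {U : Finset V} {x : V → ℝ} (h : ∀ v ∈ U, 0 ≤ x v) : 0 ≤ bs G U x := by
  unfold bs
  refine Finset.sum_nonneg fun s hs => Finset.sum_nonneg fun v hv => ?_
  exact h v ((mem_ind.1 hs).1 hv)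

end Pool.Agent.UniM
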