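import Pool.Agent.UniM.P2Iv

/-!
# UniM / P2Chk: the interval check of the closure step on one cell
-/

set_option autoImplicit false

namespace Pool.Agent.UniM

open Ja

/-- a cell: intervals for `W`, `1 / W`, `q`, `w`, `1 / w` and a lower bound of the weight -/
structure Bx where
  W : Ja
  u : Ja
  q : Ja
  w : Ja
  v : Ja
  x : Ja

/-- real numbers in a cell -/
structure InBx (B : Bx) (W u q w v x : ℝ) : Prop where
  hW : Mem W B.W
  hu : Mem u B.u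
  hq : Mem q B.q
  hw : Mem w B.w
  hv : Mem v B.v
  hx : Mem x B.x

namespace Bx

/-- `1 - q` -/
def A (B : Bx) : Ja := sub (cst 1 1) B.q

/-- `1 - W / 2` -/
def l (B : Bx) : Ja := sub (cst 1 1) (mul (cst 1 2) B.W)

def ea (th : Int) : Ja := cst (58 * th) 2000
def eb (th : Int) : Ja := cst (13 * th - 64 * (20 - th)) 2000
def ec (th : Int) : Ja := cst (25 * th - 70 * (20 - th)) 20000
def pa (ph : Int) : Ja := cst ph 40
def pb (ph k : Int) : Ja := cst (-3 * ph + 163 * (20 - ph) - k) 2000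
def pc (ph : Int) : Ja := cst (99 * ph + 88 * (20 - ph)) 20000

/-- `1 - q + 29 / 50 q v` -/
def k (B : Bx) : Ja := add B.A (mul (cst 29 50) (mul B.q B.v))

/-- check of the first inequality -/
def chk0 (B : Bx) (th ph : Int) : Bool :=
  chk (sub (add (mul (ea th) B.A) (mul (pa ph) B.q)) (mul B.W (mul B.q B.k)))
    (add (add (mul B.A (eb th)) (mul B.q (pb ph 900)))
      (mul (mul B.q B.l) (add (mul (cst 2 1) B.A) (mul (cst 29 25) (mul B.q B.v)))))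
    (add (add (mul B.A (ec th)) (mul B.q (pc ph)))
      (mul B.u (sub (mul B.q (add (mul (cst 7 20) B.x) (mul B.l (sub (cst 9 20) (mul B.l B.k)))))
        (mul (cst 1 200) B.w))))

/-- check of the second inequality -/
def chk1 (B : Bx) (th ph : Int) : Bool :=
  chk (sub (add (mul (ea th) B.A) (mul (pa ph) B.q)) (mul B.W (mul B.q B.A)))
    (add (add (mul B.A (eb th)) (mul B.q (pb ph 1280))) (mul (mul B.q B.l) (mul (cst 2 1) B.A)))
    (add (add (mul B.A (ec th)) (mul B.q (pc ph)))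
      (mul B.u (sub (mul B.q (add (mul (cst 7 20) B.x) (mul B.l (sub (cst 16 25) (mul B.l B.A)))))
        (mul (cst 3 20) B.w))))

/-- check of the third inequality -/
def chk2 (B : Bx) (th : Int) : Bool :=
  chk (sub (ea th) (mul (mul (cst 1 2) B.W) (mul B.q (mul B.q B.v))))
    (add (eb th) (mul B.q (sub (mul (mul B.q B.v) B.l) (cst 53 100))))
    (add (ec th) (mul B.u (sub (mul (mul B.q B.l) (sub (cst 53 100) (mul (cst 1 2) (mul (mul B.q B.v) B.l))))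
      (mul (cst 139 1000) B.w))))

/-- check of the fourth inequality -/
def chk3 (B : Bx) (th : Int) : Bool :=
  chk (ea th) (add (eb th) (mul (cst 163 100) B.q))
    (add (ec th) (mul B.u (sub (mul (cst 827 1000) B.w) (mul (cst 163 100) (mul B.q B.l)))))

end Bx

section sound

variable {B : Bx} {W u q w v x : ℝ}

theorem InBx.hA (h : InBx B W u q w v x) : Mem (1 - q) B.A := by
  have h1 := mem_sub (mem_cst 1 1 (by norm_num)) h.hq
  norm_num at h1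
  exact h1

theorem InBx.hl (h : InBx B W u q w v x) : Mem (1 - 1 / 2 * W) B.l := by
  have h1 := mem_sub (mem_cst 1 1 (by norm_num)) (mem_mul (mem_cst 1 2 (by norm_num)) h.hW)
  norm_num at h1
  norm_num
  exact h1

theorem mem_ea (th : Int) : Mem (29 / 50 * ((th : ℝ) / 20)) (Bx.ea th) := by
  have h := mem_cst (58 * th) 2000 (by norm_num)
  have e : ((58 * th : Int) : ℝ) / ((2000 : Int) : ℝ) = 29 / 50 * ((th : ℝ) / 20) := by
    push_cast
    ring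
  rw [e] at h
  exact h

theorem mem_eb (th : Int) : Mem (13 / 100 * ((th : ℝ) / 20) - 16 / 25 * (1 - (th : ℝ) / 20)) (Bx.eb th) := by
  have h := mem_cst (13 * th - 64 * (20 - th)) 2000 (by norm_num)
  have e : ((13 * th - 64 * (20 - th) : Int) : ℝ) / ((2000 : Int) : ℝ) =
      13 / 100 * ((th : ℝ) / 20) - 16 / 25 * (1 - (th : ℝ) / 20) := by
    push_cast
    ring
  rw [e] at h
  exact h

theorem mem_ec (th : Int) : Mem (1 / 40 * ((th : ℝ) / 20) - 7 / 100 * (1 - (th : ℝ) / 20)) (Bx.ec th) := by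
  have h := mem_cst (25 * th - 70 * (20 - th)) 20000 (by norm_num)
  have e : ((25 * th - 70 * (20 - th) : Int) : ℝ) / ((20000 : Int) : ℝ) =
      1 / 40 * ((th : ℝ) / 20) - 7 / 100 * (1 - (th : ℝ) / 20) := by
    push_cast
    ring
  rw [e] at h
  exact h

theorem mem_pa (ph : Int) : Mem (1 / 2 * ((ph : ℝ) / 20)) (Bx.pa ph) := by
  have h := mem_cst ph 40 (by norm_num)
  have e : (ph : ℝ) / ((40 : Int) : ℝ) = 1 / 2 * ((ph : ℝ) / 20) := by
    push_cast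
    ring
  rw [e] at h
  exact h

theorem mem_pb (ph k : Int) : Mem (-(3 / 100) * ((ph : ℝ) / 20) + 163 / 100 * (1 - (ph : ℝ) / 20) - k / 2000)
    (Bx.pb ph k) := by
  have h := mem_cst (-3 * ph + 163 * (20 - ph) - k) 2000 (by norm_num)
  have e : ((-3 * ph + 163 * (20 - ph) - k : Int) : ℝ) / ((2000 : Int) : ℝ) =
      -(3 / 100) * ((ph : ℝ) / 20) + 163 / 100 * (1 - (ph : ℝ) / 20) - k / 2000 := by
    push_cast
    ring
  rw [e] at h
  exact h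

theorem mem_pc (ph : Int) : Mem (99 / 1000 * ((ph : ℝ) / 20) + 11 / 125 * (1 - (ph : ℝ) / 20)) (Bx.pc ph) := by
  have h := mem_cst (99 * ph + 88 * (20 - ph)) 20000 (by norm_num)
  have e : ((99 * ph + 88 * (20 - ph) : Int) : ℝ) / ((20000 : Int) : ℝ) =
      99 / 1000 * ((ph : ℝ) / 20) + 11 / 125 * (1 - (ph : ℝ) / 20) := by
    push_cast
    ring
  rw [e] at h
  exact h

/-- constants in the form `p / d` -/
theorem mem_c (p d : Int) (hd : 0 < d) (r : ℝ) (hr : (p : ℝ) / d = r) : Mem r (cst p d) := by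
  rw [← hr]
  exact mem_cst p d hd

theorem InBx.hk (h : InBx B W u q w v x) : Mem (1 - q + 29 / 50 * (q * v)) B.k :=
  mem_add h.hA (mem_mul (mem_c 29 50 (by norm_num) _ (by norm_num)) (mem_mul h.hq h.hv))

/-- first inequality, as a quadratic in `σ = S / W` -/
theorem chk0_sound (h : InBx B W u q w v x) {th ph : Int} (hc : B.chk0 th ph = true) (s : ℝ) :
    0 ≤ (29 / 50 * ((th : ℝ) / 20) * (1 - q) + 1 / 2 * ((ph : ℝ) / 20) * q -
        W * (q * (1 - q + 29 / 50 * (q * v)))) * s ^ 2 +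
      ((1 - q) * (13 / 100 * ((th : ℝ) / 20) - 16 / 25 * (1 - (th : ℝ) / 20)) +
        q * (-(3 / 100) * ((ph : ℝ) / 20) + 163 / 100 * (1 - (ph : ℝ) / 20) - (900 : Int) / 2000) +
        q * (1 - 1 / 2 * W) * (2 * (1 - q) + 29 / 25 * (q * v))) * s +
      ((1 - q) * (1 / 40 * ((th : ℝ) / 20) - 7 / 100 * (1 - (th : ℝ) / 20)) +
        q * (99 / 1000 * ((ph : ℝ) / 20) + 11 / 125 * (1 - (ph : ℝ) / 20)) +
        u * (q * (7 / 20 * x + (1 - 1 / 2 * W) * (9 / 20 - (1 - 1 / 2 * W) * (1 - q + 29 / 50 * (q * v)))) -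
          1 / 200 * w)) := by
  refine chk_sound hc ?_ ?_ ?_ s
  · exact mem_sub (mem_add (mem_mul (mem_ea th) h.hA) (mem_mul (mem_pa ph) h.hq))
      (mem_mul h.hW (mem_mul h.hq h.hk))
  · exact mem_add (mem_add (mem_mul h.hA (mem_eb th)) (mem_mul h.hq (mem_pb ph 900)))
      (mem_mul (mem_mul h.hq h.hl) (mem_add (mem_mul (mem_c 2 1 (by norm_num) _ (by norm_num)) h.hA)
        (mem_mul (mem_c 29 25 (by norm_num) _ (by norm_num)) (mem_mul h.hq h.hv))))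
  · exact mem_add (mem_add (mem_mul h.hA (mem_ec th)) (mem_mul h.hq (mem_pc ph)))
      (mem_mul h.hu (mem_sub (mem_mul h.hq (mem_add (mem_mul (mem_c 7 20 (by norm_num) _ (by norm_num)) h.hx)
        (mem_mul h.hl (mem_sub (mem_c 9 20 (by norm_num) _ (by norm_num)) (mem_mul h.hl h.hk)))))
        (mem_mul (mem_c 1 200 (by norm_num) _ (by norm_num)) h.hw)))

/-- second inequality -/
theorem chk1_sound (h : InBx B W u q w v x) {th ph : Int} (hc : B.chk1 th ph = true) (s : ℝ) :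
    0 ≤ (29 / 50 * ((th : ℝ) / 20) * (1 - q) + 1 / 2 * ((ph : ℝ) / 20) * q - W * (q * (1 - q))) * s ^ 2 +
      ((1 - q) * (13 / 100 * ((th : ℝ) / 20) - 16 / 25 * (1 - (th : ℝ) / 20)) +
        q * (-(3 / 100) * ((ph : ℝ) / 20) + 163 / 100 * (1 - (ph : ℝ) / 20) - (1280 : Int) / 2000) +
        q * (1 - 1 / 2 * W) * (2 * (1 - q))) * s +
      ((1 - q) * (1 / 40 * ((th : ℝ) / 20) - 7 / 100 * (1 - (th : ℝ) / 20)) +
        q * (99 / 1000 * ((ph : ℝ) / 20) + 11 / 125 * (1 - (ph : ℝ) / 20)) +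
        u * (q * (7 / 20 * x + (1 - 1 / 2 * W) * (16 / 25 - (1 - 1 / 2 * W) * (1 - q))) - 3 / 20 * w)) := by
  refine chk_sound hc ?_ ?_ ?_ s
  · exact mem_sub (mem_add (mem_mul (mem_ea th) h.hA) (mem_mul (mem_pa ph) h.hq))
      (mem_mul h.hW (mem_mul h.hq h.hA))
  · exact mem_add (mem_add (mem_mul h.hA (mem_eb th)) (mem_mul h.hq (mem_pb ph 1280)))
      (mem_mul (mem_mul h.hq h.hl) (mem_mul (mem_c 2 1 (by norm_num) _ (by norm_num)) h.hA))
  · exact mem_add (mem_add (mem_mul h.hA (mem_ec th)) (mem_mul h.hq (mem_pc ph)))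
      (mem_mul h.hu (mem_sub (mem_mul h.hq (mem_add (mem_mul (mem_c 7 20 (by norm_num) _ (by norm_num)) h.hx)
        (mem_mul h.hl (mem_sub (mem_c 16 25 (by norm_num) _ (by norm_num)) (mem_mul h.hl h.hA)))))
        (mem_mul (mem_c 3 20 (by norm_num) _ (by norm_num)) h.hw)))

/-- third inequality -/
theorem chk2_sound (h : InBx B W u q w v x) {th : Int} (hc : B.chk2 th = true) (s : ℝ) :
    0 ≤ (29 / 50 * ((th : ℝ) / 20) - 1 / 2 * W * (q * (q * v))) * s ^ 2 +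
      (13 / 100 * ((th : ℝ) / 20) - 16 / 25 * (1 - (th : ℝ) / 20) +
        q * (q * v * (1 - 1 / 2 * W) - 53 / 100)) * s +
      (1 / 40 * ((th : ℝ) / 20) - 7 / 100 * (1 - (th : ℝ) / 20) +
        u * (q * (1 - 1 / 2 * W) * (53 / 100 - 1 / 2 * (q * v * (1 - 1 / 2 * W))) - 139 / 1000 * w)) := by
  refine chk_sound hc ?_ ?_ ?_ s
  · exact mem_sub (mem_ea th) (mem_mul (mem_mul (mem_c 1 2 (by norm_num) _ (by norm_num)) h.hW)
      (mem_mul h.hq (mem_mul h.hq h.hv)))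
  · exact mem_add (mem_eb th) (mem_mul h.hq (mem_sub (mem_mul (mem_mul h.hq h.hv) h.hl)
      (mem_c 53 100 (by norm_num) _ (by norm_num))))
  · exact mem_add (mem_ec th) (mem_mul h.hu (mem_sub (mem_mul (mem_mul h.hq h.hl)
      (mem_sub (mem_c 53 100 (by norm_num) _ (by norm_num)) (mem_mul (mem_c 1 2 (by norm_num) _ (by norm_num))
        (mem_mul (mem_mul h.hq h.hv) h.hl)))) (mem_mul (mem_c 139 1000 (by norm_num) _ (by norm_num)) h.hw)))

/-- fourth inequality -/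
theorem chk3_sound (h : InBx B W u q w v x) {th : Int} (hc : B.chk3 th = true) (s : ℝ) :
    0 ≤ (29 / 50 * ((th : ℝ) / 20)) * s ^ 2 +
      (13 / 100 * ((th : ℝ) / 20) - 16 / 25 * (1 - (th : ℝ) / 20) + 163 / 100 * q) * s +
      (1 / 40 * ((th : ℝ) / 20) - 7 / 100 * (1 - (th : ℝ) / 20) +
        u * (827 / 1000 * w - 163 / 100 * (q * (1 - 1 / 2 * W)))) := by
  refine chk_sound hc ?_ ?_ ?_ s
  · exact mem_ea th
  · exact mem_add (mem_eb th) (mem_mul (mem_c 163 100 (by norm_num) _ (by norm_num)) h.hq)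
  · exact mem_add (mem_ec th) (mem_mul h.hu (mem_sub (mem_mul (mem_c 827 1000 (by norm_num) _ (by norm_num)) h.hw)
      (mem_mul (mem_c 163 100 (by norm_num) _ (by norm_num)) (mem_mul h.hq h.hl))))

end sound

/-- lower bounds for `E` and `T` by convex combinations of the two pieces -/
theorem Inv.E_ge {W S E T : ℝ} (hW : 0 < W) (h : Inv W S E T) {θ : ℝ} (h0 : 0 ≤ θ) (h1 : θ ≤ 1) :
    W * (θ * (29 / 50 * (S / W) ^ 2 + 13 / 100 * (S / W) + 1 / 40) +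
      (1 - θ) * (-(16 / 25) * (S / W) - 7 / 100)) ≤ E := by
  have e1 : W * (29 / 50 * (S / W) ^ 2 + 13 / 100 * (S / W) + 1 / 40) ≤ E := by
    have h2 := h.i1
    have h3 : W * (29 / 50 * (S / W) ^ 2 + 13 / 100 * (S / W) + 1 / 40) =
        (29 / 50 * S ^ 2 + 13 / 100 * S * W + 1 / 40 * W ^ 2) / W := by
      field_simp
    rw [h3, div_le_iff₀ hW]
    exact h2
  have e2 : W * (-(16 / 25) * (S / W) - 7 / 100) ≤ E := by
    have h2 := h.i2
    have h3 : W * (-(16 / 25) * (S / W) - 7 / 100) = -(16 / 25) * S - 7 / 100 * W := by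
      field_simp
    rw [h3]
    exact h2
  nlinarith [mul_le_mul_of_nonneg_left e1 h0, mul_le_mul_of_nonneg_left e2 (sub_nonneg.2 h1)]

theorem Inv.T_ge {W S E T : ℝ} (hW : 0 < W) (h : Inv W S E T) {θ : ℝ} (h0 : 0 ≤ θ) (h1 : θ ≤ 1) :
    W * (θ * (1 / 2 * (S / W) ^ 2 - 3 / 100 * (S / W) + 99 / 1000) +
      (1 - θ) * (163 / 100 * (S / W) + 11 / 125)) ≤ T := by
  have e1 : W * (1 / 2 * (S / W) ^ 2 - 3 / 100 * (S / W) + 99 / 1000) ≤ T := by
    have h2 := h.i3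
    have h3 : W * (1 / 2 * (S / W) ^ 2 - 3 / 100 * (S / W) + 99 / 1000) =
        (1 / 2 * S ^ 2 - 3 / 100 * S * W + 99 / 1000 * W ^ 2) / W := by
      field_simp
    rw [h3, div_le_iff₀ hW]
    exact h2
  have e2 : W * (163 / 100 * (S / W) + 11 / 125) ≤ T := by
    have h2 := h.i4
    have h3 : W * (163 / 100 * (S / W) + 11 / 125) = 163 / 100 * S + 11 / 125 * W := by
      field_simp
    rw [h3]
    exact h2
  nlinarith [mul_le_mul_of_nonneg_left e1 h0, mul_le_mul_of_nonneg_left e2 (sub_nonneg.2 h1)]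

theorem step0 {W S E T q w X x θ φ : ℝ} (hW : 0 < W) (hw : 0 < w) (hq0 : 0 ≤ q) (hq1 : q ≤ 1) (hx : x ≤ X)
    (hE : W * (θ * (29 / 50 * (S / W) ^ 2 + 13 / 100 * (S / W) + 1 / 40) +
      (1 - θ) * (-(16 / 25) * (S / W) - 7 / 100)) ≤ E)
    (hT : W * (φ * (1 / 2 * (S / W) ^ 2 - 3 / 100 * (S / W) + 99 / 1000) +
      (1 - φ) * (163 / 100 * (S / W) + 11 / 125)) ≤ T)
    (h0 : 0 ≤ (29 / 50 * θ * (1 - q) + 1 / 2 * φ * q -
        W * (q * (1 - q + 29 / 50 * (q * w⁻¹)))) * (S / W) ^ 2 +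
      ((1 - q) * (13 / 100 * θ - 16 / 25 * (1 - θ)) +
        q * (-(3 / 100) * φ + 163 / 100 * (1 - φ) - 900 / 2000) +
        q * (1 - 1 / 2 * W) * (2 * (1 - q) + 29 / 25 * (q * w⁻¹))) * (S / W) +
      ((1 - q) * (1 / 40 * θ - 7 / 100 * (1 - θ)) +
        q * (99 / 1000 * φ + 11 / 125 * (1 - φ)) +
        W⁻¹ * (q * (7 / 20 * x + (1 - 1 / 2 * W) * (9 / 20 - (1 - 1 / 2 * W) *
          (1 - q + 29 / 50 * (q * w⁻¹)))) - 1 / 200 * w))) :
    29 / 50 * (q * (1 - W / 2 - S) - w / 2) ^ 2 + 13 / 100 * (q * (1 - W / 2 - S) - w / 2) * w +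
      1 / 40 * w ^ 2 ≤
    (1 / 10 * w + (1 - q) * E + q * (7 / 20 * X + T) - q * (1 - q) * (1 - W / 2 - S) ^ 2) * w := by
  have hE' := mul_le_mul_of_nonneg_left hE (sub_nonneg.2 hq1)
  have hT' := mul_le_mul_of_nonneg_left hT hq0
  have hx' := mul_le_mul_of_nonneg_left hx hq0
  have key : (1 / 10 * w + (1 - q) * (W * (θ * (29 / 50 * (S / W) ^ 2 + 13 / 100 * (S / W) + 1 / 40) +
      (1 - θ) * (-(16 / 25) * (S / W) - 7 / 100))) + q * (7 / 20 * x + (W * (φ * (1 / 2 * (S / W) ^ 2 -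
      3 / 100 * (S / W) + 99 / 1000) + (1 - φ) * (163 / 100 * (S / W) + 11 / 125)))) -
      q * (1 - q) * (1 - W / 2 - S) ^ 2) * w -
      (29 / 50 * (q * (1 - W / 2 - S) - w / 2) ^ 2 + 13 / 100 * (q * (1 - W / 2 - S) - w / 2) * w +
      1 / 40 * w ^ 2) =
      w * (W * ((29 / 50 * θ * (1 - q) + 1 / 2 * φ * q -
        W * (q * (1 - q + 29 / 50 * (q * w⁻¹)))) * (S / W) ^ 2 +
      ((1 - q) * (13 / 100 * θ - 16 / 25 * (1 - θ)) +
        q * (-(3 / 100) * φ + 163 / 100 * (1 - φ) - 900 / 2000) +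
        q * (1 - 1 / 2 * W) * (2 * (1 - q) + 29 / 25 * (q * w⁻¹))) * (S / W) +
      ((1 - q) * (1 / 40 * θ - 7 / 100 * (1 - θ)) +
        q * (99 / 1000 * φ + 11 / 125 * (1 - φ)) +
        W⁻¹ * (q * (7 / 20 * x + (1 - 1 / 2 * W) * (9 / 20 - (1 - 1 / 2 * W) *
          (1 - q + 29 / 50 * (q * w⁻¹)))) - 1 / 200 * w)))) := by
    field_simp
    ring
  have hpos := mul_nonneg hw.le (mul_nonneg hW.le h0)
  have hle : 1 / 10 * w + (1 - q) * (W * (θ * (29 / 50 * (S / W) ^ 2 + 13 / 100 * (S / W) + 1 / 40) +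
      (1 - θ) * (-(16 / 25) * (S / W) - 7 / 100))) + q * (7 / 20 * x + (W * (φ * (1 / 2 * (S / W) ^ 2 -
      3 / 100 * (S / W) + 99 / 1000) + (1 - φ) * (163 / 100 * (S / W) + 11 / 125)))) -
      q * (1 - q) * (1 - W / 2 - S) ^ 2 ≤
      1 / 10 * w + (1 - q) * E + q * (7 / 20 * X + T) - q * (1 - q) * (1 - W / 2 - S) ^ 2 := by
    linarith
  have := mul_le_mul_of_nonneg_right hle hw.le
  linarith

theorem step1 {W S E T q w X x θ φ : ℝ} (hW : 0 < W) (hq0 : 0 ≤ q) (hq1 : q ≤ 1) (hx : x ≤ X)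
    (hE : W * (θ * (29 / 50 * (S / W) ^ 2 + 13 / 100 * (S / W) + 1 / 40) +
      (1 - θ) * (-(16 / 25) * (S / W) - 7 / 100)) ≤ E)
    (hT : W * (φ * (1 / 2 * (S / W) ^ 2 - 3 / 100 * (S / W) + 99 / 1000) +
      (1 - φ) * (163 / 100 * (S / W) + 11 / 125)) ≤ T)
    (h0 : 0 ≤ (29 / 50 * θ * (1 - q) + 1 / 2 * φ * q - W * (q * (1 - q))) * (S / W) ^ 2 +
      ((1 - q) * (13 / 100 * θ - 16 / 25 * (1 - θ)) +
        q * (-(3 / 100) * φ + 163 / 100 * (1 - φ) - 1280 / 2000) +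
        q * (1 - 1 / 2 * W) * (2 * (1 - q))) * (S / W) +
      ((1 - q) * (1 / 40 * θ - 7 / 100 * (1 - θ)) +
        q * (99 / 1000 * φ + 11 / 125 * (1 - φ)) +
        W⁻¹ * (q * (7 / 20 * x + (1 - 1 / 2 * W) * (16 / 25 - (1 - 1 / 2 * W) * (1 - q))) -
          3 / 20 * w))) :
    -(16 / 25) * (q * (1 - W / 2 - S) - w / 2) - 7 / 100 * w ≤
    1 / 10 * w + (1 - q) * E + q * (7 / 20 * X + T) - q * (1 - q) * (1 - W / 2 - S) ^ 2 := by
  have hE' := mul_le_mul_of_nonneg_left hE (sub_nonneg.2 hq1)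
  have hT' := mul_le_mul_of_nonneg_left hT hq0
  have hx' := mul_le_mul_of_nonneg_left hx hq0
  have key : (1 / 10 * w + (1 - q) * (W * (θ * (29 / 50 * (S / W) ^ 2 + 13 / 100 * (S / W) + 1 / 40) +
      (1 - θ) * (-(16 / 25) * (S / W) - 7 / 100))) + q * (7 / 20 * x + (W * (φ * (1 / 2 * (S / W) ^ 2 -
      3 / 100 * (S / W) + 99 / 1000) + (1 - φ) * (163 / 100 * (S / W) + 11 / 125)))) -
      q * (1 - q) * (1 - W / 2 - S) ^ 2) -
      (-(16 / 25) * (q * (1 - W / 2 - S) - w / 2) - 7 / 100 * w) =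
      W * ((29 / 50 * θ * (1 - q) + 1 / 2 * φ * q - W * (q * (1 - q))) * (S / W) ^ 2 +
      ((1 - q) * (13 / 100 * θ - 16 / 25 * (1 - θ)) +
        q * (-(3 / 100) * φ + 163 / 100 * (1 - φ) - 1280 / 2000) +
        q * (1 - 1 / 2 * W) * (2 * (1 - q))) * (S / W) +
      ((1 - q) * (1 / 40 * θ - 7 / 100 * (1 - θ)) +
        q * (99 / 1000 * φ + 11 / 125 * (1 - φ)) +
        W⁻¹ * (q * (7 / 20 * x + (1 - 1 / 2 * W) * (16 / 25 - (1 - 1 / 2 * W) * (1 - q))) -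
          3 / 20 * w))) := by
    field_simp
    ring
  have hpos := mul_nonneg hW.le h0
  linarith

theorem step2 {W S E q w θ : ℝ} (hW : 0 < W) (hw : 0 < w)
    (hE : W * (θ * (29 / 50 * (S / W) ^ 2 + 13 / 100 * (S / W) + 1 / 40) +
      (1 - θ) * (-(16 / 25) * (S / W) - 7 / 100)) ≤ E)
    (h0 : 0 ≤ (29 / 50 * θ - 1 / 2 * W * (q * (q * w⁻¹))) * (S / W) ^ 2 +
      (13 / 100 * θ - 16 / 25 * (1 - θ) + q * (q * w⁻¹ * (1 - 1 / 2 * W) - 53 / 100)) * (S / W) +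
      (1 / 40 * θ - 7 / 100 * (1 - θ) +
        W⁻¹ * (q * (1 - 1 / 2 * W) * (53 / 100 - 1 / 2 * (q * w⁻¹ * (1 - 1 / 2 * W))) -
          139 / 1000 * w))) :
    1 / 2 * (q * (1 - W / 2 - S) - w / 2) ^ 2 - 3 / 100 * (q * (1 - W / 2 - S) - w / 2) * w +
      99 / 1000 * w ^ 2 ≤ (1 / 10 * w + E) * w := by
  have key : (1 / 10 * w + W * (θ * (29 / 50 * (S / W) ^ 2 + 13 / 100 * (S / W) + 1 / 40) +
      (1 - θ) * (-(16 / 25) * (S / W) - 7 / 100))) * w -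
      (1 / 2 * (q * (1 - W / 2 - S) - w / 2) ^ 2 - 3 / 100 * (q * (1 - W / 2 - S) - w / 2) * w +
      99 / 1000 * w ^ 2) =
      w * (W * ((29 / 50 * θ - 1 / 2 * W * (q * (q * w⁻¹))) * (S / W) ^ 2 +
      (13 / 100 * θ - 16 / 25 * (1 - θ) + q * (q * w⁻¹ * (1 - 1 / 2 * W) - 53 / 100)) * (S / W) +
      (1 / 40 * θ - 7 / 100 * (1 - θ) +
        W⁻¹ * (q * (1 - 1 / 2 * W) * (53 / 100 - 1 / 2 * (q * w⁻¹ * (1 - 1 / 2 * W))) -
          139 / 1000 * w)))) := by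
    field_simp
    ring
  have hpos := mul_nonneg hw.le (mul_nonneg hW.le h0)
  have := mul_le_mul_of_nonneg_right (add_le_add_right hE (1 / 10 * w)) hw.le
  linarith

theorem step3 {W S E q w θ : ℝ} (hW : 0 < W)
    (hE : W * (θ * (29 / 50 * (S / W) ^ 2 + 13 / 100 * (S / W) + 1 / 40) +
      (1 - θ) * (-(16 / 25) * (S / W) - 7 / 100)) ≤ E)
    (h0 : 0 ≤ (29 / 50 * θ) * (S / W) ^ 2 +
      (13 / 100 * θ - 16 / 25 * (1 - θ) + 163 / 100 * q) * (S / W) +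
      (1 / 40 * θ - 7 / 100 * (1 - θ) +
        W⁻¹ * (827 / 1000 * w - 163 / 100 * (q * (1 - 1 / 2 * W))))) :
    163 / 100 * (q * (1 - W / 2 - S) - w / 2) + 11 / 125 * w ≤ 1 / 10 * w + E := by
  have key : (1 / 10 * w + W * (θ * (29 / 50 * (S / W) ^ 2 + 13 / 100 * (S / W) + 1 / 40) +
      (1 - θ) * (-(16 / 25) * (S / W) - 7 / 100))) -
      (163 / 100 * (q * (1 - W / 2 - S) - w / 2) + 11 / 125 * w) =
      W * ((29 / 50 * θ) * (S / W) ^ 2 +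
      (13 / 100 * θ - 16 / 25 * (1 - θ) + 163 / 100 * q) * (S / W) +
      (1 / 40 * θ - 7 / 100 * (1 - θ) +
        W⁻¹ * (827 / 1000 * w - 163 / 100 * (q * (1 - 1 / 2 * W))))) := by
    field_simp
    ring
  have hpos := mul_nonneg hW.le h0
  linarith

/-- The closure step follows from the four quadratic inequalities. -/
theorem clo_of_quad {W x : ℝ} (hW : 0 < W) (hx : x ≤ X2 (R2 W))
    {a0 b0 a1 b1 a2 a3 : ℝ} (ha0 : 0 ≤ a0 ∧ a0 ≤ 1) (hb0 : 0 ≤ b0 ∧ b0 ≤ 1) (ha1 : 0 ≤ a1 ∧ a1 ≤ 1)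
    (hb1 : 0 ≤ b1 ∧ b1 ≤ 1) (ha2 : 0 ≤ a2 ∧ a2 ≤ 1) (ha3 : 0 ≤ a3 ∧ a3 ≤ 1)
    (h0 : ∀ s : ℝ, 0 ≤ (29 / 50 * a0 * (1 - q2 W) + 1 / 2 * b0 * q2 W -
        W * (q2 W * (1 - q2 W + 29 / 50 * (q2 W * (w2 W)⁻¹)))) * s ^ 2 +
      ((1 - q2 W) * (13 / 100 * a0 - 16 / 25 * (1 - a0)) +
        q2 W * (-(3 / 100) * b0 + 163 / 100 * (1 - b0) - 900 / 2000) +
        q2 W * (1 - 1 / 2 * W) * (2 * (1 - q2 W) + 29 / 25 * (q2 W * (w2 W)⁻¹))) * s +
      ((1 - q2 W) * (1 / 40 * a0 - 7 / 100 * (1 - a0)) +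
        q2 W * (99 / 1000 * b0 + 11 / 125 * (1 - b0)) +
        W⁻¹ * (q2 W * (7 / 20 * x + (1 - 1 / 2 * W) * (9 / 20 - (1 - 1 / 2 * W) *
          (1 - q2 W + 29 / 50 * (q2 W * (w2 W)⁻¹)))) - 1 / 200 * w2 W)))
    (h1 : ∀ s : ℝ, 0 ≤ (29 / 50 * a1 * (1 - q2 W) + 1 / 2 * b1 * q2 W - W * (q2 W * (1 - q2 W))) * s ^ 2 +
      ((1 - q2 W) * (13 / 100 * a1 - 16 / 25 * (1 - a1)) +
        q2 W * (-(3 / 100) * b1 + 163 / 100 * (1 - b1) - 1280 / 2000) +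
        q2 W * (1 - 1 / 2 * W) * (2 * (1 - q2 W))) * s +
      ((1 - q2 W) * (1 / 40 * a1 - 7 / 100 * (1 - a1)) +
        q2 W * (99 / 1000 * b1 + 11 / 125 * (1 - b1)) +
        W⁻¹ * (q2 W * (7 / 20 * x + (1 - 1 / 2 * W) * (16 / 25 - (1 - 1 / 2 * W) * (1 - q2 W))) -
          3 / 20 * w2 W)))
    (h2 : ∀ s : ℝ, 0 ≤ (29 / 50 * a2 - 1 / 2 * W * (q2 W * (q2 W * (w2 W)⁻¹))) * s ^ 2 +
      (13 / 100 * a2 - 16 / 25 * (1 - a2) +
        q2 W * (q2 W * (w2 W)⁻¹ * (1 - 1 / 2 * W) - 53 / 100)) * s +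
      (1 / 40 * a2 - 7 / 100 * (1 - a2) +
        W⁻¹ * (q2 W * (1 - 1 / 2 * W) * (53 / 100 - 1 / 2 * (q2 W * (w2 W)⁻¹ * (1 - 1 / 2 * W))) -
          139 / 1000 * w2 W)))
    (h3 : ∀ s : ℝ, 0 ≤ (29 / 50 * a3) * s ^ 2 +
      (13 / 100 * a3 - 16 / 25 * (1 - a3) + 163 / 100 * q2 W) * s +
      (1 / 40 * a3 - 7 / 100 * (1 - a3) +
        W⁻¹ * (827 / 1000 * w2 W - 163 / 100 * (q2 W * (1 - 1 / 2 * W))))) : Clo W := by
  intro S E T h
  have hR : 0 < R2 W := Real.rpow_pos_of_pos (by norm_num) _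
  have hw : 0 < w2 W := Real.logb_pos (by norm_num) (by linarith)
  have hq0 : 0 < q2 W := div_pos hR (by linarith)
  have hq1 : q2 W < 1 := by
    unfold q2
    rw [div_lt_one (by linarith)]
    linarith
  exact ⟨step0 hW hw hq0.le hq1.le hx (h.E_ge hW ha0.1 ha0.2) (h.T_ge hW hb0.1 hb0.2) (h0 (S / W)),
    step1 hW hq0.le hq1.le hx (h.E_ge hW ha1.1 ha1.2) (h.T_ge hW hb1.1 hb1.2) (h1 (S / W)),
    step2 hW hw (h.E_ge hW ha2.1 ha2.2) (h2 (S / W)),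
    step3 hW (h.E_ge hW ha3.1 ha3.2) (h3 (S / W))⟩

end Pool.Agent.UniM
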