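import Pool.Agent.UniM.P2Def

/-!
# UniM / P2Iv: fixed point interval arithmetic (scale `2 ^ 24`) for the closure step
-/

set_option autoImplicit false

namespace Pool.Agent.UniM

/-- interval with integer end points, standing for `[lo / 2 ^ 24, hi / 2 ^ 24]` -/
structure Ja where
  lo : Int
  hi : Int

namespace Ja

/-- membership -/
def Mem (x : ℝ) (I : Ja) : Prop := (I.lo : ℝ) ≤ x * 16777216 ∧ x * 16777216 ≤ I.hi

/-- rational constant `p / d` -/
def cst (p d : Int) : Ja := ⟨p * 16777216 / d, -(-(p * 16777216) / d)⟩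

/-- sum -/
def add (a b : Ja) : Ja := ⟨a.lo + b.lo, a.hi + b.hi⟩

/-- difference -/
def sub (a b : Ja) : Ja := ⟨a.lo - b.hi, a.hi - b.lo⟩

/-- minimum of two integers -/
def mn (x y : Int) : Int := bif decide (x ≤ y) then x else y

/-- maximum of two integers -/
def mx (x y : Int) : Int := bif decide (x ≤ y) then y else x

/-- product -/
def mul (a b : Ja) : Ja :=
  ⟨mn (mn (a.lo * b.lo) (a.lo * b.hi)) (mn (a.hi * b.lo) (a.hi * b.hi)) / 16777216,
    -(-(mx (mx (a.lo * b.lo) (a.lo * b.hi)) (mx (a.hi * b.lo) (a.hi * b.hi))) / 16777216)⟩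

theorem mn_le_left (x y : Int) : mn x y ≤ x := by
  unfold mn
  by_cases h : x ≤ y <;> simp [h]; omega

theorem mn_le_right (x y : Int) : mn x y ≤ y := by
  unfold mn
  by_cases h : x ≤ y <;> simp [h]

theorem le_mx_left (x y : Int) : x ≤ mx x y := by
  unfold mx
  by_cases h : x ≤ y <;> simp [h]

theorem le_mx_right (x y : Int) : y ≤ mx x y := by
  unfold mx
  by_cases h : x ≤ y <;> simp [h]; omega

theorem fl_le (a b : Int) (hb : 0 < b) : ((a / b : Int) : ℝ) * b ≤ a := by
  have h : a / b * b ≤ a := Int.ediv_mul_le a hb.ne'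
  exact_mod_cast h

theorem le_ce (a b : Int) (hb : 0 < b) : (a : ℝ) ≤ ((-(-a / b) : Int) : ℝ) * b := by
  have h := fl_le (-a) b hb
  push_cast at h ⊢
  linarith

theorem mem_cst (p d : Int) (hd : 0 < d) : Mem ((p : ℝ) / d) (cst p d) := by
  have hd' : (0 : ℝ) < d := by exact_mod_cast hd
  constructor
  · have h := fl_le (p * 16777216) d hd
    show ((p * 16777216 / d : Int) : ℝ) ≤ _
    rw [div_mul_eq_mul_div, le_div_iff₀ hd']
    push_cast at h ⊢
    linarith
  · have h := le_ce (p * 16777216) d hd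
    show _ ≤ ((-(-(p * 16777216) / d) : Int) : ℝ)
    rw [div_mul_eq_mul_div, div_le_iff₀ hd']
    push_cast at h ⊢
    linarith

theorem mem_add {x y : ℝ} {a b : Ja} (hx : Mem x a) (hy : Mem y b) : Mem (x + y) (add a b) := by
  obtain ⟨h1, h2⟩ := hx
  obtain ⟨h3, h4⟩ := hy
  constructor
  · show ((a.lo + b.lo : Int) : ℝ) ≤ _
    push_cast
    linarith
  · show _ ≤ ((a.hi + b.hi : Int) : ℝ)
    push_cast
    linarith

theorem mem_sub {x y : ℝ} {a b : Ja} (hx : Mem x a) (hy : Mem y b) : Mem (x - y) (sub a b) := by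
  obtain ⟨h1, h2⟩ := hx
  obtain ⟨h3, h4⟩ := hy
  constructor
  · show ((a.lo - b.hi : Int) : ℝ) ≤ _
    push_cast
    linarith
  · show _ ≤ ((a.hi - b.lo : Int) : ℝ)
    push_cast
    linarith

/-- a product lies above the minimum of the four corner products -/
theorem corner_min {a b c d x y m : ℝ} (h1 : a ≤ x) (h2 : x ≤ b) (h3 : c ≤ y) (h4 : y ≤ d)
    (m1 : m ≤ a * c) (m2 : m ≤ a * d) (m3 : m ≤ b * c) (m4 : m ≤ b * d) : m ≤ x * y := by
  have ha : m ≤ a * y := by
    rcases le_total 0 a with h | h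
    · nlinarith
    · nlinarith
  have hb : m ≤ b * y := by
    rcases le_total 0 b with h | h
    · nlinarith
    · nlinarith
  rcases le_total 0 y with h | h
  · nlinarith
  · nlinarith

theorem corner_max {a b c d x y m : ℝ} (h1 : a ≤ x) (h2 : x ≤ b) (h3 : c ≤ y) (h4 : y ≤ d)
    (m1 : a * c ≤ m) (m2 : a * d ≤ m) (m3 : b * c ≤ m) (m4 : b * d ≤ m) : x * y ≤ m := by
  have ha : a * y ≤ m := by
    rcases le_total 0 a with h | h
    · nlinarith
    · nlinarith
  have hb : b * y ≤ m := by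
    rcases le_total 0 b with h | h
    · nlinarith
    · nlinarith
  rcases le_total 0 y with h | h
  · nlinarith
  · nlinarith

theorem mem_mul {x y : ℝ} {a b : Ja} (hx : Mem x a) (hy : Mem y b) : Mem (x * y) (mul a b) := by
  obtain ⟨h1, h2⟩ := hx
  obtain ⟨h3, h4⟩ := hy
  constructor
  · show ((mn (mn (a.lo * b.lo) (a.lo * b.hi)) (mn (a.hi * b.lo) (a.hi * b.hi)) / 16777216 : Int) : ℝ) ≤ _
    have h := fl_le (mn (mn (a.lo * b.lo) (a.lo * b.hi)) (mn (a.hi * b.lo) (a.hi * b.hi)))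
      16777216 (by norm_num)
    have h5 : ((mn (mn (a.lo * b.lo) (a.lo * b.hi)) (mn (a.hi * b.lo) (a.hi * b.hi)) : Int) : ℝ) ≤
        (x * 16777216) * (y * 16777216) := by
      refine corner_min h1 h2 h3 h4 ?_ ?_ ?_ ?_
      · exact_mod_cast (mn_le_left _ _).trans (mn_le_left _ _)
      · exact_mod_cast (mn_le_left _ _).trans (mn_le_right _ _)
      · exact_mod_cast (mn_le_right _ _).trans (mn_le_left _ _)
      · exact_mod_cast (mn_le_right _ _).trans (mn_le_right _ _)
    push_cast at h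
    linarith
  · show _ ≤ ((-(-(mx (mx (a.lo * b.lo) (a.lo * b.hi)) (mx (a.hi * b.lo) (a.hi * b.hi))) / 16777216) : Int) : ℝ)
    have h := le_ce (mx (mx (a.lo * b.lo) (a.lo * b.hi)) (mx (a.hi * b.lo) (a.hi * b.hi)))
      16777216 (by norm_num)
    have h5 : (x * 16777216) * (y * 16777216) ≤
        ((mx (mx (a.lo * b.lo) (a.lo * b.hi)) (mx (a.hi * b.lo) (a.hi * b.hi)) : Int) : ℝ) := by
      refine corner_max h1 h2 h3 h4 ?_ ?_ ?_ ?_
      · exact_mod_cast (le_mx_left _ _).trans (le_mx_left _ _)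
      · exact_mod_cast (le_mx_right _ _).trans (le_mx_left _ _)
      · exact_mod_cast (le_mx_left _ _).trans (le_mx_right _ _)
      · exact_mod_cast (le_mx_right _ _).trans (le_mx_right _ _)
    push_cast at h ⊢
    linarith

/-- the check that `a σ² + b σ + c ≥ 0` for all `σ` and all `a, b, c` in the given intervals -/
def chk (a b c : Ja) : Bool :=
  decide (0 < a.lo) && decide (0 < c.lo) && decide (b.lo * b.lo ≤ 4 * (a.lo * c.lo)) &&
    decide (b.hi * b.hi ≤ 4 * (a.lo * c.lo))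

theorem chk_sound {a b c : Ja} (h : chk a b c = true) {x y z : ℝ} (hx : Mem x a) (hy : Mem y b)
    (hz : Mem z c) (s : ℝ) : 0 ≤ x * s ^ 2 + y * s + z := by
  unfold chk at h
  simp only [Bool.and_eq_true, decide_eq_true_eq] at h
  obtain ⟨⟨⟨h1, h2⟩, h3⟩, h4⟩ := h
  have h1' : (0 : ℝ) < a.lo := by exact_mod_cast h1
  have h2' : (0 : ℝ) < c.lo := by exact_mod_cast h2
  have h3' : (b.lo : ℝ) * b.lo ≤ 4 * (a.lo * c.lo) := by exact_mod_cast h3
  have h4' : (b.hi : ℝ) * b.hi ≤ 4 * (a.lo * c.lo) := by exact_mod_cast h4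
  obtain ⟨hx1, -⟩ := hx
  obtain ⟨hy1, hy2⟩ := hy
  obtain ⟨hz1, -⟩ := hz
  have hx0 : 0 < x := by nlinarith
  have hz0 : 0 < z := by nlinarith
  have hac : (a.lo : ℝ) * c.lo ≤ (x * 16777216) * (z * 16777216) := by
    apply mul_le_mul hx1 hz1 h2'.le (by positivity)
  have hy3 : (y * 16777216) * (y * 16777216) ≤ 4 * (a.lo * c.lo) := by
    rcases le_total 0 y with hy | hy
    · have : y * 16777216 * (y * 16777216) ≤ (b.hi : ℝ) * b.hi :=
        mul_le_mul hy2 hy2 (by positivity) (by nlinarith)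
      linarith
    · have : (-(y * 16777216)) * (-(y * 16777216)) ≤ (-(b.lo : ℝ)) * (-(b.lo : ℝ)) :=
        mul_le_mul (by linarith) (by linarith) (by nlinarith) (by nlinarith)
      nlinarith
  have hd : y * y ≤ 4 * (x * z) := by nlinarith
  have h5 : 0 ≤ x * (x * s ^ 2 + y * s + z) := by nlinarith [sq_nonneg (2 * x * s + y)]
  exact nonneg_of_mul_nonneg_right h5 hx0

end Ja

end Pool.Agent.UniM
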