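import Pool.Agent.UniM.Cb

/-!
# UniM / P3Beta: bounds for the binomial distribution (analytic base of P3 for large `L`)

`be N i = C(N, i) / 2 ^ N`, `y = i - N/2`. With a universal constant `c > 0`:
`be N i ≤ c / √(N + 1/2) * exp (-2 y² / (N+1))` for all `N`, `i`, and
`be N i ≥ c / √(N + 2/3) * exp (-2 y² / (N+1) - (3/2) y⁴ / (N+1)³)` as long as `6 |y| ≤ N + 4`.
-/

set_option autoImplicit false

namespace Pool.Agent.UniM

/-- the binomial distribution -/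
noncomputable def be (N : ℕ) (i : ℤ) : ℝ := (ch N i : ℝ) / 2 ^ N

/-! ### The step -/

theorem two_mul_le_log {v : ℝ} (h0 : 0 ≤ v) (h1 : v < 1) :
    2 * v ≤ Real.log (1 + v) - Real.log (1 - v) := by
  have h := Real.hasSum_log_sub_log_of_abs_lt_one (x := v) (by rw [abs_of_nonneg h0]; exact h1)
  have h2 := sum_le_hasSum {0} (fun k _ => by positivity) h
  simpa using h2

theorem log_le_two_mul {v : ℝ} (h0 : 0 ≤ v) (h1 : v ≤ 1 / 3) :
    Real.log (1 + v) - Real.log (1 - v) ≤ 2 * v + 3 / 4 * v ^ 3 := by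
  have hv1 : v < 1 := by linarith
  have h := Real.hasSum_log_sub_log_of_abs_lt_one (x := v) (by rw [abs_of_nonneg h0]; exact hv1)
  have hsq : v ^ 2 < 1 := by nlinarith
  have hg := (hasSum_geometric_of_lt_one (by positivity) hsq).mul_left (2 / 3 * v ^ 3)
  have hf : HasSum (fun k : ℕ => if k = 0 then 2 * v else 2 / 3 * v ^ 3 * (v ^ 2) ^ (k - 1))
      (2 * v + 2 / 3 * v ^ 3 * (1 - v ^ 2)⁻¹) := by
    rw [add_comm]
    have h3 := (hasSum_nat_add_iff (f := fun k : ℕ => if k = 0 then 2 * v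
      else 2 / 3 * v ^ 3 * (v ^ 2) ^ (k - 1)) 1
      (g := 2 / 3 * v ^ 3 * (1 - v ^ 2)⁻¹)).1 (by simpa using hg)
    simpa using h3
  have h4 : Real.log (1 + v) - Real.log (1 - v) ≤ 2 * v + 2 / 3 * v ^ 3 * (1 - v ^ 2)⁻¹ := by
    refine hasSum_le ?_ h hf
    intro k
    rcases Nat.eq_zero_or_pos k with rfl | hk
    · simp
    · obtain ⟨m, rfl⟩ : ∃ m, k = m + 1 := ⟨k - 1, by omega⟩
      rw [if_neg (by omega), Nat.add_sub_cancel]
      have h5 : v ^ (2 * (m + 1) + 1) = v ^ 3 * (v ^ 2) ^ m := by ring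
      rw [h5]
      have h6 : (1 : ℝ) / (2 * ((m + 1 : ℕ) : ℝ) + 1) ≤ 1 / 3 := by
        apply one_div_le_one_div_of_le (by norm_num)
        push_cast
        have : (0 : ℝ) ≤ m := Nat.cast_nonneg m
        linarith
      have h7 : 0 ≤ v ^ 3 * (v ^ 2) ^ m := by positivity
      calc 2 * (1 / (2 * ((m + 1 : ℕ) : ℝ) + 1)) * (v ^ 3 * (v ^ 2) ^ m)
          ≤ 2 * (1 / 3) * (v ^ 3 * (v ^ 2) ^ m) := by gcongr
        _ = 2 / 3 * v ^ 3 * (v ^ 2) ^ m := by ring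
  have h8 : (1 - v ^ 2)⁻¹ ≤ 9 / 8 := by
    rw [inv_le_comm₀ (by linarith) (by norm_num)]
    nlinarith
  have h9 : 2 / 3 * v ^ 3 * (1 - v ^ 2)⁻¹ ≤ 2 / 3 * v ^ 3 * (9 / 8) := by gcongr
  linarith

theorem step_up {v : ℝ} (h0 : 0 ≤ v) (h1 : v ≤ 1) : 1 - v ≤ (1 + v) * Real.exp (-2 * v) := by
  rcases eq_or_lt_of_le h1 with rfl | h1
  · have := Real.exp_pos (-2 * (1 : ℝ))
    linarith
  have h2 := two_mul_le_log h0 h1
  have h3 : Real.log (1 - v) ≤ Real.log ((1 + v) * Real.exp (-2 * v)) := by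
    rw [Real.log_mul (by linarith) (Real.exp_pos _).ne', Real.log_exp]
    linarith
  exact (Real.log_le_log_iff (by linarith) (mul_pos (by linarith) (Real.exp_pos _))).1 h3

theorem step_dn {v : ℝ} (h0 : 0 ≤ v) (h1 : v ≤ 1 / 3) :
    (1 + v) * Real.exp (-2 * v - 3 / 4 * v ^ 3) ≤ 1 - v := by
  have h2 := log_le_two_mul h0 h1
  have h3 : Real.log ((1 + v) * Real.exp (-2 * v - 3 / 4 * v ^ 3)) ≤ Real.log (1 - v) := by
    rw [Real.log_mul (by linarith) (Real.exp_pos _).ne', Real.log_exp]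
    linarith
  exact (Real.log_le_log_iff (mul_pos (by linarith) (Real.exp_pos _)) (by linarith)).1 h3

/-! ### Binomial distribution with natural index -/

/-- the binomial distribution, natural index -/
noncomputable def bn (N i : ℕ) : ℝ := (N.choose i : ℝ) / 2 ^ N

theorem be_nat (N i : ℕ) : be N (i : ℤ) = bn N i := by
  unfold be bn ch
  rw [if_neg (by omega)]
  simp

theorem bn_nonneg (N i : ℕ) : 0 ≤ bn N i := by
  unfold bn
  positivity

theorem bn_succ (N i : ℕ) : bn N (i + 1) * ((i : ℝ) + 1) = bn N i * ((N : ℝ) - i) := by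
  unfold bn
  have h := Nat.choose_succ_right_eq N i
  rcases le_or_gt i N with hi | hi
  · have h1 : (N.choose (i + 1) : ℝ) * ((i : ℝ) + 1) = N.choose i * ((N : ℝ) - i) := by
      rw [← Nat.cast_sub hi]
      exact_mod_cast h
    calc (N.choose (i + 1) : ℝ) / 2 ^ N * ((i : ℝ) + 1)
        = ((N.choose (i + 1) : ℝ) * ((i : ℝ) + 1)) / 2 ^ N := by ring
      _ = (N.choose i * ((N : ℝ) - i)) / 2 ^ N := by rw [h1]
      _ = (N.choose i : ℝ) / 2 ^ N * ((N : ℝ) - i) := by ring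
  · rw [Nat.choose_eq_zero_of_lt hi, Nat.choose_eq_zero_of_lt (by omega : N < i + 1)]
    simp

theorem bn_step_up {N i : ℕ} (h : N ≤ 2 * i) :
    bn N (i + 1) ≤ bn N i * Real.exp (-2 * ((2 * (i : ℝ) + 1 - N) / (N + 1))) := by
  have hN : (0 : ℝ) < (N : ℝ) + 1 := by positivity
  have hi : (0 : ℝ) < (i : ℝ) + 1 := by positivity
  rcases le_or_gt i N with hiN | hiN
  · have h1 : (N : ℝ) ≤ 2 * i := by exact_mod_cast h
    have h2 : (i : ℝ) ≤ N := by exact_mod_cast hiN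
    have h3 := step_up (v := (2 * (i : ℝ) + 1 - N) / (N + 1)) (by
      apply div_nonneg _ hN.le
      linarith) (by
      rw [div_le_one hN]
      linarith)
    have e1 : 1 - (2 * (i : ℝ) + 1 - N) / (N + 1) = 2 * ((N : ℝ) - i) / (N + 1) := by
      field_simp
      ring
    have e2 : 1 + (2 * (i : ℝ) + 1 - N) / (N + 1) = 2 * ((i : ℝ) + 1) / (N + 1) := by
      field_simp
      ring
    rw [e1, e2, div_mul_eq_mul_div, div_le_div_iff_of_pos_right hN] at h3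
    have h4 := bn_succ N i
    have h5 := bn_nonneg N i
    have h6 : bn N (i + 1) * ((i : ℝ) + 1) ≤
        bn N i * Real.exp (-2 * ((2 * (i : ℝ) + 1 - N) / (N + 1))) * ((i : ℝ) + 1) := by
      rw [h4]
      have h7 : (N : ℝ) - i ≤ ((i : ℝ) + 1) *
          Real.exp (-2 * ((2 * (i : ℝ) + 1 - N) / (N + 1))) := by linarith
      calc bn N i * ((N : ℝ) - i) ≤ bn N i * (((i : ℝ) + 1) *
            Real.exp (-2 * ((2 * (i : ℝ) + 1 - N) / (N + 1)))) := by gcongr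
        _ = _ := by ring
    exact le_of_mul_le_mul_right h6 hi
  · have h1 : bn N (i + 1) = 0 := by
      unfold bn
      rw [Nat.choose_eq_zero_of_lt (by omega)]
      simp
    rw [h1]
    exact mul_nonneg (bn_nonneg N i) (Real.exp_pos _).le

theorem bn_step_dn {N i : ℕ} (h : N ≤ 2 * i) (h' : 6 * i + 2 ≤ 4 * N) :
    bn N i * Real.exp (-2 * ((2 * (i : ℝ) + 1 - N) / (N + 1)) -
      3 / 4 * ((2 * (i : ℝ) + 1 - N) / (N + 1)) ^ 3) ≤ bn N (i + 1) := by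
  have hN : (0 : ℝ) < (N : ℝ) + 1 := by positivity
  have hi : (0 : ℝ) < (i : ℝ) + 1 := by positivity
  have h1 : (N : ℝ) ≤ 2 * i := by exact_mod_cast h
  have h2 : 6 * (i : ℝ) + 2 ≤ 4 * N := by exact_mod_cast h'
  have h3 := step_dn (v := (2 * (i : ℝ) + 1 - N) / (N + 1)) (by
    apply div_nonneg _ hN.le
    linarith) (by
    rw [div_le_iff₀ hN]
    linarith)
  have e1 : 1 - (2 * (i : ℝ) + 1 - N) / (N + 1) = 2 * ((N : ℝ) - i) / (N + 1) := by
    field_simp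
    ring
  have e2 : 1 + (2 * (i : ℝ) + 1 - N) / (N + 1) = 2 * ((i : ℝ) + 1) / (N + 1) := by
    field_simp
    ring
  generalize hX : Real.exp (-2 * ((2 * (i : ℝ) + 1 - N) / (N + 1)) -
      3 / 4 * ((2 * (i : ℝ) + 1 - N) / (N + 1)) ^ 3) = X at *
  rw [e1, e2, div_mul_eq_mul_div, div_le_div_iff_of_pos_right hN] at h3
  have h4 := bn_succ N i
  have h5 := bn_nonneg N i
  have h6 : bn N i * X * ((i : ℝ) + 1) ≤ bn N (i + 1) * ((i : ℝ) + 1) := by
    rw [h4]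
    calc bn N i * X * ((i : ℝ) + 1) = bn N i * (((i : ℝ) + 1) * X) := by ring
      _ ≤ bn N i * ((N : ℝ) - i) := by
        have : ((i : ℝ) + 1) * X ≤ (N : ℝ) - i := by linarith
        gcongr
  exact le_of_mul_le_mul_right h6 hi

theorem bn_up {N i : ℕ} (h : N ≤ 2 * i) (k : ℕ) :
    bn N (i + k) ≤ bn N i * Real.exp (-2 * (((i : ℝ) + k - N / 2) ^ 2 - ((i : ℝ) - N / 2) ^ 2) /
      (N + 1)) := by
  have hN : (0 : ℝ) < (N : ℝ) + 1 := by positivity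
  induction k with
  | zero => simp
  | succ k ih =>
    have h1 := bn_step_up (N := N) (i := i + k) (by omega)
    refine h1.trans ?_
    calc bn N (i + k) * Real.exp (-2 * ((2 * ((i + k : ℕ) : ℝ) + 1 - N) / (N + 1)))
        ≤ (bn N i * Real.exp (-2 * (((i : ℝ) + k - N / 2) ^ 2 - ((i : ℝ) - N / 2) ^ 2) /
          (N + 1))) * Real.exp (-2 * ((2 * ((i + k : ℕ) : ℝ) + 1 - N) / (N + 1))) := by
          gcongr
      _ = bn N i * Real.exp (-2 * (((i : ℝ) + (k + 1 : ℕ) - N / 2) ^ 2 -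
          ((i : ℝ) - N / 2) ^ 2) / (N + 1)) := by
        rw [mul_assoc, ← Real.exp_add]
        congr 2
        push_cast
        field_simp
        ring

theorem bn_dn {N i : ℕ} (h : N ≤ 2 * i) (k : ℕ) (h' : 6 * (i + k) ≤ 4 * N + 4) :
    bn N i * Real.exp (-2 * (((i : ℝ) + k - N / 2) ^ 2 - ((i : ℝ) - N / 2) ^ 2) / (N + 1) -
      3 / 2 * (((i : ℝ) + k - N / 2) ^ 4 - ((i : ℝ) - N / 2) ^ 4) / (N + 1) ^ 3) ≤
      bn N (i + k) := by
  have hN : (0 : ℝ) < (N : ℝ) + 1 := by positivity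
  induction k with
  | zero => simp
  | succ k ih =>
    have h1 := bn_step_dn (N := N) (i := i + k) (by omega) (by omega)
    have h2 := ih (by omega)
    refine le_trans ?_ h1
    have h3 : (0 : ℝ) ≤ (i : ℝ) + k - N / 2 := by
      have : (N : ℝ) ≤ 2 * i := by exact_mod_cast h
      have : (0 : ℝ) ≤ k := Nat.cast_nonneg k
      linarith
    have h4 : Real.exp (-2 * (((i : ℝ) + (k + 1 : ℕ) - N / 2) ^ 2 - ((i : ℝ) - N / 2) ^ 2) /
        (N + 1) - 3 / 2 * (((i : ℝ) + (k + 1 : ℕ) - N / 2) ^ 4 - ((i : ℝ) - N / 2) ^ 4) /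
        (N + 1) ^ 3) ≤
        Real.exp (-2 * (((i : ℝ) + k - N / 2) ^ 2 - ((i : ℝ) - N / 2) ^ 2) / (N + 1) -
          3 / 2 * (((i : ℝ) + k - N / 2) ^ 4 - ((i : ℝ) - N / 2) ^ 4) / (N + 1) ^ 3) *
        Real.exp (-2 * ((2 * ((i + k : ℕ) : ℝ) + 1 - N) / (N + 1)) -
          3 / 4 * ((2 * ((i + k : ℕ) : ℝ) + 1 - N) / (N + 1)) ^ 3) := by
      rw [← Real.exp_add]
      apply Real.exp_le_exp.2
      have e1 : ((i : ℝ) + (k + 1 : ℕ) - N / 2) = ((i : ℝ) + k - N / 2) + 1 := by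
        push_cast
        ring
      have e2 : (2 * ((i + k : ℕ) : ℝ) + 1 - N) = 2 * ((i : ℝ) + k - N / 2) + 1 := by
        push_cast
        ring
      rw [e1, e2]
      generalize (i : ℝ) + k - N / 2 = y at *
      generalize ((i : ℝ) - N / 2) = z
      generalize hM : (N : ℝ) + 1 = M at *
      have e3 : -2 * (y ^ 2 - z ^ 2) / M - 3 / 2 * (y ^ 4 - z ^ 4) / M ^ 3 +
          (-2 * ((2 * y + 1) / M) - 3 / 4 * ((2 * y + 1) / M) ^ 3) -
          (-2 * ((y + 1) ^ 2 - z ^ 2) / M - 3 / 2 * ((y + 1) ^ 4 - z ^ 4) / M ^ 3) =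
          (3 / 2 * y + 3 / 4) / M ^ 3 := by
        field_simp
        ring
      have h5 : 0 ≤ (3 / 2 * y + 3 / 4) / M ^ 3 := by positivity
      linarith
    calc bn N i * Real.exp (-2 * (((i : ℝ) + (k + 1 : ℕ) - N / 2) ^ 2 -
          ((i : ℝ) - N / 2) ^ 2) / (N + 1) - 3 / 2 * (((i : ℝ) + (k + 1 : ℕ) - N / 2) ^ 4 -
          ((i : ℝ) - N / 2) ^ 4) / (N + 1) ^ 3)
        ≤ bn N i * (Real.exp (-2 * (((i : ℝ) + k - N / 2) ^ 2 - ((i : ℝ) - N / 2) ^ 2) / (N + 1) -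
          3 / 2 * (((i : ℝ) + k - N / 2) ^ 4 - ((i : ℝ) - N / 2) ^ 4) / (N + 1) ^ 3) *
        Real.exp (-2 * ((2 * ((i + k : ℕ) : ℝ) + 1 - N) / (N + 1)) -
          3 / 4 * ((2 * ((i + k : ℕ) : ℝ) + 1 - N) / (N + 1)) ^ 3)) :=
          mul_le_mul_of_nonneg_left h4 (bn_nonneg N i)
      _ = (bn N i * Real.exp (-2 * (((i : ℝ) + k - N / 2) ^ 2 - ((i : ℝ) - N / 2) ^ 2) / (N + 1) -
          3 / 2 * (((i : ℝ) + k - N / 2) ^ 4 - ((i : ℝ) - N / 2) ^ 4) / (N + 1) ^ 3)) *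
        Real.exp (-2 * ((2 * ((i + k : ℕ) : ℝ) + 1 - N) / (N + 1)) -
          3 / 4 * ((2 * ((i + k : ℕ) : ℝ) + 1 - N) / (N + 1)) ^ 3) := by ring
      _ ≤ _ := mul_le_mul_of_nonneg_right h2 (Real.exp_pos _).le

/-! ### The central coefficients -/

/-- central binomial probabilities -/
noncomputable def ca (m : ℕ) : ℝ := (Nat.centralBinom m : ℝ) / 4 ^ m

theorem ca_pos (m : ℕ) : 0 < ca m := by
  unfold ca
  have := Nat.centralBinom_pos m
  positivity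

theorem ca_succ (m : ℕ) : ca (m + 1) = ca m * ((2 * m + 1) / (2 * m + 2)) := by
  unfold ca
  have h := Nat.succ_mul_centralBinom_succ m
  have h1 : ((m : ℝ) + 1) * (Nat.centralBinom (m + 1) : ℝ) =
      2 * (2 * m + 1) * Nat.centralBinom m := by exact_mod_cast h
  have h2 : (Nat.centralBinom (m + 1) : ℝ) = 2 * (2 * m + 1) * Nat.centralBinom m / (m + 1) := by
    rw [← h1]
    field_simp
  rw [h2, pow_succ]
  field_simp
  ring

theorem ca_up (m : ℕ) : ca m ^ 2 * (2 * m + 1 / 2) ≤ ca (m + 1) ^ 2 * (2 * (m + 1 : ℕ) + 1 / 2) := by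
  rw [ca_succ, mul_pow, mul_assoc]
  have h := ca_pos m
  apply mul_le_mul_of_nonneg_left _ (by positivity)
  push_cast
  have hm : (0 : ℝ) ≤ m := Nat.cast_nonneg m
  rw [div_pow, div_mul_eq_mul_div, le_div_iff₀ (by positivity)]
  nlinarith

theorem ca_dn (m : ℕ) : ca (m + 1) ^ 2 * (2 * (m + 1 : ℕ) + 2 / 3) ≤ ca m ^ 2 * (2 * m + 2 / 3) := by
  rw [ca_succ, mul_pow, mul_assoc]
  have h := ca_pos m
  apply mul_le_mul_of_nonneg_left _ (by positivity)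
  push_cast
  have hm : (0 : ℝ) ≤ m := Nat.cast_nonneg m
  rw [div_pow, div_mul_eq_mul_div, div_le_iff₀ (by positivity)]
  nlinarith

theorem ca_up_mono : Monotone (fun m : ℕ => ca m ^ 2 * (2 * m + 1 / 2)) :=
  monotone_nat_of_le_succ ca_up

theorem ca_dn_anti : Antitone (fun m : ℕ => ca m ^ 2 * (2 * m + 2 / 3)) :=
  antitone_nat_of_succ_le ca_dn

theorem ca_cross (m k : ℕ) : ca m ^ 2 * (2 * m + 1 / 2) ≤ ca k ^ 2 * (2 * k + 2 / 3) := by
  have h1 := ca_up_mono (le_max_left m k)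
  have h2 := ca_dn_anti (le_max_right m k)
  have h3 := ca_pos (max m k)
  have h4 : ca (max m k) ^ 2 * (2 * (max m k : ℕ) + 1 / 2) ≤
      ca (max m k) ^ 2 * (2 * (max m k : ℕ) + 2 / 3) := by
    apply mul_le_mul_of_nonneg_left _ (by positivity)
    linarith
  exact (h1.trans h4).trans h2

theorem exists_c : ∃ c : ℝ, 0 < c ∧ (∀ m : ℕ, ca m ≤ c / √(2 * m + 1 / 2)) ∧
    ∀ m : ℕ, c / √(2 * m + 2 / 3) ≤ ca m := by
  have hb : BddAbove (Set.range (fun m : ℕ => ca m ^ 2 * (2 * m + 1 / 2))) := by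
    refine ⟨ca 0 ^ 2 * (2 * (0 : ℕ) + 2 / 3), ?_⟩
    rintro _ ⟨m, rfl⟩
    exact ca_cross m 0
  obtain ⟨C, hC⟩ : ∃ C, C = ⨆ m : ℕ, ca m ^ 2 * (2 * m + 1 / 2) := ⟨_, rfl⟩
  have h1 : ∀ m : ℕ, ca m ^ 2 * (2 * m + 1 / 2) ≤ C := fun m => by
    rw [hC]
    exact le_ciSup hb m
  have h2 : ∀ m : ℕ, C ≤ ca m ^ 2 * (2 * m + 2 / 3) := fun m => by
    rw [hC]
    exact ciSup_le (fun k => ca_cross k m)
  have hCp : 0 < C := by
    refine lt_of_lt_of_le ?_ (h1 0)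
    have := ca_pos 0
    positivity
  refine ⟨√C, Real.sqrt_pos.2 hCp, ?_, ?_⟩
  · intro m
    have hp : (0 : ℝ) < 2 * m + 1 / 2 := by positivity
    rw [le_div_iff₀ (Real.sqrt_pos.2 hp)]
    apply Real.le_sqrt_of_sq_le
    rw [mul_pow, Real.sq_sqrt hp.le]
    exact h1 m
  · intro m
    have hp : (0 : ℝ) < 2 * m + 2 / 3 := by positivity
    have hc := ca_pos m
    rw [div_le_iff₀ (Real.sqrt_pos.2 hp)]
    rw [← Real.sqrt_sq hc.le, ← Real.sqrt_mul (by positivity)]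
    exact Real.sqrt_le_sqrt (h2 m)

theorem bn_even (m : ℕ) : bn (2 * m) m = ca m := by
  unfold bn ca
  rw [Nat.centralBinom_eq_two_mul_choose, pow_mul]
  norm_num

theorem bn_odd (m : ℕ) : bn (2 * m + 1) (m + 1) = ca (m + 1) := by
  unfold bn ca
  rw [Nat.centralBinom_eq_two_mul_choose]
  have h1 : (2 * (m + 1)).choose (m + 1) = 2 * (2 * m + 1).choose (m + 1) := by
    have e : 2 * (m + 1) = (2 * m + 1) + 1 := by ring
    rw [e, Nat.choose_succ_succ]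
    have h2 : (2 * m + 1).choose m = (2 * m + 1).choose (m + 1) := by
      have := Nat.choose_symm_half m
      exact this.symm
    rw [h2]
    ring
  rw [h1]
  have h3 : (4 : ℝ) ^ (m + 1) = 2 * 2 ^ (2 * m + 1) := by
    have : (4 : ℝ) = 2 ^ 2 := by norm_num
    rw [this, ← pow_mul]
    ring
  rw [h3]
  push_cast
  field_simp

/-- the constant (`√(2/π)`, but only the bounds below are used) -/
noncomputable def cB : ℝ := Classical.choose exists_c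

theorem cB_pos : 0 < cB := (Classical.choose_spec exists_c).1

theorem ca_le (m : ℕ) : ca m ≤ cB / √(2 * m + 1 / 2) := (Classical.choose_spec exists_c).2.1 m

theorem le_ca (m : ℕ) : cB / √(2 * m + 2 / 3) ≤ ca m := (Classical.choose_spec exists_c).2.2 m

theorem bn_upper {N i : ℕ} (h : N ≤ 2 * i) :
    bn N i ≤ cB / √(N + 1 / 2) * Real.exp (-2 * ((i : ℝ) - N / 2) ^ 2 / (N + 1)) := by
  have hN : (0 : ℝ) < (N : ℝ) + 1 := by positivity
  obtain ⟨m, hm | hm⟩ := Nat.even_or_odd' N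
  · obtain ⟨k, rfl⟩ : ∃ k, i = m + k := ⟨i - m, by omega⟩
    subst hm
    have h1 := bn_up (N := 2 * m) (i := m) le_rfl k
    rw [bn_even] at h1
    have h2 := ca_le m
    have e1 : ((m : ℝ) + k - ((2 * m : ℕ) : ℝ) / 2) ^ 2 - ((m : ℝ) - ((2 * m : ℕ) : ℝ) / 2) ^ 2 =
        (((m + k : ℕ) : ℝ) - ((2 * m : ℕ) : ℝ) / 2) ^ 2 := by
      push_cast
      ring
    rw [e1] at h1
    refine h1.trans ?_
    have e2 : ((2 * m : ℕ) : ℝ) + 1 / 2 = 2 * (m : ℝ) + 1 / 2 := by push_cast; ring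
    rw [e2]
    exact mul_le_mul_of_nonneg_right h2 (Real.exp_pos _).le
  · obtain ⟨k, rfl⟩ : ∃ k, i = m + 1 + k := ⟨i - (m + 1), by omega⟩
    subst hm
    have h1 := bn_up (N := 2 * m + 1) (i := m + 1) (by omega) k
    rw [bn_odd] at h1
    have h2 := ca_le (m + 1)
    have e0 : ((2 * m + 1 : ℕ) : ℝ) = 2 * m + 1 := by push_cast; ring
    have hm0 : (0 : ℝ) ≤ m := Nat.cast_nonneg m
    have e1 : -2 * ((((m + 1 : ℕ) : ℝ) + k - ((2 * m + 1 : ℕ) : ℝ) / 2) ^ 2 -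
        (((m + 1 : ℕ) : ℝ) - ((2 * m + 1 : ℕ) : ℝ) / 2) ^ 2) / (((2 * m + 1 : ℕ) : ℝ) + 1) =
        1 / (2 * (2 * (m : ℝ) + 2)) + -2 * (((m + 1 + k : ℕ) : ℝ) -
          ((2 * m + 1 : ℕ) : ℝ) / 2) ^ 2 / (((2 * m + 1 : ℕ) : ℝ) + 1) := by
      push_cast
      field_simp
      ring
    rw [e1, Real.exp_add] at h1
    refine h1.trans ?_
    rw [← mul_assoc]
    refine mul_le_mul_of_nonneg_right ?_ (Real.exp_pos _).le
    -- `exp (1/(2(N+1))) / √(N + 3/2) ≤ 1 / √(N + 1/2)`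
    have h3 := step_up (v := 1 / (2 * (2 * (m : ℝ) + 2))) (by positivity) (by
      rw [div_le_one (by positivity)]
      linarith)
    have h4 : (2 * (m : ℝ) + 3 / 2) * Real.exp (2 * (1 / (2 * (2 * (m : ℝ) + 2)))) ≤
        2 * m + 5 / 2 := by
      have e3 : 1 - 1 / (2 * (2 * (m : ℝ) + 2)) = (2 * m + 3 / 2) / (2 * m + 2) := by
        field_simp
        ring
      have e4 : 1 + 1 / (2 * (2 * (m : ℝ) + 2)) = (2 * m + 5 / 2) / (2 * m + 2) := by
        field_simp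
        ring
      rw [e3, e4, div_mul_eq_mul_div, div_le_div_iff_of_pos_right (by positivity)] at h3
      have e5 : Real.exp (-2 * (1 / (2 * (2 * (m : ℝ) + 2)))) *
          Real.exp (2 * (1 / (2 * (2 * (m : ℝ) + 2)))) = 1 := by
        rw [← Real.exp_add]
        simp
      calc (2 * (m : ℝ) + 3 / 2) * Real.exp (2 * (1 / (2 * (2 * (m : ℝ) + 2))))
          ≤ ((2 * m + 5 / 2) * Real.exp (-2 * (1 / (2 * (2 * (m : ℝ) + 2))))) *
            Real.exp (2 * (1 / (2 * (2 * (m : ℝ) + 2)))) :=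
            mul_le_mul_of_nonneg_right h3 (Real.exp_pos _).le
        _ = (2 * m + 5 / 2) * (Real.exp (-2 * (1 / (2 * (2 * (m : ℝ) + 2)))) *
            Real.exp (2 * (1 / (2 * (2 * (m : ℝ) + 2))))) := by ring
        _ = 2 * m + 5 / 2 := by rw [e5, mul_one]
    have h5 : √(2 * (m : ℝ) + 3 / 2) * Real.exp (1 / (2 * (2 * (m : ℝ) + 2))) ≤
        √(2 * m + 5 / 2) := by
      apply Real.le_sqrt_of_sq_le
      rw [mul_pow, Real.sq_sqrt (by positivity), ← Real.exp_nat_mul]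
      exact_mod_cast h4
    have hs1 : 0 < √(2 * (m : ℝ) + 3 / 2) := Real.sqrt_pos.2 (by positivity)
    have hs2 : 0 < √(2 * (m : ℝ) + 5 / 2) := Real.sqrt_pos.2 (by positivity)
    have e6 : 2 * ((m + 1 : ℕ) : ℝ) + 1 / 2 = 2 * (m : ℝ) + 5 / 2 := by push_cast; ring
    have e7 : ((2 * m + 1 : ℕ) : ℝ) + 1 / 2 = 2 * (m : ℝ) + 3 / 2 := by push_cast; ring
    rw [e6] at h2
    rw [e7]
    calc ca (m + 1) * Real.exp (1 / (2 * (2 * (m : ℝ) + 2)))
        ≤ cB / √(2 * (m : ℝ) + 5 / 2) * Real.exp (1 / (2 * (2 * (m : ℝ) + 2))) :=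
          mul_le_mul_of_nonneg_right h2 (Real.exp_pos _).le
      _ = cB * (√(2 * (m : ℝ) + 3 / 2) * Real.exp (1 / (2 * (2 * (m : ℝ) + 2)))) /
          (√(2 * (m : ℝ) + 5 / 2) * √(2 * (m : ℝ) + 3 / 2)) := by
        field_simp
      _ ≤ cB * √(2 * (m : ℝ) + 5 / 2) / (√(2 * (m : ℝ) + 5 / 2) * √(2 * (m : ℝ) + 3 / 2)) := by
        have := cB_pos
        gcongr
      _ = cB / √(2 * (m : ℝ) + 3 / 2) := by
        field_simp

theorem bn_lower {N i : ℕ} (h : N ≤ 2 * i) (h' : 6 * i ≤ 4 * N + 4) :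
    cB / √(N + 2 / 3) * Real.exp (-2 * ((i : ℝ) - N / 2) ^ 2 / (N + 1) -
      3 / 2 * ((i : ℝ) - N / 2) ^ 4 / (N + 1) ^ 3) ≤ bn N i := by
  have hN : (0 : ℝ) < (N : ℝ) + 1 := by positivity
  obtain ⟨m, hm | hm⟩ := Nat.even_or_odd' N
  · obtain ⟨k, rfl⟩ : ∃ k, i = m + k := ⟨i - m, by omega⟩
    subst hm
    have h1 := bn_dn (N := 2 * m) (i := m) le_rfl k (by omega)
    rw [bn_even] at h1
    have h2 := le_ca m
    have e1 : ((m : ℝ) + k - ((2 * m : ℕ) : ℝ) / 2) ^ 2 - ((m : ℝ) - ((2 * m : ℕ) : ℝ) / 2) ^ 2 =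
        (((m + k : ℕ) : ℝ) - ((2 * m : ℕ) : ℝ) / 2) ^ 2 := by
      push_cast
      ring
    have e1' : ((m : ℝ) + k - ((2 * m : ℕ) : ℝ) / 2) ^ 4 - ((m : ℝ) - ((2 * m : ℕ) : ℝ) / 2) ^ 4 =
        (((m + k : ℕ) : ℝ) - ((2 * m : ℕ) : ℝ) / 2) ^ 4 := by
      push_cast
      ring
    rw [e1, e1'] at h1
    refine le_trans ?_ h1
    have e2 : ((2 * m : ℕ) : ℝ) + 2 / 3 = 2 * (m : ℝ) + 2 / 3 := by push_cast; ring
    rw [e2]
    exact mul_le_mul_of_nonneg_right h2 (Real.exp_pos _).le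
  · obtain ⟨k, rfl⟩ : ∃ k, i = m + 1 + k := ⟨i - (m + 1), by omega⟩
    subst hm
    have h1 := bn_dn (N := 2 * m + 1) (i := m + 1) (by omega) k (by omega)
    rw [bn_odd] at h1
    have h2 := le_ca (m + 1)
    have hm0 : (0 : ℝ) ≤ m := Nat.cast_nonneg m
    have hexp : 1 / (2 * (2 * (m : ℝ) + 2)) + (-2 * (((m + 1 + k : ℕ) : ℝ) -
          ((2 * m + 1 : ℕ) : ℝ) / 2) ^ 2 / (((2 * m + 1 : ℕ) : ℝ) + 1) -
        3 / 2 * (((m + 1 + k : ℕ) : ℝ) - ((2 * m + 1 : ℕ) : ℝ) / 2) ^ 4 /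
          (((2 * m + 1 : ℕ) : ℝ) + 1) ^ 3) ≤
        -2 * ((((m + 1 : ℕ) : ℝ) + k - ((2 * m + 1 : ℕ) : ℝ) / 2) ^ 2 -
        (((m + 1 : ℕ) : ℝ) - ((2 * m + 1 : ℕ) : ℝ) / 2) ^ 2) / (((2 * m + 1 : ℕ) : ℝ) + 1) -
        3 / 2 * ((((m + 1 : ℕ) : ℝ) + k - ((2 * m + 1 : ℕ) : ℝ) / 2) ^ 4 -
        (((m + 1 : ℕ) : ℝ) - ((2 * m + 1 : ℕ) : ℝ) / 2) ^ 4) / (((2 * m + 1 : ℕ) : ℝ) + 1) ^ 3 := by
      have e3 : (((m + 1 + k : ℕ) : ℝ) - ((2 * m + 1 : ℕ) : ℝ) / 2) =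
          ((m + 1 : ℕ) : ℝ) + k - ((2 * m + 1 : ℕ) : ℝ) / 2 := by
        push_cast
        ring
      have e4 : (((m + 1 : ℕ) : ℝ) - ((2 * m + 1 : ℕ) : ℝ) / 2) = 1 / 2 := by
        push_cast
        ring
      have e5 : (((2 * m + 1 : ℕ) : ℝ) + 1) = 2 * (m : ℝ) + 2 := by
        push_cast
        ring
      rw [e3, e4, e5]
      generalize ((m + 1 : ℕ) : ℝ) + k - ((2 * m + 1 : ℕ) : ℝ) / 2 = y
      have hM : (0 : ℝ) < 2 * (m : ℝ) + 2 := by positivity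
      generalize 2 * (m : ℝ) + 2 = W at *
      have e6 : -2 * (y ^ 2 - (1 / 2) ^ 2) / W - 3 / 2 * (y ^ 4 - (1 / 2) ^ 4) / W ^ 3 -
          (1 / (2 * W) + (-2 * y ^ 2 / W - 3 / 2 * y ^ 4 / W ^ 3)) = 3 / 32 / W ^ 3 := by
        field_simp
        ring
      have h7 : 0 ≤ 3 / 32 / W ^ 3 := by positivity
      linarith
    refine le_trans ?_ h1
    have hcp := ca_pos (m + 1)
    refine le_trans ?_ (mul_le_mul_of_nonneg_left (Real.exp_le_exp.2 hexp) hcp.le)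
    rw [Real.exp_add, ← mul_assoc]
    refine mul_le_mul_of_nonneg_right ?_ (Real.exp_pos _).le
    have h3 : 2 * (m : ℝ) + 8 / 3 ≤ (2 * m + 5 / 3) * Real.exp (2 * (1 / (2 * (2 * (m : ℝ) + 2)))) := by
      have h4 := Real.quadratic_le_exp_of_nonneg (x := 2 * (1 / (2 * (2 * (m : ℝ) + 2))))
        (by positivity)
      have h5 : (2 * (m : ℝ) + 5 / 3) * (1 + 2 * (1 / (2 * (2 * (m : ℝ) + 2))) +
          (2 * (1 / (2 * (2 * (m : ℝ) + 2)))) ^ 2 / 2) ≤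
          (2 * m + 5 / 3) * Real.exp (2 * (1 / (2 * (2 * (m : ℝ) + 2)))) := by gcongr
      refine le_trans ?_ h5
      have e3 : (2 * (m : ℝ) + 5 / 3) * (1 + 2 * (1 / (2 * (2 * (m : ℝ) + 2))) +
          (2 * (1 / (2 * (2 * (m : ℝ) + 2)))) ^ 2 / 2) - (2 * m + 8 / 3) =
          (2 * m + 1) / (6 * (2 * m + 2) ^ 2) := by
        field_simp
        ring
      have h6 : 0 ≤ (2 * (m : ℝ) + 1) / (6 * (2 * m + 2) ^ 2) := by positivity
      linarith
    have h5 : √(2 * (m : ℝ) + 8 / 3) ≤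
        √(2 * (m : ℝ) + 5 / 3) * Real.exp (1 / (2 * (2 * (m : ℝ) + 2))) := by
      apply Real.sqrt_le_iff.2
      refine ⟨by positivity, ?_⟩
      rw [mul_pow, Real.sq_sqrt (by positivity), ← Real.exp_nat_mul]
      exact_mod_cast h3
    have hs1 : 0 < √(2 * (m : ℝ) + 8 / 3) := Real.sqrt_pos.2 (by positivity)
    have hs2 : 0 < √(2 * (m : ℝ) + 5 / 3) := Real.sqrt_pos.2 (by positivity)
    have e6 : 2 * ((m + 1 : ℕ) : ℝ) + 2 / 3 = 2 * (m : ℝ) + 8 / 3 := by push_cast; ring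
    have e7 : ((2 * m + 1 : ℕ) : ℝ) + 2 / 3 = 2 * (m : ℝ) + 5 / 3 := by push_cast; ring
    rw [e6] at h2
    rw [e7]
    calc cB / √(2 * (m : ℝ) + 5 / 3)
        = cB * √(2 * (m : ℝ) + 8 / 3) / (√(2 * (m : ℝ) + 8 / 3) * √(2 * (m : ℝ) + 5 / 3)) := by
          field_simp
      _ ≤ cB * (√(2 * (m : ℝ) + 5 / 3) * Real.exp (1 / (2 * (2 * (m : ℝ) + 2)))) /
          (√(2 * (m : ℝ) + 8 / 3) * √(2 * (m : ℝ) + 5 / 3)) := by
        have := cB_pos
        gcongr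
      _ = cB / √(2 * (m : ℝ) + 8 / 3) * Real.exp (1 / (2 * (2 * (m : ℝ) + 2))) := by
        field_simp
      _ ≤ ca (m + 1) * Real.exp (1 / (2 * (2 * (m : ℝ) + 2))) :=
        mul_le_mul_of_nonneg_right h2 (Real.exp_pos _).le

theorem be_nonneg (N : ℕ) (i : ℤ) : 0 ≤ be N i := by
  unfold be
  positivity

theorem be_symm (N : ℕ) (i : ℤ) : be N (N - i) = be N i := by
  unfold be
  rw [ch_symm]

theorem be_neg {N : ℕ} {i : ℤ} (h : i < 0) : be N i = 0 := by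
  unfold be ch
  rw [if_pos h]
  simp

/-- upper bound (U) -/
theorem be_upper (N : ℕ) (i : ℤ) :
    be N i ≤ cB / √(N + 1 / 2) * Real.exp (-2 * ((i : ℝ) - N / 2) ^ 2 / (N + 1)) := by
  have hpos : 0 ≤ cB / √(N + 1 / 2) * Real.exp (-2 * ((i : ℝ) - N / 2) ^ 2 / (N + 1)) := by
    have := cB_pos
    positivity
  rcases le_or_gt (N : ℤ) (2 * i) with h | h
  · obtain ⟨k, rfl⟩ : ∃ k : ℕ, i = k := ⟨i.toNat, by omega⟩
    rw [be_nat]
    have := bn_upper (N := N) (i := k) (by omega)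
    exact_mod_cast this
  · rcases lt_or_ge i 0 with h0 | h0
    · rw [be_neg h0]
      exact hpos
    · obtain ⟨k, hk⟩ : ∃ k : ℕ, (N : ℤ) - i = k := ⟨((N : ℤ) - i).toNat, by omega⟩
      rw [← be_symm, hk, be_nat]
      have h1 := bn_upper (N := N) (i := k) (by omega)
      have e : ((k : ℝ) - N / 2) ^ 2 = ((i : ℝ) - N / 2) ^ 2 := by
        have : (k : ℝ) = N - i := by exact_mod_cast hk.symm
        rw [this]
        ring
      rw [e] at h1
      exact h1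

/-- lower bound (L) -/
theorem be_lower (N : ℕ) (i : ℤ) (h6 : 6 * |(i : ℝ) - N / 2| ≤ N + 4) :
    cB / √(N + 2 / 3) * Real.exp (-2 * ((i : ℝ) - N / 2) ^ 2 / (N + 1) -
      3 / 2 * ((i : ℝ) - N / 2) ^ 4 / (N + 1) ^ 3) ≤ be N i := by
  have h7 := abs_le.1 (by linarith : |(i : ℝ) - N / 2| ≤ (N + 4) / 6)
  have h8 : (6 : ℝ) * i ≤ 4 * N + 4 := by linarith [h7.2]
  have h9 : (2 : ℝ) * N ≤ 6 * i + 4 := by linarith [h7.1]
  have h8' : 6 * i ≤ 4 * (N : ℤ) + 4 := by exact_mod_cast h8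
  have h9' : 2 * (N : ℤ) ≤ 6 * i + 4 := by exact_mod_cast h9
  rcases le_or_gt (N : ℤ) (2 * i) with h | h
  · obtain ⟨k, rfl⟩ : ∃ k : ℕ, i = k := ⟨i.toNat, by omega⟩
    rw [be_nat]
    have := bn_lower (N := N) (i := k) (by omega) (by omega)
    exact_mod_cast this
  · obtain ⟨k, hk⟩ : ∃ k : ℕ, (N : ℤ) - i = k := ⟨((N : ℤ) - i).toNat, by omega⟩
    rw [← be_symm, hk, be_nat]
    have h1 := bn_lower (N := N) (i := k) (by omega) (by omega)
    have e0 : (k : ℝ) = N - i := by exact_mod_cast hk.symm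
    have e : ((k : ℝ) - N / 2) ^ 2 = ((i : ℝ) - N / 2) ^ 2 := by
      rw [e0]
      ring
    have e' : ((k : ℝ) - N / 2) ^ 4 = ((i : ℝ) - N / 2) ^ 4 := by
      rw [e0]
      ring
    rw [e, e'] at h1
    exact h1

/-! ### Identities for `PsA`, `PsB` -/

theorem ch_step (N : ℕ) (i : ℤ) :
    (ch N (i + 1) : ℝ) * ((i : ℝ) + 1) = ch N i * ((N : ℝ) - i) := by
  rcases lt_trichotomy i (-1) with h | h | h
  · unfold ch
    rw [if_pos (by omega), if_pos (by omega)]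
    simp
  · subst h
    unfold ch
    norm_num
  · obtain ⟨k, rfl⟩ : ∃ k : ℕ, i = k := ⟨i.toNat, by omega⟩
    have h1 := bn_succ N k
    have e1 : (ch N ((k : ℤ) + 1) : ℝ) = bn N (k + 1) * 2 ^ N := by
      unfold bn ch
      rw [if_neg (by omega), div_mul_cancel₀ _ (by positivity)]
      congr 2
    have e2 : (ch N (k : ℤ) : ℝ) = bn N k * 2 ^ N := by
      unfold bn ch
      rw [if_neg (by omega), div_mul_cancel₀ _ (by positivity)]
      congr 2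
    rw [e1, e2]
    push_cast
    calc bn N (k + 1) * 2 ^ N * ((k : ℝ) + 1) = (bn N (k + 1) * ((k : ℝ) + 1)) * 2 ^ N := by ring
      _ = (bn N k * ((N : ℝ) - k)) * 2 ^ N := by rw [h1]
      _ = _ := by ring

/-- absorption: `C(f, j) (f + 1) = C(f + 1, j + 1) (j + 1)` -/
theorem ch_absorb (f : ℕ) (j : ℤ) :
    (ch f j : ℝ) * ((f : ℝ) + 1) = ch (f + 1) (j + 1) * ((j : ℝ) + 1) := by
  have h1 : (ch (f + 1) (j + 1) : ℝ) = ch f (j + 1) + ch f j := by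
    have := ch_succ f (j + 1)
    rw [add_sub_cancel_right] at this
    exact_mod_cast this
  have h2 := ch_step f j
  rw [h1]
  linarith

/-- `C(f, j + 1) (f + 1) = C(f + 1, j + 1) (f - j)` -/
theorem ch_absorb' (f : ℕ) (j : ℤ) :
    (ch f (j + 1) : ℝ) * ((f : ℝ) + 1) = ch (f + 1) (j + 1) * ((f : ℝ) - j) := by
  have h1 : (ch (f + 1) (j + 1) : ℝ) = ch f (j + 1) + ch f j := by
    have := ch_succ f (j + 1)
    rw [add_sub_cancel_right] at this
    exact_mod_cast this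
  have h2 := ch_step f j
  rw [h1]
  linarith

theorem PsB_eq (f : ℕ) (j : ℤ) :
    PsB f j = 4 * ((j : ℝ) + 1 / 2 - f / 2) * be (f + 1) (j + 1) / (f + 1) := by
  have h1 := ch_absorb f j
  have h2 := ch_absorb' f j
  have hf : (0 : ℝ) < (f : ℝ) + 1 := by positivity
  unfold PsB be
  rw [eq_div_iff hf.ne', pow_succ]
  have h3 : ((ch f j : ℝ) - ch f (j + 1)) * ((f : ℝ) + 1) =
      ch (f + 1) (j + 1) * (2 * j + 1 - f) := by linarith
  calc ((ch f j : ℝ) - ch f (j + 1)) / 2 ^ f * ((f : ℝ) + 1)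
      = (((ch f j : ℝ) - ch f (j + 1)) * ((f : ℝ) + 1)) / 2 ^ f := by ring
    _ = (ch (f + 1) (j + 1) * (2 * j + 1 - f)) / 2 ^ f := by rw [h3]
    _ = _ := by
      field_simp
      ring

theorem PsA_eq (f : ℕ) (j : ℤ) :
    PsA f j = 4 * be (f + 2) (j + 1) * (4 * ((j : ℝ) - f / 2) ^ 2 - (f + 2)) /
      (((f : ℝ) + 2) * (f + 1)) := by
  have a1 := ch_absorb f j
  have a2 := ch_absorb' f j
  have a3 := ch_absorb f (j - 1)
  have b1 := ch_absorb (f + 1) j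
  have b2 := ch_absorb' (f + 1) j
  rw [sub_add_cancel] at a3
  push_cast at a3 b1 b2
  have hf1 : (0 : ℝ) < (f : ℝ) + 1 := by positivity
  have hf2 : (0 : ℝ) < (f : ℝ) + 2 := by positivity
  unfold PsA be
  have key : ((ch f (j + 1) : ℝ) - 2 * ch f j + ch f (j - 1)) * (((f : ℝ) + 2) * (f + 1)) =
      ch (f + 2) (j + 1) * (4 * ((j : ℝ) - f / 2) ^ 2 - (f + 2)) := by
    have c1 : (ch f (j + 1) : ℝ) * ((f : ℝ) + 1) * ((f : ℝ) + 2) =
        ch (f + 2) (j + 1) * ((f : ℝ) + 1 - j) * ((f : ℝ) - j) := by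
      have : (ch (f + 1) (j + 1) : ℝ) * ((f : ℝ) + 2) =
          ch (f + 2) (j + 1) * ((f : ℝ) + 1 - j) := by
        have := b2
        ring_nf at this ⊢
        linarith
      rw [a2]
      calc (ch (f + 1) (j + 1) : ℝ) * ((f : ℝ) - j) * ((f : ℝ) + 2)
          = ((ch (f + 1) (j + 1) : ℝ) * ((f : ℝ) + 2)) * ((f : ℝ) - j) := by ring
        _ = _ := by rw [this]
    have c2 : (ch f j : ℝ) * ((f : ℝ) + 1) * ((f : ℝ) + 2) =
        ch (f + 2) (j + 1) * ((f : ℝ) + 1 - j) * ((j : ℝ) + 1) := by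
      have : (ch (f + 1) (j + 1) : ℝ) * ((f : ℝ) + 2) =
          ch (f + 2) (j + 1) * ((f : ℝ) + 1 - j) := by
        have := b2
        ring_nf at this ⊢
        linarith
      rw [a1]
      calc (ch (f + 1) (j + 1) : ℝ) * ((j : ℝ) + 1) * ((f : ℝ) + 2)
          = ((ch (f + 1) (j + 1) : ℝ) * ((f : ℝ) + 2)) * ((j : ℝ) + 1) := by ring
        _ = _ := by rw [this]
    have c3 : (ch f (j - 1) : ℝ) * ((f : ℝ) + 1) * ((f : ℝ) + 2) =
        ch (f + 2) (j + 1) * ((j : ℝ) + 1) * (j : ℝ) := by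
      have h1 : (ch (f + 1) j : ℝ) * ((f : ℝ) + 2) = ch (f + 2) (j + 1) * ((j : ℝ) + 1) := by
        have := b1
        ring_nf at this ⊢
        linarith
      have h2 : (ch f (j - 1) : ℝ) * ((f : ℝ) + 1) = ch (f + 1) j * (j : ℝ) := by
        have := a3
        ring_nf at this ⊢
        linarith
      rw [h2]
      calc (ch (f + 1) j : ℝ) * (j : ℝ) * ((f : ℝ) + 2)
          = ((ch (f + 1) j : ℝ) * ((f : ℝ) + 2)) * (j : ℝ) := by ring
        _ = _ := by rw [h1]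
    have : ((ch f (j + 1) : ℝ) - 2 * ch f j + ch f (j - 1)) * (((f : ℝ) + 2) * (f + 1)) =
        (ch f (j + 1) : ℝ) * ((f : ℝ) + 1) * ((f : ℝ) + 2) -
        2 * ((ch f j : ℝ) * ((f : ℝ) + 1) * ((f : ℝ) + 2)) +
        (ch f (j - 1) : ℝ) * ((f : ℝ) + 1) * ((f : ℝ) + 2) := by ring
    rw [this, c1, c2, c3]
    ring
  rw [eq_div_iff (by positivity)]
  calc ((ch f (j + 1) : ℝ) - 2 * ch f j + ch f (j - 1)) / 2 ^ f * (((f : ℝ) + 2) * (f + 1))
      = (((ch f (j + 1) : ℝ) - 2 * ch f j + ch f (j - 1)) * (((f : ℝ) + 2) * (f + 1))) / 2 ^ f := by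
        ring
    _ = (ch (f + 2) (j + 1) * (4 * ((j : ℝ) - f / 2) ^ 2 - (f + 2))) / 2 ^ f := by rw [key]
    _ = _ := by
      rw [pow_add]
      field_simp
      ring

theorem ch_le (f : ℕ) (j : ℤ) : (ch f j : ℝ) ≤ 2 ^ f := by
  unfold ch
  split_ifs
  · simp
  · exact_mod_cast Nat.choose_le_two_pow f j.toNat

theorem ch_add_le (f : ℕ) {i j : ℤ} (h : i ≠ j) : (ch f i : ℝ) + ch f j ≤ 2 ^ f := by
  by_cases hi : i < 0
  · have : ch f i = 0 := by
      unfold ch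
      rw [if_pos hi]
    rw [this]
    simpa using ch_le f j
  by_cases hj : j < 0
  · have : ch f j = 0 := by
      unfold ch
      rw [if_pos hj]
    rw [this]
    simpa using ch_le f i
  obtain ⟨a, rfl⟩ : ∃ a : ℕ, i = a := ⟨i.toNat, by omega⟩
  obtain ⟨b, rfl⟩ : ∃ b : ℕ, j = b := ⟨j.toNat, by omega⟩
  have hab : a ≠ b := by
    intro e
    exact h (by rw [e])
  have e1 : ∀ a : ℕ, ch f (a : ℤ) = f.choose a := by
    intro a
    unfold ch
    rw [if_neg (by omega)]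
    simp
  rw [e1, e1]
  have h1 : f.choose a + f.choose b ≤ 2 ^ f := by
    rw [← Nat.sum_range_choose]
    by_cases ha : f < a
    · rw [Nat.choose_eq_zero_of_lt ha, zero_add, Nat.sum_range_choose]
      exact Nat.choose_le_two_pow f b
    by_cases hb : f < b
    · rw [Nat.choose_eq_zero_of_lt hb, add_zero, Nat.sum_range_choose]
      exact Nat.choose_le_two_pow f a
    rw [← Finset.sum_pair hab]
    apply Finset.sum_le_sum_of_subset
    intro x hx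
    simp only [Finset.mem_insert, Finset.mem_singleton] at hx
    rw [Finset.mem_range]
    omega
  exact_mod_cast h1

theorem PsA_le_one (f : ℕ) (j : ℤ) : PsA f j ≤ 1 := by
  unfold PsA
  rw [div_le_one (by positivity)]
  have h1 := ch_add_le f (i := j + 1) (j := j - 1) (by omega)
  have h2 : (0 : ℝ) ≤ ch f j := Nat.cast_nonneg _
  linarith

theorem neg_one_le_PsB (f : ℕ) (j : ℤ) : -1 ≤ PsB f j := by
  unfold PsB
  rw [le_div_iff₀ (by positivity)]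
  have h1 := ch_le f (j + 1)
  have h2 : (0 : ℝ) ≤ ch f j := Nat.cast_nonneg _
  linarith

end Pool.Agent.UniM
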