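import Pool.Agent.UniM.P3Beta

/-!
# UniM / P3L1x: bounds for `PsA` and `PsB` in terms of gaussians
-/

set_option autoImplicit false

namespace Pool.Agent.UniM

theorem poly_exp_aux {u : ℝ} (hu : 1 ≤ u) :
    (u - 1) * (77 / 100 + u / 2) ≤ 3 / 2 * Real.exp (50 * u / 101) := by
  set z : ℝ := 50 * u / 101 with hz
  have hz0 : 0 ≤ z := by rw [hz]; positivity
  have h1 := Real.sum_le_exp_of_nonneg hz0 5
  simp only [Finset.sum_range_succ, Finset.sum_range_zero, Nat.factorial] at h1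
  norm_num at h1
  have hu' : u = 101 / 50 * z := by rw [hz]; ring
  rw [hu']
  have h2 : (101 / 50 * z - 1) * (77 / 100 + 101 / 50 * z / 2) ≤
      3 / 2 * (1 + z + z ^ 2 / 2 + z ^ 3 / 6 + z ^ 4 / 24) := by
    nlinarith [sq_nonneg (z - 2), sq_nonneg (z ^ 2 - 4), mul_nonneg hz0 (sq_nonneg (z - 2)),
      mul_nonneg hz0 (sq_nonneg (z - 3 / 2)), sq_nonneg (z - 3 / 2), sq_nonneg (z ^ 2 - 3)]
  linarith

theorem gaussA_up {c b N u : ℝ} (hc : 0 < c) (hN : 100 ≤ N) (hu : 1 ≤ u)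
    (hb : b ≤ c / √(N + 1 / 2) * Real.exp (-(u / 2 * (N / (N + 1))))) :
    4 * b * (u - 1) / (N - 1) ≤
      4 * c / (N * √N) * ((u - 1) * Real.exp (-u / 2) + 3 / (2 * N)) := by
  have hN0 : 0 < N := by linarith
  have hN1 : 0 < N - 1 := by linarith
  have hu1 : 0 ≤ u - 1 := by linarith
  set E : ℝ := Real.exp (-(u / 2 * (N / (N + 1)))) with hE
  have hE0 : 0 < E := Real.exp_pos _
  have hsN : 0 < √N := Real.sqrt_pos.2 hN0
  have hsN2 : 0 < √(N + 1 / 2) := Real.sqrt_pos.2 (by linarith)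
  -- the square roots
  have h1 : N * √N ≤ (1 + 77 / 100 / N) * ((N - 1) * √(N + 1 / 2)) := by
    have h2 : (N * √N) ^ 2 ≤ ((1 + 77 / 100 / N) * ((N - 1) * √(N + 1 / 2))) ^ 2 := by
      rw [mul_pow, Real.sq_sqrt hN0.le, mul_pow, mul_pow, Real.sq_sqrt (by linarith)]
      have e1 : (1 + 77 / 100 / N) ^ 2 * ((N - 1) ^ 2 * (N + 1 / 2)) =
          ((N + 77 / 100) * (N - 1)) ^ 2 * (N + 1 / 2) / N ^ 2 := by
        field_simp
      rw [e1, le_div_iff₀ (by positivity)]
      have h3 : 0 ≤ N - 100 := by linarith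
      nlinarith [mul_nonneg (pow_nonneg hN0.le 3) h3, mul_nonneg (pow_nonneg hN0.le 2) h3,
        mul_nonneg hN0.le h3, pow_pos hN0 3, pow_pos hN0 2]
    exact le_of_sq_le_sq h2 (by positivity)
  have hk : 1 / ((N - 1) * √(N + 1 / 2)) ≤ (1 + 77 / 100 / N) / (N * √N) := by
    rw [div_le_div_iff₀ (by positivity) (by positivity)]
    linarith
  have h2 : 4 * b * (u - 1) / (N - 1) ≤
      4 * c / (N * √N) * ((u - 1) * ((1 + 77 / 100 / N) * E)) := by
    calc 4 * b * (u - 1) / (N - 1)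
        ≤ 4 * (c / √(N + 1 / 2) * E) * (u - 1) / (N - 1) := by gcongr
      _ = 4 * c * (u - 1) * E * (1 / ((N - 1) * √(N + 1 / 2))) := by
          field_simp
      _ ≤ 4 * c * (u - 1) * E * ((1 + 77 / 100 / N) / (N * √N)) := by
          gcongr
      _ = _ := by ring
  refine h2.trans (mul_le_mul_of_nonneg_left ?_ (by positivity))
  -- the exponentials
  set x : ℝ := u / (2 * (N + 1)) with hx
  have hx0 : 0 ≤ x := by positivity
  have hE1 : E = Real.exp (-u / 2) * Real.exp x := by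
    rw [hE, ← Real.exp_add]
    congr 1
    rw [hx]
    field_simp
    ring
  have h3 : Real.exp x ≤ 1 + x * Real.exp x := by
    have h4 := Real.add_one_le_exp (-x)
    have h5 : (-x + 1) * Real.exp x ≤ Real.exp (-x) * Real.exp x :=
      mul_le_mul_of_nonneg_right h4 (Real.exp_pos _).le
    rw [← Real.exp_add, neg_add_cancel, Real.exp_zero] at h5
    linarith
  have hxN : x ≤ u / 2 / N := by
    rw [hx, div_div]
    exact div_le_div_of_nonneg_left (by linarith) (by positivity) (by linarith)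
  have h4 : (1 + 77 / 100 / N) * Real.exp x ≤ 1 + (u / 2 + 77 / 100) / N * Real.exp x := by
    have h5 : x * Real.exp x ≤ u / 2 / N * Real.exp x :=
      mul_le_mul_of_nonneg_right hxN (Real.exp_pos _).le
    have e1 : (u / 2 + 77 / 100) / N * Real.exp x =
        u / 2 / N * Real.exp x + 77 / 100 / N * Real.exp x := by ring
    rw [e1]
    linarith
  have h5 : E ≤ Real.exp (-(50 * u / 101)) := by
    rw [hE]
    apply Real.exp_le_exp.2
    have : 100 / 101 ≤ N / (N + 1) := by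
      rw [div_le_div_iff₀ (by norm_num) (by linarith)]
      linarith
    have h6 : u / 2 * (100 / 101) ≤ u / 2 * (N / (N + 1)) :=
      mul_le_mul_of_nonneg_left this (by linarith)
    linarith
  have h6 : (u - 1) * (77 / 100 + u / 2) * E ≤ 3 / 2 := by
    calc (u - 1) * (77 / 100 + u / 2) * E
        ≤ (3 / 2 * Real.exp (50 * u / 101)) * Real.exp (-(50 * u / 101)) := by
          apply mul_le_mul (poly_exp_aux hu) h5 hE0.le (by positivity)
      _ = 3 / 2 := by
          rw [mul_assoc, ← Real.exp_add, add_neg_cancel, Real.exp_zero, mul_one]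
  calc (u - 1) * ((1 + 77 / 100 / N) * E)
      = (u - 1) * Real.exp (-u / 2) * ((1 + 77 / 100 / N) * Real.exp x) := by
        rw [hE1]
        ring
    _ ≤ (u - 1) * Real.exp (-u / 2) * (1 + (u / 2 + 77 / 100) / N * Real.exp x) :=
        mul_le_mul_of_nonneg_left h4 (by positivity)
    _ = (u - 1) * Real.exp (-u / 2) + (u - 1) * (77 / 100 + u / 2) * E / N := by
        rw [hE1]
        ring
    _ ≤ (u - 1) * Real.exp (-u / 2) + 3 / 2 / N := by gcongr
    _ = _ := by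
        congr 1
        rw [div_div]

theorem gaussA_dn {c b N u : ℝ} (hc : 0 < c) (hN : 100 ≤ N) (hu0 : 0 ≤ u) (hu : u ≤ 1)
    (hb : c / √(N + 2 / 3) * Real.exp (-(u / 2 * (N / (N + 1))) - 3 / 32 * (u ^ 2 * N ^ 2) /
      (N + 1) ^ 3) ≤ b) :
    4 * b * (u - 1) / (N - 1) ≤
      4 * c / (N * √N) * ((u - 1) * Real.exp (-u / 2) + 3 / (2 * N)) := by
  have hN0 : 0 < N := by linarith
  have hN1 : 0 < N - 1 := by linarith
  have hu1 : 0 ≤ 1 - u := by linarith
  have hsN : 0 < √N := Real.sqrt_pos.2 hN0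
  have hsN2 : 0 < √(N + 2 / 3) := Real.sqrt_pos.2 (by linarith)
  set E : ℝ := Real.exp (-(u / 2 * (N / (N + 1))) - 3 / 32 * (u ^ 2 * N ^ 2) / (N + 1) ^ 3)
    with hE
  have hE0 : 0 < E := Real.exp_pos _
  have h1 : (N - 1) * √(N + 2 / 3) ≤ N * √N := by
    have h2 : ((N - 1) * √(N + 2 / 3)) ^ 2 ≤ (N * √N) ^ 2 := by
      rw [mul_pow, Real.sq_sqrt (by linarith), mul_pow, Real.sq_sqrt hN0.le]
      nlinarith
    exact le_of_sq_le_sq h2 (by positivity)
  have hk : 1 / (N * √N) ≤ 1 / ((N - 1) * √(N + 2 / 3)) :=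
    one_div_le_one_div_of_le (by positivity) h1
  have h2 : 4 * c / (N * √N) * ((1 - u) * E) ≤ 4 * b * (1 - u) / (N - 1) := by
    calc 4 * c / (N * √N) * ((1 - u) * E)
        = 4 * c * (1 - u) * E * (1 / (N * √N)) := by ring
      _ ≤ 4 * c * (1 - u) * E * (1 / ((N - 1) * √(N + 2 / 3))) := by gcongr
      _ = 4 * (c / √(N + 2 / 3) * E) * (1 - u) / (N - 1) := by
          field_simp
      _ ≤ 4 * b * (1 - u) / (N - 1) := by gcongr
  have h3 : Real.exp (-u / 2) * (1 - 3 / 32 / N) ≤ E := by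
    have h4 : Real.exp (-u / 2 + (-(3 / 32 / N))) ≤ E := by
      rw [hE]
      apply Real.exp_le_exp.2
      have h5 : u / 2 * (N / (N + 1)) ≤ u / 2 * 1 := by
        apply mul_le_mul_of_nonneg_left _ (by linarith)
        rw [div_le_one (by linarith)]
        linarith
      have h6 : 3 / 32 * (u ^ 2 * N ^ 2) / (N + 1) ^ 3 ≤ 3 / 32 / N := by
        rw [div_le_div_iff₀ (by positivity) hN0]
        have h7 : u ^ 2 ≤ 1 := by nlinarith
        have h8 : u ^ 2 * N ^ 3 ≤ 1 * N ^ 3 := by gcongr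
        have h9 : N ^ 3 ≤ (N + 1) ^ 3 := by gcongr; linarith
        nlinarith
      linarith
    rw [Real.exp_add] at h4
    refine le_trans (mul_le_mul_of_nonneg_left ?_ (Real.exp_pos _).le) h4
    have := Real.add_one_le_exp (-(3 / 32 / N))
    linarith
  have h4 : (1 - u) * Real.exp (-u / 2) - 3 / (2 * N) ≤ (1 - u) * E := by
    have h5 : (1 - u) * (Real.exp (-u / 2) * (1 - 3 / 32 / N)) ≤ (1 - u) * E :=
      mul_le_mul_of_nonneg_left h3 hu1
    have h6 : Real.exp (-u / 2) ≤ 1 := Real.exp_le_one_iff.2 (by linarith)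
    have h7 : (1 - u) * Real.exp (-u / 2) ≤ 1 := by
      nlinarith [Real.exp_pos (-u / 2)]
    have h8 : (1 - u) * Real.exp (-u / 2) * (3 / 32 / N) ≤ 1 * (3 / 32 / N) :=
      mul_le_mul_of_nonneg_right h7 (by positivity)
    have e1 : 3 / (2 * N) = 3 / 2 / N := by rw [div_div]
    have h9 : 3 / 32 / N ≤ 3 / 2 / N := by gcongr; norm_num
    rw [e1]
    linarith
  have h5 : 4 * c / (N * √N) * ((1 - u) * Real.exp (-u / 2) - 3 / (2 * N)) ≤
      4 * c / (N * √N) * ((1 - u) * E) := mul_le_mul_of_nonneg_left h4 (by positivity)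
  have e2 : 4 * b * (u - 1) / (N - 1) = -(4 * b * (1 - u) / (N - 1)) := by ring
  have e3 : 4 * c / (N * √N) * ((u - 1) * Real.exp (-u / 2) + 3 / (2 * N)) =
      -(4 * c / (N * √N) * ((1 - u) * Real.exp (-u / 2) - 3 / (2 * N))) := by ring
  rw [e2, e3]
  linarith

/-- L1 -/
theorem PsA_le_gauss (f : ℕ) (j : ℤ) (hf : 98 ≤ f) :
    PsA f j ≤ 4 * cB / (((f : ℝ) + 2) * √((f : ℝ) + 2)) *
      ((4 * ((j : ℝ) - f / 2) ^ 2 / (f + 2) - 1) *
        Real.exp (-(4 * ((j : ℝ) - f / 2) ^ 2 / (f + 2)) / 2) + 3 / (2 * ((f : ℝ) + 2))) := by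
  have hf' : (98 : ℝ) ≤ f := by exact_mod_cast hf
  have hN : (100 : ℝ) ≤ (f : ℝ) + 2 := by linarith
  set N : ℝ := (f : ℝ) + 2 with hNdef
  set y : ℝ := (j : ℝ) - f / 2 with hy
  have hN0 : 0 < N := by linarith
  have hN1 : 0 < N - 1 := by linarith
  set u : ℝ := 4 * y ^ 2 / N with hu
  have hu0 : 0 ≤ u := by positivity
  have huN : 4 * y ^ 2 = u * N := by
    rw [hu]
    field_simp
  have e0 : PsA f j = 4 * be (f + 2) (j + 1) * (u - 1) / (N - 1) := by
    rw [PsA_eq]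
    rw [show ((f : ℝ) + 1) = N - 1 by rw [hNdef]; ring, ← hNdef, ← hy, huN]
    field_simp
  rw [e0]
  have e1 : (((j + 1 : ℤ) : ℝ) - ((f + 2 : ℕ) : ℝ) / 2) = y := by
    rw [hy]
    push_cast
    ring
  have e2 : ((f + 2 : ℕ) : ℝ) = N := by
    rw [hNdef]
    push_cast
    ring
  have e3 : -2 * y ^ 2 / (N + 1) = -(u / 2 * (N / (N + 1))) := by
    have : y ^ 2 = u * N / 4 := by linarith
    rw [this]
    field_simp
    ring
  rcases le_total 1 u with h1 | h1
  · have h2 := be_upper (f + 2) (j + 1)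
    rw [e1, e2, e3] at h2
    exact gaussA_up cB_pos hN h1 h2
  · have h6 : 6 * |y| ≤ N + 4 := by
      have h7 : |y| ^ 2 ≤ N / 4 := by
        rw [sq_abs]
        nlinarith
      nlinarith [abs_nonneg y, sq_nonneg (|y| - 3 / 4)]
    have h2 := be_lower (f + 2) (j + 1) (by rw [e1, e2]; exact h6)
    rw [e1, e2, e3] at h2
    have e4 : 3 / 2 * y ^ 4 / (N + 1) ^ 3 = 3 / 32 * (u ^ 2 * N ^ 2) / (N + 1) ^ 3 := by
      have : y ^ 2 = u * N / 4 := by linarith
      have h8 : y ^ 4 = (u * N / 4) ^ 2 := by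
        rw [← this]
        ring
      rw [h8]
      ring
    rw [e4] at h2
    exact gaussA_dn cB_pos hN hu0 h1 h2

end Pool.Agent.UniM
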