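import Pool.Agent.UniM.P3Beta

/-!
# UniM / P3L2x: lower bounds for `PsB` in terms of gaussians
-/

set_option autoImplicit false

namespace Pool.Agent.UniM

/-- L2, first half -/
theorem PsB_ge_gauss_pos (f : ℕ) (j : ℤ) (hy : 0 ≤ (j : ℝ) + 1 / 2 - f / 2)
    (h6 : 6 * ((j : ℝ) + 1 / 2 - f / 2) ≤ (f : ℝ) + 5) :
    4 * cB * ((j : ℝ) + 1 / 2 - f / 2) / (((f : ℝ) + 2) * √((f : ℝ) + 2)) *
      Real.exp (-2 * ((j : ℝ) + 1 / 2 - f / 2) ^ 2 / (f + 2) -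
        3 / 2 * ((j : ℝ) + 1 / 2 - f / 2) ^ 4 / (f + 2) ^ 3) ≤ PsB f j := by
  have hf0 : (0 : ℝ) ≤ f := Nat.cast_nonneg f
  have hcB := cB_pos
  rw [PsB_eq]
  set y : ℝ := (j : ℝ) + 1 / 2 - f / 2 with hydef
  have e1 : (((j + 1 : ℤ) : ℝ) - ((f + 1 : ℕ) : ℝ) / 2) = y := by
    rw [hydef]
    push_cast
    ring
  have e2 : ((f + 1 : ℕ) : ℝ) = (f : ℝ) + 1 := by push_cast; ring
  have h1 := be_lower (f + 1) (j + 1) (by
    rw [e1, e2, abs_of_nonneg hy]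
    linarith)
  rw [e1, e2] at h1
  have e3 : (f : ℝ) + 1 + 1 = f + 2 := by ring
  have e4 : (f : ℝ) + 1 + 2 / 3 = f + 5 / 3 := by ring
  rw [e3, e4] at h1
  set E : ℝ := Real.exp (-2 * y ^ 2 / (f + 2) - 3 / 2 * y ^ 4 / (f + 2) ^ 3)
  have hE : 0 < E := Real.exp_pos _
  have hs1 : 0 < √((f : ℝ) + 5 / 3) := Real.sqrt_pos.2 (by linarith)
  have hs2 : 0 < √((f : ℝ) + 2) := Real.sqrt_pos.2 (by linarith)
  have h2 : ((f : ℝ) + 1) * √((f : ℝ) + 5 / 3) ≤ ((f : ℝ) + 2) * √((f : ℝ) + 2) := by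
    apply mul_le_mul (by linarith) (Real.sqrt_le_sqrt (by linarith)) hs1.le (by linarith)
  have hk : 1 / (((f : ℝ) + 2) * √((f : ℝ) + 2)) ≤ 1 / (((f : ℝ) + 1) * √((f : ℝ) + 5 / 3)) :=
    one_div_le_one_div_of_le (by positivity) h2
  calc 4 * cB * y / (((f : ℝ) + 2) * √((f : ℝ) + 2)) * E
      = 4 * cB * y * E * (1 / (((f : ℝ) + 2) * √((f : ℝ) + 2))) := by ring
    _ ≤ 4 * cB * y * E * (1 / (((f : ℝ) + 1) * √((f : ℝ) + 5 / 3))) := by gcongr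
    _ = 4 * y * (cB / √((f : ℝ) + 5 / 3) * E) / (f + 1) := by
        field_simp
    _ ≤ 4 * y * be (f + 1) (j + 1) / (f + 1) := by gcongr

/-- L2, second half -/
theorem PsB_ge_gauss_neg (f : ℕ) (j : ℤ) (hf : 98 ≤ f) (hy : (j : ℝ) + 1 / 2 - f / 2 ≤ 0) :
    4 * cB * ((j : ℝ) + 1 / 2 - f / 2) / (((f : ℝ) + 2) * √((f : ℝ) + 2)) *
      (1 + 8 / 5 / (f + 2)) *
      Real.exp (-2 * ((j : ℝ) + 1 / 2 - f / 2) ^ 2 / (f + 2)) ≤ PsB f j := by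
  have hf0 : (98 : ℝ) ≤ f := by exact_mod_cast hf
  have hcB := cB_pos
  rw [PsB_eq]
  set y : ℝ := (j : ℝ) + 1 / 2 - f / 2 with hydef
  have e1 : (((j + 1 : ℤ) : ℝ) - ((f + 1 : ℕ) : ℝ) / 2) = y := by
    rw [hydef]
    push_cast
    ring
  have e2 : ((f + 1 : ℕ) : ℝ) = (f : ℝ) + 1 := by push_cast; ring
  have h1 := be_upper (f + 1) (j + 1)
  rw [e1, e2] at h1
  have e3 : (f : ℝ) + 1 + 1 = f + 2 := by ring
  have e4 : (f : ℝ) + 1 + 1 / 2 = f + 3 / 2 := by ring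
  rw [e3, e4] at h1
  set E : ℝ := Real.exp (-2 * y ^ 2 / (f + 2))
  have hE : 0 < E := Real.exp_pos _
  set n : ℝ := (f : ℝ) + 2 with hn
  have hn0 : 100 ≤ n := by linarith
  have e5 : (f : ℝ) + 1 = n - 1 := by rw [hn]; ring
  have e6 : (f : ℝ) + 3 / 2 = n - 1 / 2 := by rw [hn]; ring
  rw [e6] at h1
  rw [e5]
  have hn1 : 0 < n := by linarith
  have hn2 : 0 < n - 1 := by linarith
  have hs1 : 0 < √(n - 1 / 2) := Real.sqrt_pos.2 (by linarith)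
  have hs2 : 0 < √n := Real.sqrt_pos.2 (by linarith)
  have h2 : n * √n ≤ (1 + 8 / 5 / n) * ((n - 1) * √(n - 1 / 2)) := by
    have h3 : (n * √n) ^ 2 ≤ ((1 + 8 / 5 / n) * ((n - 1) * √(n - 1 / 2))) ^ 2 := by
      rw [mul_pow, Real.sq_sqrt hn1.le, mul_pow, mul_pow, Real.sq_sqrt (by linarith)]
      have e1 : (1 + 8 / 5 / n) ^ 2 * ((n - 1) ^ 2 * (n - 1 / 2)) =
          ((n + 8 / 5) * (n - 1)) ^ 2 * (n - 1 / 2) / n ^ 2 := by
        field_simp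
      rw [e1, le_div_iff₀ (by positivity)]
      have h3 : 0 ≤ n - 100 := by linarith
      nlinarith [mul_nonneg (pow_nonneg hn1.le 3) h3, mul_nonneg (pow_nonneg hn1.le 2) h3,
        mul_nonneg hn1.le h3, pow_pos hn1 3, pow_pos hn1 2]
    exact le_of_sq_le_sq h3 (by positivity)
  have hk : 1 / ((n - 1) * √(n - 1 / 2)) ≤ (1 + 8 / 5 / n) / (n * √n) := by
    rw [div_le_div_iff₀ (by positivity) (by positivity)]
    linarith
  have hy' : 0 ≤ -y := by linarith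
  have h4 : 4 * (-y) * be (f + 1) (j + 1) / (n - 1) ≤
      4 * cB * (-y) / (n * √n) * (1 + 8 / 5 / n) * E := by
    calc 4 * (-y) * be (f + 1) (j + 1) / (n - 1)
        ≤ 4 * (-y) * (cB / √(n - 1 / 2) * E) / (n - 1) := by gcongr
      _ = 4 * cB * (-y) * E * (1 / ((n - 1) * √(n - 1 / 2))) := by
          field_simp
      _ ≤ 4 * cB * (-y) * E * ((1 + 8 / 5 / n) / (n * √n)) := by gcongr
      _ = _ := by ring
  have e7 : 4 * (-y) * be (f + 1) (j + 1) / (n - 1) = -(4 * y * be (f + 1) (j + 1) / (n - 1)) := by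
    ring
  have e8 : 4 * cB * (-y) / (n * √n) * (1 + 8 / 5 / n) * E =
      -(4 * cB * y / (n * √n) * (1 + 8 / 5 / n) * E) := by ring
  rw [e7, e8] at h4
  linarith

end Pool.Agent.UniM
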