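import Pool.Agent.UniM.P3LDef
import Pool.Agent.UniM.P3L1x

/-!
# UniM / P3LA: the second difference `PsA` (from `PsA_le_gauss` of `P3L1x`)
-/

set_option autoImplicit false

namespace Pool.Agent.UniM

theorem PsA_le {c : ℝ} (h : BetaB c) (f : ℕ) (j : ℤ) (hf : 98 ≤ f) (y u : ℝ)
    (hy : y = (j : ℝ) - f / 2) (hu : u = 4 * y ^ 2 / (f + 2)) :
    PsA f j ≤ 4 * c / ((f + 2) * √(f + 2)) *
      ((u - 1) * Real.exp (-u / 2) + 3 / (2 * (f + 2))) := by
  subst hu hy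
  rw [h.eq]
  exact PsA_le_gauss f j hf

end Pool.Agent.UniM
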