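import Pool.Agent.UniM.P3LDef

/-!
# UniM / P3LB: the first difference `PsB`

`PsB_eq` (file `P3Beta`) with `N = f + 1`, `i = j + 1`; `neg_one_le_PsB` is there as well.

`PsB_ge_pos` from `lo`: `N √(N+1) ≤ n √n`, `n = f + 2 = N + 1`, `-3/2 ≥ -2`.
`PsB_ge_neg` from `up`: `N √N ≥ n √n / (1 + 8/(5n))` for `n ≥ 100`.
-/

set_option autoImplicit false

namespace Pool.Agent.UniM

theorem PsB_nonneg (f : ℕ) (j : ℤ) (h : 0 ≤ (j : ℝ) + 1 / 2 - f / 2) : 0 ≤ PsB f j := by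
  rw [PsB_eq]
  have h1 := be_nonneg (f + 1) (j + 1)
  have hf : (0 : ℝ) < (f : ℝ) + 1 := by positivity
  apply div_nonneg _ hf.le
  exact mul_nonneg (mul_nonneg (by norm_num) h) h1

private theorem p3lb_be (N k : ℕ) : be N (k : ℤ) = (N.choose k : ℝ) / 2 ^ N := by
  rw [be_nat]
  rfl

theorem PsB_ge_pos {c : ℝ} (h : BetaB c) (f : ℕ) (j : ℤ) (y : ℝ) (hy : y = (j : ℝ) + 1 / 2 - f / 2)
    (h0 : 0 ≤ y) (h1 : 6 * y ≤ f + 5) :
    4 * c * y / ((f + 2) * √(f + 2)) *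
      Real.exp (-2 * y ^ 2 / (f + 2) - 2 * y ^ 4 / (f + 2) ^ 3) ≤ PsB f j := by
  have hf0 : (0 : ℝ) ≤ f := Nat.cast_nonneg f
  have hj : -1 < j := by
    have : (-1 : ℝ) < j := by linarith
    exact_mod_cast this
  obtain ⟨k, hk⟩ : ∃ k : ℕ, j + 1 = (k : ℤ) := ⟨(j + 1).toNat, by omega⟩
  have hkr : (k : ℝ) = (j : ℝ) + 1 := by exact_mod_cast hk.symm
  have e1 : (k : ℝ) - ((f + 1 : ℕ) : ℝ) / 2 = y := by
    rw [hkr, hy]
    push_cast
    ring
  have h2 := h.lo (f + 1) k (by omega) (by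
    rw [e1, abs_of_nonneg h0]
    push_cast
    linarith)
  rw [e1] at h2
  have e2 : ((f + 1 : ℕ) : ℝ) + 1 = f + 2 := by
    push_cast
    ring
  rw [e2] at h2
  rw [PsB_eq, ← hy, hk, p3lb_be]
  have hc := h.pos
  have hs : 0 < √((f : ℝ) + 2) := Real.sqrt_pos.2 (by positivity)
  have h3 : Real.exp (-2 * y ^ 2 / (f + 2) - 2 * y ^ 4 / (f + 2) ^ 3) ≤
      Real.exp (-2 * y ^ 2 / (f + 2) - 3 / 2 * y ^ 4 / (f + 2) ^ 3) := by
    apply Real.exp_le_exp.2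
    have h4 : 3 / 2 * y ^ 4 / ((f : ℝ) + 2) ^ 3 ≤ 2 * y ^ 4 / (f + 2) ^ 3 := by
      apply div_le_div_of_nonneg_right _ (by positivity)
      have : 0 ≤ y ^ 4 := by positivity
      linarith
    linarith
  set B : ℝ := ((f + 1).choose k : ℝ) / 2 ^ (f + 1) with hB
  have hB0 : 0 ≤ B := by positivity
  have h5 : c / √((f : ℝ) + 2) * Real.exp (-2 * y ^ 2 / (f + 2) - 2 * y ^ 4 / (f + 2) ^ 3) ≤ B :=
    (mul_le_mul_of_nonneg_left h3 (by positivity)).trans h2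
  calc 4 * c * y / ((f + 2) * √(f + 2)) *
      Real.exp (-2 * y ^ 2 / (f + 2) - 2 * y ^ 4 / (f + 2) ^ 3)
      = 4 * y * (c / √((f : ℝ) + 2) *
        Real.exp (-2 * y ^ 2 / (f + 2) - 2 * y ^ 4 / (f + 2) ^ 3)) / (f + 2) := by
        field_simp
    _ ≤ 4 * y * B / (f + 2) := by
        apply div_le_div_of_nonneg_right _ (by positivity)
        exact mul_le_mul_of_nonneg_left h5 (by positivity)
    _ ≤ 4 * y * B / (f + 1) := by
        apply div_le_div_of_nonneg_left (by positivity) (by positivity)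
        linarith

private theorem p3lb_num {n : ℝ} (hn : 100 ≤ n) :
    n * √n ≤ (1 + 8 / (5 * n)) * ((n - 1) * √(n - 1)) := by
  have hn0 : 0 < n := by linarith
  have hn1 : 0 < n - 1 := by linarith
  have e1 : n * √n = √(n ^ 3) := by
    rw [show n ^ 3 = n ^ 2 * n by ring, Real.sqrt_mul (by positivity), Real.sqrt_sq hn0.le]
  have e2 : (1 + 8 / (5 * n)) * ((n - 1) * √(n - 1)) =
      √((1 + 8 / (5 * n)) ^ 2 * (n - 1) ^ 3) := by
    rw [show (1 + 8 / (5 * n)) ^ 2 * (n - 1) ^ 3 =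
      ((1 + 8 / (5 * n)) * (n - 1)) ^ 2 * (n - 1) by ring,
      Real.sqrt_mul (by positivity), Real.sqrt_sq (by positivity)]
    ring
  rw [e1, e2]
  apply Real.sqrt_le_sqrt
  have e3 : (1 + 8 / (5 * n)) ^ 2 * (n - 1) ^ 3 = (5 * n + 8) ^ 2 * (n - 1) ^ 3 / (25 * n ^ 2) := by
    field_simp
    ring
  rw [e3, le_div_iff₀ (by positivity)]
  obtain ⟨m, rfl⟩ : ∃ m, n = m + 100 := ⟨n - 100, by ring⟩
  have hm : 0 ≤ m := by linarith
  have h1 : 0 ≤ m ^ 2 := by positivity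
  have h2 : 0 ≤ m ^ 3 := by positivity
  have h3 : 0 ≤ m ^ 4 := by positivity
  nlinarith [h1, h2, h3, hm]

theorem PsB_ge_neg {c : ℝ} (h : BetaB c) (f : ℕ) (hf : 98 ≤ f) (j : ℤ) (y : ℝ)
    (hy : y = (j : ℝ) + 1 / 2 - f / 2) (h0 : y ≤ 0) :
    4 * c * y / ((f + 2) * √(f + 2)) * (1 + 8 / (5 * (f + 2))) *
      Real.exp (-2 * y ^ 2 / (f + 2)) ≤ PsB f j := by
  have hf0 : (98 : ℝ) ≤ f := by exact_mod_cast hf
  have hc := h.pos
  have hs : 0 < √((f : ℝ) + 2) := Real.sqrt_pos.2 (by positivity)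
  have hs1 : 0 < √((f : ℝ) + 1) := Real.sqrt_pos.2 (by positivity)
  rw [PsB_eq, ← hy]
  set B : ℝ := be (f + 1) (j + 1) with hB
  have h1 : B ≤ c / √((f : ℝ) + 1) * Real.exp (-2 * y ^ 2 / (f + 2)) := by
    rcases lt_or_ge (j + 1) 0 with hj | hj
    · rw [hB, be_neg hj]
      positivity
    · obtain ⟨k, hk⟩ : ∃ k : ℕ, j + 1 = (k : ℤ) := ⟨(j + 1).toNat, by omega⟩
      have hkr : (k : ℝ) = (j : ℝ) + 1 := by exact_mod_cast hk.symm
      have e1 : (k : ℝ) - ((f + 1 : ℕ) : ℝ) / 2 = y := by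
        rw [hkr, hy]
        push_cast
        ring
      have h2 := h.up (f + 1) k (by omega)
      rw [e1] at h2
      have e2 : ((f + 1 : ℕ) : ℝ) + 1 = f + 2 := by
        push_cast
        ring
      rw [e2] at h2
      rw [hB, hk, p3lb_be]
      push_cast at h2
      exact h2
  have hnum := p3lb_num (n := (f : ℝ) + 2) (by linarith)
  rw [show (f : ℝ) + 2 - 1 = f + 1 by ring] at hnum
  have h3 : 1 / (((f : ℝ) + 1) * √((f : ℝ) + 1)) ≤
      (1 + 8 / (5 * ((f : ℝ) + 2))) / (((f : ℝ) + 2) * √((f : ℝ) + 2)) := by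
    rw [div_le_div_iff₀ (by positivity) (by positivity), one_mul]
    exact hnum
  have h4 : B / (f + 1) ≤ c * ((1 + 8 / (5 * ((f : ℝ) + 2))) / (((f : ℝ) + 2) * √((f : ℝ) + 2))) *
      Real.exp (-2 * y ^ 2 / (f + 2)) := by
    calc B / (f + 1) ≤ c / √((f : ℝ) + 1) * Real.exp (-2 * y ^ 2 / (f + 2)) / (f + 1) :=
          div_le_div_of_nonneg_right h1 (by positivity)
      _ = c * (1 / (((f : ℝ) + 1) * √((f : ℝ) + 1))) * Real.exp (-2 * y ^ 2 / (f + 2)) := by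
          field_simp
      _ ≤ _ := by
          apply mul_le_mul_of_nonneg_right _ (Real.exp_pos _).le
          exact mul_le_mul_of_nonneg_left h3 hc.le
  have h5 : 4 * y * (c * ((1 + 8 / (5 * ((f : ℝ) + 2))) / (((f : ℝ) + 2) * √((f : ℝ) + 2))) *
      Real.exp (-2 * y ^ 2 / (f + 2))) ≤ 4 * y * (B / (f + 1)) :=
    mul_le_mul_of_nonpos_left h4 (by linarith)
  calc 4 * c * y / ((f + 2) * √(f + 2)) * (1 + 8 / (5 * (f + 2))) *
      Real.exp (-2 * y ^ 2 / (f + 2))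
      = 4 * y * (c * ((1 + 8 / (5 * ((f : ℝ) + 2))) / (((f : ℝ) + 2) * √((f : ℝ) + 2))) *
      Real.exp (-2 * y ^ 2 / (f + 2))) := by ring
    _ ≤ 4 * y * (B / (f + 1)) := h5
    _ = 4 * y * B / (f + 1) := by ring

end Pool.Agent.UniM
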