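import Pool.Agent.UniM.P3Stmt
import Pool.Agent.UniM.P3Beta

/-!
# UniM / P3LDef: part P3 for large `P` (`2 ^ 400 ≤ P`), definitions

Notation of the paper proof: `L = logb 2 P ≥ 400`, `N = f + 2`, `t = N / L`, `τ = √t`, `s = 1 / √L ≤ 1/20`,
`Y = y / √L`, `v = Y / τ`, `u = 4 y² / N = 4 Y² / t`.

`BetaB c` collects the bounds for binomial coefficients (file `P3Beta`), `TT P f` is the tail function
with `E TT ≤ 1`, `wL` the window function.
-/

set_option autoImplicit false

namespace Pool.Agent.UniM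

/-- Gaussian bounds for the binomial coefficients with constant `c` -/
structure BetaB (c : ℝ) : Prop where
  eq : c = cB
  pos : 0 < c
  up : ∀ N i : ℕ, 1 ≤ N →
    (N.choose i : ℝ) / 2 ^ N ≤ c / √N * Real.exp (-2 * ((i : ℝ) - N / 2) ^ 2 / (N + 1))
  lo : ∀ N i : ℕ, 1 ≤ N → 6 * |(i : ℝ) - N / 2| ≤ N + 4 →
    c / √(N + 1) * Real.exp (-2 * ((i : ℝ) - N / 2) ^ 2 / (N + 1) -
      3 / 2 * ((i : ℝ) - N / 2) ^ 4 / (N + 1) ^ 3) ≤ (N.choose i : ℝ) / 2 ^ N

theorem BetaB.ge {c : ℝ} (h : BetaB c) : 7 / 10 ≤ c := by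
  have h1 := h.up 2 1 (by norm_num)
  have h2 := h.pos
  norm_num at h1
  have h3 : √2 ≤ 1.415 := by
    rw [Real.sqrt_le_left (by norm_num)]
    norm_num
  have h4 : (0 : ℝ) < √2 := by positivity
  have h5 : √2 * √2 = 2 := Real.mul_self_sqrt (by norm_num)
  rw [le_div_iff₀ h4] at h1
  nlinarith

/-- the constant of `P3Beta` works -/
theorem betaB : BetaB cB := by
  have hb : ∀ N i : ℕ, be N i = (N.choose i : ℝ) / 2 ^ N := by
    intro N i
    simp [be, ch]
  refine ⟨rfl, cB_pos, ?_, ?_⟩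
  · intro N i hN
    have h := be_upper N i
    rw [hb] at h
    refine h.trans (mul_le_mul_of_nonneg_right ?_ (Real.exp_pos _).le)
    have h1 : (0 : ℝ) < N := by exact_mod_cast hN
    exact div_le_div_of_nonneg_left cB_pos.le (by positivity)
      (Real.sqrt_le_sqrt (by linarith))
  · intro N i hN h6
    have h := be_lower N i (by exact_mod_cast h6)
    rw [hb] at h
    refine le_trans (mul_le_mul_of_nonneg_right ?_ (Real.exp_pos _).le) h
    exact div_le_div_of_nonneg_left cB_pos.le (by positivity)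
      (Real.sqrt_le_sqrt (by linarith))

/-- the tail function: `∑ p i * TT P (f i) ≤ 1` -/
noncomputable def TT (P f : ℕ) : ℝ := (4 / 5 : ℝ) ^ f / (13 / 15 : ℝ) ^ Real.logb 3 P

theorem TT_nonneg (P f : ℕ) : 0 ≤ TT P f := by
  unfold TT
  positivity

/-- the window function for large `P` -/
noncomputable def wL (P : ℕ) : ℝ := 13 / 80 * √(Real.logb 2 P)

end Pool.Agent.UniM
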