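import Pool.Agent.UniM.P3LPhi

/-!
# UniM / P3LNumA: the one-variable inequality for part (a)

`φ(u) = (u-1) exp (-u/2)`, `s = 37/8 τ⁵`, `C0 = 30253/12800`. By `phi1 .. phi8` and convexity, for `s` in
the interval `i` of the list, `φ(u) ≤ s u + A_i - M_i s`:
`1`: s in [17577, 34608]/100000, A = 3254/10000,   M = 17575/10000  (τ in [.5199, .5955])
`2`: s in [34608, 39728]/100000, A = 22203/100000, M = 14588/10000  (τ in [.5954, .6121])
`3`: s in [39728, 43894]/100000, A = 18059/100000, M = 13545/10000  (τ in [.6120, .6244])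
`4`: s in [43894, 48103]/100000, A = 14218/100000, M = 12670/10000  (τ in [.6243, .6360])
`5`: s in [48103, 62805]/100000, A = 5737/100000,  M = 10907/10000  (τ in [.6359, .6708])
`6`: s in [62805, 103641]/100000, A = -20051/100000, M = 6801/10000 (τ in [.6707, .7415])
`7`: s in [103641, 150000]/100000, A = -69384/100000, M = 2041/10000 (τ in [.7414, .7984])
`8`: s ≥ 3/2: `φ(u) ≤ s u - 1`.
It remains: `A_i - (37/8) M_i τ⁵ + C0 τ³ - (111/80) τ⁵ - (1/40) T τ³ ≤ 0` on the interval of `τ`.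
Margins: at least `.0034`. Use of `T`: interval 1: `T ≥ T(.5955)` const (`≥ 131`), interval 2: const
`T ≥ T(.6121)` (`≥ 22`; margin .006), interval 3: tangent at `t = .39`: `T ≥ E (1 + 446/5 (.39 - τ²))`, `E = 39/25 exp (1.2934)`,
interval 4: tangent at `t = .3935`: `T ≥ E (1 + 446/5 (.3935 - τ²))`, `E = 39/25 exp (0.9812)`;
intervals 5-8: `T ≥ 0`. The polynomial is decreasing in `τ` on the intervals 5, 6, increasing on 8.
-/

set_option autoImplicit false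

namespace Pool.Agent.UniM

private theorem numA_interp (s s1 s2 B1 B2 A M p u : ℝ) (h1 : s1 ≤ s) (h2 : s ≤ s2) (h12 : s1 < s2)
    (hp1 : p ≤ s1 * u + B1) (hp2 : p ≤ s2 * u + B2) (hA1 : B1 ≤ A - M * s1)
    (hA2 : B2 ≤ A - M * s2) : p ≤ s * u + (A - M * s) := by
  have e1 : 0 ≤ (s2 - s) * (s1 * u + (A - M * s1) - p) :=
    mul_nonneg (by linarith) (by linarith)
  have e2 : 0 ≤ (s - s1) * (s2 * u + (A - M * s2) - p) :=
    mul_nonneg (by linarith) (by linarith)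
  have e3 : (s2 - s) * (s1 * u + (A - M * s1) - p) + (s - s1) * (s2 * u + (A - M * s2) - p) =
      (s2 - s1) * (s * u + (A - M * s) - p) := by ring
  have e4 : 0 ≤ (s2 - s1) * (s * u + (A - M * s) - p) := by linarith
  have e5 : 0 ≤ s * u + (A - M * s) - p := by
    by_contra hc
    have := mul_neg_of_pos_of_neg (sub_pos.2 h12) (not_le.1 hc)
    linarith
  linarith

private theorem numA_up (τ c t : ℝ) (h0 : 0 ≤ t) (h : 37 / 8 * τ ^ 5 ≤ c)
    (hc : c < 37 / 8 * t ^ 5) : τ ≤ t := by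
  by_contra hn
  have := pow_le_pow_left₀ h0 (not_le.1 hn).le 5
  linarith

private theorem numA_lo (τ c t : ℝ) (h0 : 0 ≤ τ) (h : c ≤ 37 / 8 * τ ^ 5)
    (hc : 37 / 8 * t ^ 5 < c) : t ≤ τ := by
  by_contra hn
  have := pow_le_pow_left₀ h0 (not_le.1 hn).le 5
  linarith

private theorem numA_bern (τ a b : ℝ) (ha : a ≤ τ) (hb : τ ≤ b) :
    0 ≤ (τ - a) ^ 5 ∧ 0 ≤ (τ - a) ^ 4 * (b - τ) ∧ 0 ≤ (τ - a) ^ 3 * (b - τ) ^ 2 ∧
      0 ≤ (τ - a) ^ 2 * (b - τ) ^ 3 ∧ 0 ≤ (τ - a) * (b - τ) ^ 4 ∧ 0 ≤ (b - τ) ^ 5 := by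
  have h1 : 0 ≤ τ - a := by linarith
  have h2 : 0 ≤ b - τ := by linarith
  refine ⟨?_, ?_, ?_, ?_, ?_, ?_⟩ <;> positivity

private theorem numA_e1 : (131 : ℝ) ≤
    39 / 25 * Real.exp (446 / 5 * (809 / 2000 - (5955 / 10000 : ℝ) ^ 2)) := by
  have h := Real.sum_le_exp_of_nonneg
    (x := 446 / 5 * (809 / 2000 - (5955 / 10000 : ℝ) ^ 2)) (by norm_num) 13
  norm_num [Finset.sum_range_succ, Nat.factorial] at h ⊢
  linarith

private theorem numA_e2 : (22 : ℝ) ≤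
    39 / 25 * Real.exp (446 / 5 * (809 / 2000 - (6121 / 10000 : ℝ) ^ 2)) := by
  have h := Real.sum_le_exp_of_nonneg
    (x := 446 / 5 * (809 / 2000 - (6121 / 10000 : ℝ) ^ 2)) (by norm_num) 12
  norm_num [Finset.sum_range_succ, Nat.factorial] at h ⊢
  linarith

private theorem numA_e3 : (5686 / 1000 : ℝ) ≤
    39 / 25 * Real.exp (446 / 5 * (809 / 2000 - 39 / 100)) := by
  have h := Real.sum_le_exp_of_nonneg
    (x := 446 / 5 * (809 / 2000 - (39 / 100 : ℝ))) (by norm_num) 12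
  norm_num [Finset.sum_range_succ, Nat.factorial] at h ⊢
  linarith

private theorem numA_e4 : (4161 / 1000 : ℝ) ≤
    39 / 25 * Real.exp (446 / 5 * (809 / 2000 - 3935 / 10000)) := by
  have h := Real.sum_le_exp_of_nonneg
    (x := 446 / 5 * (809 / 2000 - (3935 / 10000 : ℝ))) (by norm_num) 12
  norm_num [Finset.sum_range_succ, Nat.factorial] at h ⊢
  linarith

/-- the constant lower bound -/
private theorem numA_const (τ t T : ℝ) (h0 : 0 ≤ τ) (ht : τ ≤ t)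
    (hT : 39 / 25 * Real.exp (446 / 5 * (809 / 2000 - τ ^ 2)) ≤ T) :
    39 / 25 * Real.exp (446 / 5 * (809 / 2000 - t ^ 2)) ≤ T := by
  refine le_trans ?_ hT
  have h1 : τ ^ 2 ≤ t ^ 2 := pow_le_pow_left₀ h0 ht 2
  have h2 : Real.exp (446 / 5 * (809 / 2000 - t ^ 2)) ≤
      Real.exp (446 / 5 * (809 / 2000 - τ ^ 2)) := by
    apply Real.exp_le_exp.2
    linarith
  linarith

/-- the tangent lower bound -/
private theorem numA_tan (τ c E T : ℝ) (hτ : 0 ≤ 1 + 446 / 5 * (c - τ ^ 2))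
    (hE : E ≤ 39 / 25 * Real.exp (446 / 5 * (809 / 2000 - c)))
    (hT : 39 / 25 * Real.exp (446 / 5 * (809 / 2000 - τ ^ 2)) ≤ T) :
    E * (1 + 446 / 5 * (c - τ ^ 2)) ≤ T := by
  refine le_trans ?_ hT
  have h1 : Real.exp (446 / 5 * (809 / 2000 - τ ^ 2)) =
      Real.exp (446 / 5 * (809 / 2000 - c)) * Real.exp (446 / 5 * (c - τ ^ 2)) := by
    rw [← Real.exp_add]
    congr 1
    ring
  have h2 : 1 + 446 / 5 * (c - τ ^ 2) ≤ Real.exp (446 / 5 * (c - τ ^ 2)) := by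
    have := Real.add_one_le_exp (446 / 5 * (c - τ ^ 2))
    linarith
  have h3 := mul_le_mul_of_nonneg_right hE hτ
  have h4 := mul_le_mul_of_nonneg_left h2 (Real.exp_pos (446 / 5 * (809 / 2000 - c))).le
  rw [h1]
  linarith

private theorem numA_p1 (τ : ℝ) (ha : 5199 / 10000 ≤ τ) (hb : τ ≤ 5955 / 10000) :
    3254 / 10000 - 17575 / 10000 * (37 / 8 * τ ^ 5) + 30253 / 12800 * τ ^ 3 - 111 / 80 * τ ^ 5 -
      1 / 40 * 131 * τ ^ 3 ≤ 0 := by
  obtain ⟨g0, g1, g2, g3, g4, g5⟩ := numA_bern τ _ _ ha hb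
  linarith

private theorem numA_p2 (τ : ℝ) (ha : 5954 / 10000 ≤ τ) (hb : τ ≤ 6121 / 10000) :
    22203 / 100000 - 14588 / 10000 * (37 / 8 * τ ^ 5) + 30253 / 12800 * τ ^ 3 - 111 / 80 * τ ^ 5 -
      1 / 40 * 22 * τ ^ 3 ≤ 0 := by
  obtain ⟨g0, g1, g2, g3, g4, g5⟩ := numA_bern τ _ _ ha hb
  linarith

private theorem numA_p3 (τ : ℝ) (ha : 6120 / 10000 ≤ τ) (hb : τ ≤ 6244 / 10000) :
    18059 / 100000 - 13545 / 10000 * (37 / 8 * τ ^ 5) + 30253 / 12800 * τ ^ 3 - 111 / 80 * τ ^ 5 -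
      1 / 40 * ((5686 / 1000) * (1 + 446 / 5 * (39 / 100 - τ ^ 2))) * τ ^ 3 ≤ 0 := by
  obtain ⟨g0, g1, g2, g3, g4, g5⟩ := numA_bern τ _ _ ha hb
  linarith

private theorem numA_p4 (τ : ℝ) (ha : 6243 / 10000 ≤ τ) (hb : τ ≤ 6360 / 10000) :
    14218 / 100000 - 12670 / 10000 * (37 / 8 * τ ^ 5) + 30253 / 12800 * τ ^ 3 - 111 / 80 * τ ^ 5 -
      1 / 40 * ((4161 / 1000) * (1 + 446 / 5 * (3935 / 10000 - τ ^ 2))) * τ ^ 3 ≤ 0 := by
  obtain ⟨g0, g1, g2, g3, g4, g5⟩ := numA_bern τ _ _ ha hb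
  linarith

private theorem numA_p5 (τ : ℝ) (ha : 6359 / 10000 ≤ τ) (hb : τ ≤ 6708 / 10000) :
    5737 / 100000 - 10907 / 10000 * (37 / 8 * τ ^ 5) + 30253 / 12800 * τ ^ 3 - 111 / 80 * τ ^ 5 -
      1 / 40 * 0 * τ ^ 3 ≤ 0 := by
  obtain ⟨g0, g1, g2, g3, g4, g5⟩ := numA_bern τ _ _ ha hb
  linarith

private theorem numA_p6 (τ : ℝ) (ha : 6707 / 10000 ≤ τ) (hb : τ ≤ 7415 / 10000) :
    -(20051 / 100000) - 6801 / 10000 * (37 / 8 * τ ^ 5) + 30253 / 12800 * τ ^ 3 - 111 / 80 * τ ^ 5 -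
      1 / 40 * 0 * τ ^ 3 ≤ 0 := by
  obtain ⟨g0, g1, g2, g3, g4, g5⟩ := numA_bern τ _ _ ha hb
  linarith

private theorem numA_p7 (τ : ℝ) (ha : 7414 / 10000 ≤ τ) (hb : τ ≤ 7984 / 10000) :
    -(69384 / 100000) - 2041 / 10000 * (37 / 8 * τ ^ 5) + 30253 / 12800 * τ ^ 3 - 111 / 80 * τ ^ 5 -
      1 / 40 * 0 * τ ^ 3 ≤ 0 := by
  obtain ⟨g0, g1, g2, g3, g4, g5⟩ := numA_bern τ _ _ ha hb
  linarith

private theorem numA_p8 (τ : ℝ) (ha : 7983 / 10000 ≤ τ) (hb : τ ≤ 401 / 400) :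
    -1 - 0 * (37 / 8 * τ ^ 5) + 30253 / 12800 * τ ^ 3 - 111 / 80 * τ ^ 5 -
      1 / 40 * 0 * τ ^ 3 ≤ 0 := by
  obtain ⟨g0, g1, g2, g3, g4, g5⟩ := numA_bern τ _ _ ha hb
  linarith

theorem numA (τ u T : ℝ) (h1 : 13 / 25 ≤ τ) (h2 : τ ≤ 401 / 400) (hu : 0 ≤ u) (hT0 : 0 ≤ T)
    (hT : τ ≤ 159 / 250 → 39 / 25 * Real.exp (446 / 5 * (809 / 2000 - τ ^ 2)) ≤ T) :
    (u - 1) * Real.exp (-u / 2) + 30253 / 12800 * τ ^ 3 - 111 / 80 * τ ^ 5 - 1 / 40 * T * τ ^ 3 ≤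
      37 / 8 * τ ^ 5 * u := by
  have hτ : 0 ≤ τ := by linarith
  have h3 : 0 ≤ τ ^ 3 := pow_nonneg hτ 3
  have ph1 := phi1 u hu
  have ph2 := phi2 u hu
  have ph3 := phi3 u hu
  have ph4 := phi4 u hu
  have ph5 := phi5 u hu
  have ph6 := phi6 u hu
  have ph7 := phi7 u hu
  have ph8 := phi8 u hu
  have hlow : (17577 / 100000 : ℝ) ≤ 37 / 8 * τ ^ 5 := by
    have := pow_le_pow_left₀ (by norm_num : (0 : ℝ) ≤ 13 / 25) h1 5
    norm_num at this
    linarith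
  -- with the lower bound `L` of `T` and the polynomial inequality the claim follows
  have fin : ∀ A M L : ℝ, (u - 1) * Real.exp (-u / 2) ≤
      37 / 8 * τ ^ 5 * u + (A - M * (37 / 8 * τ ^ 5)) → L ≤ T →
      A - M * (37 / 8 * τ ^ 5) + 30253 / 12800 * τ ^ 3 - 111 / 80 * τ ^ 5 -
        1 / 40 * L * τ ^ 3 ≤ 0 →
      (u - 1) * Real.exp (-u / 2) + 30253 / 12800 * τ ^ 3 - 111 / 80 * τ ^ 5 -
        1 / 40 * T * τ ^ 3 ≤ 37 / 8 * τ ^ 5 * u := by
    intro A M L e1 e2 e3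
    have e4 := mul_le_mul_of_nonneg_right e2 h3
    linarith
  rcases le_or_gt (37 / 8 * τ ^ 5) (34608 / 100000) with c1 | c1
  · have hb : τ ≤ 5955 / 10000 := numA_up τ _ _ (by norm_num) c1 (by norm_num)
    have ha : 5199 / 10000 ≤ τ := by linarith
    have hp := numA_interp (37 / 8 * τ ^ 5) (17577 / 100000) (34608 / 100000) (1648 / 100000) (-(28284 / 100000)) (3254 / 10000) (17575 / 10000)
      ((u - 1) * Real.exp (-u / 2)) u hlow c1 (by norm_num) (by linarith) (by linarith)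
      (by norm_num) (by norm_num)
    have hL : (131 : ℝ) ≤ T :=
      numA_e1.trans (numA_const τ _ T hτ hb (hT (by linarith)))
    exact fin _ _ _ hp hL (numA_p1 τ ha hb)
  rcases le_or_gt (37 / 8 * τ ^ 5) (39728 / 100000) with c2 | c2
  · have hb : τ ≤ 6121 / 10000 := numA_up τ _ _ (by norm_num) c2 (by norm_num)
    have ha : 5954 / 10000 ≤ τ := numA_lo τ _ _ hτ c1.le (by norm_num)
    have hp := numA_interp (37 / 8 * τ ^ 5) (34608 / 100000) (39728 / 100000) (-(28284 / 100000)) (-(35753 / 100000)) (22203 / 100000) (14588 / 10000)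
      ((u - 1) * Real.exp (-u / 2)) u c1.le c2 (by norm_num) (by linarith) (by linarith)
      (by norm_num) (by norm_num)
    have hL : (22 : ℝ) ≤ T :=
      numA_e2.trans (numA_const τ _ T hτ hb (hT (by linarith)))
    exact fin _ _ _ hp hL (numA_p2 τ ha hb)
  rcases le_or_gt (37 / 8 * τ ^ 5) (43894 / 100000) with c3 | c3
  · have hb : τ ≤ 6244 / 10000 := numA_up τ _ _ (by norm_num) c3 (by norm_num)
    have ha : 6120 / 10000 ≤ τ := numA_lo τ _ _ hτ c2.le (by norm_num)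
    have hp := numA_interp (37 / 8 * τ ^ 5) (39728 / 100000) (43894 / 100000) (-(35753 / 100000)) (-(41396 / 100000)) (18059 / 100000) (13545 / 10000)
      ((u - 1) * Real.exp (-u / 2)) u c2.le c3 (by norm_num) (by linarith) (by linarith)
      (by norm_num) (by norm_num)
    have hsq : τ ^ 2 ≤ (6244 / 10000) ^ 2 := pow_le_pow_left₀ hτ hb 2
    have hL := numA_tan τ (39 / 100) (5686 / 1000) T (by norm_num at hsq; linarith) numA_e3
      (hT (by linarith))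
    exact fin _ _ _ hp hL (numA_p3 τ ha hb)
  rcases le_or_gt (37 / 8 * τ ^ 5) (48103 / 100000) with c4 | c4
  · have hb : τ ≤ 6360 / 10000 := numA_up τ _ _ (by norm_num) c4 (by norm_num)
    have ha : 6243 / 10000 ≤ τ := numA_lo τ _ _ hτ c3.le (by norm_num)
    have hp := numA_interp (37 / 8 * τ ^ 5) (43894 / 100000) (48103 / 100000) (-(41396 / 100000)) (-(46729 / 100000)) (14218 / 100000) (12670 / 10000)
      ((u - 1) * Real.exp (-u / 2)) u c3.le c4 (by norm_num) (by linarith) (by linarith)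
      (by norm_num) (by norm_num)
    have hsq : τ ^ 2 ≤ (6360 / 10000) ^ 2 := pow_le_pow_left₀ hτ hb 2
    have hL := numA_tan τ (3935 / 10000) (4161 / 1000) T (by norm_num at hsq; linarith) numA_e4
      (hT (by linarith))
    exact fin _ _ _ hp hL (numA_p4 τ ha hb)
  rcases le_or_gt (37 / 8 * τ ^ 5) (62805 / 100000) with c5 | c5
  · have hb : τ ≤ 6708 / 10000 := numA_up τ _ _ (by norm_num) c5 (by norm_num)
    have ha : 6359 / 10000 ≤ τ := numA_lo τ _ _ hτ c4.le (by norm_num)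
    have hp := numA_interp (37 / 8 * τ ^ 5) (48103 / 100000) (62805 / 100000) (-(46729 / 100000)) (-(62765 / 100000)) (5737 / 100000) (10907 / 10000)
      ((u - 1) * Real.exp (-u / 2)) u c4.le c5 (by norm_num) (by linarith) (by linarith)
      (by norm_num) (by norm_num)
    exact fin _ _ _ hp hT0 (numA_p5 τ ha hb)
  rcases le_or_gt (37 / 8 * τ ^ 5) (103641 / 100000) with c6 | c6
  · have hb : τ ≤ 7415 / 10000 := numA_up τ _ _ (by norm_num) c6 (by norm_num)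
    have ha : 6707 / 10000 ≤ τ := numA_lo τ _ _ hτ c5.le (by norm_num)
    have hp := numA_interp (37 / 8 * τ ^ 5) (62805 / 100000) (103641 / 100000) (-(62765 / 100000)) (-(90538 / 100000)) (-(20051 / 100000)) (6801 / 10000)
      ((u - 1) * Real.exp (-u / 2)) u c5.le c6 (by norm_num) (by linarith) (by linarith)
      (by norm_num) (by norm_num)
    exact fin _ _ _ hp hT0 (numA_p6 τ ha hb)
  rcases le_or_gt (37 / 8 * τ ^ 5) (3 / 2) with c7 | c7
  · have hb : τ ≤ 7984 / 10000 := numA_up τ _ _ (by norm_num) c7 (by norm_num)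
    have ha : 7414 / 10000 ≤ τ := numA_lo τ _ _ hτ c6.le (by norm_num)
    have hp := numA_interp (37 / 8 * τ ^ 5) (103641 / 100000) (3 / 2) (-(90538 / 100000)) (-1) (-(69384 / 100000)) (2041 / 10000)
      ((u - 1) * Real.exp (-u / 2)) u c6.le c7 (by norm_num) (by linarith) (by linarith)
      (by norm_num) (by norm_num)
    exact fin _ _ _ hp hT0 (numA_p7 τ ha hb)
  have ha : 7983 / 10000 ≤ τ := numA_lo τ _ _ hτ c7.le (by norm_num)
  have hp : (u - 1) * Real.exp (-u / 2) ≤ 37 / 8 * τ ^ 5 * u + (-1 - 0 * (37 / 8 * τ ^ 5)) := by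
    have := mul_le_mul_of_nonneg_right c7.le hu
    linarith
  exact fin _ _ _ hp hT0 (numA_p8 τ ha h2)

end Pool.Agent.UniM
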