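import Pool.Agent.UniM.P3LDef

/-!
# UniM / P3LPhi: tangent lines of `(u - 1) exp (-u/2)`

`phi_tangent`: put `d = u - u0`; after division by `exp (-u0/2)` the claim is
`(u0 - 1 + d) exp (-d/2) ≤ (u0 - 1) + (3 - u0)/2 d`. The function `φ(u) = (u-1) exp (-u/2)` has
`φ' = (3-u)/2 exp (-u/2)`, `φ'' = (u-5)/4 exp (-u/2)`: concave on `[0,5]`, decreasing on `[3,∞)`.
`phi1` ... `phi7` are the cases `u0 = 2.03, 1.52, 1.40, 1.31, 1.225, 0.965, 0.43`, with rational upper
bounds (each has slack at least `4e-6` in both coefficients), `phi8` is `u0 = 0`.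
-/

set_option autoImplicit false

namespace Pool.Agent.UniM

theorem phi_tangent (u0 u : ℝ) (h0 : 0 ≤ u0) (h3 : u0 ≤ 3) (hu : 0 ≤ u) :
    (u - 1) * Real.exp (-u / 2) ≤
      Real.exp (-u0 / 2) * ((3 - u0) / 2 * u + (u0 ^ 2 - u0 - 2) / 2) := by
  have _ := hu
  obtain ⟨d, hd⟩ : ∃ d, d = u - u0 := ⟨_, rfl⟩
  obtain ⟨a, ha⟩ : ∃ a, a = u0 - 1 := ⟨_, rfl⟩
  obtain ⟨b, hb⟩ : ∃ b, b = (3 - u0) / 2 := ⟨_, rfl⟩
  have hu' : u - 1 = a + d := by rw [ha, hd]; ring
  have he : Real.exp (-u / 2) = Real.exp (-u0 / 2) * Real.exp (-d / 2) := by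
    rw [← Real.exp_add]
    congr 1
    rw [hd]
    ring
  have hl : (3 - u0) / 2 * u + (u0 ^ 2 - u0 - 2) / 2 = a + b * d := by
    rw [ha, hb, hd]
    ring
  have hab : a / 2 + b = 1 := by rw [ha, hb]; ring
  have hb0 : 0 ≤ b := by rw [hb]; linarith
  have ha1 : -1 ≤ a := by rw [ha]; linarith
  rw [hu', he, hl]
  have key : (a + d) * Real.exp (-d / 2) ≤ a + b * d := by
    rcases le_or_gt 0 (a + b * d) with h | h
    · have h1 : 1 + d / 2 ≤ Real.exp (d / 2) := by
        have := Real.add_one_le_exp (d / 2)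
        linarith
      have h2 : a + d ≤ (a + b * d) * Real.exp (d / 2) := by
        have h3 := mul_le_mul_of_nonneg_left h1 h
        have h4 : (a + b * d) * (1 + d / 2) = a + (a / 2 + b) * d + b * d ^ 2 / 2 := by ring
        rw [hab] at h4
        have h5 : 0 ≤ b * d ^ 2 / 2 := by positivity
        linarith
      have h3 := mul_le_mul_of_nonneg_right h2 (Real.exp_pos (-d / 2)).le
      rw [mul_assoc, ← Real.exp_add, show d / 2 + -d / 2 = 0 by ring, Real.exp_zero, mul_one] at h3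
      exact h3
    · have h1 : 1 - d / 2 ≤ Real.exp (-d / 2) := by
        have := Real.add_one_le_exp (-d / 2)
        linarith
      have hd2 : 0 < 1 - d / 2 := by
        by_contra hc
        have h2 : 2 ≤ d := by linarith
        have h3 : b * 2 ≤ b * d := mul_le_mul_of_nonneg_left h2 hb0
        linarith
      have h4 : (a + d) * (1 - d / 2) = a + b * d - d ^ 2 / 2 := by
        have : b = 1 - a / 2 := by linarith
        rw [this]
        ring
      have h5 : (a + d) * (1 - d / 2) < 0 := by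
        have := sq_nonneg d
        linarith
      have h6 : a + d ≤ 0 := by
        by_contra hc
        have := mul_pos (not_le.1 hc) hd2
        linarith
      have h7 := mul_le_mul_of_nonpos_left h1 h6
      have := sq_nonneg d
      linarith
  calc (a + d) * (Real.exp (-u0 / 2) * Real.exp (-d / 2)) =
      Real.exp (-u0 / 2) * ((a + d) * Real.exp (-d / 2)) := by ring
    _ ≤ _ := mul_le_mul_of_nonneg_left key (Real.exp_pos _).le

/-- an instance with rational bounds of the exponential -/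
theorem p3l_phi_inst (u0 e1 e2 a b u : ℝ) (h0 : 0 ≤ u0) (h3 : u0 ≤ 3)
    (he1 : e1 ≤ Real.exp (-u0 / 2)) (he2 : Real.exp (-u0 / 2) ≤ e2)
    (hu : 0 ≤ u) (ha : (3 - u0) / 2 * e2 ≤ a) (hb : (u0 ^ 2 - u0 - 2) / 2 * e1 ≤ b)
    (hb' : (u0 ^ 2 - u0 - 2) / 2 * e2 ≤ b) :
    (u - 1) * Real.exp (-u / 2) ≤ a * u + b := by
  refine (phi_tangent u0 u h0 h3 hu).trans ?_
  have h1 : Real.exp (-u0 / 2) * ((3 - u0) / 2) ≤ a :=
    (by
      have := mul_le_mul_of_nonneg_left he2 (show 0 ≤ (3 - u0) / 2 by linarith)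
      linarith)
  have h2 : Real.exp (-u0 / 2) * ((u0 ^ 2 - u0 - 2) / 2) ≤ b := by
    rcases le_or_gt 0 ((u0 ^ 2 - u0 - 2) / 2) with h | h
    · have := mul_le_mul_of_nonneg_left he2 h
      linarith
    · have := mul_le_mul_of_nonpos_left he1 h.le
      linarith
  have h4 := mul_le_mul_of_nonneg_right h1 hu
  calc Real.exp (-u0 / 2) * ((3 - u0) / 2 * u + (u0 ^ 2 - u0 - 2) / 2) =
      Real.exp (-u0 / 2) * ((3 - u0) / 2) * u +
        Real.exp (-u0 / 2) * ((u0 ^ 2 - u0 - 2) / 2) := by ring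
    _ ≤ a * u + b := add_le_add h4 h2

theorem p3l_exp_two_sided {x e1 e2 : ℝ} (hx : |x| ≤ 1)
    (h1 : e1 ≤ ∑ m ∈ Finset.range 10, x ^ m / (m.factorial : ℝ) -
      |x| ^ 10 * (((10 : ℕ).succ : ℝ) / (((10 : ℕ).factorial : ℝ) * ((10 : ℕ) : ℝ))))
    (h2 : ∑ m ∈ Finset.range 10, x ^ m / (m.factorial : ℝ) +
      |x| ^ 10 * (((10 : ℕ).succ : ℝ) / (((10 : ℕ).factorial : ℝ) * ((10 : ℕ) : ℝ))) ≤ e2) :
    e1 ≤ Real.exp x ∧ Real.exp x ≤ e2 := by
  have h := Real.exp_bound hx (n := 10) (by norm_num)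
  rw [abs_le] at h
  constructor <;> linarith [h.1, h.2]

private theorem ex1h : ((6019985 : ℝ) / 10000000) ≤ Real.exp (-(203 / 100) / 4) ∧
    Real.exp (-(203 / 100) / 4) ≤ (6019988 : ℝ) / 10000000 := by
  refine p3l_exp_two_sided ?_ ?_ ?_
  · rw [abs_le]
    constructor <;> norm_num
  · rw [abs_of_nonpos (by norm_num)]
    norm_num [Finset.sum_range_succ, Nat.factorial]
  · rw [abs_of_nonpos (by norm_num)]
    norm_num [Finset.sum_range_succ, Nat.factorial]

private theorem ex1 : ((362401 : ℝ) / 1000000) ≤ Real.exp (-(203 / 100) / 2) ∧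
    Real.exp (-(203 / 100) / 2) ≤ (362404 : ℝ) / 1000000 := by
  obtain ⟨h1, h2⟩ := ex1h
  have h : Real.exp (-(203 / 100) / 2) = Real.exp (-(203 / 100) / 4) * Real.exp (-(203 / 100) / 4) := by
    rw [← Real.exp_add]
    congr 1
    norm_num
  have h3 := mul_le_mul h1 h1 (by norm_num) (Real.exp_pos _).le
  have h4 := mul_le_mul h2 h2 (Real.exp_pos _).le (by norm_num)
  rw [h]
  constructor
  · refine le_trans ?_ h3
    norm_num
  · refine h4.trans ?_
    norm_num

private theorem ex2 : ((4676663 : ℝ) / 10000000) ≤ Real.exp (-(152 / 100) / 2) ∧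
    Real.exp (-(152 / 100) / 2) ≤ (4676666 : ℝ) / 10000000 := by
  refine p3l_exp_two_sided ?_ ?_ ?_
  · rw [abs_le]
    constructor <;> norm_num
  · rw [abs_of_nonpos (by norm_num)]
    norm_num [Finset.sum_range_succ, Nat.factorial]
  · rw [abs_of_nonpos (by norm_num)]
    norm_num [Finset.sum_range_succ, Nat.factorial]

private theorem ex3 : ((4965852 : ℝ) / 10000000) ≤ Real.exp (-(140 / 100) / 2) ∧
    Real.exp (-(140 / 100) / 2) ≤ (4965855 : ℝ) / 10000000 := by
  refine p3l_exp_two_sided ?_ ?_ ?_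
  · rw [abs_le]
    constructor <;> norm_num
  · rw [abs_of_nonpos (by norm_num)]
    norm_num [Finset.sum_range_succ, Nat.factorial]
  · rw [abs_of_nonpos (by norm_num)]
    norm_num [Finset.sum_range_succ, Nat.factorial]

private theorem ex4 : ((5194419 : ℝ) / 10000000) ≤ Real.exp (-(131 / 100) / 2) ∧
    Real.exp (-(131 / 100) / 2) ≤ (5194422 : ℝ) / 10000000 := by
  refine p3l_exp_two_sided ?_ ?_ ?_
  · rw [abs_le]
    constructor <;> norm_num
  · rw [abs_of_nonpos (by norm_num)]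
    norm_num [Finset.sum_range_succ, Nat.factorial]
  · rw [abs_of_nonpos (by norm_num)]
    norm_num [Finset.sum_range_succ, Nat.factorial]

private theorem ex5 : ((5419940 : ℝ) / 10000000) ≤ Real.exp (-(1225 / 1000) / 2) ∧
    Real.exp (-(1225 / 1000) / 2) ≤ (5419943 : ℝ) / 10000000 := by
  refine p3l_exp_two_sided ?_ ?_ ?_
  · rw [abs_le]
    constructor <;> norm_num
  · rw [abs_of_nonpos (by norm_num)]
    norm_num [Finset.sum_range_succ, Nat.factorial]
  · rw [abs_of_nonpos (by norm_num)]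
    norm_num [Finset.sum_range_succ, Nat.factorial]

private theorem ex6 : ((6172382 : ℝ) / 10000000) ≤ Real.exp (-(965 / 1000) / 2) ∧
    Real.exp (-(965 / 1000) / 2) ≤ (6172385 : ℝ) / 10000000 := by
  refine p3l_exp_two_sided ?_ ?_ ?_
  · rw [abs_le]
    constructor <;> norm_num
  · rw [abs_of_nonpos (by norm_num)]
    norm_num [Finset.sum_range_succ, Nat.factorial]
  · rw [abs_of_nonpos (by norm_num)]
    norm_num [Finset.sum_range_succ, Nat.factorial]

private theorem ex7 : ((8065413 : ℝ) / 10000000) ≤ Real.exp (-(43 / 100) / 2) ∧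
    Real.exp (-(43 / 100) / 2) ≤ (8065416 : ℝ) / 10000000 := by
  refine p3l_exp_two_sided ?_ ?_ ?_
  · rw [abs_le]
    constructor <;> norm_num
  · rw [abs_of_nonpos (by norm_num)]
    norm_num [Finset.sum_range_succ, Nat.factorial]
  · rw [abs_of_nonpos (by norm_num)]
    norm_num [Finset.sum_range_succ, Nat.factorial]

theorem phi1 (u : ℝ) (hu : 0 ≤ u) :
    (u - 1) * Real.exp (-u / 2) ≤ 17577 / 100000 * u + 1648 / 100000 := by
  exact p3l_phi_inst (203 / 100) _ _ (17577 / 100000) _ u (by norm_num) (by norm_num) ex1.1 ex1.2 hu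
    (by norm_num) (by norm_num) (by norm_num)

theorem phi2 (u : ℝ) (hu : 0 ≤ u) :
    (u - 1) * Real.exp (-u / 2) ≤ 34608 / 100000 * u - 28284 / 100000 := by
  rw [sub_eq_add_neg (34608 / 100000 * u)]
  exact p3l_phi_inst (152 / 100) _ _ (34608 / 100000) _ u (by norm_num) (by norm_num) ex2.1 ex2.2 hu
    (by norm_num) (by norm_num) (by norm_num)

theorem phi3 (u : ℝ) (hu : 0 ≤ u) :
    (u - 1) * Real.exp (-u / 2) ≤ 39728 / 100000 * u - 35753 / 100000 := by
  rw [sub_eq_add_neg (39728 / 100000 * u)]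
  exact p3l_phi_inst (140 / 100) _ _ (39728 / 100000) _ u (by norm_num) (by norm_num) ex3.1 ex3.2 hu
    (by norm_num) (by norm_num) (by norm_num)

theorem phi4 (u : ℝ) (hu : 0 ≤ u) :
    (u - 1) * Real.exp (-u / 2) ≤ 43894 / 100000 * u - 41396 / 100000 := by
  rw [sub_eq_add_neg (43894 / 100000 * u)]
  exact p3l_phi_inst (131 / 100) _ _ (43894 / 100000) _ u (by norm_num) (by norm_num) ex4.1 ex4.2 hu
    (by norm_num) (by norm_num) (by norm_num)

theorem phi5 (u : ℝ) (hu : 0 ≤ u) :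
    (u - 1) * Real.exp (-u / 2) ≤ 48103 / 100000 * u - 46729 / 100000 := by
  rw [sub_eq_add_neg (48103 / 100000 * u)]
  exact p3l_phi_inst (1225 / 1000) _ _ (48103 / 100000) _ u (by norm_num) (by norm_num) ex5.1 ex5.2 hu
    (by norm_num) (by norm_num) (by norm_num)

theorem phi6 (u : ℝ) (hu : 0 ≤ u) :
    (u - 1) * Real.exp (-u / 2) ≤ 62805 / 100000 * u - 62765 / 100000 := by
  rw [sub_eq_add_neg (62805 / 100000 * u)]
  exact p3l_phi_inst (965 / 1000) _ _ (62805 / 100000) _ u (by norm_num) (by norm_num) ex6.1 ex6.2 hu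
    (by norm_num) (by norm_num) (by norm_num)

theorem phi7 (u : ℝ) (hu : 0 ≤ u) :
    (u - 1) * Real.exp (-u / 2) ≤ 103641 / 100000 * u - 90538 / 100000 := by
  rw [sub_eq_add_neg (103641 / 100000 * u)]
  exact p3l_phi_inst (43 / 100) _ _ (103641 / 100000) _ u (by norm_num) (by norm_num) ex7.1 ex7.2 hu
    (by norm_num) (by norm_num) (by norm_num)

theorem phi8 (u : ℝ) (hu : 0 ≤ u) : (u - 1) * Real.exp (-u / 2) ≤ 3 / 2 * u - 1 := by
  have h := phi_tangent 0 u (le_refl _) (by norm_num) hu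
  rw [show -(0 : ℝ) / 2 = 0 by norm_num, Real.exp_zero] at h
  linarith

end Pool.Agent.UniM
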