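import Pool.Agent.UniM.P3LA
import Pool.Agent.UniM.P3LT
import Pool.Agent.UniM.P3LNumA

/-!
# UniM / P3LPtAS: pointwise majorant for part (a), small `f` (used in `P3LPtA`)
-/

set_option autoImplicit false

namespace Pool.Agent.UniM

private theorem ptAS_choose (f : ℕ) {a b : ℕ} (h : a ≠ b) : f.choose a + f.choose b ≤ 2 ^ f := by
  rcases lt_or_ge f a with ha | ha
  · rw [Nat.choose_eq_zero_of_lt ha, zero_add]
    exact Nat.choose_le_two_pow f b
  rcases lt_or_ge f b with hb | hb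
  · rw [Nat.choose_eq_zero_of_lt hb, add_zero]
    exact Nat.choose_le_two_pow f a
  rw [← Nat.sum_range_choose, ← Finset.sum_pair (f := fun i => f.choose i) h]
  refine Finset.sum_le_sum_of_subset ?_
  intro x hx
  rw [Finset.mem_insert, Finset.mem_singleton] at hx
  rw [Finset.mem_range]
  omega

private theorem ptAS_ch (f : ℕ) (j : ℤ) : ch f (j + 1) + ch f (j - 1) ≤ 2 ^ f := by
  unfold ch
  by_cases h1 : j + 1 < 0
  · rw [if_pos h1, if_pos (by omega)]
    exact Nat.zero_le _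
  rw [if_neg h1]
  by_cases h2 : j - 1 < 0
  · rw [if_pos h2, add_zero]
    exact Nat.choose_le_two_pow f _
  rw [if_neg h2]
  refine ptAS_choose f ?_
  omega

private theorem ptAS_le_one (f : ℕ) (j : ℤ) : PsA f j ≤ 1 := by
  unfold PsA
  have h1 : ((ch f (j + 1) + ch f (j - 1) : ℕ) : ℝ) ≤ ((2 ^ f : ℕ) : ℝ) := by
    exact_mod_cast ptAS_ch f j
  push_cast at h1
  have h2 : (0 : ℝ) ≤ ch f j := Nat.cast_nonneg _
  rw [div_le_one (by positivity)]
  linarith

private theorem ptAS_exp : (117000 : ℝ) ≤ Real.exp (299 / 25) := by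
  have h1 : (299 / 25 : ℝ) = ((11 : ℕ) : ℝ) * 1 + 24 / 25 := by norm_num
  rw [h1, Real.exp_add, Real.exp_nat_mul]
  have h2 : (2.718 : ℝ) ≤ Real.exp 1 := by
    have := Real.exp_one_gt_d9
    linarith
  have h3 : (2.718 : ℝ) ^ 11 ≤ Real.exp 1 ^ 11 := pow_le_pow_left₀ (by norm_num) h2 11
  have h4 : (1.96 : ℝ) ≤ Real.exp (24 / 25) := by
    have := Real.add_one_le_exp (24 / 25 : ℝ)
    linarith
  calc (117000 : ℝ) ≤ (2.718 : ℝ) ^ 11 * 1.96 := by norm_num
    _ ≤ Real.exp 1 ^ 11 * Real.exp (24 / 25) :=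
      mul_le_mul h3 h4 (by norm_num) (pow_nonneg (Real.exp_pos _).le _)

/-- exponential growth -/
private theorem ptAS_grow {L : ℝ} (hL : 400 ≤ L) :
    (117000 : ℝ) * (L / 400) ^ 2 ≤ Real.exp (299 / 10000 * L) := by
  have h1 : 299 / 10000 * L = 299 / 25 + 299 / 25 * (L / 400 - 1) := by ring
  have hx : 0 ≤ L / 400 - 1 := by linarith
  have h2 : (L / 400) ^ 2 ≤ Real.exp (299 / 25 * (L / 400 - 1)) := by
    have h3 : L / 400 ≤ Real.exp (L / 400 - 1) := by
      have := Real.add_one_le_exp (L / 400 - 1)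
      linarith
    have h4 : (L / 400) ^ 2 ≤ Real.exp (L / 400 - 1) ^ 2 := pow_le_pow_left₀ (by linarith) h3 2
    refine h4.trans ?_
    rw [← Real.exp_nat_mul]
    refine Real.exp_le_exp.2 ?_
    push_cast
    exact mul_le_mul_of_nonneg_right (by norm_num) hx
  rw [h1, Real.exp_add]
  exact mul_le_mul ptAS_exp h2 (sq_nonneg _) (Real.exp_pos _).le

theorem ptA_small_aux {c : ℝ} (h : BetaB c) {P : ℕ} (hP : 2 ^ 400 ≤ P) (f : ℕ)
    (j : ℤ) (L y : ℝ) (hL : L = Real.logb 2 P)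
    (hs : (f : ℝ) + 2 < 169 / 625 * L) :
    PsA f j * (L * √L) / (4 * c) ≤ 37 / 2 * (y ^ 2 / L - 1 / 10 + 3 / 40 * (f / L)) -
      (1 / 40 + 37 / 2 * (13 / 80 - 1 / (2 * √L)) ^ 2) + 1 / 40 * TT P f := by
  have hL4 : 400 ≤ L := by rw [hL]; exact logb_ge hP
  have hL0 : 0 < L := by linarith
  have hc := h.ge
  have hc0 := h.pos
  have hf0 : (0 : ℝ) ≤ f := Nat.cast_nonneg f
  obtain ⟨S, hS⟩ : ∃ S, S = √L := ⟨_, rfl⟩
  have hSS : S * S = L := by rw [hS]; exact Real.mul_self_sqrt hL0.le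
  have hS20 : 20 ≤ S := by
    rw [hS]
    exact Real.le_sqrt_of_sq_le (by linarith)
  rw [← hS]
  -- tail
  have hT := TT_ge hP f (by rw [← hL]; linarith)
  rw [← hL] at hT
  have hT2 : Real.exp (446 / 1000) * Real.exp (299 / 10000 * L) ≤ TT P f := by
    refine le_trans ?_ hT
    rw [← Real.exp_add]
    refine Real.exp_le_exp.2 ?_
    linarith
  have hT3 : (1.446 : ℝ) ≤ Real.exp (446 / 1000) := by
    have := Real.add_one_le_exp (446 / 1000 : ℝ)
    linarith
  have hT4 := ptAS_grow hL4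
  have hx1 : (1 : ℝ) ≤ (L / 400) ^ 2 := by
    refine one_le_pow₀ ?_
    linarith
  have hT5 : 169000 * (L / 400) ^ 2 ≤ TT P f := by
    refine le_trans ?_ hT2
    have h1 : (1.446 : ℝ) * (117000 * (L / 400) ^ 2) ≤
        Real.exp (446 / 1000) * Real.exp (299 / 10000 * L) :=
      mul_le_mul hT3 hT4 (by positivity) (Real.exp_pos _).le
    refine le_trans ?_ h1
    linarith
  -- left side
  have hLS : L * S ≤ 8000 * (L / 400) ^ 2 := by
    have h1 : S ≤ L / 20 := by
      have := mul_le_mul_of_nonneg_right hS20 (by linarith : (0 : ℝ) ≤ S)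
      linarith
    have h2 := mul_le_mul_of_nonneg_left h1 hL0.le
    refine h2.trans (le_of_eq ?_)
    ring
  have hLS0 : 0 ≤ L * S := mul_nonneg hL0.le (by linarith)
  have h1 : PsA f j * (L * S) / (4 * c) ≤ (L * S) / (28 / 10) := by
    have h2 : PsA f j * (L * S) ≤ L * S := by
      have := mul_le_mul_of_nonneg_right (ptAS_le_one f j) hLS0
      linarith
    refine (div_le_div_of_nonneg_right h2 (by linarith)).trans ?_
    exact div_le_div_of_nonneg_left hLS0 (by norm_num) (by linarith)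
  have h2 : (L * S) / (28 / 10) ≤ 2858 * (L / 400) ^ 2 := by
    rw [div_le_iff₀ (by norm_num)]
    linarith
  have h3 : 0 ≤ y ^ 2 / L := by positivity
  have h4 : 0 ≤ (f : ℝ) / L := by positivity
  have h5 : (13 / 80 - 1 / (2 * S)) ^ 2 ≤ (13 / 80) ^ 2 := by
    have h6 : 0 < 1 / (2 * S) := by positivity
    have h7 : 1 / (2 * S) ≤ 1 / 40 := by
      refine div_le_div_of_nonneg_left zero_le_one (by norm_num) (by linarith)
    exact pow_le_pow_left₀ (by linarith) (by linarith) 2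
  have h8 : ((13 : ℝ) / 80) ^ 2 = 169 / 6400 := by norm_num
  rw [h8] at h5
  linarith

end Pool.Agent.UniM
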