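import Pool.Agent.UniM.P3LA
import Pool.Agent.UniM.P3LT
import Pool.Agent.UniM.P3LNumA

/-!
# UniM / P3LPtAm: the main case of the pointwise majorant for part (a)

See the header of `P3LPtA`.
-/

set_option autoImplicit false

namespace Pool.Agent.UniM

theorem ptA_main_aux {c : ℝ} (h : BetaB c) {P : ℕ} (hP : 2 ^ 400 ≤ P) (f : ℕ) (hf : 2 ^ f ≤ P)
    (j : ℤ) (L y : ℝ) (hL : L = Real.logb 2 P) (hy : y = (j : ℝ) - f / 2)
    (hs : 169 / 625 * L ≤ (f : ℝ) + 2) :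
    PsA f j * (L * √L) / (4 * c) ≤ 37 / 2 * (y ^ 2 / L - 1 / 10 + 3 / 40 * (f / L)) -
      (1 / 40 + 37 / 2 * (13 / 80 - 1 / (2 * √L)) ^ 2) + 1 / 40 * TT P f := by
  have hPpos : (0 : ℝ) < P := by
    have h1 : 0 < P := lt_of_lt_of_le (by positivity) hP
    exact_mod_cast h1
  have hL400 : 400 ≤ L := by rw [hL]; exact logb_ge hP
  have hLpos : 0 < L := by linarith
  have hfL : (f : ℝ) ≤ L := by
    rw [hL, Real.le_logb_iff_rpow_le (by norm_num) hPpos, Real.rpow_natCast]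
    exact_mod_cast hf
  have hNpos : (0 : ℝ) < (f : ℝ) + 2 := by positivity
  have hf98 : 98 ≤ f := by
    have h1 : (98 : ℝ) ≤ f := by linarith
    exact_mod_cast h1
  obtain ⟨τ, hτdef⟩ : ∃ τ : ℝ, τ = √(((f : ℝ) + 2) / L) := ⟨_, rfl⟩
  have hτ2 : τ ^ 2 = ((f : ℝ) + 2) / L := by
    rw [hτdef]; exact Real.sq_sqrt (by positivity)
  have hN : (f : ℝ) + 2 = τ ^ 2 * L := by
    rw [hτ2]; field_simp
  have hτ0 : 0 ≤ τ := by rw [hτdef]; exact Real.sqrt_nonneg _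
  have hτ1 : 13 / 25 ≤ τ := by
    rw [hτdef]
    apply Real.le_sqrt_of_sq_le
    rw [le_div_iff₀ hLpos]
    linarith
  have hτpos : 0 < τ := by linarith
  have hτu : τ ≤ 401 / 400 := by
    rw [hτdef]
    apply Real.sqrt_le_iff.2
    refine ⟨by norm_num, ?_⟩
    rw [div_le_iff₀ hLpos]
    linarith
  obtain ⟨s, hsdef⟩ : ∃ s : ℝ, s = √L := ⟨_, rfl⟩
  have hs2 : s ^ 2 = L := by rw [hsdef]; exact Real.sq_sqrt hLpos.le
  have hs20 : 20 ≤ s := by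
    rw [hsdef]
    apply Real.le_sqrt_of_sq_le
    linarith
  have hspos : 0 < s := by linarith
  have hsqN : √((f : ℝ) + 2) = τ * s := by
    rw [hN, Real.sqrt_mul (by positivity), Real.sqrt_sq hτ0, hsdef]
  obtain ⟨u, hu⟩ : ∃ u : ℝ, u = 4 * y ^ 2 / ((f : ℝ) + 2) := ⟨_, rfl⟩
  have hu0 : 0 ≤ u := by rw [hu]; positivity
  have hPs := PsA_le h f j hf98 y u hy hu
  have hc := h.pos
  have hT0 := TT_nonneg P f
  have hnum := numA τ u (TT P f) hτ1 hτu hu0 hT0 (by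
    intro h1
    apply TT_ge' hP f τ
    · rw [← hL]; exact hN
    · nlinarith)
  rw [← hsdef]
  obtain ⟨φ, hφ⟩ : ∃ φ : ℝ, φ = (u - 1) * Real.exp (-u / 2) := ⟨_, rfl⟩
  rw [← hφ] at hPs hnum
  -- multiply
  have e1 : PsA f j * (L * s) / (4 * c) ≤ (φ + 3 / (2 * (τ ^ 2 * L))) / τ ^ 3 := by
    have h1 : PsA f j * (L * s) / (4 * c) ≤
        (4 * c / (((f : ℝ) + 2) * √((f : ℝ) + 2)) * (φ + 3 / (2 * ((f : ℝ) + 2)))) * (L * s) / (4 * c) := by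
      apply div_le_div_of_nonneg_right _ (by positivity)
      exact mul_le_mul_of_nonneg_right hPs (by positivity)
    refine h1.trans (le_of_eq ?_)
    rw [hsqN, hN]
    field_simp
  have huu : τ ^ 2 * u = 4 * y ^ 2 / L := by
    rw [hu, hN]
    field_simp
  have e2 : φ / τ ^ 3 ≤ 37 / 8 * (4 * y ^ 2 / L) - 30253 / 12800 + 111 / 80 * τ ^ 2 + 1 / 40 * TT P f := by
    rw [div_le_iff₀ (by positivity)]
    rw [← huu]
    nlinarith [hnum]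
  have e3 : (1 : ℝ) / τ ^ 5 ≤ 264 / 10 := by
    rw [div_le_iff₀ (by positivity)]
    have h5 : (13 / 25 : ℝ) ^ 5 ≤ τ ^ 5 := pow_le_pow_left₀ (by norm_num) hτ1 5
    have h6 : (1 : ℝ) ≤ 264 / 10 * (13 / 25 : ℝ) ^ 5 := by norm_num
    linarith
  have e4 : (3 / (2 * (τ ^ 2 * L))) / τ ^ 3 = 3 / 2 * (1 / τ ^ 5) * (1 / L) := by
    field_simp
  have e5 : (φ + 3 / (2 * (τ ^ 2 * L))) / τ ^ 3 = φ / τ ^ 3 + 3 / 2 * (1 / τ ^ 5) * (1 / L) := by
    rw [add_div, e4]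
  obtain ⟨r, hr⟩ : ∃ r : ℝ, r = 1 / s := ⟨_, rfl⟩
  have hr2 : 1 / L = r ^ 2 := by
    rw [hr, ← hs2]; field_simp
  have hr20 : r ≤ 1 / 20 := by
    rw [hr]
    exact one_div_le_one_div_of_le (by norm_num) hs20
  have hr0 : 0 < r := by rw [hr]; positivity
  have e6 : 1 / (2 * s) = r / 2 := by rw [hr]; field_simp
  have e7 : τ ^ 2 = (f : ℝ) / L + 2 * r ^ 2 := by
    rw [hτ2, ← hr2]; ring
  have e8 : 3 / 2 * (1 / τ ^ 5) * (1 / L) ≤ 3 / 2 * (264 / 10) * r ^ 2 := by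
    rw [hr2]
    apply mul_le_mul_of_nonneg_right _ (by positivity)
    linarith
  rw [e6]
  rw [e5] at e1
  rw [e7] at e2
  have e9 : 4 * y ^ 2 / L = 4 * (y ^ 2 / L) := by ring
  rw [e9] at e2
  nlinarith [e1, e2, e8, mul_le_mul_of_nonneg_left hr20 hr0.le]

end Pool.Agent.UniM
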