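import Pool.Agent.UniM.P3LA
import Pool.Agent.UniM.P3LT
import Pool.Agent.UniM.P3LNumA
import Pool.Agent.UniM.P3LPtAm
import Pool.Agent.UniM.P3LPtAS

/-!
# UniM / P3LPtA: pointwise majorant for part (a)

`L ≥ 400`, `N = f + 2 = τ² L`, `τ² ≤ 1 + 2/L ≤ 1.005`.
Case `τ < 13/25`: `PsA ≤ 1`, `4 c ≥ 2.8`, `TT ≥ 1.56 exp (0.0299 L)` (from `TT_ge`, `f ≤ .2704 L - 2`) and
`0.039 exp (0.0299 L) ≥ L √L / 2.8 + 2.4` (at `L = 400`: `6100 ≥ 2860`).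
Case `τ ≥ 13/25`: `f ≥ 98`; `PsA_le` times `L √L / (4c)`: `τ⁻³ (φ(u) + 3/(2N))`, `u = 4y²/N`;
`numA` divided by `τ³` (with `37/8 τ² u = 37/2 y²/L`):
`τ⁻³ φ(u) ≤ 37/2 y²/L - 30253/12800 + 111/80 τ² + TT/40`, `111/80 τ² = 111/80 f/L + 111/(40 L)`;
with `s = 1/√L ≤ 1/20`: `37/2 (13/80 - s/2)² = 37/2 (13/80)² - 481/160 s + 37/8 s²` and
`111/40 s² + 3/2 τ⁻⁵ s² + 37/8 s² ≤ 481/160 s` as `τ⁻⁵ ≤ 26.4`.
-/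

set_option autoImplicit false

namespace Pool.Agent.UniM

theorem ptA_small {c : ℝ} (h : BetaB c) {P : ℕ} (hP : 2 ^ 400 ≤ P) (f : ℕ) (hf : 2 ^ f ≤ P)
    (j : ℤ) (L y : ℝ) (hL : L = Real.logb 2 P) (hy : y = (j : ℝ) - f / 2)
    (hs : (f : ℝ) + 2 < 169 / 625 * L) :
    PsA f j * (L * √L) / (4 * c) ≤ 37 / 2 * (y ^ 2 / L - 1 / 10 + 3 / 40 * (f / L)) -
      (1 / 40 + 37 / 2 * (13 / 80 - 1 / (2 * √L)) ^ 2) + 1 / 40 * TT P f := by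
  exact ptA_small_aux h hP f j L y hL hs

theorem ptA_main {c : ℝ} (h : BetaB c) {P : ℕ} (hP : 2 ^ 400 ≤ P) (f : ℕ) (hf : 2 ^ f ≤ P)
    (j : ℤ) (L y : ℝ) (hL : L = Real.logb 2 P) (hy : y = (j : ℝ) - f / 2)
    (hs : 169 / 625 * L ≤ (f : ℝ) + 2) :
    PsA f j * (L * √L) / (4 * c) ≤ 37 / 2 * (y ^ 2 / L - 1 / 10 + 3 / 40 * (f / L)) -
      (1 / 40 + 37 / 2 * (13 / 80 - 1 / (2 * √L)) ^ 2) + 1 / 40 * TT P f :=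
  ptA_main_aux h hP f hf j L y hL hy hs

theorem ptA {c : ℝ} (h : BetaB c) {P : ℕ} (hP : 2 ^ 400 ≤ P) (f : ℕ) (hf : 2 ^ f ≤ P)
    (j : ℤ) (L y : ℝ) (hL : L = Real.logb 2 P) (hy : y = (j : ℝ) - f / 2) :
    PsA f j * (L * √L) / (4 * c) ≤ 37 / 2 * (y ^ 2 / L - 1 / 10 + 3 / 40 * (f / L)) -
      (1 / 40 + 37 / 2 * (13 / 80 - 1 / (2 * √L)) ^ 2) + 1 / 40 * TT P f := by
  rcases lt_or_ge ((f : ℝ) + 2) (169 / 625 * L) with hs | hs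
  · exact ptA_small h hP f hf j L y hL hy hs
  · exact ptA_main h hP f hf j L y hL hy hs

end Pool.Agent.UniM
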