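import Pool.Agent.UniM.Struct
import Pool.Agent.UniM.BT

/-!
# UniM / RT: decomposition of a forest into rooted trees

`RTree G U r t`: the finite set `U` with root `r ∈ U` is a rooted tree of shape `t` (all edges of `G[U]` are
those of the tree). `rtree_attach`: attaching a new vertex `v ∉ U`, whose only neighbour in `U` is `u`, gives
again a rooted tree with the same root: induction on `RTree`; single: `join leaf leaf`; join of `(U, r, a)` and
`(U', c, b)`: if `u ∈ U` attach `v` to `a` (`v` has no neighbour in `U'`), if `u ∈ U'` attach `v` to `b` (with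
root `c` unchanged); check that the only edge between the two parts is still `r c`
(`insert v U ∪ U' = insert v (U ∪ U')`).

`FList G U L`: `U` is a disjoint union, without edges in between, of rooted trees whose list of shapes is `L`,
with given parts. `flist_exists`: strong induction on `U.card`, `exists_leaf`: isolated `v`: one more tree
`leaf`; leaf `v` with neighbour `u`: `u` is in one of the trees of `U.erase v`; attach `v` to it. It may be
convenient to prove first: if `FList G U L` and `u ∈ U`, `v ∉ U`, `u` the only neighbour of `v` in `U`, then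
`∃ L', FList G (insert v U) L'` by induction on `FList`.
-/

namespace Pool.Agent.UniM

variable {V : Type*} [DecidableEq V]

/-- rooted trees in a graph -/
inductive RTree (G : SimpleGraph V) : Finset V → V → BT → Prop
  | single (r : V) : RTree G {r} r BT.leaf
  | join {U U' : Finset V} {r c : V} {a b : BT} : RTree G U r a → RTree G U' c b → Disjoint U U' →
      G.Adj r c → (∀ x ∈ U, ∀ y ∈ U', G.Adj x y → x = r ∧ y = c) →
      RTree G (U ∪ U') r (BT.join a b)

/-- forests: lists of rooted trees -/
inductive FList (G : SimpleGraph V) : Finset V → List BT → Prop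
  | nil : FList G ∅ []
  | cons {U U' : Finset V} {r : V} {t : BT} {L : List BT} : RTree G U r t → FList G U' L →
      Disjoint U U' → (∀ x ∈ U, ∀ y ∈ U', ¬ G.Adj x y) → FList G (U ∪ U') (t :: L)

variable {G : SimpleGraph V}

theorem rtree_root {U : Finset V} {r : V} {t : BT} (h : RTree G U r t) : r ∈ U := by
  induction h with
  | single r => exact Finset.mem_singleton_self r
  | join _ _ _ _ _ ha _ => exact Finset.mem_union_left _ ha

theorem rtree_attach {U : Finset V} {r : V} {t : BT} (h : RTree G U r t) {v u : V} (hv : v ∉ U)
    (hu : u ∈ U) (hvu : G.Adj v u) (hn : ∀ x ∈ U, G.Adj v x → x = u) :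
    ∃ t', RTree G (insert v U) r t' := by
  induction h with
  | single r =>
    have hur : u = r := Finset.mem_singleton.1 hu
    subst hur
    refine ⟨BT.join BT.leaf BT.leaf, ?_⟩
    have e : insert v ({u} : Finset V) = {u} ∪ {v} := by
      rw [Finset.insert_eq, Finset.union_comm]
    rw [e]
    refine RTree.join (RTree.single u) (RTree.single v) ?_ hvu.symm ?_
    · rw [Finset.disjoint_singleton]
      intro hc
      exact hv (Finset.mem_singleton.2 hc.symm)
    · intro x hx y hy _
      exact ⟨Finset.mem_singleton.1 hx, Finset.mem_singleton.1 hy⟩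
  | @join U U' r c a b ha hb hd hrc hcond iha ihb =>
    have hvU : v ∉ U := fun hc => hv (Finset.mem_union_left _ hc)
    have hvU' : v ∉ U' := fun hc => hv (Finset.mem_union_right _ hc)
    rcases Finset.mem_union.1 hu with hu1 | hu1
    · obtain ⟨t', ht'⟩ := iha hvU hu1 (fun x hx hx' => hn x (Finset.mem_union_left _ hx) hx')
      refine ⟨BT.join t' b, ?_⟩
      rw [← Finset.insert_union]
      refine RTree.join ht' hb ?_ hrc ?_
      · rw [Finset.disjoint_insert_left]
        exact ⟨hvU', hd⟩
      · intro x hx y hy hxy
        rcases Finset.mem_insert.1 hx with rfl | hx'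
        · exfalso
          have hyu := hn y (Finset.mem_union_right _ hy) hxy
          subst hyu
          exact Finset.disjoint_left.1 hd hu1 hy
        · exact hcond x hx' y hy hxy
    · obtain ⟨t', ht'⟩ := ihb hvU' hu1 (fun x hx hx' => hn x (Finset.mem_union_right _ hx) hx')
      refine ⟨BT.join a t', ?_⟩
      rw [← Finset.union_insert]
      refine RTree.join ha ht' ?_ hrc ?_
      · rw [Finset.disjoint_insert_right]
        exact ⟨hvU, hd⟩
      · intro x hx y hy hxy
        rcases Finset.mem_insert.1 hy with rfl | hy'
        · exfalso
          have hxu := hn x (Finset.mem_union_left _ hx) hxy.symm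
          subst hxu
          exact Finset.disjoint_left.1 hd hx hu1
        · exact hcond x hx y hy' hxy

private theorem flist_attach {U : Finset V} {L : List BT} (h : FList G U L) {v u : V} (hv : v ∉ U)
    (hu : u ∈ U) (hvu : G.Adj v u) (hn : ∀ x ∈ U, G.Adj v x → x = u) :
    ∃ L', FList G (insert v U) L' := by
  induction h with
  | nil => exact absurd hu (Finset.notMem_empty u)
  | @cons U U' r t L ht hl hd hne ih =>
    have hvU : v ∉ U := fun hc => hv (Finset.mem_union_left _ hc)
    have hvU' : v ∉ U' := fun hc => hv (Finset.mem_union_right _ hc)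
    rcases Finset.mem_union.1 hu with hu1 | hu1
    · obtain ⟨t', ht'⟩ := rtree_attach ht hvU hu1 hvu
        (fun x hx hx' => hn x (Finset.mem_union_left _ hx) hx')
      refine ⟨t' :: L, ?_⟩
      rw [← Finset.insert_union]
      refine FList.cons ht' hl ?_ ?_
      · rw [Finset.disjoint_insert_left]
        exact ⟨hvU', hd⟩
      · intro x hx y hy hxy
        rcases Finset.mem_insert.1 hx with rfl | hx'
        · have hyu := hn y (Finset.mem_union_right _ hy) hxy
          subst hyu
          exact Finset.disjoint_left.1 hd hu1 hy
        · exact hne x hx' y hy hxy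
    · obtain ⟨L', hL'⟩ := ih hvU' hu1 (fun x hx hx' => hn x (Finset.mem_union_right _ hx) hx')
      refine ⟨t :: L', ?_⟩
      rw [← Finset.union_insert]
      refine FList.cons ht hL' ?_ ?_
      · rw [Finset.disjoint_insert_right]
        exact ⟨hvU, hd⟩
      · intro x hx y hy hxy
        rcases Finset.mem_insert.1 hy with rfl | hy'
        · have hxu := hn x (Finset.mem_union_left _ hx) hxy.symm
          subst hxu
          exact Finset.disjoint_left.1 hd hx hu1
        · exact hne x hx y hy' hxy

private theorem flist_aux (hG : G.IsAcyclic) (n : ℕ) : ∀ U : Finset V, U.card = n →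
    ∃ L : List BT, FList G U L := by
  induction n with
  | zero =>
    intro U hU
    rw [Finset.card_eq_zero] at hU
    subst hU
    exact ⟨[], FList.nil⟩
  | succ n ih =>
    intro U hU
    have hne : U.Nonempty := by
      rw [← Finset.card_pos, hU]
      exact Nat.succ_pos n
    obtain ⟨v, hvU, hv⟩ := exists_leaf hG hne
    have hcard : (U.erase v).card = n := by
      rw [Finset.card_erase_of_mem hvU, hU]
      rfl
    obtain ⟨L, hL⟩ := ih (U.erase v) hcard
    have hins : insert v (U.erase v) = U := Finset.insert_erase hvU
    rcases hv with hv | ⟨u, huU, hvu, hn⟩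
    · refine ⟨BT.leaf :: L, ?_⟩
      have e : U = {v} ∪ U.erase v := by rw [← Finset.insert_eq, hins]
      rw [e]
      refine FList.cons (RTree.single v) hL ?_ ?_
      · rw [Finset.disjoint_singleton_left]
        exact Finset.notMem_erase v U
      · intro x hx y hy
        rw [Finset.mem_singleton.1 hx]
        exact hv y (Finset.mem_of_mem_erase hy)
    · obtain ⟨L', hL'⟩ := flist_attach hL (Finset.notMem_erase v U)
        (Finset.mem_erase.2 ⟨hvu.ne', huU⟩) hvu (fun x hx hx' => hn x (Finset.mem_of_mem_erase hx) hx')
      rw [hins] at hL'
      exact ⟨L', hL'⟩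

theorem flist_exists (hG : G.IsAcyclic) (U : Finset V) : ∃ L : List BT, FList G U L :=
  flist_aux hG U.card U rfl

end Pool.Agent.UniM
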