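import Pool.Agent.UniM.Defs

/-!
# UniM / Rec: recursion at a vertex

Everything follows from `SS_rec`: for `v ∈ U` the independent subsets of `U` which do not contain `v` are
those of `U.erase v`, and those which contain `v` are the sets `insert v s`, `s` an independent subset of
`del G U v` (`Finset.sum_bij` or split `ind G U` by `v ∈ s`; `s.erase v` is the inverse map;
`card (insert v s) = card s + 1`). `PP` is `SS` of the constant `1`, `ik` is `SS` of the indicator of `k`.
`ind_mono`: an independent subset of `U'` is one of `U`.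
-/

set_option linter.unusedSectionVars false

namespace Pool.Agent.UniM

variable {V : Type*} [DecidableEq V] {G : SimpleGraph V}

theorem ind_empty : ind G ∅ = {∅} := by
  ext s
  rw [mem_ind, Finset.mem_singleton, Finset.subset_empty]
  constructor
  · exact fun h => h.1
  · rintro rfl
    refine ⟨rfl, ?_⟩
    rw [Finset.coe_empty]
    exact Set.pairwise_empty _

theorem ind_mono {U U' : Finset V} (h : U' ⊆ U) : ind G U' ⊆ ind G U := by
  intro s hs
  rw [mem_ind] at hs ⊢
  exact ⟨hs.1.trans h, hs.2⟩

theorem empty_mem_ind (U : Finset V) : ∅ ∈ ind G U := by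
  rw [mem_ind]
  refine ⟨Finset.empty_subset _, ?_⟩
  rw [Finset.coe_empty]
  exact Set.pairwise_empty _

theorem PP_pos (U : Finset V) : 0 < PP G U := Finset.card_pos.2 ⟨∅, empty_mem_ind U⟩

theorem PP_empty : PP G ∅ = 1 := by
  unfold PP
  rw [ind_empty, Finset.card_singleton]

theorem PP_mono {U U' : Finset V} (h : U' ⊆ U) : PP G U' ≤ PP G U :=
  Finset.card_le_card (ind_mono h)

private theorem notMem_del_ind {U : Finset V} {v : V} {s : Finset V} (hs : s ∈ ind G (del G U v)) :
    v ∉ s := by
  intro hv
  exact (mem_del.1 ((mem_ind.1 hs).1 hv)).2.1 rfl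

private theorem ind_split {U : Finset V} {v : V} (hv : v ∈ U) :
    ind G U = ind G (U.erase v) ∪ (ind G (del G U v)).image (insert v) := by
  ext s
  rw [Finset.mem_union, Finset.mem_image]
  constructor
  · intro hs
    have hs1 := mem_ind.1 hs
    by_cases hvs : v ∈ s
    · right
      refine ⟨s.erase v, ?_, Finset.insert_erase hvs⟩
      rw [mem_ind]
      constructor
      · intro x hx
        rw [Finset.mem_erase] at hx
        rw [mem_del]
        refine ⟨hs1.1 hx.2, hx.1, ?_⟩
        exact hs1.2 (Finset.mem_coe.2 hvs) (Finset.mem_coe.2 hx.2) (Ne.symm hx.1)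
      · exact hs1.2.mono (by rw [Finset.coe_erase]; exact Set.sdiff_subset)
    · left
      rw [mem_ind]
      refine ⟨?_, hs1.2⟩
      intro x hx
      rw [Finset.mem_erase]
      exact ⟨fun h => hvs (h ▸ hx), hs1.1 hx⟩
  · rintro (hs | ⟨t, ht, rfl⟩)
    · exact ind_mono (Finset.erase_subset _ _) hs
    · have ht1 := mem_ind.1 ht
      rw [mem_ind]
      constructor
      · intro x hx
        rw [Finset.mem_insert] at hx
        rcases hx with rfl | hx
        · exact hv
        · exact del_subset (ht1.1 hx)
      · rw [Finset.coe_insert]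
        have key : ∀ x ∈ t, ¬ G.Adj v x := fun x hx => (mem_del.1 (ht1.1 hx)).2.2
        intro a ha b hb hab
        rw [Set.mem_insert_iff, Finset.mem_coe] at ha hb
        rcases ha with rfl | ha
        · rcases hb with rfl | hb
          · exact absurd rfl hab
          · exact key b hb
        · rcases hb with rfl | hb
          · exact fun h => key a ha h.symm
          · exact ht1.2 (Finset.mem_coe.2 ha) (Finset.mem_coe.2 hb) hab

private theorem ind_disj {U : Finset V} {v : V} :
    Disjoint (ind G (U.erase v)) ((ind G (del G U v)).image (insert v)) := by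
  rw [Finset.disjoint_left]
  intro s hs hs'
  rw [Finset.mem_image] at hs'
  obtain ⟨t, _, rfl⟩ := hs'
  have := (mem_ind.1 hs).1 (Finset.mem_insert_self v t)
  exact Finset.notMem_erase v U this

private theorem insert_injOn {U : Finset V} {v : V} :
    ∀ s ∈ ind G (del G U v), ∀ t ∈ ind G (del G U v), insert v s = insert v t → s = t := by
  intro s hs t ht h
  rw [← Finset.erase_insert (notMem_del_ind hs), ← Finset.erase_insert (notMem_del_ind ht), h]

/-- recursion for sums of arbitrary functions of the set -/
theorem sum_ind_rec {U : Finset V} {v : V} (hv : v ∈ U) (Φ : Finset V → ℝ) :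
    ∑ s ∈ ind G U, Φ s = ∑ s ∈ ind G (U.erase v), Φ s + ∑ s ∈ ind G (del G U v), Φ (insert v s) := by
  rw [ind_split hv, Finset.sum_union ind_disj]
  congr 1
  exact Finset.sum_image (fun s hs t ht h => insert_injOn s hs t ht h)

theorem SS_rec {U : Finset V} {v : V} (hv : v ∈ U) (φ : ℕ → ℝ) :
    SS G U φ = SS G (U.erase v) φ + SS G (del G U v) (fun n => φ (n + 1)) := by
  unfold SS
  rw [sum_ind_rec hv (fun s => φ s.card)]
  congr 1
  refine Finset.sum_congr rfl (fun s hs => ?_)
  rw [Finset.card_insert_of_notMem (notMem_del_ind hs)]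

theorem SS_empty (φ : ℕ → ℝ) : SS G ∅ φ = φ 0 := by
  unfold SS
  rw [ind_empty, Finset.sum_singleton, Finset.card_empty]

theorem SS_add (U : Finset V) (φ ψ : ℕ → ℝ) :
    SS G U (fun n => φ n + ψ n) = SS G U φ + SS G U ψ := by
  unfold SS
  exact Finset.sum_add_distrib

theorem SS_smul (U : Finset V) (c : ℝ) (φ : ℕ → ℝ) :
    SS G U (fun n => c * φ n) = c * SS G U φ := by
  unfold SS
  rw [Finset.mul_sum]

theorem PP_eq_SS (U : Finset V) : (PP G U : ℝ) = SS G U (fun _ => 1) := by
  unfold SS PP
  simp

theorem ik_eq_SS (U : Finset V) (k : ℕ) :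
    (ik G U k : ℝ) = SS G U (fun n => if n = k then 1 else 0) := by
  unfold SS ik
  rw [Finset.card_filter]
  push_cast
  rfl

theorem PP_rec {U : Finset V} {v : V} (hv : v ∈ U) :
    PP G U = PP G (U.erase v) + PP G (del G U v) := by
  have h := SS_rec (G := G) hv (fun _ => 1)
  rw [← PP_eq_SS, ← PP_eq_SS, ← PP_eq_SS] at h
  exact_mod_cast h

theorem ik_zero (U : Finset V) : ik G U 0 = 1 := by
  unfold ik
  rw [Finset.card_eq_one]
  refine ⟨∅, ?_⟩
  ext s
  rw [Finset.mem_filter, Finset.mem_singleton, Finset.card_eq_zero]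
  constructor
  · exact fun h => h.2
  · rintro rfl
    exact ⟨empty_mem_ind U, rfl⟩

theorem ik_rec {U : Finset V} {v : V} (hv : v ∈ U) (k : ℕ) :
    ik G U (k + 1) = ik G (U.erase v) (k + 1) + ik G (del G U v) k := by
  have h := SS_rec (G := G) hv (fun n => if n = k + 1 then 1 else 0)
  have h2 : SS G (del G U v) (fun n => (fun n => if n = k + 1 then (1 : ℝ) else 0) (n + 1)) =
      SS G (del G U v) (fun n => if n = k then 1 else 0) := by
    congr 1
    funext n
    by_cases hn : n = k
    · simp [hn]
    · simp [hn]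
  rw [h2, ← ik_eq_SS, ← ik_eq_SS, ← ik_eq_SS] at h
  exact_mod_cast h

theorem ik_large {U : Finset V} {k : ℕ} (h : U.card < k) : ik G U k = 0 := by
  unfold ik
  rw [Finset.card_eq_zero, Finset.filter_eq_empty_iff]
  intro s hs hk
  have := Finset.card_le_card (mem_ind.1 hs).1
  omega

end Pool.Agent.UniM
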