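import Pool.Agent.UniM.Mom
import Pool.Agent.Hhelper46.Forest.Graph

/-!
# UniM / Struct: rooted structure of a forest, leaves

`exists_par` is `Pool.Agent.Hhelper46.Forest.GraphAux.exists_parent_rank` (the edges are exactly the
pairs `p u = some v`). `exists_leaf`: take `v ∈ U` with the largest rank; a neighbour `x ∈ U` of `v` is
its parent, because `p x = some v` would give `rk v < rk x`. So `v` has no neighbour in `U`, or exactly
one, its parent. `exists_leaf_edge`: the same among the vertices of `U` which have a neighbour in `U`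
(if `x` is a neighbour of such a `v` then `x` is one of them too).
`del_of_isolated`, `del_leaf`, `del_hub`: extensionality (`mem_del`).
-/

namespace Pool.Agent.UniM

variable {V : Type*} {G : SimpleGraph V}

theorem exists_par (hG : G.IsAcyclic) : ∃ (p : V → Option V) (rk : V → ℕ), Par G p rk := by
  obtain ⟨p, rk, h1, h2, h3⟩ :=
    Pool.Agent.Hhelper46.Forest.GraphAux.exists_parent_rank hG
  refine ⟨p, rk, ⟨fun u v => ⟨h2 u v, ?_⟩, h3⟩⟩
  rintro (h | h)
  · exact h1 u v h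
  · exact (h1 v u h).symm

variable [DecidableEq V]

theorem exists_leaf (hG : G.IsAcyclic) {U : Finset V} (hU : U.Nonempty) :
    ∃ v ∈ U, (∀ x ∈ U, ¬ G.Adj v x) ∨ ∃ u ∈ U, G.Adj v u ∧ ∀ x ∈ U, G.Adj v x → x = u := by
  obtain ⟨p, rk, h⟩ := exists_par hG
  obtain ⟨v, hv, hmax⟩ := Finset.exists_max_image U rk hU
  have key : ∀ x ∈ U, G.Adj v x → p v = some x := by
    intro x hx hadj
    rcases (h.adj v x).1 hadj with h1 | h1
    · exact h1
    · exact absurd (h.lt x v h1) (not_lt.2 (hmax x hx))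
  refine ⟨v, hv, ?_⟩
  by_cases hex : ∃ u ∈ U, G.Adj v u
  · obtain ⟨u, hu, hadj⟩ := hex
    refine Or.inr ⟨u, hu, hadj, fun x hx hx' => ?_⟩
    have h1 := key x hx hx'
    rw [key u hu hadj] at h1
    exact (Option.some.inj h1).symm
  · refine Or.inl fun x hx hadj => hex ⟨x, hx, hadj⟩

/-- if `G[U]` has an edge then it has a leaf `v` with a neighbour `u` -/
theorem exists_leaf_edge (hG : G.IsAcyclic) {U : Finset V} (hU : ∃ a ∈ U, ∃ b ∈ U, G.Adj a b) :
    ∃ v ∈ U, ∃ u ∈ U, G.Adj v u ∧ ∀ x ∈ U, G.Adj v x → x = u := by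
  classical
  obtain ⟨p, rk, h⟩ := exists_par hG
  obtain ⟨a, ha, b, hb, hab⟩ := hU
  have hne : (U.filter (fun v => ∃ x ∈ U, G.Adj v x)).Nonempty :=
    ⟨a, Finset.mem_filter.2 ⟨ha, b, hb, hab⟩⟩
  obtain ⟨v, hv, hmax⟩ := Finset.exists_max_image _ rk hne
  obtain ⟨hvU, u, hu, hadj⟩ := Finset.mem_filter.1 hv
  have key : ∀ x ∈ U, G.Adj v x → p v = some x := by
    intro x hx hadj
    rcases (h.adj v x).1 hadj with h1 | h1
    · exact h1
    · exact absurd (h.lt x v h1)
        (not_lt.2 (hmax x (Finset.mem_filter.2 ⟨hx, v, hvU, hadj.symm⟩)))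
  refine ⟨v, hvU, u, hu, hadj, fun x hx hx' => ?_⟩
  have h1 := key x hx hx'
  rw [key u hu hadj] at h1
  exact (Option.some.inj h1).symm

theorem del_of_isolated {U : Finset V} {v : V} (h : ∀ x ∈ U, ¬ G.Adj v x) :
    del G U v = U.erase v := by
  ext x
  rw [mem_del, Finset.mem_erase]
  constructor
  · rintro ⟨h1, h2, _⟩
    exact ⟨h2, h1⟩
  · rintro ⟨h1, h2⟩
    exact ⟨h2, h1, h x h2⟩

/-- for a leaf `v` with neighbour `u` -/
theorem del_leaf {U : Finset V} {v u : V} (hvu : G.Adj v u) (h : ∀ x ∈ U, G.Adj v x → x = u) :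
    del G U v = (U.erase v).erase u := by
  ext x
  rw [mem_del, Finset.mem_erase, Finset.mem_erase]
  constructor
  · rintro ⟨h1, h2, h3⟩
    refine ⟨?_, h2, h1⟩
    rintro rfl
    exact h3 hvu
  · rintro ⟨h1, h2, h3⟩
    exact ⟨h3, h2, fun h4 => h1 (h x h3 h4)⟩

/-- for a leaf `v` with neighbour `u` -/
theorem del_hub {U : Finset V} {v u : V} (hvu : G.Adj v u) :
    del G U u = del G (U.erase v) u := by
  ext x
  rw [mem_del, mem_del, Finset.mem_erase]
  constructor
  · rintro ⟨h1, h2, h3⟩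
    refine ⟨⟨?_, h1⟩, h2, h3⟩
    rintro rfl
    exact h3 hvu.symm
  · rintro ⟨⟨_, h1⟩, h2, h3⟩
    exact ⟨h1, h2, h3⟩

end Pool.Agent.UniM
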