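import Pool.Agent.UniM.LawMk

/-!
# UniM / Use: local statements about the sequence, from the coin law and P3

`P = PP G U`. For `k : ℕ` put `j i = k - s i : ℤ`. Then `y i = j i + 1/2 - f i / 2 = k + 1/2 - (s i + f i / 2)`
has mean `k + 1/2 - mu` and `∑ p y^2 = (k+1/2)^2 - 2 (k+1/2) mu + ∑ p (s + f/2)^2`, so `VarHyp` is the field
`var`. `∑ p PsB (f i) (j i) = (ik k - ik (k+1)) / P` (`size`). This is `use_b`.
`use_b'` (lower side): use `j' i = f i - 1 - (k - s i)`; then `PsB (f i) (j' i) = (ch f (j+1) - ch f j) / 2 ^ f`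
(`ch_symm`) and `y' i = - y i`.
`use_a`: `j i = k + 1 - s i`, `∑ p PsA = (ik (k+2) - 2 ik (k+1) + ik k) / P`.
-/

namespace Pool.Agent.UniM

variable {V : Type*} [DecidableEq V] {G : SimpleGraph V}

private theorem use_sum1 {U : Finset V} {n : ℕ} {p : Fin n → ℝ}
    {s f : Fin n → ℕ} (h : CoinLaw G U n p s f) (c : ℝ) :
    ∑ i, p i * (c - ((s i : ℝ) + f i / 2)) = c - mu G U := by
  have h1 : ∀ i, p i * (c - ((s i : ℝ) + f i / 2)) = p i * c - p i * ((s i : ℝ) + f i / 2) := by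
    intro i; ring
  simp_rw [h1]
  rw [Finset.sum_sub_distrib, h.mean, ← Finset.sum_mul, h.law.sum, one_mul]

private theorem use_sum2 {U : Finset V} {n : ℕ} {p : Fin n → ℝ}
    {s f : Fin n → ℕ} (h : CoinLaw G U n p s f) (c : ℝ) :
    ∑ i, p i * (c - ((s i : ℝ) + f i / 2)) ^ 2 =
      c ^ 2 - 2 * c * mu G U + ∑ i, p i * ((s i : ℝ) + f i / 2) ^ 2 := by
  have h1 : ∀ i, p i * (c - ((s i : ℝ) + f i / 2)) ^ 2 =
      p i * c ^ 2 - 2 * c * (p i * ((s i : ℝ) + f i / 2)) +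
        p i * ((s i : ℝ) + f i / 2) ^ 2 := by
    intro i; ring
  simp_rw [h1]
  rw [Finset.sum_add_distrib, Finset.sum_sub_distrib, ← Finset.mul_sum, h.mean,
    ← Finset.sum_mul, h.law.sum, one_mul]

private theorem use_var {U : Finset V} {n : ℕ} {p : Fin n → ℝ}
    {s f : Fin n → ℕ} (h : CoinLaw G U n p s f) (c : ℝ) {y : Fin n → ℝ}
    (hy : ∀ i, y i = c - ((s i : ℝ) + f i / 2)) :
    VarHyp (PP G U) p f y := by
  have hy' : y = fun i => c - ((s i : ℝ) + f i / 2) := funext hy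
  subst hy'
  unfold VarHyp
  rw [use_sum2 h c, use_sum1 h c]
  have := h.var
  nlinarith [this]

private theorem use_pos {U : Finset V} (h3 : 3 ≤ PP G U) : (0 : ℝ) < PP G U := by
  have : 0 < PP G U := by omega
  exact_mod_cast this

private theorem use_size {U : Finset V} {n : ℕ} {p : Fin n → ℝ}
    {s f : Fin n → ℕ} (h : CoinLaw G U n p s f) (h3 : 3 ≤ PP G U) (k : ℕ) :
    (ik G U k : ℝ) =
      PP G U * ∑ i, p i * ((ch (f i) ((k : ℤ) - s i) : ℝ) / 2 ^ f i) := by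
  rw [← h.size k]
  have := use_pos h3
  field_simp

theorem use_a {w : ℕ → ℝ} (hw : P3Holds w) {U : Finset V} {n : ℕ} {p : Fin n → ℝ}
    {s f : Fin n → ℕ} (h : CoinLaw G U n p s f) (h3 : 3 ≤ PP G U) {k : ℕ}
    (hk : |(k : ℝ) + 1 - mu G U| ≤ w (PP G U) - 1 / 2) :
    ik G U (k + 2) + ik G U k ≤ 2 * ik G U (k + 1) := by
  have hy : ∀ i, ((((k : ℤ) + 1 - (s i : ℤ) : ℤ) : ℝ) - (f i : ℝ) / 2) =
      ((k : ℝ) + 1) - ((s i : ℝ) + f i / 2) := by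
    intro i; push_cast; ring
  have h1 := hw.a (PP G U) n p f (fun i => (k : ℤ) + 1 - (s i : ℤ)) h3 h.law
    (use_var h ((k : ℝ) + 1) hy) (by
      have : ∑ i, p i * ((((k : ℤ) + 1 - (s i : ℤ) : ℤ) : ℝ) - (f i : ℝ) / 2) =
          (k : ℝ) + 1 - mu G U := by
        rw [← use_sum1 h ((k : ℝ) + 1)]
        exact Finset.sum_congr rfl fun i _ => by rw [hy i]
      rw [this]; exact hk)
  have h2 : (ik G U (k + 2) : ℝ) - 2 * ik G U (k + 1) + ik G U k =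
      PP G U * ∑ i, p i * PsA (f i) ((k : ℤ) + 1 - (s i : ℤ)) := by
    rw [use_size h h3 (k + 2), use_size h h3 (k + 1), use_size h h3 k]
    have e : ∀ i, p i * PsA (f i) ((k : ℤ) + 1 - (s i : ℤ)) =
        p i * ((ch (f i) (((k + 2 : ℕ) : ℤ) - s i) : ℝ) / 2 ^ f i) -
        2 * (p i * ((ch (f i) (((k + 1 : ℕ) : ℤ) - s i) : ℝ) / 2 ^ f i)) +
        p i * ((ch (f i) ((k : ℤ) - s i) : ℝ) / 2 ^ f i) := by
      intro i
      unfold PsA
      have e1 : (k : ℤ) + 1 - (s i : ℤ) + 1 = ((k + 2 : ℕ) : ℤ) - s i := by push_cast; ring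
      have e2 : (k : ℤ) + 1 - (s i : ℤ) - 1 = (k : ℤ) - s i := by ring
      have e3 : (k : ℤ) + 1 - (s i : ℤ) = ((k + 1 : ℕ) : ℤ) - s i := by push_cast; ring
      rw [e1, e2, e3]
      ring
    simp_rw [e]
    rw [Finset.sum_add_distrib, Finset.sum_sub_distrib, ← Finset.mul_sum]
    ring
  have h4 : (ik G U (k + 2) : ℝ) - 2 * ik G U (k + 1) + ik G U k ≤ 0 := by
    rw [h2]
    exact mul_nonpos_of_nonneg_of_nonpos (use_pos h3).le h1
  have h5 : ((ik G U (k + 2) + ik G U k : ℕ) : ℝ) ≤ ((2 * ik G U (k + 1) : ℕ) : ℝ) := by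
    push_cast; linarith
  exact_mod_cast h5

theorem use_b {w : ℕ → ℝ} (hw : P3Holds w) {U : Finset V} {n : ℕ} {p : Fin n → ℝ}
    {s f : Fin n → ℕ} (h : CoinLaw G U n p s f) (h3 : 3 ≤ PP G U) {k : ℕ}
    (hk : w (PP G U) ≤ (k : ℝ) + 1 / 2 - mu G U)
    (hk' : (k : ℝ) + 1 / 2 - mu G U ≤ w (PP G U) + dmax (PP G U)) :
    ik G U (k + 1) ≤ ik G U k := by
  have hy : ∀ i, ((((k : ℤ) - (s i : ℤ) : ℤ) : ℝ) + 1 / 2 - (f i : ℝ) / 2) =
      ((k : ℝ) + 1 / 2) - ((s i : ℝ) + f i / 2) := by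
    intro i; push_cast; ring
  have hs : ∑ i, p i * ((((k : ℤ) - (s i : ℤ) : ℤ) : ℝ) + 1 / 2 - (f i : ℝ) / 2) =
      (k : ℝ) + 1 / 2 - mu G U := by
    rw [← use_sum1 h ((k : ℝ) + 1 / 2)]
    exact Finset.sum_congr rfl fun i _ => by rw [hy i]
  have h1 := hw.b (PP G U) n p f (fun i => (k : ℤ) - (s i : ℤ)) h3 h.law
    (use_var h ((k : ℝ) + 1 / 2) hy) (by rw [hs]; exact hk) (by rw [hs]; exact hk')
  have h2 : (ik G U k : ℝ) - ik G U (k + 1) =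
      PP G U * ∑ i, p i * PsB (f i) ((k : ℤ) - (s i : ℤ)) := by
    rw [use_size h h3 (k + 1), use_size h h3 k]
    have e : ∀ i, p i * PsB (f i) ((k : ℤ) - (s i : ℤ)) =
        p i * ((ch (f i) ((k : ℤ) - s i) : ℝ) / 2 ^ f i) -
        p i * ((ch (f i) (((k + 1 : ℕ) : ℤ) - s i) : ℝ) / 2 ^ f i) := by
      intro i
      unfold PsB
      have e1 : (k : ℤ) - (s i : ℤ) + 1 = ((k + 1 : ℕ) : ℤ) - s i := by push_cast; ring
      rw [e1]
      ring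
    simp_rw [e]
    rw [Finset.sum_sub_distrib]
    ring
  have h4 : 0 ≤ (ik G U k : ℝ) - ik G U (k + 1) := by
    rw [h2]
    exact mul_nonneg (use_pos h3).le h1
  have h5 : (ik G U (k + 1) : ℝ) ≤ (ik G U k : ℝ) := by linarith
  exact_mod_cast h5

theorem use_b' {w : ℕ → ℝ} (hw : P3Holds w) {U : Finset V} {n : ℕ} {p : Fin n → ℝ}
    {s f : Fin n → ℕ} (h : CoinLaw G U n p s f) (h3 : 3 ≤ PP G U) {k : ℕ}
    (hk : w (PP G U) ≤ mu G U - ((k : ℝ) + 1 / 2))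
    (hk' : mu G U - ((k : ℝ) + 1 / 2) ≤ w (PP G U) + dmax (PP G U)) :
    ik G U k ≤ ik G U (k + 1) := by
  have hy : ∀ i, ((((f i : ℤ) - 1 - ((k : ℤ) - (s i : ℤ)) : ℤ) : ℝ) + 1 / 2 - (f i : ℝ) / 2) =
      -(((k : ℝ) + 1 / 2) - ((s i : ℝ) + f i / 2)) := by
    intro i; push_cast; ring
  have hs : ∑ i, p i * ((((f i : ℤ) - 1 - ((k : ℤ) - (s i : ℤ)) : ℤ) : ℝ) + 1 / 2 - (f i : ℝ) / 2) =
      mu G U - ((k : ℝ) + 1 / 2) := by
    have := use_sum1 h ((k : ℝ) + 1 / 2)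
    have e : ∀ i, p i * ((((f i : ℤ) - 1 - ((k : ℤ) - (s i : ℤ)) : ℤ) : ℝ) + 1 / 2 -
        (f i : ℝ) / 2) = -(p i * ((k : ℝ) + 1 / 2 - ((s i : ℝ) + f i / 2))) := by
      intro i; rw [hy i]; ring
    simp_rw [e]
    rw [Finset.sum_neg_distrib, this]
    ring
  have hv : VarHyp (PP G U) p f
      (fun i => ((((f i : ℤ) - 1 - ((k : ℤ) - (s i : ℤ)) : ℤ) : ℝ) + 1 / 2 - (f i : ℝ) / 2)) := by
    have h0 := use_var h ((k : ℝ) + 1 / 2) (y := fun i => (k : ℝ) + 1 / 2 - ((s i : ℝ) + f i / 2))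
      (fun i => rfl)
    unfold VarHyp at h0 ⊢
    rw [hs]
    rw [use_sum1 h] at h0
    have e : ∀ i, p i * ((((f i : ℤ) - 1 - ((k : ℤ) - (s i : ℤ)) : ℤ) : ℝ) + 1 / 2 -
        (f i : ℝ) / 2) ^ 2 = p i * ((k : ℝ) + 1 / 2 - ((s i : ℝ) + f i / 2)) ^ 2 := by
      intro i; rw [hy i]; ring
    simp_rw [e]
    have e2 : (mu G U - ((k : ℝ) + 1 / 2)) ^ 2 = ((k : ℝ) + 1 / 2 - mu G U) ^ 2 := by ring
    rw [e2]
    exact h0
  have h1 := hw.b (PP G U) n p f (fun i => (f i : ℤ) - 1 - ((k : ℤ) - (s i : ℤ))) h3 h.law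
    hv (by rw [hs]; exact hk) (by rw [hs]; exact hk')
  have h2 : (ik G U (k + 1) : ℝ) - ik G U k =
      PP G U * ∑ i, p i * PsB (f i) ((f i : ℤ) - 1 - ((k : ℤ) - (s i : ℤ))) := by
    rw [use_size h h3 (k + 1), use_size h h3 k]
    have e : ∀ i, p i * PsB (f i) ((f i : ℤ) - 1 - ((k : ℤ) - (s i : ℤ))) =
        p i * ((ch (f i) (((k + 1 : ℕ) : ℤ) - s i) : ℝ) / 2 ^ f i) -
        p i * ((ch (f i) ((k : ℤ) - s i) : ℝ) / 2 ^ f i) := by
      intro i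
      unfold PsB
      have e1 : (f i : ℤ) - 1 - ((k : ℤ) - (s i : ℤ)) = (f i : ℤ) - (((k + 1 : ℕ) : ℤ) - s i) := by
        push_cast; ring
      have e2 : (f i : ℤ) - 1 - ((k : ℤ) - (s i : ℤ)) + 1 = (f i : ℤ) - ((k : ℤ) - s i) := by
        ring
      rw [e2, e1, ch_symm, ch_symm]
      ring
    simp_rw [e]
    rw [Finset.sum_sub_distrib]
    ring
  have h4 : 0 ≤ (ik G U (k + 1) : ℝ) - ik G U k := by
    rw [h2]
    exact mul_nonneg (use_pos h3).le h1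
  have h5 : (ik G U k : ℝ) ≤ (ik G U (k + 1) : ℝ) := by linarith
  exact_mod_cast h5

end Pool.Agent.UniM
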